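import Pool.Agent.helper616_RP.Defs

/-!
# Project RP (helper616): primes in almost all short intervals: from `Λ` to `th`
-/

set_option autoImplicit false

open Finset MeasureTheory Filter Topology

namespace Pool.Agent.helper616_RP

namespace J1


theorem E_nonneg (n : ℕ) : 0 ≤ ArithmeticFunction.vonMangoldt n - th n := by
  unfold th
  split_ifs with h
  · rw [ArithmeticFunction.vonMangoldt_apply_prime h, sub_self]
  · rw [sub_zero]
    exact ArithmeticFunction.vonMangoldt_nonneg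

theorem sum_E_le : ∃ C : ℝ, ∀ N : ℕ, ∑ n ∈ Ioc 0 N, (ArithmeticFunction.vonMangoldt n - th n) ≤
    C * √(N : ℝ) := by
  obtain ⟨C, hC⟩ := Chebyshev.psi_sub_theta_le_mul_sqrt
  refine ⟨C, fun N => ?_⟩
  refine le_trans (le_of_eq ?_) (hC N)
  unfold Chebyshev.psi Chebyshev.theta
  rw [Nat.floor_natCast, Finset.sum_sub_distrib, Finset.sum_filter]
  rfl

theorem sum_shift (f : ℕ → ℝ) (u W : ℕ) : ∑ s ∈ Icc 1 W, f (u + s) = ∑ n ∈ Ioc u (u + W), f n := by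
  refine Finset.sum_nbij (fun s => u + s) ?_ ?_ ?_ ?_
  · intro s hs
    have := Finset.mem_Icc.1 hs
    exact Finset.mem_Ioc.2 ⟨by omega, by omega⟩
  · intro s _ t _ h
    have h' : u + s = u + t := h
    omega
  · intro n hn
    have := Finset.mem_Ioc.1 (Finset.mem_coe.1 hn)
    exact ⟨n - u, Finset.mem_coe.2 (Finset.mem_Icc.2 ⟨by omega, by omega⟩), by show u + (n - u) = n; omega⟩
  · intro s _
    rfl

theorem window (E : ℕ → ℝ) (hE : ∀ n, 0 ≤ E n) (X W : ℕ) (hW : W ≤ X) :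
    ∑ u ∈ range X, (∑ s ∈ Icc 1 W, E (u + s)) ^ 2 ≤ (∑ n ∈ Ioc 0 (2 * X), E n) ^ 2 * W := by
  set T := ∑ n ∈ Ioc 0 (2 * X), E n with hT
  have hT0 : 0 ≤ T := Finset.sum_nonneg fun n _ => hE n
  have h1 : ∀ u ∈ range X, ∑ s ∈ Icc 1 W, E (u + s) ≤ T := by
    intro u hu
    rw [sum_shift]
    refine Finset.sum_le_sum_of_subset_of_nonneg ?_ fun n _ _ => hE n
    intro n hn
    have h2 := Finset.mem_Ioc.1 hn
    have h3 := Finset.mem_range.1 hu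
    exact Finset.mem_Ioc.2 ⟨by omega, by omega⟩
  have h2 : ∀ s ∈ Icc 1 W, ∑ u ∈ range X, E (u + s) ≤ T := by
    intro s hs
    have hs' := Finset.mem_Icc.1 hs
    have h3 : ∑ u ∈ range X, E (u + s) = ∑ n ∈ (range X).map (addRightEmbedding s), E n := by
      rw [Finset.sum_map]
      rfl
    rw [h3]
    refine Finset.sum_le_sum_of_subset_of_nonneg ?_ fun n _ _ => hE n
    intro n hn
    obtain ⟨u, hu, rfl⟩ := Finset.mem_map.1 hn
    have h4 := Finset.mem_range.1 hu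
    rw [addRightEmbedding_apply]
    exact Finset.mem_Ioc.2 ⟨by omega, by omega⟩
  calc ∑ u ∈ range X, (∑ s ∈ Icc 1 W, E (u + s)) ^ 2
      ≤ ∑ u ∈ range X, T * ∑ s ∈ Icc 1 W, E (u + s) := by
        refine Finset.sum_le_sum fun u hu => ?_
        rw [pow_two]
        exact mul_le_mul_of_nonneg_right (h1 u hu) (Finset.sum_nonneg fun s _ => hE _)
    _ = T * ∑ s ∈ Icc 1 W, ∑ u ∈ range X, E (u + s) := by
        rw [← Finset.mul_sum, Finset.sum_comm]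
    _ ≤ T * ∑ s ∈ Icc 1 W, T := mul_le_mul_of_nonneg_left (Finset.sum_le_sum h2) hT0
    _ = T ^ 2 * W := by
        rw [Finset.sum_const, Nat.card_Icc, nsmul_eq_mul, Nat.add_sub_cancel]
        ring

theorem var_th (θ : ℝ) (hθ : 1 / 3 < θ) 
    (h : ∀ A : ℕ, ∃ X₀ : ℕ, ∀ X : ℕ, X₀ ≤ X → ∀ W : ℕ, (X : ℝ) ^ θ ≤ W → W ≤ X →
      ∑ u ∈ range X, (∑ n ∈ Ioc u (u + W), (ArithmeticFunction.vonMangoldt n - 1)) ^ 2 ≤
        X * (W : ℝ) ^ 2 / (Real.log X) ^ A) (A : ℕ) :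
    ∃ X₀ : ℕ, ∀ X : ℕ, X₀ ≤ X → ∀ W : ℕ, (X : ℝ) ^ θ ≤ W → W ≤ X →
      ∑ u ∈ range X, (∑ s ∈ Icc 1 W, (th (u + s) - 1)) ^ 2 ≤ X * (W : ℝ) ^ 2 / (Real.log X) ^ A := by
  obtain ⟨C, hC⟩ := sum_E_le
  obtain ⟨X₁, hX₁⟩ := h (A + 1)
  have e1 : ∀ᶠ X : ℕ in atTop, 4 ≤ Real.log X :=
    (Real.tendsto_log_atTop.comp tendsto_natCast_atTop_atTop).eventually_ge_atTop 4
  have e2 : ∀ᶠ X : ℕ in atTop, 8 * C ^ 2 * (Real.log X) ^ A ≤ (X : ℝ) ^ θ := by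
    have hθ0 : 0 < θ := by linarith
    have h1 := isLittleO_log_rpow_rpow_atTop (A : ℝ) hθ0
    have hpos : (0 : ℝ) < 1 / (8 * C ^ 2 + 1) := by positivity
    have h2 := (h1.def hpos)
    have h3 := tendsto_natCast_atTop_atTop (R := ℝ) |>.eventually h2
    filter_upwards [h3, e1] with X h4 h5
    have h6 : 0 ≤ (Real.log X) ^ A := pow_nonneg (by linarith) A
    have h7 : 0 ≤ (X : ℝ) ^ θ := Real.rpow_nonneg (Nat.cast_nonneg X) θ
    rw [Real.rpow_natCast, Real.norm_of_nonneg h6, Real.norm_of_nonneg h7] at h4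
    have h8 : (8 * C ^ 2 + 1) * (Real.log X) ^ A ≤ (X : ℝ) ^ θ := by
      have h9 : (8 * C ^ 2 + 1) * (1 / (8 * C ^ 2 + 1) * (X : ℝ) ^ θ) = (X : ℝ) ^ θ := by
        field_simp
      calc (8 * C ^ 2 + 1) * (Real.log X) ^ A ≤
          (8 * C ^ 2 + 1) * (1 / (8 * C ^ 2 + 1) * (X : ℝ) ^ θ) :=
            mul_le_mul_of_nonneg_left h4 (by positivity)
        _ = (X : ℝ) ^ θ := h9
    linarith
  obtain ⟨X₂, hX₂⟩ := (e1.and e2).exists_forall_of_atTop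
  refine ⟨max X₁ X₂, fun X hX W hXW hWX => ?_⟩
  have hX1 := hX₁ X (le_trans (le_max_left _ _) hX) W hXW hWX
  obtain ⟨hl, hp⟩ := hX₂ X (le_trans (le_max_right _ _) hX)
  set E : ℕ → ℝ := fun n => ArithmeticFunction.vonMangoldt n - th n with hEdef
  have hwin := window E E_nonneg X W hWX
  have hTle := hC (2 * X)
  set T := ∑ n ∈ Ioc 0 (2 * X), E n with hT
  have hT0 : 0 ≤ T := Finset.sum_nonneg fun n _ => E_nonneg n
  have hT2 : T ^ 2 ≤ 2 * C ^ 2 * X := by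
    have h1 : T ^ 2 ≤ (C * √((2 * X : ℕ) : ℝ)) ^ 2 := pow_le_pow_left₀ hT0 hTle 2
    rw [mul_pow, Real.sq_sqrt (Nat.cast_nonneg _)] at h1
    push_cast at h1
    linarith
  have hsplit : ∀ u, (∑ s ∈ Icc 1 W, (th (u + s) - 1)) ^ 2 ≤
      2 * (∑ n ∈ Ioc u (u + W), (ArithmeticFunction.vonMangoldt n - 1)) ^ 2 +
      2 * (∑ s ∈ Icc 1 W, E (u + s)) ^ 2 := by
    intro u
    have h1 : ∑ s ∈ Icc 1 W, (th (u + s) - 1) =
        (∑ n ∈ Ioc u (u + W), (ArithmeticFunction.vonMangoldt n - 1)) -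
          ∑ s ∈ Icc 1 W, E (u + s) := by
      rw [← sum_shift (fun n => ArithmeticFunction.vonMangoldt n - 1) u W,
        ← Finset.sum_sub_distrib]
      refine Finset.sum_congr rfl fun s _ => ?_
      simp only [hEdef]
      ring
    rw [h1]
    nlinarith [sq_nonneg ((∑ n ∈ Ioc u (u + W), (ArithmeticFunction.vonMangoldt n - 1)) +
          ∑ s ∈ Icc 1 W, E (u + s))]
  have hL : 0 < (Real.log X) ^ A := pow_pos (by linarith) A
  have hXnn : (0 : ℝ) ≤ X := Nat.cast_nonneg X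
  have hWnn : (0 : ℝ) ≤ W := Nat.cast_nonneg W
  have hfirst : 2 * ((X : ℝ) * (W : ℝ) ^ 2 / (Real.log X) ^ (A + 1)) ≤
      (1 / 2) * (X * (W : ℝ) ^ 2 / (Real.log X) ^ A) := by
    have h1 : (X : ℝ) * (W : ℝ) ^ 2 / (Real.log X) ^ (A + 1) =
        (X * (W : ℝ) ^ 2 / (Real.log X) ^ A) / Real.log X := by
      rw [div_div, ← pow_succ]
    have h2 : 0 ≤ X * (W : ℝ) ^ 2 / (Real.log X) ^ A := by positivity
    have h3 : (X * (W : ℝ) ^ 2 / (Real.log X) ^ A) / Real.log X ≤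
        (X * (W : ℝ) ^ 2 / (Real.log X) ^ A) / 4 :=
      div_le_div_of_nonneg_left h2 (by norm_num) hl
    rw [h1]
    linarith
  have hsecond : 2 * (T ^ 2 * W) ≤ (1 / 2) * (X * (W : ℝ) ^ 2 / (Real.log X) ^ A) := by
    have h1 : 8 * C ^ 2 * (Real.log X) ^ A ≤ W := hp.trans hXW
    have h2 : 2 * (T ^ 2 * W) ≤ 4 * C ^ 2 * X * W := by
      have := mul_le_mul_of_nonneg_right hT2 hWnn
      nlinarith
    have h3 : 4 * C ^ 2 * X * W * (Real.log X) ^ A ≤ (1 / 2) * (X * (W : ℝ) ^ 2) := by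
      have h4 := mul_le_mul_of_nonneg_left h1 (mul_nonneg hXnn hWnn)
      nlinarith
    have h5 : 4 * C ^ 2 * X * W ≤ (1 / 2) * (X * (W : ℝ) ^ 2) / (Real.log X) ^ A := by
      rw [le_div_iff₀ hL]
      exact h3
    calc 2 * (T ^ 2 * W) ≤ 4 * C ^ 2 * X * W := h2
      _ ≤ (1 / 2) * (X * (W : ℝ) ^ 2) / (Real.log X) ^ A := h5
      _ = _ := by ring
  calc ∑ u ∈ range X, (∑ s ∈ Icc 1 W, (th (u + s) - 1)) ^ 2
      ≤ ∑ u ∈ range X, (2 * (∑ n ∈ Ioc u (u + W), (ArithmeticFunction.vonMangoldt n - 1)) ^ 2 +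
        2 * (∑ s ∈ Icc 1 W, E (u + s)) ^ 2) := Finset.sum_le_sum fun u _ => hsplit u
    _ = 2 * ∑ u ∈ range X, (∑ n ∈ Ioc u (u + W), (ArithmeticFunction.vonMangoldt n - 1)) ^ 2 +
        2 * ∑ u ∈ range X, (∑ s ∈ Icc 1 W, E (u + s)) ^ 2 := by
        rw [Finset.sum_add_distrib, ← Finset.mul_sum, ← Finset.mul_sum]
    _ ≤ 2 * ((X : ℝ) * (W : ℝ) ^ 2 / (Real.log X) ^ (A + 1)) + 2 * (T ^ 2 * W) := by
        linarith
    _ ≤ X * (W : ℝ) ^ 2 / (Real.log X) ^ A := by linarith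

end J1

end Pool.Agent.helper616_RP
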