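import Pool.Agent.helper616_RP.Dep
import Pool.Agent.helper616_RP.J1

/-!
# Project RP (helper616): `S_VAR`
-/

set_option autoImplicit false

open Finset

namespace Pool.Agent.helper616_RP

theorem pdev_one (n : ℕ) : helper24_UT.pdev 1 0 n = ((ArithmeticFunction.vonMangoldt n - 1 : ℝ) : ℂ) := by
  unfold helper24_UT.pdev
  rw [if_pos (by omega), Nat.totient_one]
  push_cast
  ring

theorem t_VAR : S_VAR := by
  intro θ hθ A
  refine J1.var_th θ hθ ?_ A
  intro A
  obtain ⟨e, he⟩ := exists_nat_gt (2 / (θ - 1 / 3))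
  have hθ' : 0 < θ - 1 / 3 := by linarith
  obtain ⟨X₀, hX⟩ := t_SIL13 (max e 4) A 1 (le_max_right _ _)
  refine ⟨max X₀ 3, fun X hX0 W hW1 hW2 => ?_⟩
  have h3 : 3 ≤ X := le_trans (le_max_right _ _) hX0
  have h3' : (3 : ℝ) ≤ X := by exact_mod_cast h3
  have hlog : (1 : ℝ) ≤ Real.log X := by
    rw [Real.le_log_iff_exp_le (by linarith)]
    linarith [Real.exp_one_lt_d9]
  have he0 : (0 : ℝ) < (max e 4 : ℕ) := by
    have : 0 < max e 4 := lt_of_lt_of_le (by norm_num) (le_max_right e 4)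
    exact_mod_cast this
  have he1 : 2 / ((max e 4 : ℕ) : ℝ) ≤ θ - 1 / 3 := by
    rw [div_le_iff₀ he0]
    have h1 : (e : ℝ) ≤ (max e 4 : ℕ) := by exact_mod_cast le_max_left e 4
    have h2 : 2 / (θ - 1 / 3) ≤ ((max e 4 : ℕ) : ℝ) := by linarith
    rw [div_le_iff₀ hθ'] at h2
    linarith
  have hW : (X : ℝ) ^ (1 / 3 + 2 / ((max e 4 : ℕ) : ℝ) : ℝ) ≤ W :=
    (Real.rpow_le_rpow_of_exponent_le (by linarith) (by linarith)).trans hW1
  have h := hX X (le_trans (le_max_left _ _) hX0) 1 0 le_rfl (by simpa using hlog) (by simp) W hW hW2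
  refine le_trans (le_of_eq ?_) h
  refine sum_congr rfl fun u _ => ?_
  rw [sum_congr rfl fun n _ => pdev_one n, ← Complex.ofReal_sum, Complex.norm_real, Real.norm_eq_abs, sq_abs]

end Pool.Agent.helper616_RP
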