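import Mathlib

/-!
# Project RP (helper616): definitions
-/

set_option autoImplicit false

open Finset MeasureTheory Filter Topology

namespace Pool.Agent.helper616_RP

/-- `log p` at the primes `p`, zero elsewhere -/
noncomputable def th (n : ℕ) : ℝ := if n.Prime then Real.log n else 0

/-- a unit square -/
def B (a b : ℝ) : Set (ℝ × ℝ) := Set.Icc a (a + 1) ×ˢ Set.Icc b (b + 1)

/-- the generalised polynomial -/
noncomputable def xx (c c' : ℝ) (g : ℕ → ℝ) (n : ℕ) (ω : ℝ × ℝ) : ℝ :=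
  ω.1 * (n : ℝ) ^ c + ω.2 * (n : ℝ) ^ c' + g n

/-- primes in almost all short intervals -/
def S_VAR : Prop := ∀ θ : ℝ, 1 / 3 < θ → ∀ A : ℕ, ∃ X₀ : ℕ, ∀ X : ℕ, X₀ ≤ X → ∀ W : ℕ, (X : ℝ) ^ θ ≤ W → W ≤ X →
    ∑ u ∈ range X, (∑ s ∈ Icc 1 W, (th (u + s) - 1)) ^ 2 ≤ X * (W : ℝ) ^ 2 / (Real.log X) ^ A

/-- the product of the weights at the `r`-th argument -/
noncomputable def arr {k : ℕ} (c c' : Fin k → ℝ) (g : Fin k → ℕ → ℝ) (s : ℕ → ℕ) (r : ℕ)
    (ω : Fin k → ℝ × ℝ) : ℝ :=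
  ∏ i, th ⌊xx (c i) (c' i) (g i) (s r) (ω i)⌋₊

/-- the uniform measure on a product of unit squares -/
noncomputable def mu {k : ℕ} (a b : Fin k → ℝ) : Measure (Fin k → ℝ × ℝ) :=
  Measure.pi (fun i => volume.restrict (B (a i) (b i)))

end Pool.Agent.helper616_RP
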