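import Pool.Agent.helper616_RP.Defs

/-!
# Project RP (helper616), part V: the main terms
-/

set_option autoImplicit false

open Filter

namespace Pool.Agent.helper616_RP

/-- `g` is eventually increasing, of order `n ^ e`, with steps of order at least `n ^ (e - 1)` -/
def Spread (e : ℝ) (g : ℕ → ℝ) : Prop := ∃ δ K : ℝ, 0 < δ ∧ ∀ᶠ n : ℕ in atTop,
  g n ≤ K * (n : ℝ) ^ e ∧ δ * (n : ℝ) ^ (e - 1) ≤ g (n + 1) - g n

end Pool.Agent.helper616_RP
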