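import Pool.Agent.helper616_RP.Defs

/-!
# Project RP (helper616): close pairs in a sparse sequence
-/

set_option autoImplicit false

open Finset MeasureTheory Filter Topology

namespace Pool.Agent.helper616_RP

namespace J10


theorem badPairs_aux (s : ℕ → ℕ) (hs : StrictMono s) (t : ℝ) (r : ℕ) :
    (((range r).filter (fun q => @decide ((s r : ℝ) - s q < t) (Classical.dec _) = true)).card : ℝ) ≤
      max t 0 := by
  have h1 : ((range r).filter (fun q => @decide ((s r : ℝ) - s q < t) (Classical.dec _) = true)).card ≤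
      (Finset.Icc 1 ⌊max t 0⌋₊).card := by
    refine Finset.card_le_card_of_injOn (fun q => r - q) ?_ ?_
    · intro q hq
      simp only [Finset.coe_filter, Finset.mem_range, Set.mem_setOf_eq, decide_eq_true_eq] at hq
      obtain ⟨h1, h2⟩ := hq
      have h3 : (r - q) + s q ≤ s r := by
        have h4 : ∀ m : ℕ, m + s q ≤ s (q + m) := by
          intro m
          induction m with
          | zero => simp
          | succ m ih =>
            have := hs (show q + m < q + (m + 1) by omega)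
            omega
        have h5 := h4 (r - q)
        rwa [show q + (r - q) = r by omega] at h5
      have h6 : ((r - q : ℕ) : ℝ) + s q ≤ s r := by exact_mod_cast h3
      simp only [Finset.coe_Icc, Set.mem_Icc]
      refine ⟨by omega, Nat.le_floor ?_⟩
      have := le_max_left t 0
      linarith
    · intro a ha b hb hab
      simp only [Finset.coe_filter, Finset.mem_range, Set.mem_setOf_eq] at ha hb
      have ha1 := ha.1
      have hb1 := hb.1
      simp only at hab
      omega
  have h2 : (Finset.Icc 1 ⌊max t 0⌋₊).card = ⌊max t 0⌋₊ := by simp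
  calc (((range r).filter (fun q => @decide ((s r : ℝ) - s q < t) (Classical.dec _) = true)).card : ℝ)
      ≤ (⌊max t 0⌋₊ : ℝ) := by
        rw [← h2]
        exact_mod_cast h1
    _ ≤ max t 0 := Nat.floor_le (le_max_right _ _)

theorem badPairs (s : ℕ → ℕ) (hs : StrictMono s) (η D : ℝ) (hη : 0 ≤ η) (hD : ∀ᶠ r : ℕ in atTop, (s r : ℝ) ≤ (r : ℝ) ^ D)
    (hDη : D * (1 - η) < 1) :
    ∃ ν C : ℝ, ν < 1 ∧ ∀ R : ℕ, 1 ≤ R → ∀ r : ℕ, r < R →
      (((range r).filter (fun q => @decide ((s r : ℝ) - s q < (s r : ℝ) ^ (1 - η)) (Classical.dec _) = true)).card : ℝ) ≤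
        C * (R : ℝ) ^ ν := by
  obtain ⟨r0, hr0⟩ := eventually_atTop.mp hD
  refine ⟨max (D * (1 - η)) 0, (r0 : ℝ) + 1, max_lt hDη one_pos, ?_⟩
  intro R hR r hr
  have hR1 : (1 : ℝ) ≤ R := by exact_mod_cast hR
  have hRν : 1 ≤ (R : ℝ) ^ (max (D * (1 - η)) 0) := Real.one_le_rpow hR1 (le_max_right _ _)
  have hr00 : (0 : ℝ) ≤ r0 := Nat.cast_nonneg _
  by_cases hc : r < r0 ∨ r = 0
  · have h1 : (((range r).filter (fun q => @decide ((s r : ℝ) - s q < (s r : ℝ) ^ (1 - η))
        (Classical.dec _) = true)).card : ℝ) ≤ r := by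
      have := Finset.card_filter_le (range r)
        (fun q => @decide ((s r : ℝ) - s q < (s r : ℝ) ^ (1 - η)) (Classical.dec _) = true)
      rw [Finset.card_range] at this
      exact_mod_cast this
    have h2 : (r : ℝ) ≤ r0 := by
      rcases hc with h | h
      · exact_mod_cast h.le
      · rw [h]; simpa using hr00
    nlinarith
  · push Not at hc
    obtain ⟨hc1, hc2⟩ := hc
    have hr1 : (1 : ℝ) ≤ r := by exact_mod_cast Nat.one_le_iff_ne_zero.mpr hc2
    have hsr : (r : ℝ) ≤ s r := by exact_mod_cast hs.id_le r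
    have hsD := hr0 r hc1
    have hrR : (r : ℝ) ≤ R := by exact_mod_cast hr.le
    have ht : (s r : ℝ) ^ (1 - η) ≤ (R : ℝ) ^ (max (D * (1 - η)) 0) := by
      by_cases hη1 : 0 ≤ 1 - η
      · calc (s r : ℝ) ^ (1 - η) ≤ ((r : ℝ) ^ D) ^ (1 - η) :=
              Real.rpow_le_rpow (by linarith) hsD hη1
          _ = (r : ℝ) ^ (D * (1 - η)) := by rw [← Real.rpow_mul (by linarith)]
          _ ≤ (r : ℝ) ^ (max (D * (1 - η)) 0) := Real.rpow_le_rpow_of_exponent_le hr1 (le_max_left _ _)
          _ ≤ (R : ℝ) ^ (max (D * (1 - η)) 0) := Real.rpow_le_rpow (by linarith) hrR (le_max_right _ _)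
      · push Not at hη1
        have : (s r : ℝ) ^ (1 - η) ≤ 1 := Real.rpow_le_one_of_one_le_of_nonpos (by linarith) hη1.le
        linarith
    have h1 := badPairs_aux s hs ((s r : ℝ) ^ (1 - η)) r
    have h2 : max ((s r : ℝ) ^ (1 - η)) 0 ≤ (R : ℝ) ^ (max (D * (1 - η)) 0) :=
      max_le ht (by linarith)
    have h3 : (R : ℝ) ^ (max (D * (1 - η)) 0) ≤ ((r0 : ℝ) + 1) * (R : ℝ) ^ (max (D * (1 - η)) 0) := by
      nlinarith
    exact h1.trans (h2.trans h3)

end J10

end Pool.Agent.helper616_RP
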