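import Pool.Agent.helper616_RP.Defs

/-!
# Project RP (helper616): from the weighted sum to the number of prime tuples
-/

set_option autoImplicit false

open Finset MeasureTheory Filter Topology

namespace Pool.Agent.helper616_RP

namespace J11


theorem count_abel (w : ℕ → ℝ) (a : ℕ → ℝ) (R : ℕ) :
    ∑ r ∈ range R, a r * w r = (∑ r ∈ range R, a r) * w R +
      ∑ r ∈ range R, (∑ j ∈ range (r + 1), a j) * (w r - w (r + 1)) := by
  induction R with
  | zero => simp
  | succ R ih =>
    rw [sum_range_succ, ih, sum_range_succ (fun r => (∑ j ∈ range (r + 1), a j) * (w r - w (r + 1))),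
      sum_range_succ a R]
    ring

theorem count_bound (a w : ℕ → ℝ) (hw : Antitone w) (hw0 : ∀ r, 0 ≤ w r) (ε K : ℝ)
    (hE : ∀ R : ℕ, |∑ r ∈ range R, a r| ≤ ε * R + K) (R : ℕ) :
    |∑ r ∈ range R, a r * w r| ≤ ε * ∑ r ∈ range R, w r + K * w 0 := by
  rw [count_abel w a R]
  have h1 := count_abel w (fun _ => ε) R
  have h2 : ∑ r ∈ range R, (w r - w (r + 1)) = w 0 - w R := sum_range_sub' w R
  calc |(∑ r ∈ range R, a r) * w R + ∑ r ∈ range R, (∑ j ∈ range (r + 1), a j) * (w r - w (r + 1))|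
      ≤ |(∑ r ∈ range R, a r) * w R| +
        |∑ r ∈ range R, (∑ j ∈ range (r + 1), a j) * (w r - w (r + 1))| := abs_add_le _ _
    _ ≤ (ε * R + K) * w R + ∑ r ∈ range R, (ε * ((r + 1 : ℕ) : ℝ) + K) * (w r - w (r + 1)) := by
        refine add_le_add ?_ ?_
        · rw [abs_mul, abs_of_nonneg (hw0 R)]
          exact mul_le_mul_of_nonneg_right (hE R) (hw0 R)
        · refine (abs_sum_le_sum_abs _ _).trans (sum_le_sum fun r _ => ?_)
          have h3 : 0 ≤ w r - w (r + 1) := sub_nonneg.2 (hw (Nat.le_succ r))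
          rw [abs_mul, abs_of_nonneg h3]
          exact mul_le_mul_of_nonneg_right (hE (r + 1)) h3
    _ = ε * ∑ r ∈ range R, w r + K * w 0 := by
        have h4 : ∑ r ∈ range R, (ε * ((r + 1 : ℕ) : ℝ) + K) * (w r - w (r + 1)) =
            ∑ r ∈ range R, (∑ j ∈ range (r + 1), ε) * (w r - w (r + 1)) +
            K * ∑ r ∈ range R, (w r - w (r + 1)) := by
          rw [mul_sum, ← sum_add_distrib]
          refine sum_congr rfl fun r _ => ?_
          rw [sum_const, card_range, nsmul_eq_mul]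
          ring
        rw [h4, h2, mul_sum]
        rw [sum_const, card_range, nsmul_eq_mul] at h1
        rw [h1]
        ring

theorem count_little (e w : ℕ → ℝ) (hw : Antitone w) (hw0 : ∀ r, 0 ≤ w r)
    (hV : Tendsto (fun R => ∑ r ∈ range R, w r) atTop atTop)
    (h : Tendsto (fun R : ℕ => (∑ r ∈ range R, e r) / R) atTop (𝓝 1)) :
    Asymptotics.IsEquivalent atTop (fun R => ∑ r ∈ range R, e r * w r)
      (fun R => ∑ r ∈ range R, w r) := by
  have hE : Tendsto (fun R : ℕ => (∑ r ∈ range R, (e r - 1)) / R) atTop (𝓝 0) := by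
    have h1 : Tendsto (fun R : ℕ => (∑ r ∈ range R, e r) / R - 1) atTop (𝓝 0) := by
      simpa using h.sub_const 1
    refine h1.congr' ?_
    filter_upwards [eventually_gt_atTop 0] with R hR
    have hR' : (R : ℝ) ≠ 0 := by exact_mod_cast hR.ne'
    rw [sum_sub_distrib, sum_const, card_range, nsmul_eq_mul, mul_one, sub_div, div_self hR']
  show ((fun R => ∑ r ∈ range R, e r * w r) - (fun R => ∑ r ∈ range R, w r)) =o[atTop]
    (fun R => ∑ r ∈ range R, w r)
  have hsub : (fun R => ∑ r ∈ range R, e r * w r) - (fun R => ∑ r ∈ range R, w r) =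
      fun R => ∑ r ∈ range R, (e r - 1) * w r := by
    funext R
    rw [Pi.sub_apply, ← sum_sub_distrib]
    exact sum_congr rfl fun r _ => by ring
  rw [hsub, Asymptotics.isLittleO_iff]
  intro ε hε
  obtain ⟨N, hN⟩ := Metric.tendsto_atTop.1 hE (ε / 2) (by linarith)
  have hb : ∀ R : ℕ, |∑ r ∈ range R, (e r - 1)| ≤
      ε / 2 * R + ∑ n ∈ range (N + 1), |∑ r ∈ range n, (e r - 1)| := by
    intro R
    have hK : 0 ≤ ∑ n ∈ range (N + 1), |∑ r ∈ range n, (e r - 1)| :=
      sum_nonneg fun _ _ => abs_nonneg _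
    rcases lt_or_ge R (N + 1) with h1 | h1
    · have h2 : |∑ r ∈ range R, (e r - 1)| ≤ ∑ n ∈ range (N + 1), |∑ r ∈ range n, (e r - 1)| :=
        single_le_sum (f := fun n => |∑ r ∈ range n, (e r - 1)|) (fun _ _ => abs_nonneg _)
          (mem_range.2 h1)
      have h3 : 0 ≤ ε / 2 * (R : ℝ) := by positivity
      linarith
    · have h2 := hN R (by omega)
      have hR : (0 : ℝ) < R := by
        have : 0 < R := by omega
        exact_mod_cast this
      rw [Real.dist_eq, sub_zero, abs_div, abs_of_pos hR, div_lt_iff₀ hR] at h2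
      linarith
  have h5 := hV.eventually_ge_atTop
    ((∑ n ∈ range (N + 1), |∑ r ∈ range n, (e r - 1)|) * w 0 / (ε / 2))
  filter_upwards [h5] with R hR
  have h6 := count_bound (fun r => e r - 1) w hw hw0 _ _ hb R
  rw [Real.norm_eq_abs, Real.norm_eq_abs, abs_of_nonneg (sum_nonneg fun r _ => hw0 r)]
  rw [div_le_iff₀ (by linarith)] at hR
  linarith

/-- the log ratio tends to one -/
theorem count_log {c δ M : ℝ} (hc : 0 < c) (hδ : 0 < δ) {s : ℕ → ℕ} (hs : StrictMono s)
    {y : ℕ → ℝ}
    (hy : ∀ᶠ r : ℕ in atTop, δ * (s r : ℝ) ^ c ≤ y r ∧ y r ≤ M * (s r : ℝ) ^ c) :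
    Tendsto (fun r => c * Real.log (s r) / Real.log ⌊y r⌋₊) atTop (𝓝 1) ∧
      ∀ᶠ r in atTop, 2 ≤ ⌊y r⌋₊ := by
  have hs1 : Tendsto (fun r => (s r : ℝ)) atTop atTop :=
    tendsto_natCast_atTop_atTop.comp hs.tendsto_atTop
  have hs2 : Tendsto (fun r => (s r : ℝ) ^ c) atTop atTop := (tendsto_rpow_atTop hc).comp hs1
  have hs3 : Tendsto (fun r => Real.log (s r)) atTop atTop := Real.tendsto_log_atTop.comp hs1
  have hs4 : Tendsto (fun r => c * Real.log (s r)) atTop atTop := hs3.const_mul_atTop hc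
  have hy2 : ∀ᶠ r in atTop, 2 ≤ y r := by
    filter_upwards [hy, (hs2.const_mul_atTop hδ).eventually_ge_atTop 2] with r h1 h2
    exact h2.trans h1.1
  have hfl : ∀ᶠ r in atTop, 2 ≤ ⌊y r⌋₊ := by
    filter_upwards [hy2] with r hr
    exact Nat.le_floor (by exact_mod_cast hr)
  refine ⟨?_, hfl⟩
  have hM : 0 < M := by
    obtain ⟨r, h1, h2⟩ := (hy.and (hs2.eventually_gt_atTop 0)).exists
    have h3 : 0 < δ * (s r : ℝ) ^ c := mul_pos hδ h2
    exact pos_of_mul_pos_left (h3.trans_le (h1.1.trans h1.2)) h2.le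
  have hinv : Tendsto (fun r => Real.log ⌊y r⌋₊ / (c * Real.log (s r))) atTop (𝓝 1) := by
    have hlo : Tendsto (fun r => 1 + Real.log (δ / 2) / (c * Real.log (s r))) atTop (𝓝 1) := by
      simpa using (hs4.const_div_atTop (Real.log (δ / 2))).const_add 1
    have hhi : Tendsto (fun r => 1 + Real.log M / (c * Real.log (s r))) atTop (𝓝 1) := by
      simpa using (hs4.const_div_atTop (Real.log M)).const_add 1
    refine tendsto_of_tendsto_of_tendsto_of_le_of_le' hlo hhi ?_ ?_
    · filter_upwards [hy, hy2, hs4.eventually_gt_atTop 0, hs1.eventually_gt_atTop 0,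
        hs2.eventually_gt_atTop 0] with r h1 h2 h3 h4 h5
      rw [← sub_nonneg]
      have h6 : Real.log ⌊y r⌋₊ / (c * Real.log (s r)) -
          (1 + Real.log (δ / 2) / (c * Real.log (s r))) =
          (Real.log ⌊y r⌋₊ - (c * Real.log (s r) + Real.log (δ / 2))) / (c * Real.log (s r)) := by
        rw [sub_div, add_div, div_self h3.ne']
      rw [h6]
      refine div_nonneg ?_ h3.le
      rw [sub_nonneg, ← Real.log_rpow h4, ← Real.log_mul h5.ne' (by positivity)]
      refine Real.log_le_log (by positivity) ?_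
      have h7 : y r < ⌊y r⌋₊ + 1 := Nat.lt_floor_add_one _
      nlinarith [h1.1]
    · filter_upwards [hy, hy2, hfl, hs4.eventually_gt_atTop 0, hs1.eventually_gt_atTop 0,
        hs2.eventually_gt_atTop 0] with r h1 h2 h2' h3 h4 h5
      rw [← sub_nonneg]
      have h6 : (1 + Real.log M / (c * Real.log (s r))) - Real.log ⌊y r⌋₊ / (c * Real.log (s r)) =
          ((c * Real.log (s r) + Real.log M) - Real.log ⌊y r⌋₊) / (c * Real.log (s r)) := by
        rw [sub_div, add_div, div_self h3.ne']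
      rw [h6]
      refine div_nonneg ?_ h3.le
      rw [sub_nonneg, ← Real.log_rpow h4, ← Real.log_mul h5.ne' hM.ne']
      refine Real.log_le_log ?_ ?_
      · have : 0 < ⌊y r⌋₊ := by omega
        exact_mod_cast this
      · have h7 : (⌊y r⌋₊ : ℝ) ≤ y r := Nat.floor_le (by linarith)
        nlinarith [h1.2]
  have h8 := hinv.inv₀ one_ne_zero
  rw [inv_one] at h8
  refine h8.congr fun r => ?_
  rw [inv_div]

theorem count (k : ℕ) (c : Fin k → ℝ) (hc : ∀ i, 0 < c i) (s : ℕ → ℕ) (hs : StrictMono s) (D : ℕ)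
    (hD : ∀ᶠ r : ℕ in atTop, s r ≤ r ^ D) (y : Fin k → ℕ → ℝ) (δ M : ℝ) (hδ : 0 < δ)
    (hy : ∀ i, ∀ᶠ r : ℕ in atTop, δ * (s r : ℝ) ^ (c i) ≤ y i r ∧ y i r ≤ M * (s r : ℝ) ^ (c i))
    (h : Tendsto (fun R : ℕ => (∑ r ∈ range R, ∏ i, th ⌊y i r⌋₊) / R) atTop (𝓝 1)) :
    Tendsto (fun R : ℕ => (((range R).filter (fun r => ∀ i, (⌊y i r⌋₊).Prime)).card : ℝ) /
      ∑ r ∈ (range R).filter (fun r => 2 ≤ s r), ∏ i, 1 / (c i * Real.log (s r))) atTop (𝓝 1) := by
  classical
  have hsr : ∀ r, r ≤ s r := fun r => hs.le_apply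
  set wp : ℕ → ℝ := fun r => ∏ i, 1 / (c i * Real.log ((max 2 (s r) : ℕ) : ℝ)) with hwp
  set w : ℕ → ℝ := fun r => if 2 ≤ s r then ∏ i, 1 / (c i * Real.log (s r)) else 0 with hw
  set e : ℕ → ℝ := fun r => ∏ i, th ⌊y i r⌋₊ with he
  set b : ℕ → ℝ := fun r => if ∀ i, (⌊y i r⌋₊).Prime then 1 else 0 with hb
  have hlog : ∀ r, 0 < Real.log ((max 2 (s r) : ℕ) : ℝ) := by
    intro r
    refine Real.log_pos ?_
    have : 1 < max 2 (s r) := lt_of_lt_of_le (by norm_num) (le_max_left _ _)
    exact_mod_cast this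
  have hwp_pos : ∀ r, 0 < wp r := fun r =>
    prod_pos fun i _ => one_div_pos.2 (mul_pos (hc i) (hlog r))
  have hwp_anti : Antitone wp := by
    intro r r' hrr
    refine prod_le_prod (fun i _ => (one_div_pos.2 (mul_pos (hc i) (hlog r'))).le) fun i _ => ?_
    refine one_div_le_one_div_of_le (mul_pos (hc i) (hlog r)) ?_
    refine mul_le_mul_of_nonneg_left ?_ (hc i).le
    refine Real.log_le_log ?_ ?_
    · have : 0 < max 2 (s r) := lt_of_lt_of_le (by norm_num) (le_max_left _ _)
      exact_mod_cast this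
    · have : max 2 (s r) ≤ max 2 (s r') := max_le_max le_rfl (hs.monotone hrr)
      exact_mod_cast this
  have hwwp : ∀ᶠ r in atTop, w r = wp r := by
    filter_upwards [eventually_ge_atTop 2] with r hr
    have h2 : 2 ≤ s r := hr.trans (hsr r)
    simp only [hw, hwp]
    rw [if_pos h2, max_eq_right h2]
  have hV : Tendsto (fun R => ∑ r ∈ range R, wp r) atTop atTop := by
    rw [← not_summable_iff_tendsto_nat_atTop_of_nonneg (fun r => (hwp_pos r).le)]
    intro hsum
    refine Real.not_summable_natCast_inv ?_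
    refine summable_of_isBigO_nat hsum ?_
    have hbig : (fun r : ℕ => (∏ i, c i) * (Real.log (s r)) ^ k) =o[atTop]
        (fun r : ℕ => (r : ℝ)) := by
      have h1 : (fun r : ℕ => Real.log (s r)) =O[atTop] (fun r : ℕ => Real.log (r : ℝ)) := by
        refine Asymptotics.IsBigO.of_bound (D : ℝ) ?_
        filter_upwards [hD, eventually_ge_atTop 1] with r hr hr1
        have h2 : 1 ≤ s r := hr1.trans (hsr r)
        have h3 : 0 ≤ Real.log (s r) := Real.log_natCast_nonneg _
        have h4 : 0 ≤ Real.log r := Real.log_natCast_nonneg _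
        rw [Real.norm_of_nonneg h3, Real.norm_of_nonneg h4, ← Real.log_pow]
        refine Real.log_le_log (by exact_mod_cast h2) (by exact_mod_cast hr)
      have h2 : (fun r : ℕ => (Real.log (s r)) ^ k) =O[atTop] (fun r : ℕ => (Real.log (r : ℝ)) ^ k) :=
        h1.pow k
      have h3 : (fun r : ℕ => (Real.log (r : ℝ)) ^ k) =o[atTop] (fun r : ℕ => (r : ℝ)) :=
        (Real.isLittleO_pow_log_id_atTop (n := k)).comp_tendsto tendsto_natCast_atTop_atTop
      exact (h2.trans_isLittleO h3).const_mul_left _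
    refine Asymptotics.IsBigO.of_bound 1 ?_
    filter_upwards [hbig.bound one_pos, eventually_ge_atTop 2] with r hr hr2
    have h2 : 2 ≤ s r := hr2.trans (hsr r)
    have h3 : 0 < Real.log (s r) := Real.log_pos (by exact_mod_cast h2)
    have h4 : 0 < ∏ i, c i := prod_pos fun i _ => hc i
    have h5 : 0 < (∏ i, c i) * (Real.log (s r)) ^ k := by positivity
    rw [Real.norm_of_nonneg h5.le, Real.norm_of_nonneg (Nat.cast_nonneg r), one_mul] at hr
    have h6 : wp r = ((∏ i, c i) * (Real.log (s r)) ^ k)⁻¹ := by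
      simp only [hwp]
      rw [max_eq_right h2, prod_div_distrib, prod_mul_distrib, prod_const_one, prod_const,
        card_univ, Fintype.card_fin, one_div]
    rw [Real.norm_of_nonneg (by positivity), Real.norm_of_nonneg (hwp_pos r).le, one_mul, h6]
    exact inv_anti₀ h5 hr
  have hA := count_little e wp hwp_anti (fun r => (hwp_pos r).le) hV h
  have hth : ∀ n, 0 ≤ th n := by
    intro n
    unfold th
    split_ifs
    · exact Real.log_natCast_nonneg _
    · exact le_rfl
  have he0 : ∀ r, 0 ≤ e r := fun r => prod_nonneg fun i _ => hth _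
  have hVA : Tendsto (fun R => ∑ r ∈ range R, e r * wp r) atTop atTop :=
    hA.symm.tendsto_atTop hV
  have hlogi := fun i => count_log (hc i) hδ hs (hy i)
  have hB : Asymptotics.IsEquivalent atTop (fun R => ∑ r ∈ range R, b r)
      (fun R => ∑ r ∈ range R, e r * wp r) := by
    have hsmall : (fun r => b r - e r * wp r) =o[atTop] (fun r => e r * wp r) := by
      have hu : Tendsto (fun r => ∏ i, (c i * Real.log (s r) / Real.log ⌊y i r⌋₊) - 1) atTop
          (𝓝 0) := by
        have h1 : Tendsto (fun r => ∏ i, (c i * Real.log (s r) / Real.log ⌊y i r⌋₊)) atTop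
            (𝓝 (∏ i : Fin k, (1 : ℝ))) := tendsto_finsetProd _ fun i _ => (hlogi i).1
        rw [prod_const_one] at h1
        simpa using h1.sub_const 1
      rw [Asymptotics.isLittleO_iff_exists_eq_mul]
      refine ⟨_, hu, ?_⟩
      have hall : ∀ᶠ r in atTop, ∀ i, 2 ≤ ⌊y i r⌋₊ := eventually_all.2 fun i => (hlogi i).2
      filter_upwards [hall, eventually_ge_atTop 2] with r h1 h2
      have h3 : 2 ≤ s r := h2.trans (hsr r)
      have h4 : 0 < Real.log (s r) := Real.log_pos (by exact_mod_cast h3)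
      show b r - e r * wp r = (∏ i, (c i * Real.log (s r) / Real.log ⌊y i r⌋₊) - 1) * (e r * wp r)
      have key : b r = (∏ i, (c i * Real.log (s r) / Real.log ⌊y i r⌋₊)) * (e r * wp r) := by
        simp only [hb, he, hwp]
        rw [max_eq_right h3, ← prod_mul_distrib, ← prod_mul_distrib]
        by_cases hp : ∀ i, (⌊y i r⌋₊).Prime
        · rw [if_pos hp]
          symm
          refine prod_eq_one fun i _ => ?_
          have h5 : 0 < Real.log ⌊y i r⌋₊ := Real.log_pos (by exact_mod_cast h1 i)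
          have h6 := hc i
          rw [th, if_pos (hp i)]
          field_simp
        · rw [if_neg hp]
          push Not at hp
          obtain ⟨i, hi⟩ := hp
          symm
          refine prod_eq_zero (mem_univ i) ?_
          rw [th, if_neg hi]
          simp
      rw [key]
      ring
    have h2 := hsmall.sum_range (fun r => mul_nonneg (he0 r) (hwp_pos r).le) hVA
    show ((fun R => ∑ r ∈ range R, b r) - (fun R => ∑ r ∈ range R, e r * wp r)) =o[atTop]
      (fun R => ∑ r ∈ range R, e r * wp r)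
    refine h2.congr_left fun R => ?_
    rw [Pi.sub_apply, sum_sub_distrib]
  have hC : Asymptotics.IsEquivalent atTop (fun R => ∑ r ∈ range R, w r)
      (fun R => ∑ r ∈ range R, wp r) := by
    have hsmall : (fun r => w r - wp r) =o[atTop] wp := by
      have h1 : (fun r => w r - wp r) =ᶠ[atTop] fun _ => (0 : ℝ) := by
        filter_upwards [hwwp] with r hr
        rw [hr, sub_self]
      exact h1.trans_isLittleO (Asymptotics.isLittleO_zero _ _)
    have h2 := hsmall.sum_range (fun r => (hwp_pos r).le) hV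
    show ((fun R => ∑ r ∈ range R, w r) - (fun R => ∑ r ∈ range R, wp r)) =o[atTop]
      (fun R => ∑ r ∈ range R, wp r)
    refine h2.congr_left fun R => ?_
    rw [Pi.sub_apply, sum_sub_distrib]
  have hfin : Asymptotics.IsEquivalent atTop (fun R => ∑ r ∈ range R, b r)
      (fun R => ∑ r ∈ range R, w r) := (hB.trans hA).trans hC.symm
  have hVw : Tendsto (fun R => ∑ r ∈ range R, w r) atTop atTop := hC.symm.tendsto_atTop hV
  have hne : ∀ᶠ R in atTop, (∑ r ∈ range R, w r) ≠ 0 := by
    filter_upwards [hVw.eventually_gt_atTop 0] with R hR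
    exact hR.ne'
  have hlim := (Asymptotics.isEquivalent_iff_tendsto_one hne).1 hfin
  refine hlim.congr fun R => ?_
  rw [Pi.div_apply]
  congr 1
  · simp only [hb]
    rw [sum_boole]
  · simp only [hw]
    rw [sum_filter]

end J11

end Pool.Agent.helper616_RP
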