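import Pool.Agent.helper616_RP.Defs

/-!
# Project RP (helper616): a bound for one factor
-/

set_option autoImplicit false

open Finset MeasureTheory Filter Topology

namespace Pool.Agent.helper616_RP

namespace J12


theorem th_le_log_succ (m : ℕ) : th m ≤ Real.log (1 + m) := by
  unfold th
  split_ifs with h
  · have : (0 : ℝ) < m := by exact_mod_cast h.pos
    exact Real.log_le_log this (by linarith)
  · exact Real.log_nonneg (by have : (0 : ℝ) ≤ m := Nat.cast_nonneg m; linarith)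

theorem abs_le_of_mem_unit {a x : ℝ} (h : x ∈ Set.Icc a (a + 1)) : |x| ≤ |a| + 1 := by
  have h1 := h.1
  have h2 := h.2
  rw [abs_le]
  have := neg_abs_le a
  have := le_abs_self a
  constructor <;> linarith

theorem bound1 (c c' K : ℝ) (hc' : 0 < c') (hcc : c' < c) (g : ℕ → ℝ)
    (hg : ∀ᶠ n : ℕ in atTop, |g n| ≤ K * (n : ℝ) ^ c) (a b : ℝ) :
    ∃ C : ℝ, ∀ n : ℕ, ∀ ω ∈ B a b, th ⌊xx c c' g n ω⌋₊ ≤ C * Real.log (n + 2) := by
  have hc : 0 < c := hc'.trans hcc
  set Bn : ℕ → ℝ := fun n => (|a| + 1) * (n : ℝ) ^ c + (|b| + 1) * (n : ℝ) ^ c' + |g n| with hBn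
  have hBn0 : ∀ n, 0 ≤ Bn n := by
    intro n
    simp only [hBn]
    positivity
  have key : ∀ n : ℕ, ∀ ω ∈ B a b, th ⌊xx c c' g n ω⌋₊ ≤ Real.log (1 + Bn n) := by
    intro n ω hω
    refine (th_le_log_succ _).trans ?_
    apply Real.log_le_log
    · positivity
    · have h1 : |ω.1| ≤ |a| + 1 := abs_le_of_mem_unit hω.1
      have h2 : |ω.2| ≤ |b| + 1 := abs_le_of_mem_unit hω.2
      have hx : xx c c' g n ω ≤ Bn n := by
        simp only [hBn, xx]
        have e1 : ω.1 * (n : ℝ) ^ c ≤ (|a| + 1) * (n : ℝ) ^ c :=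
          mul_le_mul_of_nonneg_right ((le_abs_self _).trans h1) (by positivity)
        have e2 : ω.2 * (n : ℝ) ^ c' ≤ (|b| + 1) * (n : ℝ) ^ c' :=
          mul_le_mul_of_nonneg_right ((le_abs_self _).trans h2) (by positivity)
        have e3 := le_abs_self (g n)
        linarith
      have hf : ((⌊xx c c' g n ω⌋₊ : ℕ) : ℝ) ≤ Bn n := by
        rcases le_or_gt 0 (xx c c' g n ω) with h | h
        · exact (Nat.floor_le h).trans hx
        · rw [Nat.floor_of_nonpos h.le]
          simpa using hBn0 n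
      linarith
  obtain ⟨N, hN⟩ := eventually_atTop.1 hg
  have hl2 : 0 < Real.log 2 := Real.log_pos (by norm_num)
  have hlog : ∀ n : ℕ, Real.log 2 ≤ Real.log ((n : ℝ) + 2) := by
    intro n
    apply Real.log_le_log (by norm_num)
    have : (0 : ℝ) ≤ n := Nat.cast_nonneg n
    linarith
  set M : ℝ := (|a| + 1) + (|b| + 1) + |K| with hM
  have hM0 : 0 ≤ M := by positivity
  set C1 : ℝ := Real.log (1 + M) / Real.log 2 + c with hC1
  have hC1' : 0 ≤ C1 := by
    have : 0 ≤ Real.log (1 + M) := Real.log_nonneg (by linarith)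
    positivity
  set C2 : ℝ := ∑ m ∈ Finset.range (N + 1), Real.log (1 + Bn m) / Real.log 2 with hC2
  have hterm : ∀ m, 0 ≤ Real.log (1 + Bn m) / Real.log 2 := by
    intro m
    have : 0 ≤ Real.log (1 + Bn m) := Real.log_nonneg (by linarith [hBn0 m])
    positivity
  have hC2' : 0 ≤ C2 := Finset.sum_nonneg (fun m _ => hterm m)
  refine ⟨C1 + C2, ?_⟩
  intro n ω hω
  refine (key n ω hω).trans ?_
  have hL := hlog n
  have hLpos : 0 < Real.log ((n : ℝ) + 2) := hl2.trans_le hL
  rcases le_or_gt n N with h | h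
  · have h1 : Real.log (1 + Bn n) / Real.log 2 ≤ C2 :=
      Finset.single_le_sum (f := fun m => Real.log (1 + Bn m) / Real.log 2)
        (fun m _ => hterm m) (Finset.mem_range.2 (Nat.lt_succ_of_le h))
    have h2 : Real.log (1 + Bn n) ≤ C2 * Real.log 2 := by
      rwa [div_le_iff₀ hl2] at h1
    calc Real.log (1 + Bn n) ≤ C2 * Real.log 2 := h2
      _ ≤ C2 * Real.log (n + 2) := mul_le_mul_of_nonneg_left hL hC2'
      _ ≤ (C1 + C2) * Real.log (n + 2) := by nlinarith
  · have hn1 : (1 : ℝ) ≤ n := by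
      have : 1 ≤ n := by omega
      exact_mod_cast this
    have hgn := hN n h.le
    have hpc : (n : ℝ) ^ c' ≤ (n : ℝ) ^ c := Real.rpow_le_rpow_of_exponent_le hn1 hcc.le
    have hnc : (n : ℝ) ^ c ≤ ((n : ℝ) + 2) ^ c :=
      Real.rpow_le_rpow (by linarith) (by linarith) hc.le
    have h1c : (1 : ℝ) ≤ ((n : ℝ) + 2) ^ c := Real.one_le_rpow (by linarith) hc.le
    have hncpos : 0 ≤ (n : ℝ) ^ c := by positivity
    have hBle : Bn n ≤ M * (n : ℝ) ^ c := by
      simp only [hBn, hM]
      have e2 : (|b| + 1) * (n : ℝ) ^ c' ≤ (|b| + 1) * (n : ℝ) ^ c :=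
        mul_le_mul_of_nonneg_left hpc (by positivity)
      have e3 : |g n| ≤ |K| * (n : ℝ) ^ c :=
        hgn.trans (mul_le_mul_of_nonneg_right (le_abs_self K) hncpos)
      nlinarith
    have hfin : 1 + Bn n ≤ (1 + M) * ((n : ℝ) + 2) ^ c := by
      have : M * (n : ℝ) ^ c ≤ M * ((n : ℝ) + 2) ^ c := mul_le_mul_of_nonneg_left hnc hM0
      nlinarith
    have hlogle : Real.log (1 + Bn n) ≤ Real.log (1 + M) + c * Real.log ((n : ℝ) + 2) := by
      have hpos : 0 < 1 + Bn n := by linarith [hBn0 n]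
      calc Real.log (1 + Bn n) ≤ Real.log ((1 + M) * ((n : ℝ) + 2) ^ c) :=
            Real.log_le_log hpos hfin
        _ = Real.log (1 + M) + c * Real.log ((n : ℝ) + 2) := by
            rw [Real.log_mul (by linarith) (by positivity), Real.log_rpow (by linarith)]
    have h3 : Real.log (1 + M) ≤ Real.log (1 + M) / Real.log 2 * Real.log ((n : ℝ) + 2) := by
      have h0 : 0 ≤ Real.log (1 + M) / Real.log 2 := by
        have : 0 ≤ Real.log (1 + M) := Real.log_nonneg (by linarith)
        positivity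
      calc Real.log (1 + M) = Real.log (1 + M) / Real.log 2 * Real.log 2 := by
            field_simp
        _ ≤ _ := mul_le_mul_of_nonneg_left hL h0
    have h4 : Real.log (1 + Bn n) ≤ C1 * Real.log ((n : ℝ) + 2) := by
      rw [hC1, add_mul]
      linarith
    nlinarith

end J12

end Pool.Agent.helper616_RP
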