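import Pool.Agent.helper616_RP.Defs

/-!
# Project RP (helper616): measurability, total mass
-/

set_option autoImplicit false

open Finset MeasureTheory Filter Topology

namespace Pool.Agent.helper616_RP

namespace J13


theorem measurable_arr {k : ℕ} (c c' : Fin k → ℝ) (g : Fin k → ℕ → ℝ) (s : ℕ → ℕ) (r : ℕ) :
    Measurable (arr c c' g s r) := by
  unfold arr
  refine Finset.measurable_prod _ fun i _ => ?_
  have h1 : Measurable fun ω : Fin k → ℝ × ℝ => xx (c i) (c' i) (g i) (s r) (ω i) := by
    unfold xx
    fun_prop
  have h2 : Measurable fun ω : Fin k → ℝ × ℝ => ⌊xx (c i) (c' i) (g i) (s r) (ω i)⌋₊ :=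
    Nat.measurable_floor.comp h1
  have h3 : Measurable th := measurable_from_top
  exact h3.comp h2

theorem prob_mu {k : ℕ} (a b : Fin k → ℝ) : IsProbabilityMeasure (mu a b) := by
  unfold mu
  have : ∀ i, IsProbabilityMeasure (volume.restrict (B (a i) (b i)) : Measure (ℝ × ℝ)) := by
    intro i
    constructor
    rw [Measure.restrict_apply_univ]
    unfold B
    rw [Measure.volume_eq_prod, Measure.prod_prod, Real.volume_Icc, Real.volume_Icc]
    simp
  infer_instance

end J13

end Pool.Agent.helper616_RP
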