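import Pool.Agent.helper616_RP.Defs

/-!
# Project RP (helper616): a bound for the product
-/

set_option autoImplicit false

open Finset MeasureTheory Filter Topology

namespace Pool.Agent.helper616_RP

namespace J14


theorem th_nonneg (n : ℕ) : 0 ≤ th n := by
  unfold th
  split_ifs with h
  · exact Real.log_nonneg (by exact_mod_cast h.one_lt.le)
  · exact le_refl 0

theorem logBound (s : ℕ → ℕ) (D : ℝ)
    (hD : ∀ᶠ r : ℕ in atTop, (s r : ℝ) ≤ (r : ℝ) ^ D) :
    ∃ C : ℝ, 0 ≤ C ∧ ∀ r : ℕ, Real.log ((s r : ℝ) + 2) ≤ C * Real.log (r + 2) := by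
  obtain ⟨N, hN⟩ := eventually_atTop.1 hD
  have hl2 : 0 < Real.log 2 := Real.log_pos (by norm_num)
  have hlr : ∀ r : ℕ, Real.log 2 ≤ Real.log ((r : ℝ) + 2) := by
    intro r
    apply Real.log_le_log (by norm_num)
    have : (0 : ℝ) ≤ r := Nat.cast_nonneg r
    linarith
  -- constant for small r
  set M : ℝ := ∑ r ∈ Finset.range N, Real.log ((s r : ℝ) + 2) with hM
  have hpos : ∀ r : ℕ, 0 ≤ Real.log ((s r : ℝ) + 2) := by
    intro r
    apply Real.log_nonneg
    have : (0 : ℝ) ≤ s r := Nat.cast_nonneg _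
    linarith
  have hMn : 0 ≤ M := Finset.sum_nonneg (fun r _ => hpos r)
  set D' : ℝ := max D 0 with hD'
  refine ⟨M / Real.log 2 + (D' + 2), by positivity, ?_⟩
  intro r
  by_cases hr : r < N
  · have h1 : Real.log ((s r : ℝ) + 2) ≤ M :=
      Finset.single_le_sum (f := fun r => Real.log ((s r : ℝ) + 2)) (fun i _ => hpos i)
        (Finset.mem_range.2 hr)
    have h2 : M ≤ M / Real.log 2 * Real.log ((r : ℝ) + 2) := by
      rw [div_mul_eq_mul_div, le_div_iff₀ hl2]
      exact mul_le_mul_of_nonneg_left (hlr r) hMn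
    have h3 : 0 ≤ (D' + 2) * Real.log ((r : ℝ) + 2) := by
      apply mul_nonneg
      · positivity
      · linarith [hlr r]
    calc Real.log ((s r : ℝ) + 2) ≤ M := h1
      _ ≤ M / Real.log 2 * Real.log ((r : ℝ) + 2) := h2
      _ ≤ M / Real.log 2 * Real.log ((r : ℝ) + 2) + (D' + 2) * Real.log ((r : ℝ) + 2) := by linarith
      _ = (M / Real.log 2 + (D' + 2)) * Real.log ((r : ℝ) + 2) := by ring
  · push Not at hr
    have h1 := hN r hr
    have hr2 : (1 : ℝ) ≤ (r : ℝ) + 2 := by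
      have : (0 : ℝ) ≤ r := Nat.cast_nonneg _
      linarith
    have hr0 : (0 : ℝ) ≤ r := Nat.cast_nonneg _
    have h2 : (s r : ℝ) ≤ ((r : ℝ) + 2) ^ D' := by
      by_cases hrr : r = 0
      · subst hrr
        have : (0 : ℝ) ^ D ≤ 1 := by
          by_cases hD0 : D = 0
          · simp [hD0]
          · rw [Real.zero_rpow hD0]; norm_num
        have h4 : (1 : ℝ) ≤ (((0 : ℕ) : ℝ) + 2) ^ D' :=
          Real.one_le_rpow (by norm_num) (le_max_right _ _)
        simp only [Nat.cast_zero] at h1 h4 ⊢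
        linarith
      · have hr1 : (1 : ℝ) ≤ r := by exact_mod_cast Nat.one_le_iff_ne_zero.2 hrr
        calc (s r : ℝ) ≤ (r : ℝ) ^ D := h1
          _ ≤ (r : ℝ) ^ D' := Real.rpow_le_rpow_of_exponent_le hr1 (le_max_left _ _)
          _ ≤ ((r : ℝ) + 2) ^ D' := Real.rpow_le_rpow hr0 (by linarith) (le_max_right _ _)
    have h3 : (s r : ℝ) + 2 ≤ ((r : ℝ) + 2) ^ (D' + 2) := by
      have h5 : (1 : ℝ) ≤ ((r : ℝ) + 2) ^ D' := Real.one_le_rpow hr2 (le_max_right _ _)
      have h6 : ((r : ℝ) + 2) ^ (D' + 2) = ((r : ℝ) + 2) ^ D' * ((r : ℝ) + 2) ^ (2 : ℝ) :=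
        Real.rpow_add (by linarith) _ _
      have h7 : (4 : ℝ) ≤ ((r : ℝ) + 2) ^ (2 : ℝ) := by
        rw [Real.rpow_two]; nlinarith
      rw [h6]
      have h8 : ((r : ℝ) + 2) ^ D' * 4 ≤ ((r : ℝ) + 2) ^ D' * ((r : ℝ) + 2) ^ (2 : ℝ) :=
        mul_le_mul_of_nonneg_left h7 (by linarith)
      linarith
    calc Real.log ((s r : ℝ) + 2) ≤ Real.log (((r : ℝ) + 2) ^ (D' + 2)) := by
          apply Real.log_le_log _ h3
          have : (0 : ℝ) ≤ s r := Nat.cast_nonneg _
          linarith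
      _ = (D' + 2) * Real.log ((r : ℝ) + 2) := Real.log_rpow (by linarith) _
      _ ≤ (M / Real.log 2 + (D' + 2)) * Real.log ((r : ℝ) + 2) := by
          apply mul_le_mul_of_nonneg_right _ (by linarith [hlr r])
          have : 0 ≤ M / Real.log 2 := by positivity
          linarith

theorem arrBound {k : ℕ} (c c' : Fin k → ℝ) (g : Fin k → ℕ → ℝ) (s : ℕ → ℕ) (a b : Fin k → ℝ) (D : ℝ)
    (hD : ∀ᶠ r : ℕ in atTop, (s r : ℝ) ≤ (r : ℝ) ^ D)
    (hb : ∀ i, ∃ C : ℝ, ∀ n : ℕ, ∀ ω ∈ B (a i) (b i), th ⌊xx (c i) (c' i) (g i) n ω⌋₊ ≤ C * Real.log (n + 2)) :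
    ∃ C : ℝ, ∀ r : ℕ, ∀ᵐ ω ∂(mu a b), 0 ≤ arr c c' g s r ω ∧ arr c c' g s r ω ≤ C * (Real.log (r + 2)) ^ k := by
  choose K hK using hb
  obtain ⟨C, hC0, hC⟩ := logBound s D hD
  refine ⟨∏ i, (|K i| * C), fun r => ?_⟩
  have hae : ∀ᵐ ω ∂(mu a b), ∀ i, ω i ∈ B (a i) (b i) := by
    rw [ae_all_iff]
    intro i
    have h1 : ∀ᵐ x ∂(volume.restrict (B (a i) (b i))), x ∈ B (a i) (b i) :=
      ae_restrict_mem (measurableSet_Icc.prod measurableSet_Icc)
    exact (Measure.quasiMeasurePreserving_eval (μ := fun i => volume.restrict (B (a i) (b i))) i).ae h1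
  filter_upwards [hae] with ω hω
  constructor
  · exact Finset.prod_nonneg (fun i _ => th_nonneg _)
  · unfold arr
    calc ∏ i, th ⌊xx (c i) (c' i) (g i) (s r) (ω i)⌋₊
        ≤ ∏ i : Fin k, (|K i| * C) * Real.log ((r : ℝ) + 2) := by
          apply Finset.prod_le_prod
          · intro i _; exact th_nonneg _
          · intro i _
            have h1 := hK i (s r) (ω i) (hω i)
            have h0 : 0 ≤ Real.log ((s r : ℝ) + 2) := by
              apply Real.log_nonneg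
              have : (0 : ℝ) ≤ s r := Nat.cast_nonneg _
              linarith
            calc th ⌊xx (c i) (c' i) (g i) (s r) (ω i)⌋₊ ≤ K i * Real.log ((s r : ℝ) + 2) := h1
              _ ≤ |K i| * Real.log ((s r : ℝ) + 2) :=
                mul_le_mul_of_nonneg_right (le_abs_self _) h0
              _ ≤ |K i| * (C * Real.log ((r : ℝ) + 2)) :=
                mul_le_mul_of_nonneg_left (hC r) (abs_nonneg _)
              _ = (|K i| * C) * Real.log ((r : ℝ) + 2) := by ring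
      _ = (∏ i, (|K i| * C)) * (Real.log ((r : ℝ) + 2)) ^ k := by
          rw [Finset.prod_mul_distrib, Finset.prod_const, Finset.card_univ, Fintype.card_fin]

end J14

end Pool.Agent.helper616_RP
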