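import Pool.Agent.helper616_RP.Defs

/-!
# Project RP (helper616): the first moments
-/

set_option autoImplicit false

open Finset MeasureTheory Filter Topology

namespace Pool.Agent.helper616_RP

namespace J15


theorem fm_int {k : ℕ} (c c' : Fin k → ℝ) (g : Fin k → ℕ → ℝ) (s : ℕ → ℕ) (r : ℕ)
    (a b : Fin k → ℝ) : ∫ ω, arr c c' g s r ω ∂(mu a b) =
      ∏ i, ∫ ω in B (a i) (b i), th ⌊xx (c i) (c' i) (g i) (s r) ω⌋₊ := by
  unfold arr mu
  exact integral_fintype_prod_eq_prod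
    (f := fun i (ω : ℝ × ℝ) => th ⌊xx (c i) (c' i) (g i) (s r) ω⌋₊)

theorem fm_log {R : ℕ} (hR : 4 ≤ R) : Real.log R / 3 ≤ Real.log (Nat.sqrt R) := by
  have h2 : 2 ≤ Nat.sqrt R := by
    rw [Nat.le_sqrt]
    omega
  have h3 : R ≤ Nat.sqrt R ^ 3 := by
    have h4 : R < (Nat.sqrt R + 1) * (Nat.sqrt R + 1) := Nat.lt_succ_sqrt R
    obtain ⟨t, ht⟩ := Nat.exists_eq_add_of_le h2
    rw [ht] at h4 ⊢
    have h5 : (2 + t + 1) * (2 + t + 1) ≤ (2 + t) ^ 3 + 1 := by
      have h6 : (2 + t) ^ 3 + 1 = (2 + t + 1) * (2 + t + 1) + (6 * t + 5 * t ^ 2 + t ^ 3) := by ring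
      omega
    omega
  have h5 : Real.log R ≤ Real.log ((Nat.sqrt R : ℝ) ^ 3) := by
    apply Real.log_le_log
    · positivity
    · exact_mod_cast h3
  rw [Real.log_pow] at h5
  push_cast at h5
  linarith

theorem firstMoments {k : ℕ} (c c' : Fin k → ℝ) (g : Fin k → ℕ → ℝ) (s : ℕ → ℕ) (hs : StrictMono s) (a b : Fin k → ℝ)
    (h : ∀ i, ∀ A : ℕ, ∃ C : ℝ, ∀ᶠ n : ℕ in atTop,
      |(∫ ω in B (a i) (b i), th ⌊xx (c i) (c' i) (g i) n ω⌋₊) - 1| ≤ C / (Real.log n) ^ A) (A : ℕ) :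
    ∃ C' : ℝ, ∀ R : ℕ, 2 ≤ R →
      ∑ r ∈ Ico (Nat.sqrt R) R, |(∫ ω, arr c c' g s r ω ∂(mu a b)) - 1| ≤ C' * R / (Real.log R) ^ A := by
  choose C hC using fun i => h i A
  have hC' : ∀ᶠ n : ℕ in atTop, ∀ i,
      |(∫ ω in B (a i) (b i), th ⌊xx (c i) (c' i) (g i) n ω⌋₊) - 1| ≤
        C i / (Real.log n) ^ A := by
    rw [eventually_all]
    exact hC
  obtain ⟨N₀, hN₀⟩ := eventually_atTop.1 hC'
  set K : ℝ := ∑ i, |C i| with hK
  have hK0 : 0 ≤ K := Finset.sum_nonneg fun i _ => abs_nonneg _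
  have hl2 : 0 < Real.log 2 := Real.log_pos (by norm_num)
  set D : ℝ := K * Real.exp (K / (Real.log 2) ^ A) with hD
  have hD0 : 0 ≤ D := by positivity
  -- the main bound
  have main : ∀ r : ℕ, N₀ ≤ s r → 2 ≤ s r →
      |(∫ ω, arr c c' g s r ω ∂(mu a b)) - 1| ≤ D / (Real.log (s r)) ^ A := by
    intro r h1 h2
    rw [fm_int]
    have hlog : Real.log 2 ≤ Real.log (s r) :=
      Real.log_le_log (by norm_num) (by exact_mod_cast h2)
    have hlp : 0 < Real.log (s r) := hl2.trans_le hlog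
    have e1 : ∏ i, ∫ ω in B (a i) (b i), th ⌊xx (c i) (c' i) (g i) (s r) ω⌋₊ =
        ∏ i, (1 + ((∫ ω in B (a i) (b i), th ⌊xx (c i) (c' i) (g i) (s r) ω⌋₊) - 1)) := by
      refine Finset.prod_congr rfl fun i _ => ?_
      ring
    rw [e1]
    have e2 := Finset.norm_prod_one_add_sub_one_le Finset.univ
      (fun i => (∫ ω in B (a i) (b i), th ⌊xx (c i) (c' i) (g i) (s r) ω⌋₊) - 1)
    rw [Real.norm_eq_abs] at e2
    refine e2.trans ?_
    have e3 : ∑ i, ‖(∫ ω in B (a i) (b i), th ⌊xx (c i) (c' i) (g i) (s r) ω⌋₊) - 1‖ ≤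
        K / (Real.log (s r)) ^ A := by
      rw [hK, Finset.sum_div]
      refine Finset.sum_le_sum fun i _ => ?_
      rw [Real.norm_eq_abs]
      refine (hN₀ (s r) h1 i).trans ?_
      exact div_le_div_of_nonneg_right (le_abs_self _) (by positivity)
    have e4 : K / (Real.log (s r)) ^ A ≤ K / (Real.log 2) ^ A := by
      apply div_le_div_of_nonneg_left hK0 (by positivity)
      exact pow_le_pow_left₀ hl2.le hlog A
    set t := ∑ i, ‖(∫ ω in B (a i) (b i), th ⌊xx (c i) (c' i) (g i) (s r) ω⌋₊) - 1‖ with ht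
    have ht0 : 0 ≤ t := Finset.sum_nonneg fun i _ => norm_nonneg _
    have e5 : Real.exp t - 1 ≤ t * Real.exp t := by
      have := Real.add_one_le_exp (-t)
      have h3 : Real.exp t * Real.exp (-t) = 1 := by
        rw [← Real.exp_add]
        simp
      nlinarith [Real.exp_pos t]
    refine e5.trans ?_
    have e6 : Real.exp t ≤ Real.exp (K / (Real.log 2) ^ A) :=
      Real.exp_le_exp.2 (e3.trans e4)
    calc t * Real.exp t ≤ (K / (Real.log (s r)) ^ A) * Real.exp (K / (Real.log 2) ^ A) :=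
          mul_le_mul e3 e6 (Real.exp_pos _).le (by positivity)
      _ = D / (Real.log (s r)) ^ A := by
          rw [hD]
          ring
  set R₀ : ℕ := max 4 ((N₀ + 2) ^ 2) with hR₀
  set S : ℕ → ℝ := fun R => ∑ r ∈ Ico (Nat.sqrt R) R,
    |(∫ ω, arr c c' g s r ω ∂(mu a b)) - 1| with hS
  have hS0 : ∀ R, 0 ≤ S R := fun R => Finset.sum_nonneg fun r _ => abs_nonneg _
  have hlR : ∀ R : ℕ, 0 ≤ Real.log R := fun R => Real.log_natCast_nonneg R
  refine ⟨D * 3 ^ A + ∑ R ∈ range R₀, S R * (Real.log R) ^ A / R, fun R hR => ?_⟩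
  have hRlog : 0 < Real.log R := Real.log_pos (by exact_mod_cast hR)
  have hRpos : (0 : ℝ) < R := by
    have : (2 : ℝ) ≤ R := by exact_mod_cast hR
    linarith
  have hsum0 : 0 ≤ ∑ R ∈ range R₀, S R * (Real.log R) ^ A / R :=
    Finset.sum_nonneg fun R _ => by
      have := hS0 R
      have := hlR R
      positivity
  change S R ≤ _
  rcases lt_or_ge R R₀ with hlt | hge
  · have h1 : S R * (Real.log R) ^ A / R ≤ ∑ R ∈ range R₀, S R * (Real.log R) ^ A / R :=
      Finset.single_le_sum (f := fun R : ℕ => S R * (Real.log R) ^ A / R)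
        (fun R _ => by
          have := hS0 R
          have := hlR R
          positivity) (Finset.mem_range.2 hlt)
    have h2 : S R = S R * (Real.log R) ^ A / R * R / (Real.log R) ^ A := by
      field_simp
    rw [h2]
    have h3 : 0 ≤ D * 3 ^ A := by positivity
    gcongr
    linarith
  · have h4 : 4 ≤ R := (le_max_left _ _).trans hge
    have h5 : (N₀ + 2) ^ 2 ≤ R := (le_max_right _ _).trans hge
    have h6 : N₀ + 2 ≤ Nat.sqrt R := by
      rw [Nat.le_sqrt']
      exact h5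
    have h7 : ∀ r ∈ Ico (Nat.sqrt R) R,
        |(∫ ω, arr c c' g s r ω ∂(mu a b)) - 1| ≤ D * 3 ^ A / (Real.log R) ^ A := by
      intro r hr
      rw [Finset.mem_Ico] at hr
      have h8 : Nat.sqrt R ≤ s r := hr.1.trans (hs.le_apply)
      refine (main r (by omega) (by omega)).trans ?_
      have h9 : Real.log R / 3 ≤ Real.log (s r) := by
        refine (fm_log h4).trans (Real.log_le_log ?_ ?_)
        · have : 0 < Nat.sqrt R := by omega
          exact_mod_cast this
        · exact_mod_cast h8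
      have h10 : D * 3 ^ A / (Real.log R) ^ A = D / (Real.log R / 3) ^ A := by
        rw [div_pow]
        field_simp
      rw [h10]
      exact div_le_div_of_nonneg_left hD0 (by positivity)
        (pow_le_pow_left₀ (by positivity) h9 A)
    calc S R ≤ ∑ r ∈ Ico (Nat.sqrt R) R, D * 3 ^ A / (Real.log R) ^ A := Finset.sum_le_sum h7
      _ = ((Ico (Nat.sqrt R) R).card : ℝ) * (D * 3 ^ A / (Real.log R) ^ A) := by
          rw [Finset.sum_const, nsmul_eq_mul]
      _ ≤ R * (D * 3 ^ A / (Real.log R) ^ A) := by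
          apply mul_le_mul_of_nonneg_right _ (by positivity)
          rw [Nat.card_Ico]
          exact_mod_cast Nat.sub_le _ _
      _ = (D * 3 ^ A) * R / (Real.log R) ^ A := by ring
      _ ≤ _ := by
          gcongr
          linarith

end J15

end Pool.Agent.helper616_RP
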