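import Pool.Agent.helper616_RP.Defs
import Pool.Agent.helper616_RP.J10

/-!
# Project RP (helper616): the second moments
-/

set_option autoImplicit false
set_option maxHeartbeats 4000000

open Finset MeasureTheory Filter Topology

namespace Pool.Agent.helper616_RP

open J10 (badPairs)

namespace J16


section secondMomentsAux

theorem sm_th_nonneg (n : ℕ) : 0 ≤ th n := by
  unfold th
  split_ifs
  · exact Real.log_natCast_nonneg n
  · exact le_rfl

theorem sm_vol (a b : ℝ) : volume (B a b) = 1 := by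
  unfold B
  rw [Measure.volume_eq_prod, Measure.prod_prod, Real.volume_Icc, Real.volume_Icc]
  norm_num

theorem sm_prod {k : ℕ} (x : Fin k → ℝ) (ε : ℝ) (hε : 0 ≤ ε) (h : ∀ i, |x i - 1| ≤ ε)
    (s : Finset (Fin k)) : |∏ i ∈ s, x i - 1| ≤ (1 + ε) ^ s.card - 1 := by
  classical
  induction s using Finset.induction with
  | empty => simp
  | insert a s ha ih =>
    rw [Finset.prod_insert ha, Finset.card_insert_of_notMem ha]
    have h1 : x a * ∏ i ∈ s, x i - 1 = (x a - 1) * ∏ i ∈ s, x i + (∏ i ∈ s, x i - 1) := by ring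
    have h2 : |∏ i ∈ s, x i| ≤ (1 + ε) ^ s.card := by
      have := abs_add_le (∏ i ∈ s, x i - 1) 1
      rw [sub_add_cancel, abs_one] at this
      linarith
    rw [h1]
    refine (abs_add_le _ _).trans ?_
    rw [abs_mul]
    have h3 := mul_le_mul (h a) h2 (abs_nonneg _) hε
    rw [pow_succ]
    linarith

theorem sm_pow (k : ℕ) (ε M : ℝ) (hε : 0 ≤ ε) (hM : ε ≤ M) :
    (1 + ε) ^ k - 1 ≤ k * ε * (1 + M) ^ k := by
  induction k with
  | zero => simp
  | succ k ih =>
    have h1 : (1 + ε) ^ k ≤ (1 + M) ^ k := pow_le_pow_left₀ (by linarith) (by linarith) k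
    have h2 : (1 + M) ^ k ≤ (1 + M) ^ (k + 1) := pow_le_pow_right₀ (by linarith) (Nat.le_succ k)
    have h3 : (0 : ℝ) ≤ k * ε := by positivity
    rw [pow_succ (1 + ε)]
    push_cast
    have h4 := mul_le_mul_of_nonneg_left h1 hε
    have h5 := mul_le_mul_of_nonneg_left h2 h3
    have h6 := mul_le_mul_of_nonneg_left h2 hε
    nlinarith

theorem sm_log_pow (ν : ℝ) (hν : ν < 1) (N : ℕ) (hN : 1 ≤ N) :
    ∃ E : ℝ, 0 ≤ E ∧ ∀ R : ℕ, 1 ≤ R → (Real.log R) ^ N * (R : ℝ) ^ ν ≤ E * R := by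
  have hN' : (0 : ℝ) < N := by exact_mod_cast hN
  have hε : 0 < (1 - ν) / N := div_pos (by linarith) hN'
  refine ⟨(1 / ((1 - ν) / N)) ^ N, by positivity, fun R hR => ?_⟩
  have hR' : (1 : ℝ) ≤ R := by exact_mod_cast hR
  have hR0 : (0 : ℝ) < R := by linarith
  have h1 := Real.log_le_rpow_div hR0.le hε
  have h2 : (Real.log R) ^ N ≤ ((R : ℝ) ^ ((1 - ν) / N) / ((1 - ν) / N)) ^ N :=
    pow_le_pow_left₀ (Real.log_nonneg hR') h1 N
  have h3 : ((R : ℝ) ^ ((1 - ν) / N) / ((1 - ν) / N)) ^ N =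
      (1 / ((1 - ν) / N)) ^ N * (R : ℝ) ^ (1 - ν) := by
    rw [div_pow, ← Real.rpow_natCast ((R : ℝ) ^ ((1 - ν) / N)) N, ← Real.rpow_mul hR0.le,
      div_mul_cancel₀ _ hN'.ne', one_div, inv_pow]
    ring
  rw [h3] at h2
  have h4 : (R : ℝ) ^ (1 - ν) * (R : ℝ) ^ ν = R := by
    rw [← Real.rpow_add hR0]
    simp
  calc (Real.log R) ^ N * (R : ℝ) ^ ν
      ≤ ((1 / ((1 - ν) / N)) ^ N * (R : ℝ) ^ (1 - ν)) * (R : ℝ) ^ ν :=
        mul_le_mul_of_nonneg_right h2 (Real.rpow_nonneg hR0.le _)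
    _ = (1 / ((1 - ν) / N)) ^ N * R := by rw [mul_assoc, h4]

/-- small arguments -/
theorem sm_small (F W : ℕ → ℝ) (hW : ∀ R, 2 ≤ R → 0 < W R) (C : ℝ) (R₀ : ℕ)
    (h : ∀ R, R₀ ≤ R → 2 ≤ R → F R ≤ C * W R) : ∃ C' : ℝ, ∀ R, 2 ≤ R → F R ≤ C' * W R := by
  refine ⟨|C| + ∑ R ∈ range R₀, |F R / W R|, fun R hR => ?_⟩
  have hs : 0 ≤ ∑ R ∈ range R₀, |F R / W R| := Finset.sum_nonneg fun _ _ => abs_nonneg _
  by_cases hRR : R₀ ≤ R
  · refine (h R hRR hR).trans (mul_le_mul_of_nonneg_right ?_ (hW R hR).le)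
    have := le_abs_self C
    linarith
  · have h1 : |F R / W R| ≤ ∑ R ∈ range R₀, |F R / W R| :=
      Finset.single_le_sum (f := fun R => |F R / W R|) (fun _ _ => abs_nonneg _)
        (Finset.mem_range.2 (by omega))
    have h2 : F R = (F R / W R) * W R := by
      rw [div_mul_cancel₀ _ (hW R hR).ne']
    rw [h2]
    refine mul_le_mul_of_nonneg_right ?_ (hW R hR).le
    have h3 := le_abs_self (F R / W R)
    have h4 := abs_nonneg C
    linarith

end secondMomentsAux

theorem secondMoments {k : ℕ} (c c' : Fin k → ℝ) (g : Fin k → ℕ → ℝ) (s : ℕ → ℕ) (hs : StrictMono s) (a b : Fin k → ℝ)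
    (η D : ℝ) (hη : 0 ≤ η) (hD : ∀ᶠ r : ℕ in atTop, (s r : ℝ) ≤ (r : ℝ) ^ D) (hDη : D * (1 - η) < 1)
    (hb : ∀ i, ∃ C : ℝ, ∀ n : ℕ, ∀ ω ∈ B (a i) (b i), th ⌊xx (c i) (c' i) (g i) n ω⌋₊ ≤ C * Real.log (n + 2))
    (hpair : ∀ i, ∀ D' A : ℕ, ∃ C : ℝ, ∃ n₀ : ℕ, ∀ n m : ℕ, n₀ ≤ n → n < m → m ≤ n ^ D' →
      (m : ℝ) ^ (1 - η) ≤ (m : ℝ) - n →
      |(∫ ω in B (a i) (b i), th ⌊xx (c i) (c' i) (g i) n ω⌋₊ * th ⌊xx (c i) (c' i) (g i) m ω⌋₊) - 1| ≤
        C / (Real.log m) ^ A) (A : ℕ) :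
    ∃ C' : ℝ, ∀ R : ℕ, 2 ≤ R →
      ∑ q ∈ Ico (Nat.sqrt R) R, ∑ r ∈ Ico (Nat.sqrt R) R,
        |(∫ ω, arr c c' g s q ω * arr c c' g s r ω ∂(mu a b)) - 1| ≤ C' * (R : ℝ) ^ 2 / (Real.log R) ^ A := by
  classical
  choose C0 hC0 using hb
  set K : ℝ := ∑ i, |C0 i| with hK
  have hK0 : 0 ≤ K := Finset.sum_nonneg fun _ _ => abs_nonneg _
  have hCK : ∀ i, C0 i ≤ K := fun i => (le_abs_self _).trans
    (Finset.single_le_sum (f := fun i => |C0 i|) (fun _ _ => abs_nonneg _) (Finset.mem_univ i))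
  set J : Fin k → ℕ → ℕ → ℝ := fun i n m => ∫ ω in B (a i) (b i),
    th ⌊xx (c i) (c' i) (g i) n ω⌋₊ * th ⌊xx (c i) (c' i) (g i) m ω⌋₊ with hJ
  have hint : ∀ q r, ∫ ω, arr c c' g s q ω * arr c c' g s r ω ∂(mu a b) =
      ∏ i, J i (s q) (s r) := by
    intro q r
    unfold arr mu
    simp_rw [← Finset.prod_mul_distrib]
    exact integral_fintype_prod_eq_prod (fun i ω => th ⌊xx (c i) (c' i) (g i) (s q) ω⌋₊ *
      th ⌊xx (c i) (c' i) (g i) (s r) ω⌋₊)
  have hlog2 : ∀ n : ℕ, 0 ≤ Real.log ((n : ℝ) + 2) := by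
    intro n
    apply Real.log_nonneg
    have : (0 : ℝ) ≤ n := Nat.cast_nonneg n
    linarith
  have hJb : ∀ i n m, |J i n m| ≤ (K * Real.log ((n : ℝ) + 2)) * (K * Real.log ((m : ℝ) + 2)) := by
    intro i n m
    have h1 : ∀ (n : ℕ) (ω : ℝ × ℝ), ω ∈ B (a i) (b i) →
        |th ⌊xx (c i) (c' i) (g i) n ω⌋₊| ≤ K * Real.log ((n : ℝ) + 2) := by
      intro n ω hω
      rw [abs_of_nonneg (sm_th_nonneg _)]
      exact (hC0 i n ω hω).trans (mul_le_mul_of_nonneg_right (hCK i) (hlog2 n))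
    have h2 := norm_setIntegral_le_of_norm_le_const (μ := volume) (s := B (a i) (b i))
      (f := fun ω => th ⌊xx (c i) (c' i) (g i) n ω⌋₊ * th ⌊xx (c i) (c' i) (g i) m ω⌋₊)
      (C := (K * Real.log ((n : ℝ) + 2)) * (K * Real.log ((m : ℝ) + 2)))
      (by rw [sm_vol]; exact ENNReal.one_lt_top) (by
        intro ω hω
        rw [Real.norm_eq_abs, abs_mul]
        exact mul_le_mul (h1 n ω hω) (h1 m ω hω) (abs_nonneg _) (mul_nonneg hK0 (hlog2 n)))
    have h3 : (volume : Measure (ℝ × ℝ)).real (B (a i) (b i)) = 1 := by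
      simp [Measure.real, sm_vol]
    rw [h3, mul_one, Real.norm_eq_abs] at h2
    exact h2
  have hJs : ∀ i n m, J i n m = J i m n := by
    intro i n m
    simp only [hJ]
    congr 1
    funext ω
    ring
  obtain ⟨D2, hD2⟩ := exists_nat_ge D
  choose C1 n1 hC1 using fun i => hpair i (4 * D2) A
  set Cm : ℝ := ∑ i, |C1 i| with hCm
  have hCm0 : 0 ≤ Cm := Finset.sum_nonneg fun _ _ => abs_nonneg _
  have hC1m : ∀ i, C1 i ≤ Cm := fun i => (le_abs_self _).trans
    (Finset.single_le_sum (f := fun i => |C1 i|) (fun _ _ => abs_nonneg _) (Finset.mem_univ i))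
  set N0 : ℕ := ∑ i, n1 i with hN0
  have hn1 : ∀ i, n1 i ≤ N0 := fun i =>
    Finset.single_le_sum (f := n1) (fun _ _ => Nat.zero_le _) (Finset.mem_univ i)
  obtain ⟨r0, hr0⟩ := eventually_atTop.1 hD
  obtain ⟨ν, C3, hν, hbp⟩ := badPairs s hs η D hη hD hDη
  set bad : ℕ → ℕ → Prop := fun q r => (s r : ℝ) - s q < (s r : ℝ) ^ (1 - η) with hbaddef
  set ν' : ℝ := max ν 0 with hν'
  have hν1 : ν' < 1 := max_lt hν one_pos
  have hν0 : 0 ≤ ν' := le_max_right _ _
  have hbad : ∀ R : ℕ, 1 ≤ R → ∀ r, r < R →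
      ∑ q ∈ range r, (if bad q r then (1 : ℝ) else 0) ≤ |C3| * (R : ℝ) ^ ν' := by
    intro R hR r hr
    have h1 := hbp R hR r hr
    have h2 : (((range r).filter (fun q => @decide ((s r : ℝ) - s q < (s r : ℝ) ^ (1 - η))
        (Classical.dec _) = true)).card : ℝ) = ∑ q ∈ range r, (if bad q r then (1 : ℝ) else 0) := by
      rw [Finset.card_filter]
      push_cast
      refine Finset.sum_congr rfl fun q _ => ?_
      simp only [decide_eq_true_eq, hbaddef]
    rw [h2] at h1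
    have hR' : (1 : ℝ) ≤ R := by exact_mod_cast hR
    refine h1.trans ?_
    exact mul_le_mul (le_abs_self _) (Real.rpow_le_rpow_of_exponent_le hR' (le_max_left _ _))
      (Real.rpow_nonneg (by linarith) _) (abs_nonneg _)
  set m0 : ℕ := max (max r0 N0) 3 with hm0
  set M : ℝ := Cm * 2 ^ A with hM
  have hM0 : 0 ≤ M := by positivity
  set G : ℝ := k * M * (1 + M) ^ k with hG
  have hG0 : 0 ≤ G := by positivity
  set Q : ℝ := K ^ 2 * ((D2 : ℝ) + 2) ^ 2 with hQ
  have hQ0 : 0 ≤ Q := by positivity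
  obtain ⟨E, hE0, hE⟩ := sm_log_pow ν' hν1 (2 * k + A + 1) (by omega)
  -- the bound for large R
  have key : ∀ R : ℕ, m0 * m0 ≤ R → 2 ≤ R →
      ∑ q ∈ Ico (Nat.sqrt R) R, ∑ r ∈ Ico (Nat.sqrt R) R,
        |(∫ ω, arr c c' g s q ω * arr c c' g s r ω ∂(mu a b)) - 1| ≤
      (G + (Q ^ k + 1) * (1 + 2 * |C3|) * E) * ((R : ℝ) ^ 2 / (Real.log R) ^ A) := by
    intro R hR _
    have hmS : m0 ≤ Nat.sqrt R := Nat.le_sqrt.2 hR
    have h3m : 3 ≤ m0 := le_max_right _ _
    have hR9 : 9 ≤ R := by nlinarith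
    have hR9' : (9 : ℝ) ≤ R := by exact_mod_cast hR9
    have hR0 : (0 : ℝ) < R := by linarith
    have hL1 : 1 ≤ Real.log R := by
      rw [Real.le_log_iff_exp_le hR0]
      have := Real.exp_one_lt_d9
      linarith
    have hL0 : 0 < Real.log R := by linarith
    have hRS : R < (Nat.sqrt R + 1) * (Nat.sqrt R + 1) := Nat.lt_succ_sqrt R
    have hq : ∀ q ∈ Ico (Nat.sqrt R) R, m0 ≤ q ∧ q < R ∧ Nat.sqrt R ≤ q ∧
        (s q : ℝ) ≤ (R : ℝ) ^ D2 := by
      intro q hq
      rw [Finset.mem_Ico] at hq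
      have h1 : m0 ≤ q := hmS.trans hq.1
      have hq1 : (1 : ℝ) ≤ q := by exact_mod_cast (by omega : 1 ≤ q)
      refine ⟨h1, hq.2, hq.1, ?_⟩
      have h2 : r0 ≤ q := ((le_max_left _ _).trans (le_max_left _ _)).trans h1
      refine (hr0 q h2).trans ?_
      refine (Real.rpow_le_rpow_of_exponent_le hq1 hD2).trans ?_
      rw [Real.rpow_natCast]
      exact pow_le_pow_left₀ (by linarith) (by exact_mod_cast hq.2.le) _
    have hlogq : ∀ q ∈ Ico (Nat.sqrt R) R,
        K * Real.log ((s q : ℝ) + 2) ≤ K * (((D2 : ℝ) + 2) * Real.log R) := by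
      intro q hq'
      obtain ⟨-, -, -, h4⟩ := hq q hq'
      refine mul_le_mul_of_nonneg_left ?_ hK0
      have h5 : (s q : ℝ) + 2 ≤ (R : ℝ) ^ (D2 + 2) := by
        have h6 : (1 : ℝ) ≤ (R : ℝ) ^ D2 := one_le_pow₀ (by linarith)
        rw [pow_add]
        have h6b : (3 : ℝ) ≤ (R : ℝ) ^ 2 := by nlinarith
        have h6c := mul_le_mul_of_nonneg_left h6b (by linarith : (0 : ℝ) ≤ (R : ℝ) ^ D2)
        linarith
      have h7 : (0 : ℝ) < (s q : ℝ) + 2 := by positivity
      have h8 := Real.log_le_log h7 h5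
      rw [Real.log_pow] at h8
      push_cast at h8
      exact h8
    -- arbitrary pairs
    have hany : ∀ q ∈ Ico (Nat.sqrt R) R, ∀ r ∈ Ico (Nat.sqrt R) R,
        |∏ i, J i (s q) (s r) - 1| ≤ (Q ^ k + 1) * (Real.log R) ^ (2 * k) := by
      intro q hq' r hr'
      have h1 : |∏ i, J i (s q) (s r)| ≤ (Q * (Real.log R) ^ 2) ^ k := by
        rw [Finset.abs_prod]
        calc ∏ i, |J i (s q) (s r)| ≤ ∏ _i : Fin k, (Q * (Real.log R) ^ 2) := by
              refine Finset.prod_le_prod (fun _ _ => abs_nonneg _) fun i _ => ?_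
              refine (hJb i (s q) (s r)).trans ?_
              have h2 := mul_le_mul (hlogq q hq') (hlogq r hr') (mul_nonneg hK0 (hlog2 _))
                (by positivity)
              refine h2.trans (le_of_eq ?_)
              rw [hQ]
              ring
          _ = (Q * (Real.log R) ^ 2) ^ k := by simp
      have h2 : |∏ i, J i (s q) (s r) - 1| ≤ |∏ i, J i (s q) (s r)| + 1 := by
        have := abs_sub (∏ i, J i (s q) (s r)) 1
        rwa [abs_one] at this
      have h3 : (1 : ℝ) ≤ (Real.log R) ^ (2 * k) := one_le_pow₀ hL1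
      rw [mul_pow, ← pow_mul] at h1
      linarith
    -- good pairs
    have hgood : ∀ q ∈ Ico (Nat.sqrt R) R, ∀ r ∈ Ico (Nat.sqrt R) R, q < r → ¬ bad q r →
        |∏ i, J i (s q) (s r) - 1| ≤ G / (Real.log R) ^ A := by
      intro q hq' r hr' hqr hnb
      obtain ⟨q1, q2, q3, q4⟩ := hq q hq'
      obtain ⟨r1, r2, r3, r4⟩ := hq r hr'
      have hqs : q ≤ s q := hs.le_apply
      have hsqr : s q < s r := hs hqr
      have hRq : R ≤ q ^ 4 := by
        have h1 : (Nat.sqrt R + 1) * (Nat.sqrt R + 1) ≤ (q + 1) * (q + 1) := by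
          have : Nat.sqrt R + 1 ≤ q + 1 := by omega
          exact Nat.mul_le_mul this this
        have h2 : q + 1 ≤ q * q := by nlinarith
        have h3 : (q + 1) * (q + 1) ≤ (q * q) * (q * q) := Nat.mul_le_mul h2 h2
        have h4 : (q * q) * (q * q) = q ^ 4 := by ring
        omega
      have hmn : s r ≤ (s q) ^ (4 * D2) := by
        have h1 : s r ≤ R ^ D2 := by exact_mod_cast r4
        refine h1.trans ?_
        rw [pow_mul]
        exact Nat.pow_le_pow_left (hRq.trans (Nat.pow_le_pow_left hqs 4)) D2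
      have hnb' : (s r : ℝ) ^ (1 - η) ≤ (s r : ℝ) - s q := not_lt.1 hnb
      have hlog : Real.log R / 2 ≤ Real.log (s r) := by
        have h1 : R ≤ s r * s r := by
          have : Nat.sqrt R + 1 ≤ s r := by omega
          exact hRS.le.trans (Nat.mul_le_mul this this)
        have h2 : (R : ℝ) ≤ (s r : ℝ) ^ 2 := by
          have : ((R : ℕ) : ℝ) ≤ ((s r * s r : ℕ) : ℝ) := by exact_mod_cast h1
          push_cast at this
          nlinarith
        have h3 := Real.log_le_log hR0 h2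
        rw [Real.log_pow] at h3
        push_cast at h3
        linarith
      have hε : ∀ i, |J i (s q) (s r) - 1| ≤ M / (Real.log R) ^ A := by
        intro i
        have h0 : n1 i ≤ s q := by
          have h1 : N0 ≤ m0 := (le_max_right _ _).trans (le_max_left _ _)
          have := hn1 i
          omega
        have h1 := hC1 i (s q) (s r) h0 hsqr hmn hnb'
        have h2 : (Real.log R / 2) ^ A ≤ (Real.log (s r)) ^ A :=
          pow_le_pow_left₀ (by positivity) hlog A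
        have h3 : (0 : ℝ) < (Real.log R / 2) ^ A := by positivity
        refine h1.trans ?_
        calc C1 i / (Real.log (s r)) ^ A ≤ Cm / (Real.log (s r)) ^ A :=
              div_le_div_of_nonneg_right (hC1m i) (h3.le.trans h2)
          _ ≤ Cm / (Real.log R / 2) ^ A := div_le_div_of_nonneg_left hCm0 h3 h2
          _ = M / (Real.log R) ^ A := by
              rw [hM, div_pow]
              field_simp
      have hLA : (1 : ℝ) ≤ (Real.log R) ^ A := one_le_pow₀ hL1
      have hεM : M / (Real.log R) ^ A ≤ M := div_le_self hM0 hLA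
      have hε0 : 0 ≤ M / (Real.log R) ^ A := by positivity
      have h1 := sm_prod (fun i => J i (s q) (s r)) _ hε0 hε Finset.univ
      rw [Finset.card_univ, Fintype.card_fin] at h1
      refine h1.trans ((sm_pow k _ M hε0 hεM).trans (le_of_eq ?_))
      rw [hG]
      ring
    have hpt : ∀ q ∈ Ico (Nat.sqrt R) R, ∀ r ∈ Ico (Nat.sqrt R) R,
        |∏ i, J i (s q) (s r) - 1| ≤ G / (Real.log R) ^ A +
          (Q ^ k + 1) * (Real.log R) ^ (2 * k) * ((if q = r then 1 else 0) +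
            ((if q < r ∧ bad q r then 1 else 0) + (if r < q ∧ bad r q then 1 else 0))) := by
      intro q hq' r hr'
      have hH : 0 ≤ (Q ^ k + 1) * (Real.log R) ^ (2 * k) := by positivity
      have hGL : 0 ≤ G / (Real.log R) ^ A := by positivity
      have h1 := hany q hq' r hr'
      rcases lt_trichotomy q r with h | h | h
      · by_cases hb' : bad q r
        · have e1 : (if q = r then (1 : ℝ) else 0) = 0 := if_neg h.ne
          have e2 : (if q < r ∧ bad q r then (1 : ℝ) else 0) = 1 := if_pos ⟨h, hb'⟩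
          have e3 : (if r < q ∧ bad r q then (1 : ℝ) else 0) = 0 :=
            if_neg fun h' => absurd h'.1 (by omega)
          rw [e1, e2, e3]
          linarith
        · have h2 := hgood q hq' r hr' h hb'
          have e1 : (if q = r then (1 : ℝ) else 0) = 0 := if_neg h.ne
          have e2 : (if q < r ∧ bad q r then (1 : ℝ) else 0) = 0 := if_neg fun h' => hb' h'.2
          have e3 : (if r < q ∧ bad r q then (1 : ℝ) else 0) = 0 :=
            if_neg fun h' => absurd h'.1 (by omega)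
          rw [e1, e2, e3]
          linarith
      · have e1 : (if q = r then (1 : ℝ) else 0) = 1 := if_pos h
        have e2 : (if q < r ∧ bad q r then (1 : ℝ) else 0) = 0 :=
          if_neg fun h' => absurd h'.1 (by omega)
        have e3 : (if r < q ∧ bad r q then (1 : ℝ) else 0) = 0 :=
          if_neg fun h' => absurd h'.1 (by omega)
        rw [e1, e2, e3]
        linarith
      · by_cases hb' : bad r q
        · have e1 : (if q = r then (1 : ℝ) else 0) = 0 := if_neg h.ne'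
          have e2 : (if q < r ∧ bad q r then (1 : ℝ) else 0) = 0 :=
            if_neg fun h' => absurd h'.1 (by omega)
          have e3 : (if r < q ∧ bad r q then (1 : ℝ) else 0) = 1 := if_pos ⟨h, hb'⟩
          rw [e1, e2, e3]
          linarith
        · have h2 := hgood r hr' q hq' h hb'
          have h3 : ∏ i, J i (s q) (s r) = ∏ i, J i (s r) (s q) :=
            Finset.prod_congr rfl fun i _ => hJs i _ _
          rw [← h3] at h2
          have e1 : (if q = r then (1 : ℝ) else 0) = 0 := if_neg h.ne'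
          have e2 : (if q < r ∧ bad q r then (1 : ℝ) else 0) = 0 :=
            if_neg fun h' => absurd h'.1 (by omega)
          have e3 : (if r < q ∧ bad r q then (1 : ℝ) else 0) = 0 := if_neg fun h' => hb' h'.2
          rw [e1, e2, e3]
          linarith
    have hcard : ((Ico (Nat.sqrt R) R).card : ℝ) ≤ R := by
      rw [Nat.card_Ico]
      exact_mod_cast Nat.sub_le _ _
    -- number of bad pairs
    have hrow : ∀ r ∈ Ico (Nat.sqrt R) R, ∑ q ∈ Ico (Nat.sqrt R) R,
        (if q < r ∧ bad q r then (1 : ℝ) else 0) ≤ |C3| * (R : ℝ) ^ ν' := by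
      intro r hr'
      obtain ⟨-, r2, -, -⟩ := hq r hr'
      refine le_trans ?_ (hbad R (by omega) r r2)
      calc ∑ q ∈ Ico (Nat.sqrt R) R, (if q < r ∧ bad q r then (1 : ℝ) else 0)
          ≤ ∑ q ∈ range R, (if q < r ∧ bad q r then (1 : ℝ) else 0) := by
            refine Finset.sum_le_sum_of_subset_of_nonneg ?_ ?_
            · intro q hq'
              rw [Finset.mem_Ico] at hq'
              exact Finset.mem_range.2 hq'.2
            · intro q _ _
              split_ifs <;> norm_num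
        _ = ∑ q ∈ range r, (if q < r ∧ bad q r then (1 : ℝ) else 0) := by
            symm
            refine Finset.sum_subset (Finset.range_subset_range.2 r2.le) ?_
            intro q _ hq'
            rw [if_neg]
            rintro ⟨h1, -⟩
            exact hq' (Finset.mem_range.2 h1)
        _ = ∑ q ∈ range r, (if bad q r then (1 : ℝ) else 0) := by
            refine Finset.sum_congr rfl fun q hq' => ?_
            have h1 := Finset.mem_range.1 hq'
            simp only [h1, true_and]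
    have hrpos : 0 ≤ |C3| * (R : ℝ) ^ ν' := by positivity
    have hbad1 : ∑ q ∈ Ico (Nat.sqrt R) R, ∑ r ∈ Ico (Nat.sqrt R) R,
        (if q < r ∧ bad q r then (1 : ℝ) else 0) ≤ R * (|C3| * (R : ℝ) ^ ν') := by
      rw [Finset.sum_comm]
      refine (Finset.sum_le_sum hrow).trans ?_
      rw [Finset.sum_const, nsmul_eq_mul]
      exact mul_le_mul_of_nonneg_right hcard hrpos
    have hbad2 : ∑ q ∈ Ico (Nat.sqrt R) R, ∑ r ∈ Ico (Nat.sqrt R) R,
        (if r < q ∧ bad r q then (1 : ℝ) else 0) ≤ R * (|C3| * (R : ℝ) ^ ν') := by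
      refine (Finset.sum_le_sum hrow).trans ?_
      rw [Finset.sum_const, nsmul_eq_mul]
      exact mul_le_mul_of_nonneg_right hcard hrpos
    have hdiag : ∑ q ∈ Ico (Nat.sqrt R) R, ∑ r ∈ Ico (Nat.sqrt R) R,
        (if q = r then (1 : ℝ) else 0) ≤ R := by
      have h1 : ∀ q ∈ Ico (Nat.sqrt R) R, ∑ r ∈ Ico (Nat.sqrt R) R,
          (if q = r then (1 : ℝ) else 0) = 1 := by
        intro q hq'
        rw [Finset.sum_ite_eq, if_pos hq']
      rw [Finset.sum_congr rfl h1, Finset.sum_const, nsmul_eq_mul, mul_one]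
      exact hcard
    have hH : 0 ≤ (Q ^ k + 1) * (Real.log R) ^ (2 * k) := by positivity
    have hGL : 0 ≤ G / (Real.log R) ^ A := by positivity
    have htot : ∑ q ∈ Ico (Nat.sqrt R) R, ∑ r ∈ Ico (Nat.sqrt R) R,
        |(∫ ω, arr c c' g s q ω * arr c c' g s r ω ∂(mu a b)) - 1| ≤
        R ^ 2 * (G / (Real.log R) ^ A) + (Q ^ k + 1) * (Real.log R) ^ (2 * k) *
          (R + (R * (|C3| * (R : ℝ) ^ ν') + R * (|C3| * (R : ℝ) ^ ν'))) := by
      simp only [hint]
      refine (Finset.sum_le_sum fun q hq' => Finset.sum_le_sum fun r hr' =>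
        hpt q hq' r hr').trans ?_
      simp only [Finset.sum_add_distrib, ← Finset.mul_sum, Finset.sum_const, nsmul_eq_mul]
      have h1 : ((Ico (Nat.sqrt R) R).card : ℝ) * (((Ico (Nat.sqrt R) R).card : ℝ) *
          (G / (Real.log R) ^ A)) ≤ R ^ 2 * (G / (Real.log R) ^ A) := by
        have h2 : ((Ico (Nat.sqrt R) R).card : ℝ) * ((Ico (Nat.sqrt R) R).card : ℝ) ≤ R * R :=
          mul_le_mul hcard hcard (Nat.cast_nonneg _) hR0.le
        calc ((Ico (Nat.sqrt R) R).card : ℝ) * (((Ico (Nat.sqrt R) R).card : ℝ) *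
              (G / (Real.log R) ^ A)) = ((Ico (Nat.sqrt R) R).card : ℝ) *
              ((Ico (Nat.sqrt R) R).card : ℝ) * (G / (Real.log R) ^ A) := by ring
          _ ≤ R * R * (G / (Real.log R) ^ A) := mul_le_mul_of_nonneg_right h2 hGL
          _ = R ^ 2 * (G / (Real.log R) ^ A) := by ring
      refine add_le_add h1 (mul_le_mul_of_nonneg_left ?_ hH)
      exact add_le_add hdiag (add_le_add hbad1 hbad2)
    refine htot.trans ?_
    have hLA : (0 : ℝ) < (Real.log R) ^ A := by positivity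
    have h1 : (R : ℝ) + (R * (|C3| * (R : ℝ) ^ ν') + R * (|C3| * (R : ℝ) ^ ν')) ≤
        (1 + 2 * |C3|) * ((R : ℝ) ^ ν' * R) := by
      have h2 : (1 : ℝ) ≤ (R : ℝ) ^ ν' := Real.one_le_rpow (by linarith) hν0
      have h3 : (R : ℝ) ≤ (R : ℝ) ^ ν' * R := by nlinarith
      nlinarith
    have h2 : (Real.log R) ^ (2 * k) * (R : ℝ) ^ ν' ≤ E * R / (Real.log R) ^ A := by
      rw [le_div_iff₀ hLA]
      calc (Real.log R) ^ (2 * k) * (R : ℝ) ^ ν' * (Real.log R) ^ A
          = (Real.log R) ^ (2 * k + A) * (R : ℝ) ^ ν' := by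
            rw [pow_add]
            ring
        _ ≤ (Real.log R) ^ (2 * k + A + 1) * (R : ℝ) ^ ν' :=
            mul_le_mul_of_nonneg_right (pow_le_pow_right₀ hL1 (Nat.le_succ _))
              (Real.rpow_nonneg hR0.le _)
        _ ≤ E * R := hE R (by omega)
    calc (R : ℝ) ^ 2 * (G / (Real.log R) ^ A) + (Q ^ k + 1) * (Real.log R) ^ (2 * k) *
          (R + (R * (|C3| * (R : ℝ) ^ ν') + R * (|C3| * (R : ℝ) ^ ν')))
        ≤ (R : ℝ) ^ 2 * (G / (Real.log R) ^ A) + (Q ^ k + 1) * (Real.log R) ^ (2 * k) *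
          ((1 + 2 * |C3|) * ((R : ℝ) ^ ν' * R)) := by
          have := mul_le_mul_of_nonneg_left h1 hH
          linarith
      _ = (R : ℝ) ^ 2 * (G / (Real.log R) ^ A) + (Q ^ k + 1) * (1 + 2 * |C3|) * R *
          ((Real.log R) ^ (2 * k) * (R : ℝ) ^ ν') := by ring
      _ ≤ (R : ℝ) ^ 2 * (G / (Real.log R) ^ A) + (Q ^ k + 1) * (1 + 2 * |C3|) * R *
          (E * R / (Real.log R) ^ A) := by
          have h3 : 0 ≤ (Q ^ k + 1) * (1 + 2 * |C3|) * R := by positivity
          have := mul_le_mul_of_nonneg_left h2 h3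
          linarith
      _ = (G + (Q ^ k + 1) * (1 + 2 * |C3|) * E) * ((R : ℝ) ^ 2 / (Real.log R) ^ A) := by ring
  obtain ⟨C', hC'⟩ := sm_small (fun R => ∑ q ∈ Ico (Nat.sqrt R) R, ∑ r ∈ Ico (Nat.sqrt R) R,
        |(∫ ω, arr c c' g s q ω * arr c c' g s r ω ∂(mu a b)) - 1|)
    (fun R => (R : ℝ) ^ 2 / (Real.log R) ^ A) (by
      intro R hR
      have h1 : (1 : ℝ) < R := by exact_mod_cast (by omega : 1 < R)
      have h2 : 0 < Real.log R := Real.log_pos h1
      have h3 : (0 : ℝ) < R := by linarith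
      positivity) _ (m0 * m0) key
  refine ⟨C', fun R hR => (hC' R hR).trans (le_of_eq ?_)⟩
  ring

end J16

end Pool.Agent.helper616_RP
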