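import Pool.Agent.helper616_RP.Defs

/-!
# Project RP (helper616): from boxes to almost all parameters
-/

set_option autoImplicit false

open Finset MeasureTheory Filter Topology

namespace Pool.Agent.helper616_RP

namespace J17


theorem ae_of_boxes {k : ℕ} (K : Fin k → ℝ) (P : (Fin k → ℝ × ℝ) → Prop)
    (h : ∀ a b : Fin k → ℝ, (∀ i, K i < a i) → ∀ᵐ ω ∂(mu a b), P ω) :
    ∀ᵐ ω : Fin k → ℝ × ℝ, (∀ i, K i < (ω i).1) → P ω := by
  have hmu : ∀ a b : Fin k → ℝ, mu a b =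
      (volume : Measure (Fin k → ℝ × ℝ)).restrict (Set.univ.pi fun i => B (a i) (b i)) := by
    intro a b
    rw [volume_pi, Measure.restrict_pi_pi]
    rfl
  have hmeas : ∀ a b : Fin k → ℝ, MeasurableSet (Set.univ.pi fun i => B (a i) (b i)) := by
    intro a b
    refine MeasurableSet.univ_pi (fun i => ?_)
    exact measurableSet_Icc.prod measurableSet_Icc
  have h1 : ∀ a b : Fin k → ℚ, ∀ᵐ ω : Fin k → ℝ × ℝ,
      (∀ i, K i < (a i : ℝ)) → ω ∈ (Set.univ.pi fun i => B (a i : ℝ) (b i : ℝ)) → P ω := by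
    intro a b
    by_cases hK : ∀ i, K i < (a i : ℝ)
    · have h2 := h (fun i => (a i : ℝ)) (fun i => (b i : ℝ)) hK
      rw [hmu, ae_restrict_iff' (hmeas _ _)] at h2
      filter_upwards [h2] with ω hω _ hm using hω hm
    · exact Filter.Eventually.of_forall (fun ω hc => absurd hc hK)
  have h3 : ∀ᵐ ω : Fin k → ℝ × ℝ, ∀ a b : Fin k → ℚ,
      (∀ i, K i < (a i : ℝ)) → ω ∈ (Set.univ.pi fun i => B (a i : ℝ) (b i : ℝ)) → P ω := by
    rw [ae_all_iff]
    intro a
    rw [ae_all_iff]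
    intro b
    exact h1 a b
  filter_upwards [h3] with ω hω hK
  have ha : ∀ i, ∃ q : ℚ, max (K i) ((ω i).1 - 1) < (q : ℝ) ∧ (q : ℝ) < (ω i).1 := by
    intro i
    exact exists_rat_btwn (max_lt (hK i) (by linarith))
  have hb : ∀ i, ∃ q : ℚ, (ω i).2 - 1 < (q : ℝ) ∧ (q : ℝ) < (ω i).2 := by
    intro i
    exact exists_rat_btwn (by linarith)
  choose a ha1 ha2 using ha
  choose b hb1 hb2 using hb
  refine hω a b (fun i => lt_of_le_of_lt (le_max_left _ _) (ha1 i)) ?_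
  intro i _
  have h5 := lt_of_le_of_lt (le_max_right (K i) ((ω i).1 - 1)) (ha1 i)
  refine ⟨⟨(ha2 i).le, by linarith⟩, ⟨(hb2 i).le, by linarith [hb1 i]⟩⟩

end J17

end Pool.Agent.helper616_RP
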