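import Pool.Agent.helper616_RP.Defs

/-!
# Project RP (helper616): splitting off two coordinates of a product
-/

set_option autoImplicit false

open Finset MeasureTheory Filter Topology

namespace Pool.Agent.helper616_RP

namespace J18


theorem snoc_preserving (n : ℕ) :
    MeasurePreserving (fun z : ℝ × (Fin n → ℝ) => (Fin.snoc (α := fun _ => ℝ) z.2 z.1 : Fin (n + 1) → ℝ))
      (volume : Measure (ℝ × (Fin n → ℝ))) (volume : Measure (Fin (n + 1) → ℝ)) := by
  have h := (volume_preserving_piFinSuccAbove (fun _ : Fin (n + 1) => ℝ) (Fin.last n)).symm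
  have e : (fun z : ℝ × (Fin n → ℝ) => (Fin.snoc (α := fun _ => ℝ) z.2 z.1 : Fin (n + 1) → ℝ))
      = ⇑(MeasurableEquiv.piFinSuccAbove (fun _ : Fin (n + 1) => ℝ) (Fin.last n)).symm := by
    funext z
    rw [← Fin.insertNth_last']
    rfl
  rw [e]
  exact h

theorem ae_split (d : ℕ) (P : (Fin (d + 2) → ℝ) → Prop) (hP : MeasurableSet {a | P a})
    (h : ∀ r : Fin d → ℝ, ∀ᵐ ω : ℝ × ℝ, P (Fin.snoc (α := fun _ => ℝ) (Fin.snoc (α := fun _ => ℝ) r ω.2) ω.1)) :
    ∀ᵐ a : Fin (d + 2) → ℝ, P a := by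
  have h1 : MeasurePreserving (Prod.swap : (Fin d → ℝ) × (ℝ × ℝ) → (ℝ × ℝ) × (Fin d → ℝ))
      (volume.prod volume) (volume.prod volume) := Measure.measurePreserving_swap
  have h2 : MeasurePreserving (MeasurableEquiv.prodAssoc : (ℝ × ℝ) × (Fin d → ℝ) ≃ᵐ ℝ × (ℝ × (Fin d → ℝ)))
      (((volume : Measure ℝ).prod (volume : Measure ℝ)).prod (volume : Measure (Fin d → ℝ)))
      ((volume : Measure ℝ).prod ((volume : Measure ℝ).prod (volume : Measure (Fin d → ℝ)))) :=
    measurePreserving_prodAssoc _ _ _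
  have h3 : MeasurePreserving
      (Prod.map (id : ℝ → ℝ) (fun z : ℝ × (Fin d → ℝ) =>
        (Fin.snoc (α := fun _ => ℝ) z.2 z.1 : Fin (d + 1) → ℝ)))
      ((volume : Measure ℝ).prod (volume : Measure (ℝ × (Fin d → ℝ))))
      ((volume : Measure ℝ).prod (volume : Measure (Fin (d + 1) → ℝ))) :=
    (MeasurePreserving.id _).prod (snoc_preserving d)
  have h4 := snoc_preserving (d + 1)
  have h5 : MeasurePreserving
      (fun z : (Fin d → ℝ) × (ℝ × ℝ) =>
        (Fin.snoc (α := fun _ => ℝ) (Fin.snoc (α := fun _ => ℝ) z.1 z.2.2 : Fin (d + 1) → ℝ) z.2.1 : Fin (d + 2) → ℝ))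
      ((volume : Measure (Fin d → ℝ)).prod (volume : Measure (ℝ × ℝ)))
      (volume : Measure (Fin (d + 2) → ℝ)) := by
    have := h4.comp (h3.comp (h2.comp h1))
    exact this
  rw [← h5.map_eq, ae_map_iff h5.measurable.aemeasurable hP]
  have hs : MeasurableSet {z : (Fin d → ℝ) × (ℝ × ℝ) |
      P (Fin.snoc (α := fun _ => ℝ) (Fin.snoc (α := fun _ => ℝ) z.1 z.2.2 : Fin (d + 1) → ℝ) z.2.1)} :=
    h5.measurable hP
  have := (Measure.ae_prod_mem_iff_ae_ae_mem (μ := (volume : Measure (Fin d → ℝ)))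
    (ν := (volume : Measure (ℝ × ℝ))) hs).mpr (Filter.Eventually.of_forall (fun r => h r))
  exact this

end J18

end Pool.Agent.helper616_RP
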