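import Pool.Agent.helper616_RP.Defs

/-!
# Project RP (helper616): translating a bounded function on a square
-/

set_option autoImplicit false

open Finset MeasureTheory Filter Topology

namespace Pool.Agent.helper616_RP

namespace J2


theorem shift_bound (a b : ℝ) (h : ℝ × ℝ) (F : ℝ × ℝ → ℝ) (hF : Measurable F) (M : ℝ)
    (hb : ∀ ω ∈ B a b, |F ω| ≤ M ∧ |F (ω + h)| ≤ M) :
    |(∫ ω in B a b, F (ω + h)) - ∫ ω in B a b, F ω| ≤ 2 * M * (|h.1| + |h.2|) := by
  have hM : 0 ≤ M := by
    have := (hb (a, b) ⟨⟨le_refl _, by simp⟩, ⟨le_refl _, by simp⟩⟩).1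
    exact (abs_nonneg _).trans this
  set B' : Set (ℝ × ℝ) := Set.Icc (a + h.1) (a + 1 + h.1) ×ˢ Set.Icc (b + h.2) (b + 1 + h.2) with hB'
  have hpre : (fun ω : ℝ × ℝ => ω + h) ⁻¹' B' = B a b := by
    ext ω
    simp only [hB', B, Set.mem_preimage, Set.mem_prod, Set.mem_Icc, Prod.fst_add, Prod.snd_add]
    constructor
    · rintro ⟨⟨h1, h2⟩, h3, h4⟩
      exact ⟨⟨by linarith, by linarith⟩, by linarith, by linarith⟩
    · rintro ⟨⟨h1, h2⟩, h3, h4⟩
      exact ⟨⟨by linarith, by linarith⟩, by linarith, by linarith⟩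
  have hmp : MeasurePreserving (fun ω : ℝ × ℝ => ω + h) volume volume :=
    measurePreserving_add_right volume h
  have hemb : MeasurableEmbedding (fun ω : ℝ × ℝ => ω + h) := measurableEmbedding_addRight h
  have hint : (∫ ω in B a b, F (ω + h)) = ∫ ω in B', F ω := by
    rw [← hpre]
    exact hmp.setIntegral_preimage_emb hemb F B'
  have hBm : MeasurableSet (B a b) := measurableSet_Icc.prod measurableSet_Icc
  have hB'm : MeasurableSet B' := measurableSet_Icc.prod measurableSet_Icc
  have hbB' : ∀ ω ∈ B', |F ω| ≤ M := by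
    intro ω hω
    have : ω - h ∈ B a b := by
      rw [← hpre]; simpa using hω
    have h2 := (hb _ this).2
    simpa using h2
  have hbB : ∀ ω ∈ B a b, |F ω| ≤ M := fun ω hω => (hb ω hω).1
  have hvolB : volume (B a b) = 1 := by
    rw [B, Measure.volume_eq_prod, Measure.prod_prod, Real.volume_Icc, Real.volume_Icc]
    simp
  have hvolB' : volume B' = 1 := by
    rw [hB', Measure.volume_eq_prod, Measure.prod_prod, Real.volume_Icc, Real.volume_Icc]
    have e1 : a + 1 + h.1 - (a + h.1) = 1 := by ring
    have e2 : b + 1 + h.2 - (b + h.2) = 1 := by ring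
    rw [e1, e2]; simp
  have hIB : IntegrableOn F (B a b) volume := by
    refine Measure.integrableOn_of_bounded (M := M) (by rw [hvolB]; simp) hF.aestronglyMeasurable ?_
    exact (ae_restrict_iff' hBm).2 (Eventually.of_forall fun ω hω => by simpa using hbB ω hω)
  have hIB' : IntegrableOn F B' volume := by
    refine Measure.integrableOn_of_bounded (M := M) (by rw [hvolB']; simp) hF.aestronglyMeasurable ?_
    exact (ae_restrict_iff' hB'm).2 (Eventually.of_forall fun ω hω => by simpa using hbB' ω hω)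
  have s1 := integral_inter_add_sdiff (μ := volume) (f := F) (s := B a b) (t := B') hB'm hIB
  have s2 := integral_inter_add_sdiff (μ := volume) (f := F) (s := B') (t := B a b) hBm hIB'
  have hI : (B a b ∩ B') = Set.Icc (max a (a + h.1)) (min (a + 1) (a + 1 + h.1)) ×ˢ
      Set.Icc (max b (b + h.2)) (min (b + 1) (b + 1 + h.2)) := by
    simp only [B, hB']
    rw [Set.prod_inter_prod, Set.Icc_inter_Icc, Set.Icc_inter_Icc]
  have len : ∀ x t : ℝ, min (x + 1) (x + 1 + t) - max x (x + t) = 1 - |t| := by
    intro x t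
    rcases le_total 0 t with ht | ht
    · rw [min_eq_left (by linarith), max_eq_right (by linarith), abs_of_nonneg ht]; ring
    · rw [min_eq_right (by linarith), max_eq_left (by linarith), abs_of_nonpos ht]; ring
  have hvolI : 1 - (|h.1| + |h.2|) ≤ volume.real (B a b ∩ B') := by
    rw [hI, Measure.real, Measure.volume_eq_prod, Measure.prod_prod, Real.volume_Icc,
      Real.volume_Icc, len, len, ENNReal.toReal_mul, ENNReal.toReal_ofReal', ENNReal.toReal_ofReal']
    rcases le_total (1 - |h.1|) 0 with h1 | h1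
    · have : 0 ≤ max (1 - |h.1|) 0 * max (1 - |h.2|) 0 := by positivity
      have := abs_nonneg h.2
      linarith
    · rcases le_total (1 - |h.2|) 0 with h2 | h2
      · have : 0 ≤ max (1 - |h.1|) 0 * max (1 - |h.2|) 0 := by positivity
        have := abs_nonneg h.1
        linarith
      · rw [max_eq_left h1, max_eq_left h2]
        nlinarith [mul_nonneg (abs_nonneg h.1) (abs_nonneg h.2)]
  have hd1 : volume.real (B a b \ B') ≤ |h.1| + |h.2| := by
    have : volume.real (B a b ∩ B') + volume.real (B a b \ B') = volume.real (B a b) :=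
      measureReal_inter_add_sdiff hB'm (by rw [hvolB]; simp)
    have e : volume.real (B a b) = 1 := by rw [Measure.real, hvolB]; simp
    linarith
  have hd2 : volume.real (B' \ B a b) ≤ |h.1| + |h.2| := by
    have : volume.real (B' ∩ B a b) + volume.real (B' \ B a b) = volume.real B' :=
      measureReal_inter_add_sdiff hBm (by rw [hvolB']; simp)
    have e : volume.real B' = 1 := by rw [Measure.real, hvolB']; simp
    rw [Set.inter_comm] at this
    linarith
  have n1 : ‖∫ ω in B a b \ B', F ω‖ ≤ M * volume.real (B a b \ B') :=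
    norm_setIntegral_le_of_norm_le_const
      (lt_of_le_of_lt (measure_mono Set.sdiff_subset) (by rw [hvolB]; simp))
      (fun ω hω => by simpa using hbB ω hω.1)
  have n2 : ‖∫ ω in B' \ B a b, F ω‖ ≤ M * volume.real (B' \ B a b) :=
    norm_setIntegral_le_of_norm_le_const
      (lt_of_le_of_lt (measure_mono Set.sdiff_subset) (by rw [hvolB']; simp))
      (fun ω hω => by simpa using hbB' ω hω.1)
  rw [hint, ← s1, ← s2, Set.inter_comm B' (B a b)]
  have e3 : (∫ ω in B a b ∩ B', F ω) + (∫ ω in B' \ B a b, F ω) -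
      ((∫ ω in B a b ∩ B', F ω) + ∫ ω in B a b \ B', F ω) =
      (∫ ω in B' \ B a b, F ω) - ∫ ω in B a b \ B', F ω := by ring
  rw [e3]
  rw [Real.norm_eq_abs] at n1 n2
  have m1 := mul_le_mul_of_nonneg_left hd1 hM
  have m2 := mul_le_mul_of_nonneg_left hd2 hM
  calc |(∫ ω in B' \ B a b, F ω) - ∫ ω in B a b \ B', F ω|
      ≤ |∫ ω in B' \ B a b, F ω| + |∫ ω in B a b \ B', F ω| := abs_sub _ _
    _ ≤ 2 * M * (|h.1| + |h.2|) := by linarith

end J2

end Pool.Agent.helper616_RP
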