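import Pool.Agent.helper616_RP.Defs

/-!
# Project RP (helper616): the image of the unit square under the integer part
-/

set_option autoImplicit false

open Finset MeasureTheory Filter Topology

namespace Pool.Agent.helper616_RP

namespace J3


theorem floor_measurable (φ : ℕ → ℝ) : Measurable (fun t : ℝ => φ ⌊t⌋₊) :=
  (measurable_from_nat (f := φ)).comp Nat.measurable_floor

theorem floor_ii (φ : ℕ → ℝ) (hφ : ∀ n, 0 ≤ φ n) (X : ℕ) (c d : ℝ) (hc : 0 ≤ c) (hcd : c ≤ d)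
    (hd : d ≤ X) : IntervalIntegrable (fun t : ℝ => φ ⌊t⌋₊) volume c d := by
  rw [intervalIntegrable_iff_integrableOn_Ioc_of_le hcd]
  have hb : ∀ t ∈ Set.Ioc c d, ‖φ ⌊t⌋₊‖ ≤ ∑ u ∈ range (X + 1), φ u := by
    intro t ht
    rw [Real.norm_of_nonneg (hφ _)]
    have h0 : 0 ≤ t := le_trans hc ht.1.le
    have h1 : ⌊t⌋₊ ≤ X := by
      have : ⌊t⌋₊ ≤ ⌊(X : ℝ)⌋₊ := Nat.floor_le_floor (le_trans ht.2 hd)
      simpa using this
    exact Finset.single_le_sum (f := φ) (fun i _ => hφ i) (by simp; omega)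
  have hfin : IsFiniteMeasure (volume.restrict (Set.Ioc c d)) := by infer_instance
  refine Integrable.of_bound (μ := volume.restrict (Set.Ioc c d))
    ((floor_measurable φ).aestronglyMeasurable) (∑ u ∈ range (X + 1), φ u) ?_
  filter_upwards [ae_restrict_mem measurableSet_Ioc] with t ht
  exact hb t ht

theorem floor_unit (φ : ℕ → ℝ) (u : ℕ) :
    ∫ t in (u : ℝ)..((u + 1 : ℕ) : ℝ), φ ⌊t⌋₊ = φ u := by
  have h : ∫ t in (u : ℝ)..((u + 1 : ℕ) : ℝ), φ ⌊t⌋₊ = ∫ t in (u : ℝ)..((u + 1 : ℕ) : ℝ), φ u := by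
    apply intervalIntegral.integral_congr_ae
    have hne : ∀ᵐ t : ℝ, t ≠ ((u + 1 : ℕ) : ℝ) := by
      have := (measure_singleton (μ := (volume : Measure ℝ)) (((u + 1 : ℕ) : ℝ)))
      rw [ae_iff]
      simpa using this
    filter_upwards [hne] with t ht hmem
    rw [Set.uIoc_of_le (by push_cast; linarith)] at hmem
    have h1 : (u : ℝ) ≤ t := hmem.1.le
    have h2 : t < ((u + 1 : ℕ) : ℝ) := lt_of_le_of_ne hmem.2 ht
    have : ⌊t⌋₊ = u := by
      rw [Nat.floor_eq_iff (le_trans (Nat.cast_nonneg u) h1)]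
      refine ⟨h1, ?_⟩
      push_cast at h2
      exact h2
    rw [this]
  rw [h]
  simp

theorem floor_total (φ : ℕ → ℝ) (hφ : ∀ n, 0 ≤ φ n) (X : ℕ) :
    ∫ t in (0 : ℝ)..(X : ℝ), φ ⌊t⌋₊ = ∑ u ∈ range X, φ u := by
  have h := intervalIntegral.sum_integral_adjacent_intervals (f := fun t : ℝ => φ ⌊t⌋₊)
    (μ := volume) (a := fun k : ℕ => (k : ℝ)) (n := X) (by
      intro k hk
      apply floor_ii φ hφ X
      · exact Nat.cast_nonneg k
      · push_cast; linarith
      · exact_mod_cast hk)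
  have h0 : ((0 : ℕ) : ℝ) = 0 := Nat.cast_zero
  rw [h0] at h
  rw [← h]
  apply Finset.sum_congr rfl
  intro u _
  exact floor_unit φ u

theorem inner_bound (a U r : ℝ) (hU : 0 < U) (X : ℕ) (φ : ℕ → ℝ) (hφ : ∀ n, 0 ≤ φ n)
    (h0 : 0 ≤ a * U + r) (h1 : (a + 1) * U + r ≤ X) :
    ∫ x in Set.Icc a (a + 1), φ ⌊x * U + r⌋₊ ≤ (∑ u ∈ range X, φ u) / U := by
  rw [integral_Icc_eq_integral_Ioc, ← intervalIntegral.integral_of_le (by linarith)]
  have h2 : ∫ x in a..(a + 1), φ ⌊x * U + r⌋₊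
      = U⁻¹ • ∫ t in (U * a + r)..(U * (a + 1) + r), φ ⌊t⌋₊ := by
    rw [← intervalIntegral.integral_comp_mul_add (fun t => φ ⌊t⌋₊) hU.ne' r]
    simp only [mul_comm]
  rw [h2, smul_eq_mul, div_eq_inv_mul]
  apply mul_le_mul_of_nonneg_left _ (inv_nonneg.mpr hU.le)
  rw [← floor_total φ hφ X]
  apply intervalIntegral.integral_mono_interval
  · nlinarith
  · nlinarith
  · nlinarith
  · exact Filter.Eventually.of_forall (fun t => hφ _)
  · exact floor_ii φ hφ X 0 X le_rfl (Nat.cast_nonneg X) le_rfl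

theorem pull (a b U V g : ℝ) (hU : 0 < U) (X : ℕ) (φ : ℕ → ℝ) (hφ : ∀ n, 0 ≤ φ n)
    (hx : ∀ ω ∈ B a b, 0 ≤ ω.1 * U + ω.2 * V + g ∧ ω.1 * U + ω.2 * V + g < X) :
    ∫ ω in B a b, φ ⌊ω.1 * U + ω.2 * V + g⌋₊ ≤ (∑ u ∈ range X, φ u) / U := by
  have hS : 0 ≤ ∑ u ∈ range X, φ u := Finset.sum_nonneg (fun i _ => hφ i)
  have hmeas : Measurable (fun ω : ℝ × ℝ => φ ⌊ω.1 * U + ω.2 * V + g⌋₊) := by
    apply (floor_measurable φ).comp
    fun_prop
  have hvol : (volume : Measure (ℝ × ℝ)).restrict (B a b)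
      = (volume.restrict (Set.Icc a (a + 1))).prod (volume.restrict (Set.Icc b (b + 1))) := by
    rw [Measure.prod_restrict, ← Measure.volume_eq_prod]
    rfl
  have hint : Integrable (fun ω : ℝ × ℝ => φ ⌊ω.1 * U + ω.2 * V + g⌋₊)
      ((volume.restrict (Set.Icc a (a + 1))).prod (volume.restrict (Set.Icc b (b + 1)))) := by
    rw [← hvol]
    have hfin : IsFiniteMeasure ((volume : Measure (ℝ × ℝ)).restrict (B a b)) := by
      rw [hvol]; infer_instance
    have hBm : MeasurableSet (B a b) := measurableSet_Icc.prod measurableSet_Icc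
    refine Integrable.of_bound hmeas.aestronglyMeasurable (∑ u ∈ range X, φ u) ?_
    filter_upwards [ae_restrict_mem hBm] with ω hω
    rw [Real.norm_of_nonneg (hφ _)]
    obtain ⟨h1, h2⟩ := hx ω hω
    have h3 : ⌊ω.1 * U + ω.2 * V + g⌋₊ < X := (Nat.floor_lt h1).mpr h2
    exact Finset.single_le_sum (f := φ) (fun i _ => hφ i) (Finset.mem_range.mpr h3)
  rw [hvol, integral_prod_symm _ hint]
  have hinner : ∀ y ∈ Set.Icc b (b + 1),
      ∫ x in Set.Icc a (a + 1), φ ⌊x * U + y * V + g⌋₊ ≤ (∑ u ∈ range X, φ u) / U := by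
    intro y hy
    have e : ∀ x : ℝ, x * U + y * V + g = x * U + (y * V + g) := fun x => by ring
    simp only [e]
    apply inner_bound a U (y * V + g) hU X φ hφ
    · have := (hx (a, y) ⟨⟨le_rfl, by simp⟩, hy⟩).1
      simp only at this
      linarith
    · have := (hx (a + 1, y) ⟨⟨by simp, le_rfl⟩, hy⟩).2
      simp only at this
      linarith
  have hnn : ∀ y : ℝ, 0 ≤ ∫ x in Set.Icc a (a + 1), φ ⌊x * U + y * V + g⌋₊ :=
    fun y => integral_nonneg (fun x => hφ _)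
  have hfinal := norm_setIntegral_le_of_norm_le_const (μ := (volume : Measure ℝ))
    (s := Set.Icc b (b + 1)) (f := fun y => ∫ x in Set.Icc a (a + 1), φ ⌊x * U + y * V + g⌋₊)
    (C := (∑ u ∈ range X, φ u) / U) (by simp) (by
      intro y hy
      rw [Real.norm_of_nonneg (hnn y)]
      exact hinner y hy)
  have hone : (volume : Measure ℝ).real (Set.Icc b (b + 1)) = 1 := by
    simp [Measure.real]
  rw [hone, mul_one] at hfinal
  exact le_trans (le_abs_self _) hfinal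

end J3

end Pool.Agent.helper616_RP
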