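import Pool.Agent.helper616_RP.Defs
import Pool.Agent.helper616_RP.J2
import Pool.Agent.helper616_RP.J3

/-!
# Project RP (helper616): one integral against a function with small window sums
-/

set_option autoImplicit false

open Finset MeasureTheory Filter Topology

namespace Pool.Agent.helper616_RP

open J2 (shift_bound)
open J3 (pull)

namespace J4


theorem gen_meas_x (U V g : ℝ) : Measurable (fun ω : ℝ × ℝ => ω.1 * U + ω.2 * V + g) := by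
  fun_prop

theorem gen_meas_f (U V g : ℝ) (f : ℕ → ℝ) :
    Measurable (fun ω : ℝ × ℝ => f ⌊ω.1 * U + ω.2 * V + g⌋₊) := by
  have h1 : Measurable (fun ω : ℝ × ℝ => ⌊ω.1 * U + ω.2 * V + g⌋₊) :=
    Nat.measurable_floor.comp (gen_meas_x U V g)
  exact (measurable_from_nat (f := f)).comp h1

theorem gen_vol (a b : ℝ) : volume (B a b) = 1 := by
  unfold B
  rw [Measure.volume_eq_prod, Measure.prod_prod, Real.volume_Icc, Real.volume_Icc]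
  simp

theorem gen_measB (a b : ℝ) : MeasurableSet (B a b) := measurableSet_Icc.prod measurableSet_Icc

theorem gen_int (a b : ℝ) {F : ℝ × ℝ → ℝ} (hF : Measurable F) (C : ℝ)
    (hC : ∀ ω ∈ B a b, |F ω| ≤ C) : IntegrableOn F (B a b) := by
  have hfin : IsFiniteMeasure (volume.restrict (B a b)) := ⟨by
    rw [Measure.restrict_apply_univ, gen_vol]; exact ENNReal.one_lt_top⟩
  refine Integrable.of_bound hF.aestronglyMeasurable C ?_
  rw [ae_restrict_iff' (gen_measB a b)]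
  exact Eventually.of_forall fun ω hω => by rw [Real.norm_eq_abs]; exact hC ω hω

theorem gen_jensen (a b : ℝ) {G : ℝ × ℝ → ℝ} (hG : Measurable G) (C : ℝ)
    (hC : ∀ ω ∈ B a b, |G ω| ≤ C) :
    ∫ ω in B a b, |G ω| ≤ Real.sqrt (∫ ω in B a b, (G ω) ^ 2) := by
  have h1 : IntegrableOn (fun ω => |G ω|) (B a b) := by
    refine gen_int a b ?_ C (fun ω hω => by rw [abs_abs]; exact hC ω hω)
    exact hG.abs
  have h2 : IntegrableOn (fun ω => (G ω) ^ 2) (B a b) := by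
    refine gen_int a b (hG.pow_const 2) (C ^ 2) (fun ω hω => ?_)
    rw [abs_pow]
    exact pow_le_pow_left₀ (abs_nonneg _) (hC ω hω) 2
  have h3 : IntegrableOn (fun _ : ℝ × ℝ => (1 : ℝ)) (B a b) := by
    refine gen_int a b measurable_const 1 (fun ω _ => by simp)
  set A : ℝ := ∫ ω in B a b, |G ω| with hA
  have h0 : 0 ≤ ∫ ω in B a b, (|G ω| - A) ^ 2 := integral_nonneg fun ω => sq_nonneg _
  have e : ∫ ω in B a b, (|G ω| - A) ^ 2
      = ∫ ω in B a b, ((G ω) ^ 2 - (2 * A) * |G ω|) + A ^ 2 * (1 : ℝ) := by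
    refine integral_congr_ae (Eventually.of_forall fun ω => ?_)
    show (|G ω| - A) ^ 2 = ((G ω) ^ 2 - (2 * A) * |G ω|) + A ^ 2 * (1 : ℝ)
    have := sq_abs (G ω)
    nlinarith [this]
  have e1 : ∫ ω in B a b, ((G ω) ^ 2 - (2 * A) * |G ω|) + A ^ 2 * (1 : ℝ)
      = (∫ ω in B a b, ((G ω) ^ 2 - (2 * A) * |G ω|)) + ∫ ω in B a b, A ^ 2 * (1 : ℝ) :=
    integral_add (h2.sub (h1.const_mul (2 * A))) (h3.const_mul (A ^ 2))
  have e2 : ∫ ω in B a b, ((G ω) ^ 2 - (2 * A) * |G ω|)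
      = (∫ ω in B a b, (G ω) ^ 2) - ∫ ω in B a b, (2 * A) * |G ω| :=
    integral_sub h2 (h1.const_mul (2 * A))
  have e3 : ∫ ω in B a b, A ^ 2 * (1 : ℝ) = A ^ 2 := by
    rw [integral_const_mul, setIntegral_const, measureReal_def, gen_vol]
    simp
  rw [e, e1, e2, e3, integral_const_mul, ← hA] at h0
  refine Real.le_sqrt_of_sq_le ?_
  nlinarith [h0]

theorem gen (a b U V g : ℝ) (hU : 0 < U) (X W : ℕ) (hW : 1 ≤ W) (h : ℝ × ℝ) (hh : h.1 * U + h.2 * V = 1)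
    (ρ : ℝ) (hρ1 : W * |h.1| ≤ ρ) (hρ2 : W * |h.2| ≤ ρ) (f : ℕ → ℝ) (L : ℝ) (hf : ∀ n, n < X → |f n| ≤ L)
    (Φ : ℝ × ℝ → ℝ) (hΦm : Measurable Φ) (M : ℝ)
    (hx : ∀ ω : ℝ × ℝ, a - ρ ≤ ω.1 → ω.1 ≤ a + 1 + ρ → b - ρ ≤ ω.2 → ω.2 ≤ b + 1 + ρ →
      0 ≤ ω.1 * U + ω.2 * V + g ∧ ω.1 * U + ω.2 * V + g < X ∧ |Φ ω| ≤ M)
    (hΦ : ∀ (ω : ℝ × ℝ) (t : ℝ), Φ (ω + t • h) = Φ ω) :
    |∫ ω in B a b, Φ ω * f ⌊ω.1 * U + ω.2 * V + g⌋₊| ≤
      4 * M * L * ρ + M * Real.sqrt ((∑ u ∈ range X, (∑ s ∈ Icc 1 W, f (u + s)) ^ 2) / U) / W := by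
  have hB : ∀ ω ∈ B a b, a ≤ ω.1 ∧ ω.1 ≤ a + 1 ∧ b ≤ ω.2 ∧ ω.2 ≤ b + 1 := by
    rintro ω ⟨⟨h1, h2⟩, h3, h4⟩
    exact ⟨h1, h2, h3, h4⟩
  have hW0 : (0 : ℝ) < W := by exact_mod_cast hW
  have hρ0 : 0 ≤ ρ := le_trans (by positivity) hρ1
  have hsh : ∀ s : ℕ, s ≤ W → ∀ ω ∈ B a b,
      a - ρ ≤ (ω + (s : ℝ) • h).1 ∧ (ω + (s : ℝ) • h).1 ≤ a + 1 + ρ ∧
      b - ρ ≤ (ω + (s : ℝ) • h).2 ∧ (ω + (s : ℝ) • h).2 ≤ b + 1 + ρ := by
    intro s hs ω hω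
    obtain ⟨h1, h2, h3, h4⟩ := hB ω hω
    have hsW : (s : ℝ) ≤ W := by exact_mod_cast hs
    have hs0 : (0 : ℝ) ≤ s := Nat.cast_nonneg s
    have a1 : |(s : ℝ) * h.1| ≤ ρ := by
      rw [abs_mul, abs_of_nonneg hs0]
      exact le_trans (mul_le_mul_of_nonneg_right hsW (abs_nonneg _)) hρ1
    have a2 : |(s : ℝ) * h.2| ≤ ρ := by
      rw [abs_mul, abs_of_nonneg hs0]
      exact le_trans (mul_le_mul_of_nonneg_right hsW (abs_nonneg _)) hρ2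
    obtain ⟨b1, b2⟩ := abs_le.mp a1
    obtain ⟨b3, b4⟩ := abs_le.mp a2
    simp only [Prod.fst_add, Prod.snd_add, Prod.smul_fst, Prod.smul_snd, smul_eq_mul]
    exact ⟨by linarith, by linarith, by linarith, by linarith⟩
  have hxs : ∀ (s : ℕ) (ω : ℝ × ℝ), (ω + (s : ℝ) • h).1 * U + (ω + (s : ℝ) • h).2 * V + g
      = (ω.1 * U + ω.2 * V + g) + s := by
    intro s ω
    simp only [Prod.fst_add, Prod.snd_add, Prod.smul_fst, Prod.smul_snd, smul_eq_mul]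
    linear_combination (s : ℝ) * hh
  have hxB : ∀ ω ∈ B a b, 0 ≤ ω.1 * U + ω.2 * V + g ∧ ω.1 * U + ω.2 * V + g < X ∧ |Φ ω| ≤ M := by
    intro ω hω
    obtain ⟨h1, h2, h3, h4⟩ := hB ω hω
    exact hx ω (by linarith) (by linarith) (by linarith) (by linarith)
  have hxsB : ∀ s : ℕ, s ≤ W → ∀ ω ∈ B a b,
      ω.1 * U + ω.2 * V + g + s < X ∧ ⌊ω.1 * U + ω.2 * V + g⌋₊ + s < X := by
    intro s hs ω hω
    obtain ⟨h1, h2, h3, h4⟩ := hsh s hs ω hω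
    obtain ⟨c1, c2, c3⟩ := hx _ h1 h2 h3 h4
    rw [hxs] at c1 c2
    refine ⟨c2, ?_⟩
    have hx0 := (hxB ω hω).1
    rw [← Nat.floor_add_natCast hx0, Nat.floor_lt c1]
    exact c2
  have hmem : ((a, b) : ℝ × ℝ) ∈ B a b := ⟨⟨le_refl _, by linarith⟩, le_refl _, by linarith⟩
  have hM : 0 ≤ M := le_trans (abs_nonneg _) (hxB _ hmem).2.2
  have hL : 0 ≤ L := by
    have := (hxsB 0 (Nat.zero_le _) _ hmem).2
    exact le_trans (abs_nonneg _) (hf _ this)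
  set F : ℝ × ℝ → ℝ := fun ω => Φ ω * f ⌊ω.1 * U + ω.2 * V + g⌋₊ with hFdef
  have hFm : Measurable F := hΦm.mul (gen_meas_f U V g f)
  set G : ℕ → ℝ := fun u => ∑ s ∈ Icc 1 W, f (u + s) with hGdef
  have hFs : ∀ s : ℕ, s ≤ W → ∀ ω ∈ B a b,
      F (ω + (s : ℝ) • h) = Φ ω * f (⌊ω.1 * U + ω.2 * V + g⌋₊ + s) := by
    intro s hs ω hω
    show Φ (ω + (s : ℝ) • h) * f ⌊(ω + (s : ℝ) • h).1 * U + (ω + (s : ℝ) • h).2 * V + g⌋₊ = _
    rw [hΦ, hxs, Nat.floor_add_natCast (hxB ω hω).1]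
  have hFb : ∀ s : ℕ, s ≤ W → ∀ ω ∈ B a b, |F (ω + (s : ℝ) • h)| ≤ M * L := by
    intro s hs ω hω
    rw [hFs s hs ω hω, abs_mul]
    exact mul_le_mul (hxB ω hω).2.2 (hf _ (hxsB s hs ω hω).2) (abs_nonneg _) hM
  have hF0 : ∀ ω ∈ B a b, |F ω| ≤ M * L := by
    intro ω hω
    have := hFb 0 (Nat.zero_le _) ω hω
    simpa using this
  have hshift : ∀ s ∈ Icc 1 W, |(∫ ω in B a b, F (ω + (s : ℝ) • h)) - ∫ ω in B a b, F ω|
      ≤ 4 * M * L * ρ := by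
    intro s hs
    obtain ⟨hs1, hs2⟩ := Finset.mem_Icc.mp hs
    have hb := shift_bound a b ((s : ℝ) • h) F hFm (M * L)
      (fun ω hω => ⟨hF0 ω hω, hFb s hs2 ω hω⟩)
    refine hb.trans ?_
    have hsW : (s : ℝ) ≤ W := by exact_mod_cast hs2
    have hs0 : (0 : ℝ) ≤ s := Nat.cast_nonneg s
    have a1 : |((s : ℝ) • h).1| ≤ ρ := by
      rw [Prod.smul_fst, smul_eq_mul, abs_mul, abs_of_nonneg hs0]
      exact le_trans (mul_le_mul_of_nonneg_right hsW (abs_nonneg _)) hρ1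
    have a2 : |((s : ℝ) • h).2| ≤ ρ := by
      rw [Prod.smul_snd, smul_eq_mul, abs_mul, abs_of_nonneg hs0]
      exact le_trans (mul_le_mul_of_nonneg_right hsW (abs_nonneg _)) hρ2
    have hML : 0 ≤ M * L := mul_nonneg hM hL
    calc 2 * (M * L) * (|((s : ℝ) • h).1| + |((s : ℝ) • h).2|) ≤ 2 * (M * L) * (ρ + ρ) := by
          apply mul_le_mul_of_nonneg_left (add_le_add a1 a2) (by positivity)
      _ = 4 * M * L * ρ := by ring
  have hints : ∀ s ∈ Icc 1 W, IntegrableOn (fun ω => F (ω + (s : ℝ) • h)) (B a b) := by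
    intro s hs
    obtain ⟨hs1, hs2⟩ := Finset.mem_Icc.mp hs
    refine gen_int a b ?_ (M * L) (fun ω hω => hFb s hs2 ω hω)
    exact hFm.comp (measurable_id.add_const _)
  have hsum : ∑ s ∈ Icc 1 W, ∫ ω in B a b, F (ω + (s : ℝ) • h)
      = ∫ ω in B a b, Φ ω * G ⌊ω.1 * U + ω.2 * V + g⌋₊ := by
    rw [← integral_finsetSum _ hints]
    refine setIntegral_congr_fun (gen_measB a b) fun ω hω => ?_
    show ∑ s ∈ Icc 1 W, F (ω + (s : ℝ) • h) = Φ ω * G ⌊ω.1 * U + ω.2 * V + g⌋₊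
    rw [hGdef]
    simp only
    rw [Finset.mul_sum]
    refine Finset.sum_congr rfl fun s hs => ?_
    exact hFs s (Finset.mem_Icc.mp hs).2 ω hω
  have hGm : Measurable (fun ω : ℝ × ℝ => G ⌊ω.1 * U + ω.2 * V + g⌋₊) := gen_meas_f U V g G
  have hGb : ∀ ω ∈ B a b, |G ⌊ω.1 * U + ω.2 * V + g⌋₊| ≤ W * L := by
    intro ω hω
    calc |G ⌊ω.1 * U + ω.2 * V + g⌋₊| ≤ ∑ s ∈ Icc 1 W, |f (⌊ω.1 * U + ω.2 * V + g⌋₊ + s)| :=
          Finset.abs_sum_le_sum_abs _ _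
      _ ≤ ∑ s ∈ Icc 1 W, L :=
          Finset.sum_le_sum fun s hs => hf _ (hxsB s (Finset.mem_Icc.mp hs).2 ω hω).2
      _ = W * L := by simp
  have hpull : ∫ ω in B a b, (G ⌊ω.1 * U + ω.2 * V + g⌋₊) ^ 2 ≤ (∑ u ∈ range X, (G u) ^ 2) / U :=
    pull a b U V g hU X (fun u => (G u) ^ 2) (fun n => sq_nonneg _)
      (fun ω hω => ⟨(hxB ω hω).1, (hxB ω hω).2.1⟩)
  have hPG : |∫ ω in B a b, Φ ω * G ⌊ω.1 * U + ω.2 * V + g⌋₊|
      ≤ M * Real.sqrt ((∑ u ∈ range X, (G u) ^ 2) / U) := by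
    calc |∫ ω in B a b, Φ ω * G ⌊ω.1 * U + ω.2 * V + g⌋₊|
        ≤ ∫ ω in B a b, |Φ ω * G ⌊ω.1 * U + ω.2 * V + g⌋₊| := abs_integral_le_integral_abs
      _ ≤ ∫ ω in B a b, M * |G ⌊ω.1 * U + ω.2 * V + g⌋₊| := by
          refine setIntegral_mono_on ?_ ?_ (gen_measB a b) ?_
          · refine gen_int a b ((hΦm.mul hGm).abs) (M * (W * L)) (fun ω hω => ?_)
            rw [abs_abs, abs_mul]
            exact mul_le_mul (hxB ω hω).2.2 (hGb ω hω) (abs_nonneg _) hM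
          · refine gen_int a b ((hGm.abs).const_mul M) (M * (W * L)) (fun ω hω => ?_)
            rw [abs_mul, abs_abs, abs_of_nonneg hM]
            exact mul_le_mul_of_nonneg_left (hGb ω hω) hM
          · intro ω hω
            rw [abs_mul]
            exact mul_le_mul_of_nonneg_right (hxB ω hω).2.2 (abs_nonneg _)
      _ = M * ∫ ω in B a b, |G ⌊ω.1 * U + ω.2 * V + g⌋₊| := integral_const_mul _ _
      _ ≤ M * Real.sqrt (∫ ω in B a b, (G ⌊ω.1 * U + ω.2 * V + g⌋₊) ^ 2) :=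
          mul_le_mul_of_nonneg_left (gen_jensen a b hGm _ hGb) hM
      _ ≤ M * Real.sqrt ((∑ u ∈ range X, (G u) ^ 2) / U) :=
          mul_le_mul_of_nonneg_left (Real.sqrt_le_sqrt hpull) hM
  have hcard : ∑ s ∈ Icc 1 W, ∫ ω in B a b, F ω = W * ∫ ω in B a b, F ω := by
    simp
  have hdiff : |(W : ℝ) * (∫ ω in B a b, F ω)| ≤ W * (4 * M * L * ρ)
      + M * Real.sqrt ((∑ u ∈ range X, (G u) ^ 2) / U) := by
    have h1 : |(∑ s ∈ Icc 1 W, ∫ ω in B a b, F (ω + (s : ℝ) • h)) - W * ∫ ω in B a b, F ω|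
        ≤ W * (4 * M * L * ρ) := by
      rw [← hcard, ← Finset.sum_sub_distrib]
      calc |∑ s ∈ Icc 1 W, ((∫ ω in B a b, F (ω + (s : ℝ) • h)) - ∫ ω in B a b, F ω)|
          ≤ ∑ s ∈ Icc 1 W, |(∫ ω in B a b, F (ω + (s : ℝ) • h)) - ∫ ω in B a b, F ω| :=
            Finset.abs_sum_le_sum_abs _ _
        _ ≤ ∑ s ∈ Icc 1 W, 4 * M * L * ρ := Finset.sum_le_sum hshift
        _ = W * (4 * M * L * ρ) := by simp
    rw [hsum] at h1
    have h2 := abs_le.mp h1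
    have h3 := abs_le.mp hPG
    rw [abs_le]
    constructor <;> linarith [h2.1, h2.2, h3.1, h3.2]
  rw [abs_mul, abs_of_pos hW0] at hdiff
  have hfin : |∫ ω in B a b, F ω| ≤ (W * (4 * M * L * ρ)
      + M * Real.sqrt ((∑ u ∈ range X, (G u) ^ 2) / U)) / W := by
    rw [le_div_iff₀ hW0]
    linarith [hdiff]
  refine hfin.trans (le_of_eq ?_)
  rw [add_div, mul_div_cancel_left₀ _ hW0.ne']

end J4

end Pool.Agent.helper616_RP
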