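import Pool.Agent.helper616_RP.Defs

/-!
# Project RP (helper616): the ratio of two powers
-/

set_option autoImplicit false

open Finset MeasureTheory Filter Topology

namespace Pool.Agent.helper616_RP

namespace J5


theorem ratio_lower (γ η : ℝ) (hγ : 0 < γ) (hη : 0 ≤ η) : ∃ κ : ℝ, 0 < κ ∧ ∀ n m : ℕ, 1 ≤ n → n < m →
    (m : ℝ) ^ (1 - η) ≤ (m : ℝ) - n → κ * (m : ℝ) ^ (-η) ≤ ((m : ℝ) / n) ^ γ - 1 := by
  refine ⟨γ / 2, by positivity, ?_⟩
  intro n m hn hnm hle
  have hn0 : (0 : ℝ) < n := by exact_mod_cast hn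
  have hm1 : (1 : ℝ) ≤ m := by exact_mod_cast (le_trans hn hnm.le)
  have hm0 : (0 : ℝ) < m := by linarith
  have hnm' : (n : ℝ) ≤ m := by exact_mod_cast hnm.le
  set x : ℝ := (m : ℝ) ^ (-η) with hx
  have hx0 : 0 < x := Real.rpow_pos_of_pos hm0 _
  have hx1 : x ≤ 1 := Real.rpow_le_one_of_one_le_of_nonpos hm1 (by linarith)
  have hmx : (m : ℝ) ^ (1 - η) = m * x := by
    rw [hx, show (1 - η : ℝ) = 1 + (-η) by ring, Real.rpow_add hm0, Real.rpow_one]
  have hnx : (n : ℝ) * x ≤ m * x := mul_le_mul_of_nonneg_right hnm' hx0.le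
  have h1 : 1 + x ≤ (m : ℝ) / n := by
    rw [le_div_iff₀ hn0]
    rw [hmx] at hle
    nlinarith
  have h2 : (1 + x) ^ γ ≤ ((m : ℝ) / n) ^ γ := Real.rpow_le_rpow (by linarith) h1 hγ.le
  have h3 : x / 2 ≤ Real.log (1 + x) := by
    have h4 := Real.one_sub_inv_le_log_of_pos (show (0 : ℝ) < 1 + x by linarith)
    have h5 : x / 2 ≤ 1 - (1 + x)⁻¹ := by
      have : 1 - (1 + x)⁻¹ = x / (1 + x) := by
        field_simp
        ring
      rw [this]
      exact div_le_div_of_nonneg_left hx0.le (by linarith) (by linarith)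
    linarith
  have h6 : 1 + γ * (x / 2) ≤ (1 + x) ^ γ := by
    rw [Real.rpow_def_of_pos (by linarith)]
    have h7 := Real.add_one_le_exp (Real.log (1 + x) * γ)
    nlinarith
  linarith

end J5

end Pool.Agent.helper616_RP
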