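import Pool.Agent.helper616_RP.Defs

/-!
# Project RP (helper616): the size of the generalised polynomial
-/

set_option autoImplicit false

open Finset MeasureTheory Filter Topology

namespace Pool.Agent.helper616_RP

namespace J6


theorem size_aux (c c' ε : ℝ) (hcc : c' < c) (hε : 0 < ε) :
    ∀ᶠ n : ℕ in atTop, (n : ℝ) ^ c' ≤ ε * (n : ℝ) ^ c := by
  have h1 : Tendsto (fun n : ℕ => (n : ℝ) ^ (-(c - c'))) atTop (𝓝 0) :=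
    (tendsto_rpow_neg_atTop (sub_pos.mpr hcc)).comp tendsto_natCast_atTop_atTop
  have h2 : ∀ᶠ n : ℕ in atTop, (n : ℝ) ^ (-(c - c')) < ε := h1.eventually (gt_mem_nhds hε)
  filter_upwards [h2, eventually_ge_atTop 1] with n hn hn1
  have hn0 : (0 : ℝ) < n := by exact_mod_cast hn1
  have h3 : (n : ℝ) ^ c' = (n : ℝ) ^ (-(c - c')) * (n : ℝ) ^ c := by
    rw [← Real.rpow_add hn0]; congr 1; ring
  rw [h3]
  exact mul_le_mul_of_nonneg_right hn.le (Real.rpow_nonneg hn0.le _)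

theorem size (c c' K : ℝ) (hc' : 0 < c') (hcc : c' < c) (hK : 0 ≤ K) (g : ℕ → ℝ)
    (hg : ∀ᶠ n : ℕ in atTop, |g n| ≤ K * (n : ℝ) ^ c) (a b : ℝ) (ha : K < a) :
    ∃ δ ρ₀ M : ℝ, 0 < δ ∧ 0 < ρ₀ ∧ ρ₀ ≤ 1 ∧ 0 < M ∧ ∀ᶠ n : ℕ in atTop, ∀ ω : ℝ × ℝ, a - ρ₀ ≤ ω.1 → ω.1 ≤ a + 1 + ρ₀ →
      b - ρ₀ ≤ ω.2 → ω.2 ≤ b + 1 + ρ₀ → δ * (n : ℝ) ^ c ≤ xx c c' g n ω ∧ xx c c' g n ω ≤ M * (n : ℝ) ^ c := by
  have hb : 0 < |b| + 2 := by positivity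
  have hε : 0 < min 1 ((a - K) / (4 * (|b| + 2))) := lt_min one_pos (div_pos (by linarith) (by positivity))
  refine ⟨(a - K) / 4, min 1 ((a - K) / 2), a + K + |b| + 6, by linarith,
    lt_min one_pos (by linarith), min_le_left _ _, by linarith, ?_⟩
  filter_upwards [hg, size_aux c c' _ hcc hε] with n hgn hn ω h1 h2 h3 h4
  have hρ1 : min 1 ((a - K) / 2) ≤ 1 := min_le_left _ _
  have hρ2 : min 1 ((a - K) / 2) ≤ (a - K) / 2 := min_le_right _ _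
  have hX : 0 ≤ (n : ℝ) ^ c := Real.rpow_nonneg (Nat.cast_nonneg n) _
  have hY : 0 ≤ (n : ℝ) ^ c' := Real.rpow_nonneg (Nat.cast_nonneg n) _
  have hYX1 : (n : ℝ) ^ c' ≤ (n : ℝ) ^ c := by
    refine hn.trans ?_
    have := mul_le_mul_of_nonneg_right (min_le_left 1 ((a - K) / (4 * (|b| + 2)))) hX
    linarith
  have hYX2 : (|b| + 2) * (n : ℝ) ^ c' ≤ (a - K) / 4 * (n : ℝ) ^ c := by
    have e1 : (n : ℝ) ^ c' ≤ (a - K) / (4 * (|b| + 2)) * (n : ℝ) ^ c :=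
      hn.trans (mul_le_mul_of_nonneg_right (min_le_right _ _) hX)
    calc (|b| + 2) * (n : ℝ) ^ c' ≤ (|b| + 2) * ((a - K) / (4 * (|b| + 2)) * (n : ℝ) ^ c) :=
          mul_le_mul_of_nonneg_left e1 hb.le
      _ = (a - K) / 4 * (n : ℝ) ^ c := by field_simp
  obtain ⟨hb1, hb2⟩ := abs_le.mp (le_refl |b|)
  obtain ⟨hg1, hg2⟩ := abs_le.mp hgn
  unfold xx
  have w1 : (a + K) / 2 * (n : ℝ) ^ c ≤ ω.1 * (n : ℝ) ^ c :=
    mul_le_mul_of_nonneg_right (by linarith) hX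
  have w2 : ω.1 * (n : ℝ) ^ c ≤ (a + 2) * (n : ℝ) ^ c :=
    mul_le_mul_of_nonneg_right (by linarith) hX
  have w3 : -(|b| + 2) * (n : ℝ) ^ c' ≤ ω.2 * (n : ℝ) ^ c' :=
    mul_le_mul_of_nonneg_right (by linarith) hY
  have w4 : ω.2 * (n : ℝ) ^ c' ≤ (|b| + 2) * (n : ℝ) ^ c' :=
    mul_le_mul_of_nonneg_right (by linarith) hY
  have w5 : (|b| + 2) * (n : ℝ) ^ c' ≤ (|b| + 2) * (n : ℝ) ^ c :=
    mul_le_mul_of_nonneg_left hYX1 hb.le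
  constructor <;> nlinarith

end J6

end Pool.Agent.helper616_RP
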