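import Pool.Agent.helper616_RP.Defs
import Pool.Agent.helper616_RP.J4
import Pool.Agent.helper616_RP.J6

/-!
# Project RP (helper616): the mean value of one factor
-/

set_option autoImplicit false
set_option maxHeartbeats 4000000

open Finset MeasureTheory Filter Topology

namespace Pool.Agent.helper616_RP

open J4 (gen)
open J6 (size)

namespace J7


namespace single_aux

theorem th_nonneg (n : ℕ) : 0 ≤ th n := by
  unfold th
  split_ifs
  · exact Real.log_natCast_nonneg n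
  · exact le_rfl

theorem th_le (n X : ℕ) (h : n < X) : th n ≤ Real.log X := by
  unfold th
  split_ifs with hp
  · exact Real.log_le_log (by exact_mod_cast hp.pos) (by exact_mod_cast h.le)
  · exact Real.log_natCast_nonneg X

theorem abs_th_le (n X : ℕ) (h : n < X) : |th n - 1| ≤ Real.log X + 1 := by
  have h1 := th_nonneg n
  have h2 := th_le n X h
  rw [abs_le]
  constructor <;> linarith

theorem vol_B (a b : ℝ) : (volume (B a b)) = 1 := by
  unfold B
  rw [Measure.volume_eq_prod, Measure.prod_prod, Real.volume_Icc, Real.volume_Icc]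
  simp

theorem meas_B (a b : ℝ) : MeasurableSet (B a b) := measurableSet_Icc.prod measurableSet_Icc

theorem meas_xx (c c' : ℝ) (g : ℕ → ℝ) (n : ℕ) : Measurable (fun ω : ℝ × ℝ => xx c c' g n ω) := by
  unfold xx
  fun_prop

theorem meas_th (c c' : ℝ) (g : ℕ → ℝ) (n : ℕ) :
    Measurable (fun ω : ℝ × ℝ => th ⌊xx c c' g n ω⌋₊) :=
  (measurable_from_top (f := th)).comp ((meas_xx c c' g n).nat_floor)

theorem int_sub (a b c c' : ℝ) (g : ℕ → ℝ) (n X : ℕ)
    (h : ∀ ω ∈ B a b, ⌊xx c c' g n ω⌋₊ < X) :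
    ∫ ω in B a b, (th ⌊xx c c' g n ω⌋₊ - 1) = (∫ ω in B a b, th ⌊xx c c' g n ω⌋₊) - 1 := by
  have hfin : volume (B a b) ≠ ⊤ := by rw [vol_B]; exact ENNReal.one_ne_top
  have hint : IntegrableOn (fun ω : ℝ × ℝ => th ⌊xx c c' g n ω⌋₊) (B a b) := by
    refine Measure.integrableOn_of_bounded (M := Real.log X) hfin
      (meas_th c c' g n).aestronglyMeasurable ?_
    rw [ae_restrict_iff' (meas_B a b)]
    refine Eventually.of_forall fun ω hω => ?_
    rw [Real.norm_eq_abs, abs_of_nonneg (th_nonneg _)]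
    exact th_le _ _ (h ω hω)
  have hint1 : IntegrableOn (fun _ : ℝ × ℝ => (1 : ℝ)) (B a b) := by
    exact integrableOn_const hfin
  rw [integral_sub hint hint1]
  congr 1
  rw [setIntegral_const]
  simp [Measure.real, vol_B]

end single_aux

open single_aux in
theorem single (hVAR : S_VAR) (c c' : ℝ) (hc' : 0 < c') (hcc : c' < c) (K : ℝ) (hK : 0 ≤ K) (g : ℕ → ℝ)
    (hg : ∀ᶠ n : ℕ in atTop, |g n| ≤ K * (n : ℝ) ^ c) (a b : ℝ) (ha : K < a) (A : ℕ) :
    ∃ C : ℝ, ∀ᶠ n : ℕ in atTop, |(∫ ω in B a b, th ⌊xx c c' g n ω⌋₊) - 1| ≤ C / (Real.log n) ^ A := by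
  obtain ⟨δ, ρ₀, M₀, hδ, hρ₀, hρ₁, hM₀, hsize⟩ := size c c' K hc' hcc hK g hg a b ha
  obtain ⟨X₀, hX₀⟩ := hVAR (1 / 2) (by norm_num) (2 * A)
  have hc : 0 < c := hc'.trans hcc
  have hc2 : 0 < c / 2 := by positivity
  set Q : ℝ := Real.sqrt (M₀ + 2) with hQ
  have hQ0 : 0 ≤ Q := Real.sqrt_nonneg _
  have hcast : Tendsto (fun n : ℕ => (n : ℝ)) atTop atTop := tendsto_natCast_atTop_atTop
  have hlog : Tendsto (fun n : ℕ => Real.log n) atTop atTop := Real.tendsto_log_atTop.comp hcast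
  have hE2 : ∀ᶠ n : ℕ in atTop, 1 ≤ Real.log n := hlog.eventually_ge_atTop 1
  have hE3 : ∀ᶠ n : ℕ in atTop, 1 / (Real.log n) ^ (A + 2) ≤ min ρ₀ M₀ := by
    have h1 : Tendsto (fun n : ℕ => 1 / (Real.log n) ^ (A + 2)) atTop (𝓝 0) := by
      have h2 : Tendsto (fun n : ℕ => (Real.log n) ^ (A + 2)) atTop atTop :=
        (tendsto_pow_atTop (by omega)).comp hlog
      simp only [one_div]
      exact h2.inv_tendsto_atTop
    exact h1.eventually_le_const (lt_min hρ₀ hM₀)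
  have hE4 : ∀ᶠ n : ℕ in atTop, (Real.log n) ^ (A + 2) * (Q + 1) ≤ (n : ℝ) ^ (c / 2) := by
    have h1 := (isLittleO_log_rpow_rpow_atTop (((A + 2 : ℕ) : ℝ)) hc2).def
      (show (0 : ℝ) < 1 / (Q + 1) by positivity)
    filter_upwards [hcast.eventually h1, hE2] with n h2 h3
    rw [Real.rpow_natCast, Real.norm_eq_abs, Real.norm_eq_abs, abs_of_nonneg (by positivity),
      abs_of_nonneg (by positivity)] at h2
    have h4 : (0 : ℝ) < Q + 1 := by positivity
    calc (Real.log n) ^ (A + 2) * (Q + 1) ≤ (1 / (Q + 1) * (n : ℝ) ^ (c / 2)) * (Q + 1) :=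
          mul_le_mul_of_nonneg_right h2 h4.le
      _ = (n : ℝ) ^ (c / 2) := by field_simp
  have hE5 : ∀ᶠ n : ℕ in atTop, (X₀ : ℝ) ≤ M₀ * (n : ℝ) ^ c := by
    have h1 : Tendsto (fun n : ℕ => M₀ * (n : ℝ) ^ c) atTop atTop :=
      ((tendsto_rpow_atTop hc).comp hcast).const_mul_atTop hM₀
    exact h1.eventually_ge_atTop _
  have hE6 : ∀ᶠ n : ℕ in atTop, (1 : ℝ) ≤ M₀ * (n : ℝ) ^ (c / 2) := by
    have h1 : Tendsto (fun n : ℕ => M₀ * (n : ℝ) ^ (c / 2)) atTop atTop :=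
      ((tendsto_rpow_atTop hc2).comp hcast).const_mul_atTop hM₀
    exact h1.eventually_ge_atTop _
  refine ⟨4 * (Real.log (M₀ + 2) + c + 1) + Q * (2 / c) ^ A, ?_⟩
  filter_upwards [hsize, hE2, hE3, hE4, hE5, hE6, eventually_ge_atTop 1] with n h1 h2 h3 h4 h5 h6 h7
  set lg := Real.log n with hlg
  have hlg0 : 0 < lg := by linarith
  have hn1 : (1 : ℝ) ≤ n := by exact_mod_cast h7
  set U : ℝ := (n : ℝ) ^ c with hU
  have hU1 : 1 ≤ U := Real.one_le_rpow hn1 hc.le
  have hU0 : 0 < U := by linarith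
  set Y : ℝ := (n : ℝ) ^ (c / 2) with hY
  have hY1 : 1 ≤ Y := Real.one_le_rpow hn1 hc2.le
  have hYU : Y * Y = U := by
    rw [hY, hU, ← Real.rpow_add (by linarith)]
    congr 1
    ring
  set ρ : ℝ := 1 / lg ^ (A + 2) with hρ
  have hρ0 : 0 < ρ := by positivity
  have hρρ₀ : ρ ≤ ρ₀ := h3.trans (min_le_left _ _)
  have hρM₀ : ρ ≤ M₀ := h3.trans (min_le_right _ _)
  set X : ℕ := ⌈M₀ * U⌉₊ + 1 with hX
  have hX1 : M₀ * U < X := by
    rw [hX]; push_cast
    have := Nat.le_ceil (M₀ * U)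
    linarith
  have hX2 : (X : ℝ) ≤ (M₀ + 2) * U := by
    rw [hX]; push_cast
    have := Nat.ceil_lt_add_one (show 0 ≤ M₀ * U by positivity)
    linarith
  set W : ℕ := ⌊ρ * U⌋₊ with hW
  have hWle : (W : ℝ) ≤ ρ * U := Nat.floor_le (by positivity)
  have hWge : Q * Y + 1 ≤ ρ * U := by
    have h8 : lg ^ (A + 2) * (Q + 1) * Y ≤ U := by
      rw [← hYU]
      exact mul_le_mul_of_nonneg_right h4 (by linarith)
    have h9 : (Q + 1) * Y ≤ ρ * U := by
      rw [hρ, div_mul_eq_mul_div, one_mul, le_div_iff₀ (by positivity)]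
      linarith
    nlinarith
  have hWge' : Q * Y ≤ W := by
    have := Nat.lt_floor_add_one (ρ * U)
    rw [← hW] at this
    linarith
  have hXsq : Real.sqrt X ≤ Q * Y := by
    have h8 : Q * Y = Real.sqrt ((M₀ + 2) * U) := by
      rw [Real.sqrt_mul (by positivity), ← hYU, Real.sqrt_mul_self (by linarith)]
    rw [h8]
    exact Real.sqrt_le_sqrt hX2
  have hX0 : (1 : ℝ) ≤ X := by
    rw [hX]; push_cast
    have : (0 : ℝ) ≤ (⌈M₀ * U⌉₊ : ℝ) := Nat.cast_nonneg _
    linarith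
  have hXW : (X : ℝ) ^ ((1 : ℝ) / 2) ≤ W := by
    rw [← Real.sqrt_eq_rpow]
    exact hXsq.trans hWge'
  have hW1 : 1 ≤ W := by
    have h8 : (1 : ℝ) ≤ Real.sqrt X := Real.one_le_sqrt.2 hX0
    have h9 : (1 : ℝ) ≤ W := h8.trans (hXsq.trans hWge')
    exact_mod_cast h9
  have hW0 : (0 : ℝ) < W := by exact_mod_cast hW1
  have hWX : W ≤ X := by
    have h8 : (W : ℝ) ≤ X := hWle.trans ((mul_le_mul_of_nonneg_right hρM₀ hU0.le).trans hX1.le)
    exact_mod_cast h8
  have hX0X : X₀ ≤ X := by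
    have h8 : (X₀ : ℝ) ≤ X := h5.trans hX1.le
    exact_mod_cast h8
  have hlogX1 : Real.log X ≤ Real.log (M₀ + 2) + c * lg := by
    have h8 : Real.log ((M₀ + 2) * U) = Real.log (M₀ + 2) + c * lg := by
      rw [Real.log_mul (by positivity) (by positivity), hU, Real.log_rpow (by linarith)]
    rw [← h8]
    exact Real.log_le_log (by linarith) hX2
  have hlogX2 : c / 2 * lg ≤ Real.log X := by
    have h8 : Real.log Y = c / 2 * lg := by rw [hY, Real.log_rpow (by linarith)]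
    rw [← h8]
    refine Real.log_le_log (by linarith) ?_
    have h9 : M₀ * U = M₀ * Y * Y := by rw [← hYU]; ring
    nlinarith
  have hlogX0 : 0 < Real.log X := lt_of_lt_of_le (by positivity) hlogX2
  have hvar := hX₀ X hX0X W hXW hWX
  have hbox : ∀ ω : ℝ × ℝ, a - ρ ≤ ω.1 → ω.1 ≤ a + 1 + ρ → b - ρ ≤ ω.2 → ω.2 ≤ b + 1 + ρ →
      0 ≤ ω.1 * U + ω.2 * (n : ℝ) ^ c' + g n ∧ ω.1 * U + ω.2 * (n : ℝ) ^ c' + g n < X ∧
        |(1 : ℝ)| ≤ 1 := by
    intro ω w1 w2 w3 w4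
    have h8 := h1 ω (by linarith) (by linarith) (by linarith) (by linarith)
    unfold xx at h8
    refine ⟨?_, ?_, by simp⟩
    · have : 0 ≤ δ * U := by positivity
      linarith [h8.1]
    · linarith [h8.2]
  have hgen := gen a b U ((n : ℝ) ^ c') (g n) hU0 X W hW1 (1 / U, 0)
    (by simp only [zero_mul, add_zero]; field_simp) ρ
    (by
      show W * |1 / U| ≤ ρ
      rw [abs_of_pos (by positivity), mul_one_div, div_le_iff₀ hU0]
      exact hWle)
    (by
      show W * |(0 : ℝ)| ≤ ρ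
      rw [abs_zero, mul_zero]; exact hρ0.le)
    (fun u => th u - 1) (Real.log X + 1) (fun u hu => abs_th_le u X hu)
    (fun _ => 1) measurable_const 1 hbox (fun _ _ => rfl)
  have hlt : ∀ ω ∈ B a b, ⌊xx c c' g n ω⌋₊ < X := by
    intro ω hω
    obtain ⟨⟨w1, w2⟩, ⟨w3, w4⟩⟩ := hω
    have h8 := hbox ω (by linarith) (by linarith) (by linarith) (by linarith)
    exact (Nat.floor_lt h8.1).2 h8.2.1
  have hint := int_sub a b c c' g n X hlt
  have heq : ∫ ω in B a b, (1 : ℝ) * (th ⌊ω.1 * U + ω.2 * (n : ℝ) ^ c' + g n⌋₊ - 1) =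
      (∫ ω in B a b, th ⌊xx c c' g n ω⌋₊) - 1 := by
    rw [← hint]
    simp only [one_mul]
    rfl
  have hgen' : |(∫ ω in B a b, th ⌊xx c c' g n ω⌋₊) - 1| ≤ 4 * 1 * (Real.log X + 1) * ρ +
      1 * Real.sqrt ((∑ u ∈ range X, (∑ s ∈ Icc 1 W, (th (u + s) - 1)) ^ 2) / U) / W := by
    rw [← heq]
    exact hgen
  refine hgen'.trans ?_
  rw [add_div]
  refine add_le_add ?_ ?_
  · rw [hρ, mul_one_div, div_le_div_iff₀ (by positivity) (by positivity)]
    have h8 : Real.log X + 1 ≤ (Real.log (M₀ + 2) + c + 1) * lg := by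
      have h9 : 0 ≤ Real.log (M₀ + 2) := Real.log_nonneg (by linarith)
      nlinarith
    have h9 : (0 : ℝ) ≤ Real.log (M₀ + 2) + c + 1 := by
      have h9 : 0 ≤ Real.log (M₀ + 2) := Real.log_nonneg (by linarith)
      linarith
    have h10 : 4 * 1 * (Real.log X + 1) * lg ^ A ≤
        4 * ((Real.log (M₀ + 2) + c + 1) * lg) * lg ^ A := by
      have : (0 : ℝ) ≤ lg ^ A := by positivity
      nlinarith
    refine h10.trans ?_
    have h11 : lg ^ (A + 1) ≤ lg ^ (A + 2) := pow_le_pow_right₀ h2 (by omega)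
    calc 4 * ((Real.log (M₀ + 2) + c + 1) * lg) * lg ^ A
        = 4 * (Real.log (M₀ + 2) + c + 1) * lg ^ (A + 1) := by ring
      _ ≤ 4 * (Real.log (M₀ + 2) + c + 1) * lg ^ (A + 2) := by
          apply mul_le_mul_of_nonneg_left h11
          linarith
  · have h8 : (∑ u ∈ range X, (∑ s ∈ Icc 1 W, (th (u + s) - 1)) ^ 2) / U ≤
        (Q * W / (Real.log X) ^ A) ^ 2 := by
      rw [div_le_iff₀ hU0]
      refine hvar.trans ?_
      rw [div_pow, mul_pow, ← pow_mul, mul_comm A 2, hQ, Real.sq_sqrt (by positivity),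
        div_mul_eq_mul_div]
      apply div_le_div_of_nonneg_right _ (by positivity)
      have h9 : (0 : ℝ) ≤ (W : ℝ) ^ 2 := by positivity
      nlinarith
    have h9 : Real.sqrt ((∑ u ∈ range X, (∑ s ∈ Icc 1 W, (th (u + s) - 1)) ^ 2) / U) ≤
        Q * W / (Real.log X) ^ A := by
      rw [← Real.sqrt_sq (show 0 ≤ Q * W / (Real.log X) ^ A by positivity)]
      exact Real.sqrt_le_sqrt h8
    rw [one_mul, div_le_iff₀ hW0]
    refine h9.trans ?_
    rw [div_mul_eq_mul_div, div_le_div_iff₀ (by positivity) (by positivity)]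
    have h10 : lg ^ A ≤ (2 / c) ^ A * (Real.log X) ^ A := by
      rw [← mul_pow]
      apply pow_le_pow_left₀ hlg0.le
      have : lg = 2 / c * (c / 2 * lg) := by field_simp
      rw [this]
      exact mul_le_mul_of_nonneg_left hlogX2 (by positivity)
    have h11 : (0 : ℝ) ≤ Q * W := by positivity
    calc Q * W * lg ^ A ≤ Q * W * ((2 / c) ^ A * (Real.log X) ^ A) :=
          mul_le_mul_of_nonneg_left h10 h11
      _ = Q * (2 / c) ^ A * W * (Real.log X) ^ A := by ring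

end J7

end Pool.Agent.helper616_RP
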