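import Pool.Agent.helper616_RP.Defs
import Pool.Agent.helper616_RP.J4
import Pool.Agent.helper616_RP.J6
import Pool.Agent.helper616_RP.J5
import Pool.Agent.helper616_RP.J7

/-!
# Project RP (helper616): the correlation of two factors at distinct arguments
-/

set_option autoImplicit false
set_option maxHeartbeats 4000000

open Finset MeasureTheory Filter Topology

namespace Pool.Agent.helper616_RP

open J4 (gen)
open J6 (size)
open J5 (ratio_lower)
open J7 (single)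

namespace J8


theorem th_nonneg (k : ℕ) : 0 ≤ th k := by
  unfold th; split_ifs with h
  · exact Real.log_nonneg (by exact_mod_cast h.one_lt.le)
  · exact le_rfl

theorem th_le {k X : ℕ} (hk : k ≤ X) : th k ≤ Real.log X := by
  unfold th; split_ifs with h
  · exact Real.log_le_log (by exact_mod_cast h.pos) (by exact_mod_cast hk)
  · exact Real.log_natCast_nonneg X

theorem meas_th (c c' : ℝ) (g : ℕ → ℝ) (n : ℕ) : Measurable (fun ω : ℝ × ℝ => th ⌊xx c c' g n ω⌋₊) := by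
  refine (measurable_from_top (f := th)).comp (Nat.measurable_floor.comp ?_)
  unfold xx
  fun_prop

theorem ev (c : ℝ) (hc : 0 < c) (ρ₀ M₀ κ ε Q : ℝ) (hρ₀ : 0 < ρ₀) (hκ : 0 < κ) (hε : 0 < ε) (A X₀ : ℕ) :
    ∀ᶠ m : ℕ in atTop, 1 ≤ Real.log m ∧ 1 / (Real.log m) ^ (A + 3) ≤ ρ₀ ∧ M₀ ≤ m ∧ (X₀ : ℝ) ≤ (m : ℝ) ^ c ∧
      (Real.log m) ^ (A + 3) * Q ≤ κ * (m : ℝ) ^ ε := by
  have hlog : Tendsto (fun m : ℕ => Real.log m) atTop atTop := Real.tendsto_log_atTop.comp tendsto_natCast_atTop_atTop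
  have hl1 := hlog.eventually_ge_atTop 1
  have hl2 : Tendsto (fun m : ℕ => (Real.log m) ^ (A + 3)) atTop atTop := (tendsto_pow_atTop (by omega)).comp hlog
  have hl3 := hl2.eventually_ge_atTop (1 / ρ₀)
  have h4 : ∀ᶠ m : ℕ in atTop, M₀ ≤ (m : ℝ) := tendsto_natCast_atTop_atTop.eventually_ge_atTop M₀
  have h5 : ∀ᶠ m : ℕ in atTop, (X₀ : ℝ) ≤ (m : ℝ) ^ c :=
    ((tendsto_rpow_atTop hc).comp tendsto_natCast_atTop_atTop).eventually_ge_atTop (X₀ : ℝ)
  have h6 : ∀ᶠ m : ℕ in atTop, (Real.log m) ^ (A + 3) * Q ≤ κ * (m : ℝ) ^ ε := by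
    have h := (isLittleO_log_rpow_rpow_atTop ((A + 3 : ℕ) : ℝ) hε).comp_tendsto (tendsto_natCast_atTop_atTop (R := ℝ))
    have h' := h.bound (c := κ / (|Q| + 1)) (by positivity)
    filter_upwards [h', hl1] with m hm hm1
    simp only [Function.comp_apply, Real.rpow_natCast] at hm
    have hp : 0 ≤ Real.log m := by linarith
    rw [Real.norm_of_nonneg (pow_nonneg hp _), Real.norm_of_nonneg (Real.rpow_nonneg (Nat.cast_nonneg m) _)] at hm
    calc (Real.log m) ^ (A + 3) * Q ≤ (Real.log m) ^ (A + 3) * (|Q| + 1) := by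
          apply mul_le_mul_of_nonneg_left _ (pow_nonneg hp _)
          linarith [le_abs_self Q]
      _ ≤ (κ / (|Q| + 1) * (m : ℝ) ^ ε) * (|Q| + 1) := by
          apply mul_le_mul_of_nonneg_right hm (by positivity)
      _ = κ * (m : ℝ) ^ ε := by
          field_simp
  filter_upwards [hl1, hl3, h4, h5, h6] with m a1 a2 a3 a4 a5
  refine ⟨a1, ?_, a3, a4, a5⟩
  rw [div_le_iff₀ (by positivity)]
  rw [div_le_iff₀ hρ₀] at a2
  linarith

theorem pair (hVAR : S_VAR) (c c' : ℝ) (hc' : 0 < c') (hcc : c' < c) (K : ℝ) (hK : 0 ≤ K) (g : ℕ → ℝ)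
    (hg : ∀ᶠ n : ℕ in atTop, |g n| ≤ K * (n : ℝ) ^ c) (a b : ℝ) (ha : K < a)
    (η : ℝ) (hη : 0 ≤ η) (hη2 : η < c' - c / 3) (D : ℕ) (A : ℕ) :
    ∃ C : ℝ, ∃ n₀ : ℕ, ∀ n m : ℕ, n₀ ≤ n → n < m → m ≤ n ^ D → (m : ℝ) ^ (1 - η) ≤ (m : ℝ) - n →
      |(∫ ω in B a b, th ⌊xx c c' g n ω⌋₊ * th ⌊xx c c' g m ω⌋₊) - 1| ≤ C / (Real.log m) ^ A := by
  have hc : 0 < c := hc'.trans hcc
  obtain ⟨δ, ρ₀, M₀, hδ, hρ₀, hρ₀1, hM₀, hsize⟩ := size c c' K hc' hcc hK g hg a b ha
  obtain ⟨κ, hκ, hratio⟩ := ratio_lower (c - c') η (sub_pos.2 hcc) hη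
  obtain ⟨C₁, hsingle⟩ := single hVAR c c' hc' hcc K hK g hg a b ha A
  obtain ⟨θ, hθ⟩ : ∃ θ : ℝ, θ = (1/3 + (c' - η)/c)/2 := ⟨_, rfl⟩
  have hq : 1/3 < (c'-η)/c := by rw [lt_div_iff₀ hc]; linarith
  have hθ1 : 1/3 < θ := by rw [hθ]; linarith
  obtain ⟨X₀, hX₀⟩ := hVAR θ hθ1 (2*A+6)
  have hcθ : c * θ = (c / 3 + (c' - η)) / 2 := by rw [hθ]; field_simp
  obtain ⟨ε, hε⟩ : ∃ ε : ℝ, ε = c' - η - c * θ := ⟨_, rfl⟩
  have hε0 : 0 < ε := by rw [hε, hcθ]; linarith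
  have hev := ev c hc ρ₀ (M₀ + 4) κ ε ((M₀ + 4) ^ θ + 1) hρ₀ hκ hε0 A X₀
  obtain ⟨N, hN⟩ := eventually_atTop.1 (hsize.and (hsingle.and hev))
  refine ⟨|C₁| * (D : ℝ) ^ A + (4 * ((c + 1) * (c + 2)) + Real.sqrt (M₀ + 4) / c ^ (A + 2)), max N 1, ?_⟩
  intro n m hn0 hnm hmD hgap
  have hnN : N ≤ n := le_trans (le_max_left _ _) hn0
  have hn1 : 1 ≤ n := le_trans (le_max_right _ _) hn0
  obtain ⟨hsn, hsin, hln, -, -, -, -⟩ := hN n hnN
  obtain ⟨hsm, -, hlm, hρm, hM4, hXm, hbig⟩ := hN m (hnN.trans hnm.le)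
  have hn1' : (1 : ℝ) ≤ n := by exact_mod_cast hn1
  have hm1' : (1 : ℝ) ≤ m := by exact_mod_cast (hn1.trans hnm.le)
  have hnm' : (n : ℝ) < m := by exact_mod_cast hnm
  have hn0' : (0 : ℝ) < n := by linarith
  have hm0' : (0 : ℝ) < m := by linarith
  -- the powers
  obtain ⟨nc, hnc⟩ : ∃ t : ℝ, t = (n : ℝ) ^ c := ⟨_, rfl⟩
  obtain ⟨nd, hnd⟩ : ∃ t : ℝ, t = (n : ℝ) ^ c' := ⟨_, rfl⟩
  obtain ⟨mc, hmc⟩ : ∃ t : ℝ, t = (m : ℝ) ^ c := ⟨_, rfl⟩
  obtain ⟨md, hmd⟩ : ∃ t : ℝ, t = (m : ℝ) ^ c' := ⟨_, rfl⟩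
  have hnc0 : 0 < nc := by rw [hnc]; positivity
  have hnd0 : 0 < nd := by rw [hnd]; positivity
  have hmc0 : 0 < mc := by rw [hmc]; positivity
  have hmd0 : 0 < md := by rw [hmd]; positivity
  have hmc1 : 1 ≤ mc := by rw [hmc]; exact Real.one_le_rpow hm1' hc.le
  have hndnc : nd ≤ nc := by rw [hnd, hnc]; exact Real.rpow_le_rpow_of_exponent_le hn1' hcc.le
  have hncmc : nc ≤ mc := by rw [hnc, hmc]; exact Real.rpow_le_rpow hn0'.le hnm'.le hc.le
  -- the determinant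
  have hratio1 := hratio n m hn1 hnm hgap
  obtain ⟨Δ, hΔ⟩ : ∃ t : ℝ, t = nd * mc - nc * md := ⟨_, rfl⟩
  have hΔnc : Δ / nc = md * (((m : ℝ) / n) ^ (c - c') - 1) := by
    rw [Real.div_rpow hm0'.le hn0'.le, Real.rpow_sub hm0', Real.rpow_sub hn0', ← hnc, ← hnd, ← hmc, ← hmd, hΔ]
    field_simp
  have hΔlow : κ * (m : ℝ) ^ (c' - η) ≤ Δ / nc := by
    rw [hΔnc, sub_eq_add_neg c' η, Real.rpow_add hm0', ← hmd]
    calc κ * (md * (m : ℝ) ^ (-η)) = md * (κ * (m : ℝ) ^ (-η)) := by ring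
      _ ≤ _ := mul_le_mul_of_nonneg_left hratio1 hmd0.le
  have hΔup : Δ / nc ≤ mc := by
    rw [hΔ, div_le_iff₀ hnc0]
    nlinarith [mul_pos hnc0 hmd0, mul_le_mul_of_nonneg_right hndnc hmc0.le]
  have hΔ0 : 0 < Δ := by
    have h1 : 0 < Δ / nc := lt_of_lt_of_le (by positivity) hΔlow
    have := mul_pos h1 hnc0
    rwa [div_mul_cancel₀ _ hnc0.ne'] at this
  -- X
  obtain ⟨X, hX⟩ : ∃ X : ℕ, X = ⌈(M₀ + 1) * mc⌉₊ + 1 := ⟨_, rfl⟩
  have hXlow : (M₀ + 1) * mc < X := by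
    rw [hX]; push_cast
    linarith [Nat.le_ceil ((M₀ + 1) * mc)]
  have hXup : (X : ℝ) ≤ (M₀ + 4) * mc := by
    rw [hX]; push_cast
    have := Nat.ceil_lt_add_one (a := (M₀ + 1) * mc) (by positivity)
    nlinarith
  have hX1 : (1 : ℝ) ≤ X := by nlinarith
  have hX0' : (0 : ℝ) < X := by linarith
  have hmcX : mc ≤ X := by nlinarith
  have hXX₀ : X₀ ≤ X := by
    have : (X₀ : ℝ) ≤ X := by rw [hmc] at hmcX; exact hXm.trans hmcX
    exact_mod_cast this
  have hlogXlow : c * Real.log m ≤ Real.log X := by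
    rw [← Real.log_rpow hm0', ← hmc]
    exact Real.log_le_log hmc0 hmcX
  have hlogXup : Real.log X ≤ (c + 1) * Real.log m := by
    rw [← Real.log_rpow hm0']
    apply Real.log_le_log hX0'
    rw [Real.rpow_add hm0', Real.rpow_one, ← hmc]
    nlinarith
  have hl0 : 0 < Real.log m := by linarith
  have hlX0 : 0 < Real.log X := lt_of_lt_of_le (mul_pos hc hl0) hlogXlow
  -- ρ, W
  obtain ⟨ρ, hρ⟩ : ∃ t : ℝ, t = 1 / (Real.log m) ^ (A + 3) := ⟨_, rfl⟩
  have hρ0 : 0 < ρ := by rw [hρ]; positivity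
  have hρ1 : ρ ≤ ρ₀ := by rw [hρ]; exact hρm
  obtain ⟨W, hW⟩ : ∃ W : ℕ, W = ⌊ρ * (Δ / nc)⌋₊ := ⟨_, rfl⟩
  have hWup : (W : ℝ) ≤ ρ * (Δ / nc) := by rw [hW]; exact Nat.floor_le (by positivity)
  have hWlow : (X : ℝ) ^ θ ≤ W := by
    have h1 : ρ * (Δ / nc) - 1 < W := by rw [hW]; exact Nat.sub_one_lt_floor _
    have hθ0 : 0 < θ := by linarith
    have h2 : (X : ℝ) ^ θ ≤ (M₀ + 4) ^ θ * (m : ℝ) ^ (c * θ) := by
      rw [Real.rpow_mul hm0'.le, ← hmc, ← Real.mul_rpow (by positivity) hmc0.le]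
      exact Real.rpow_le_rpow hX0'.le hXup hθ0.le
    have h3 : ((M₀ + 4) ^ θ + 1) * (m : ℝ) ^ (c * θ) ≤ ρ * (κ * (m : ℝ) ^ (c' - η)) := by
      have h4 : (m : ℝ) ^ (c' - η) = (m : ℝ) ^ ε * (m : ℝ) ^ (c * θ) := by
        rw [← Real.rpow_add hm0']; congr 1; rw [hε]; ring
      rw [h4, hρ]
      have h5 : ((M₀ + 4) ^ θ + 1) ≤ 1 / (Real.log m) ^ (A + 3) * (κ * (m : ℝ) ^ ε) := by
        rw [one_div, inv_mul_eq_div, le_div_iff₀ (by positivity)]
        linarith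
      calc ((M₀ + 4) ^ θ + 1) * (m : ℝ) ^ (c * θ) ≤ (1 / (Real.log m) ^ (A + 3) * (κ * (m : ℝ) ^ ε)) * (m : ℝ) ^ (c * θ) :=
            mul_le_mul_of_nonneg_right h5 (by positivity)
        _ = _ := by ring
    have h6 : ρ * (κ * (m : ℝ) ^ (c' - η)) ≤ ρ * (Δ / nc) := mul_le_mul_of_nonneg_left hΔlow hρ0.le
    have h7 : 1 ≤ (m : ℝ) ^ (c * θ) := Real.one_le_rpow hm1' (by positivity)
    nlinarith
  have hW1' : (1 : ℝ) ≤ W := le_trans (Real.one_le_rpow hX1 (by linarith)) hWlow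
  have hW1 : 1 ≤ W := by exact_mod_cast hW1'
  have hW0' : (0 : ℝ) < W := by linarith
  have hWX : W ≤ X := by
    have : (W : ℝ) ≤ X := by
      calc (W : ℝ) ≤ ρ * (Δ / nc) := hWup
        _ ≤ 1 * (Δ / nc) := mul_le_mul_of_nonneg_right (hρ1.trans hρ₀1) (by positivity)
        _ ≤ mc := by rw [one_mul]; exact hΔup
        _ ≤ X := hmcX
    exact_mod_cast this
  have hvar := hX₀ X hXX₀ W hWlow hWX
  -- the function f, Φ
  have hthX : ∀ ω : ℝ × ℝ, a - ρ ≤ ω.1 → ω.1 ≤ a + 1 + ρ → b - ρ ≤ ω.2 → ω.2 ≤ b + 1 + ρ →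
      |th ⌊xx c c' g n ω⌋₊| ≤ Real.log X ∧ 0 ≤ xx c c' g m ω ∧ xx c c' g m ω < X := by
    intro ω h1 h2 h3 h4
    have s1 := hsn ω (by linarith) (by linarith) (by linarith) (by linarith)
    have s2 := hsm ω (by linarith) (by linarith) (by linarith) (by linarith)
    rw [← hnc] at s1
    rw [← hmc] at s2
    refine ⟨?_, le_trans (by positivity) s2.1, by nlinarith [s2.2]⟩
    rw [abs_of_nonneg (th_nonneg _)]
    apply th_le
    apply Nat.floor_le_of_le
    nlinarith [s1.2]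
  have hgen := gen a b mc md (g m) hmc0 X W hW1 (nd / Δ, - (nc / Δ)) (by
      show nd / Δ * mc + (-(nc / Δ)) * md = 1
      rw [hΔ]; rw [hΔ] at hΔ0
      field_simp
      ring) ρ (by
      show (W : ℝ) * |nd / Δ| ≤ ρ
      rw [abs_of_pos (by positivity)]
      calc (W : ℝ) * (nd / Δ) ≤ (ρ * (Δ / nc)) * (nc / Δ) := by
            apply mul_le_mul hWup _ (by positivity) (by positivity)
            exact div_le_div_of_nonneg_right hndnc hΔ0.le
        _ = ρ := by field_simp) (by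
      show (W : ℝ) * |-(nc / Δ)| ≤ ρ
      rw [abs_neg, abs_of_pos (by positivity)]
      calc (W : ℝ) * (nc / Δ) ≤ (ρ * (Δ / nc)) * (nc / Δ) := by
            apply mul_le_mul_of_nonneg_right hWup (by positivity)
        _ = ρ := by field_simp)
    (fun k => th k - 1) (Real.log X + 1) (by
      intro k hk
      rw [abs_le]
      have := th_nonneg k
      have h2 := th_le (le_of_lt hk)
      constructor <;> linarith)
    (fun ω => th ⌊xx c c' g n ω⌋₊) (meas_th c c' g n) (Real.log X) (by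
      intro ω h1 h2 h3 h4
      obtain ⟨r1, r2, r3⟩ := hthX ω h1 h2 h3 h4
      unfold xx at r2 r3
      rw [← hmc, ← hmd] at r2 r3
      exact ⟨r2, r3, r1⟩) (by
      intro ω t
      have : xx c c' g n (ω + t • ((nd / Δ, - (nc / Δ)) : ℝ × ℝ)) = xx c c' g n ω := by
        unfold xx
        simp only [Prod.fst_add, Prod.snd_add, Prod.smul_fst, Prod.smul_snd, smul_eq_mul]
        rw [← hnc, ← hnd]
        field_simp
        ring
      simp only [this])
  have hmain : |∫ ω in B a b, th ⌊xx c c' g n ω⌋₊ * (th ⌊xx c c' g m ω⌋₊ - 1)| ≤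
      (4 * ((c + 1) * (c + 2)) + Real.sqrt (M₀ + 4) / c ^ (A + 2)) / (Real.log m) ^ A := by
    have e1 : ∀ ω : ℝ × ℝ, ω.1 * mc + ω.2 * md + g m = xx c c' g m ω := by
      intro ω; unfold xx; rw [hmc, hmd]
    simp only [e1] at hgen
    refine hgen.trans ?_
    rw [add_div]
    apply add_le_add
    · rw [hρ, le_div_iff₀ (by positivity)]
      have h1 : (Real.log X) * (Real.log X + 1) ≤ ((c + 1) * Real.log m) * ((c + 2) * Real.log m) := by
        apply mul_le_mul hlogXup _ (by positivity) (by positivity)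
        linarith
      have h2 : (1 : ℝ) / (Real.log m) ^ (A + 3) * (Real.log m) ^ A = 1 / (Real.log m) ^ 3 := by
        rw [pow_add]; field_simp
      calc 4 * Real.log X * (Real.log X + 1) * (1 / (Real.log m) ^ (A + 3)) * (Real.log m) ^ A
          = 4 * ((Real.log X) * (Real.log X + 1)) * ((1 / (Real.log m) ^ (A + 3)) * (Real.log m) ^ A) := by ring
        _ = 4 * ((Real.log X) * (Real.log X + 1)) * (1 / (Real.log m) ^ 3) := by rw [h2]
        _ ≤ 4 * (((c + 1) * Real.log m) * ((c + 2) * Real.log m)) * (1 / (Real.log m) ^ 3) := by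
            apply mul_le_mul_of_nonneg_right _ (by positivity)
            linarith
        _ = 4 * ((c + 1) * (c + 2)) * (1 / Real.log m) := by field_simp
        _ ≤ 4 * ((c + 1) * (c + 2)) * 1 := by
            apply mul_le_mul_of_nonneg_left _ (by positivity)
            rw [div_le_one hl0]; exact hlm
        _ = _ := by ring
    · have h1 : (∑ u ∈ range X, (∑ s ∈ Icc 1 W, (th (u + s) - 1)) ^ 2) / mc ≤
          (M₀ + 4) * ((W : ℝ) / (Real.log X) ^ (A + 3)) ^ 2 := by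
        rw [div_le_iff₀ hmc0]
        refine hvar.trans ?_
        have h2 : (X : ℝ) * (W : ℝ) ^ 2 / (Real.log X) ^ (2 * A + 6) =
            X * ((W : ℝ) / (Real.log X) ^ (A + 3)) ^ 2 := by
          rw [div_pow, ← pow_mul, show (A + 3) * 2 = 2 * A + 6 by ring]; ring
        rw [h2]
        calc (X : ℝ) * ((W : ℝ) / (Real.log X) ^ (A + 3)) ^ 2 ≤ ((M₀ + 4) * mc) * ((W : ℝ) / (Real.log X) ^ (A + 3)) ^ 2 :=
              mul_le_mul_of_nonneg_right hXup (by positivity)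
          _ = _ := by ring
      have h3 : Real.sqrt ((∑ u ∈ range X, (∑ s ∈ Icc 1 W, (th (u + s) - 1)) ^ 2) / mc) ≤
          Real.sqrt (M₀ + 4) * ((W : ℝ) / (Real.log X) ^ (A + 3)) := by
        refine (Real.sqrt_le_sqrt h1).trans ?_
        rw [Real.sqrt_mul (by positivity), Real.sqrt_sq (by positivity)]
      calc Real.log X * Real.sqrt ((∑ u ∈ range X, (∑ s ∈ Icc 1 W, (th (u + s) - 1)) ^ 2) / mc) / W
          ≤ Real.log X * (Real.sqrt (M₀ + 4) * ((W : ℝ) / (Real.log X) ^ (A + 3))) / W := by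
            apply div_le_div_of_nonneg_right _ hW0'.le
            exact mul_le_mul_of_nonneg_left h3 hlX0.le
        _ = Real.sqrt (M₀ + 4) / (Real.log X) ^ (A + 2) := by
            rw [show A + 3 = (A + 2) + 1 by ring, pow_succ]
            field_simp
        _ ≤ Real.sqrt (M₀ + 4) / (c ^ (A + 2) * (Real.log m) ^ A) := by
            apply div_le_div_of_nonneg_left (Real.sqrt_nonneg _) (by positivity)
            calc c ^ (A + 2) * (Real.log m) ^ A ≤ c ^ (A + 2) * (Real.log m) ^ (A + 2) := by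
                  apply mul_le_mul_of_nonneg_left _ (by positivity)
                  exact pow_le_pow_right₀ hlm (by omega)
              _ = (c * Real.log m) ^ (A + 2) := by rw [mul_pow]
              _ ≤ (Real.log X) ^ (A + 2) := pow_le_pow_left₀ (by positivity) hlogXlow _
        _ = _ := by rw [div_div]
  -- the single integral
  have hsing : |(∫ ω in B a b, th ⌊xx c c' g n ω⌋₊) - 1| ≤ |C₁| * (D : ℝ) ^ A / (Real.log m) ^ A := by
    refine hsin.trans ?_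
    have hlD : Real.log m ≤ D * Real.log n := by
      rw [← Real.log_pow]
      apply Real.log_le_log hm0'
      exact_mod_cast hmD
    have hln0 : 0 < Real.log n := by linarith
    rw [div_le_div_iff₀ (by positivity) (by positivity)]
    calc C₁ * (Real.log m) ^ A ≤ |C₁| * (D * Real.log n) ^ A := by
          apply mul_le_mul (le_abs_self _) (pow_le_pow_left₀ hl0.le hlD _) (by positivity) (abs_nonneg _)
      _ = _ := by rw [mul_pow]; ring
  -- integrability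
  have hBfin : volume (B a b) < ⊤ := by
    unfold B
    rw [Measure.volume_eq_prod, Measure.prod_prod]
    exact ENNReal.mul_lt_top (by simp) (by simp)
  have hBmeas : MeasurableSet (B a b) := measurableSet_Icc.prod measurableSet_Icc
  have hint1 : IntegrableOn (fun ω : ℝ × ℝ => th ⌊xx c c' g n ω⌋₊) (B a b) := by
    refine Measure.integrableOn_of_bounded (M := Real.log X) hBfin.ne (meas_th c c' g n).aestronglyMeasurable ?_
    refine (ae_restrict_iff' hBmeas).2 (Eventually.of_forall ?_)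
    intro ω hω
    obtain ⟨⟨h1, h2⟩, h3, h4⟩ := hω
    exact (hthX ω (by linarith) (by linarith) (by linarith) (by linarith)).1
  have hint2 : IntegrableOn (fun ω : ℝ × ℝ => th ⌊xx c c' g n ω⌋₊ * (th ⌊xx c c' g m ω⌋₊ - 1)) (B a b) := by
    refine Measure.integrableOn_of_bounded (M := Real.log X * (Real.log X + 1)) hBfin.ne
      ((meas_th c c' g n).mul ((meas_th c c' g m).sub_const 1)).aestronglyMeasurable ?_
    refine (ae_restrict_iff' hBmeas).2 (Eventually.of_forall ?_)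
    intro ω hω
    obtain ⟨⟨h1, h2⟩, h3, h4⟩ := hω
    obtain ⟨r1, r2, r3⟩ := hthX ω (by linarith) (by linarith) (by linarith) (by linarith)
    rw [norm_mul]
    apply mul_le_mul r1 _ (norm_nonneg _) hlX0.le
    rw [Real.norm_eq_abs, abs_le]
    have h5 := th_nonneg ⌊xx c c' g m ω⌋₊
    have h6 : th ⌊xx c c' g m ω⌋₊ ≤ Real.log X := th_le (Nat.floor_le_of_le r3.le)
    constructor <;> linarith
  have hsplit : (∫ ω in B a b, th ⌊xx c c' g n ω⌋₊ * th ⌊xx c c' g m ω⌋₊) - 1 =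
      (∫ ω in B a b, th ⌊xx c c' g n ω⌋₊ * (th ⌊xx c c' g m ω⌋₊ - 1)) + ((∫ ω in B a b, th ⌊xx c c' g n ω⌋₊) - 1) := by
    rw [← add_sub_assoc, ← integral_add hint2 hint1]
    congr 1
    apply integral_congr_ae
    exact Eventually.of_forall (fun ω => by ring)
  rw [hsplit]
  refine (abs_add_le _ _).trans ?_
  rw [add_div]
  linarith

end J8

end Pool.Agent.helper616_RP
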