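import Pool.Agent.helper616_RP.Defs

/-!
# Project RP (helper616): an almost sure mean value theorem
-/

set_option autoImplicit false

open Finset MeasureTheory Filter Topology

namespace Pool.Agent.helper616_RP

namespace J9


theorem sm_poly_le (m : ℕ) : ∃ K : ℝ, 0 ≤ K ∧ ∀ n : ℕ, ((n : ℝ) + 2) ^ m ≤ K * (√2) ^ n := by
  have hs2 : (1 : ℝ) < √2 := by
    rw [Real.lt_sqrt (by norm_num)]; norm_num
  have hs0 : (0 : ℝ) < √2 := by linarith
  have h := tendsto_pow_const_mul_const_pow_of_abs_lt_one m (r := (√2)⁻¹) (by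
    rw [abs_of_pos (inv_pos.2 hs0)]
    exact inv_lt_one_of_one_lt₀ hs2)
  obtain ⟨K, hK⟩ := h.bddAbove_range
  refine ⟨|K| * 2, by positivity, fun n => ?_⟩
  have h1 : ((n + 2 : ℕ) : ℝ) ^ m * ((√2)⁻¹) ^ (n + 2) ≤ K := hK ⟨n + 2, rfl⟩
  have h2 : ((n + 2 : ℕ) : ℝ) ^ m ≤ K * (√2) ^ (n + 2) := by
    have h3 : (0 : ℝ) < (√2) ^ (n + 2) := by positivity
    have h4 := mul_le_mul_of_nonneg_right h1 h3.le
    rwa [mul_assoc, ← mul_pow, inv_mul_cancel₀ hs0.ne', one_pow, mul_one] at h4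
  have h5 : (√2 : ℝ) ^ (n + 2) = 2 * (√2) ^ n := by
    rw [pow_add, Real.sq_sqrt (by norm_num)]; ring
  rw [h5] at h2
  have h6 : ((n + 2 : ℕ) : ℝ) = (n : ℝ) + 2 := by push_cast; ring
  rw [h6] at h2
  have h7 : (0 : ℝ) < (√2) ^ n := by positivity
  have h8 := mul_le_mul_of_nonneg_right (le_abs_self K) (by positivity : (0 : ℝ) ≤ 2 * (√2) ^ n)
  linarith

/-- truncated sum -/
noncomputable def TT {Ω : Type*} (a : ℕ → Ω → ℝ) (R : ℕ) (ω : Ω) : ℝ :=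
  ∑ r ∈ Ico (Nat.sqrt R) R, (a r ω - 1)

theorem sm_sq {Ω : Type*} (a : ℕ → Ω → ℝ) (R : ℕ) (ω : Ω) :
    (TT a R ω) ^ 2 = (∑ q ∈ Ico (Nat.sqrt R) R, ∑ r ∈ Ico (Nat.sqrt R) R, (a q ω * a r ω - 1)) -
      2 * ((Ico (Nat.sqrt R) R).card : ℝ) * ∑ r ∈ Ico (Nat.sqrt R) R, (a r ω - 1) := by
  unfold TT
  set I := Ico (Nat.sqrt R) R with hI
  have h1 : (∑ r ∈ I, (a r ω - 1)) ^ 2 = ∑ q ∈ I, ∑ r ∈ I, (a q ω - 1) * (a r ω - 1) := by
    rw [sq, Finset.sum_mul_sum]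
  rw [h1]
  have h2 : ∀ q ∈ I, ∑ r ∈ I, (a q ω - 1) * (a r ω - 1) =
      ∑ r ∈ I, (a q ω * a r ω - 1) - (I.card : ℝ) * (a q ω - 1) - ∑ r ∈ I, (a r ω - 1) := by
    intro q _
    rw [← nsmul_eq_mul, ← Finset.sum_const, ← Finset.sum_sub_distrib, ← Finset.sum_sub_distrib]
    exact Finset.sum_congr rfl fun r _ => by ring
  rw [Finset.sum_congr rfl h2, Finset.sum_sub_distrib, Finset.sum_sub_distrib, ← Finset.mul_sum, Finset.sum_const,
    nsmul_eq_mul]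
  ring

theorem sm_int {Ω : Type*} [MeasurableSpace Ω] (μ : Measure Ω) [IsProbabilityMeasure μ] (a : ℕ → Ω → ℝ)
    (ha : ∀ r, Measurable (a r)) (C : ℝ) (k : ℕ)
    (h0 : ∀ r, ∀ᵐ ω ∂μ, 0 ≤ a r ω ∧ a r ω ≤ C * (Real.log (r + 2)) ^ k) :
    (∀ r, Integrable (a r) μ) ∧ ∀ q r, Integrable (fun ω => a q ω * a r ω) μ := by
  have hb : ∀ r, ∀ᵐ ω ∂μ, ‖a r ω‖ ≤ C * (Real.log (r + 2)) ^ k := by
    intro r
    filter_upwards [h0 r] with ω hω
    rw [Real.norm_eq_abs, abs_of_nonneg hω.1]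
    exact hω.2
  refine ⟨fun r => Integrable.of_bound (ha r).aestronglyMeasurable _ (hb r), fun q r => ?_⟩
  refine Integrable.of_bound ((ha q).mul (ha r)).aestronglyMeasurable
    ((C * (Real.log (q + 2)) ^ k) * (C * (Real.log (r + 2)) ^ k)) ?_
  filter_upwards [hb q, hb r] with ω h1 h2
  rw [norm_mul]
  exact mul_le_mul h1 h2 (norm_nonneg _) ((norm_nonneg _).trans h1)

theorem sm_TT_int {Ω : Type*} [MeasurableSpace Ω] (μ : Measure Ω) [IsProbabilityMeasure μ] (a : ℕ → Ω → ℝ)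
    (hi : (∀ r, Integrable (a r) μ) ∧ ∀ q r, Integrable (fun ω => a q ω * a r ω) μ) (R : ℕ) (M1 M2 : ℝ)
    (h1 : ∑ r ∈ Ico (Nat.sqrt R) R, |(∫ ω, a r ω ∂μ) - 1| ≤ M1)
    (h2 : ∑ q ∈ Ico (Nat.sqrt R) R, ∑ r ∈ Ico (Nat.sqrt R) R, |(∫ ω, a q ω * a r ω ∂μ) - 1| ≤ M2) :
    Integrable (fun ω => (TT a R ω) ^ 2) μ ∧ ∫ ω, (TT a R ω) ^ 2 ∂μ ≤ M2 + 2 * R * M1 := by
  set I := Ico (Nat.sqrt R) R with hI
  have i1 : ∀ q r, Integrable (fun ω => a q ω * a r ω - 1) μ := fun q r => (hi.2 q r).sub (integrable_const 1)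
  have i2 : ∀ r, Integrable (fun ω => a r ω - 1) μ := fun r => (hi.1 r).sub (integrable_const 1)
  have i3 : ∀ q, Integrable (fun ω => ∑ r ∈ I, (a q ω * a r ω - 1)) μ := fun q =>
    integrable_finsetSum _ fun r _ => i1 q r
  have hA : Integrable (fun ω => ∑ q ∈ I, ∑ r ∈ I, (a q ω * a r ω - 1)) μ :=
    integrable_finsetSum _ fun q _ => i3 q
  have hB : Integrable (fun ω => ∑ r ∈ I, (a r ω - 1)) μ :=
    integrable_finsetSum _ fun r _ => i2 r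
  have heq : (fun ω => (TT a R ω) ^ 2) = fun ω => (∑ q ∈ I, ∑ r ∈ I, (a q ω * a r ω - 1)) -
      2 * (I.card : ℝ) * ∑ r ∈ I, (a r ω - 1) := by
    funext ω
    exact sm_sq a R ω
  rw [heq]
  refine ⟨hA.sub (hB.const_mul _), ?_⟩
  rw [integral_sub hA (hB.const_mul _), integral_const_mul]
  have e1 : ∫ ω, ∑ q ∈ I, ∑ r ∈ I, (a q ω * a r ω - 1) ∂μ =
      ∑ q ∈ I, ∑ r ∈ I, ((∫ ω, a q ω * a r ω ∂μ) - 1) := by
    rw [integral_finsetSum _ fun q _ => i3 q]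
    refine Finset.sum_congr rfl fun q _ => ?_
    rw [integral_finsetSum _ fun r _ => i1 q r]
    refine Finset.sum_congr rfl fun r _ => ?_
    rw [integral_sub (hi.2 q r) (integrable_const 1)]
    simp
  have e2 : ∫ ω, ∑ r ∈ I, (a r ω - 1) ∂μ = ∑ r ∈ I, ((∫ ω, a r ω ∂μ) - 1) := by
    rw [integral_finsetSum _ fun r _ => i2 r]
    refine Finset.sum_congr rfl fun r _ => ?_
    rw [integral_sub (hi.1 r) (integrable_const 1)]
    simp
  rw [e1, e2]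
  have f1 : ∑ q ∈ I, ∑ r ∈ I, ((∫ ω, a q ω * a r ω ∂μ) - 1) ≤ M2 :=
    (Finset.sum_le_sum fun q _ => Finset.sum_le_sum fun r _ => le_abs_self _).trans h2
  have f2 : -(∑ r ∈ I, ((∫ ω, a r ω ∂μ) - 1)) ≤ M1 := by
    rw [← Finset.sum_neg_distrib]
    exact (Finset.sum_le_sum fun r _ => neg_le_abs _).trans h1
  have f3 : 0 ≤ M1 := (Finset.sum_nonneg fun r _ => abs_nonneg _).trans h1
  have hc : (I.card : ℝ) ≤ R := by
    have : I.card ≤ R := by rw [hI, Nat.card_Ico]; omega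
    exact_mod_cast this
  have hc0 : (0 : ℝ) ≤ I.card := Nat.cast_nonneg _
  have f4 : 2 * (I.card : ℝ) * -(∑ r ∈ I, ((∫ ω, a r ω ∂μ) - 1)) ≤ 2 * R * M1 := by
    calc 2 * (I.card : ℝ) * -(∑ r ∈ I, ((∫ ω, a r ω ∂μ) - 1)) ≤ 2 * (I.card : ℝ) * M1 :=
          mul_le_mul_of_nonneg_left f2 (by positivity)
      _ ≤ 2 * R * M1 := by gcongr
  linarith

/-- step -/
def qq (A n : ℕ) : ℕ := 2 ^ n / (n + 1) ^ (A + 1) + 1

/-- bad events -/
def bad {Ω : Type*} (a : ℕ → Ω → ℝ) (A n : ℕ) : Set Ω :=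
  ⋃ l ∈ range (2 * (n + 1) ^ (A + 1) + 1),
    {ω | (2 ^ n ≤ 2 * (l * qq A n) ∧ l * qq A n ≤ 4 * 2 ^ n) ∧
      ((2 : ℝ) ^ n / ((n : ℝ) + 1) ^ A) ^ 2 ≤ (TT a (l * qq A n) ω) ^ 2}

theorem sm_log_lower {n x : ℕ} (hn : 3 ≤ n) (hx : 2 ^ n ≤ 2 * x) : ((n : ℝ) + 1) / 4 ≤ Real.log x := by
  have h1 : (2 : ℝ) ^ (n - 1) ≤ x := by
    have : 2 ^ (n - 1) ≤ x := by
      have h2 : 2 ^ n = 2 * 2 ^ (n - 1) := by
        rw [← pow_succ']; congr 1; omega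
      omega
    exact_mod_cast this
  have h2 : Real.log ((2 : ℝ) ^ (n - 1)) ≤ Real.log x := Real.log_le_log (by positivity) h1
  rw [Real.log_pow] at h2
  have h3 : ((n - 1 : ℕ) : ℝ) = (n : ℝ) - 1 := by
    rw [Nat.cast_sub (by omega)]; simp
  rw [h3] at h2
  have h4 := Real.log_two_gt_d9
  have h5 : (3 : ℝ) ≤ n := by exact_mod_cast hn
  nlinarith

theorem sm_bad_le {Ω : Type*} [MeasurableSpace Ω] (μ : Measure Ω) [IsProbabilityMeasure μ] (a : ℕ → Ω → ℝ)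
    (hi : (∀ r, Integrable (a r) μ) ∧ ∀ q r, Integrable (fun ω => a q ω * a r ω) μ) (A : ℕ) (C1 C2 : ℝ)
    (h1 : ∀ R : ℕ, 2 ≤ R →
      ∑ r ∈ Ico (Nat.sqrt R) R, |(∫ ω, a r ω ∂μ) - 1| ≤ C1 * R / (Real.log R) ^ (3 * A + 3))
    (h2 : ∀ R : ℕ, 2 ≤ R →
      ∑ q ∈ Ico (Nat.sqrt R) R, ∑ r ∈ Ico (Nat.sqrt R) R, |(∫ ω, a q ω * a r ω ∂μ) - 1| ≤
        C2 * (R : ℝ) ^ 2 / (Real.log R) ^ (3 * A + 3)) (n : ℕ) :
    μ.real (bad a A n) ≤ (48 * (|C2| + 2 * |C1|) * 4 ^ (3 * A + 3) + 16) / ((n : ℝ) + 1) ^ 2 := by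
  set K := |C2| + 2 * |C1| with hK
  have hK0 : 0 ≤ K := by positivity
  rcases Nat.lt_or_ge n 3 with hn | hn
  · have h3 : μ.real (bad a A n) ≤ 1 := measureReal_le_one
    have h4 : ((n : ℝ) + 1) ≤ 3 := by
      have : (n : ℝ) ≤ 2 := by exact_mod_cast (by omega : n ≤ 2)
      linarith
    have h5 : ((n : ℝ) + 1) ^ 2 ≤ 16 := by
      have : (0 : ℝ) ≤ n := Nat.cast_nonneg _
      nlinarith
    have h6 : (0 : ℝ) < ((n : ℝ) + 1) ^ 2 := by positivity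
    rw [le_div_iff₀ h6]
    have h7 : (0 : ℝ) ≤ 48 * K * 4 ^ (3 * A + 3) := by positivity
    nlinarith [measureReal_nonneg (μ := μ) (s := bad a A n)]
  · have hN : (0 : ℝ) < (n : ℝ) + 1 := by positivity
    have key : ∀ l ∈ range (2 * (n + 1) ^ (A + 1) + 1),
        μ.real {ω | (2 ^ n ≤ 2 * (l * qq A n) ∧ l * qq A n ≤ 4 * 2 ^ n) ∧
          ((2 : ℝ) ^ n / ((n : ℝ) + 1) ^ A) ^ 2 ≤ (TT a (l * qq A n) ω) ^ 2} ≤
          16 * K * 4 ^ (3 * A + 3) / ((n : ℝ) + 1) ^ (A + 3) := by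
      intro l _
      set x := l * qq A n with hx
      by_cases hcond : 2 ^ n ≤ 2 * x ∧ x ≤ 4 * 2 ^ n
      · have hset : {ω | (2 ^ n ≤ 2 * x ∧ x ≤ 4 * 2 ^ n) ∧
            ((2 : ℝ) ^ n / ((n : ℝ) + 1) ^ A) ^ 2 ≤ (TT a x ω) ^ 2} =
            {ω | ((2 : ℝ) ^ n / ((n : ℝ) + 1) ^ A) ^ 2 ≤ (TT a x ω) ^ 2} := by
          ext ω
          simp only [Set.mem_ofPred_eq]
          exact ⟨fun h => h.2, fun h => ⟨hcond, h⟩⟩
        rw [hset]
        have hx2 : 2 ≤ x := by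
          have h8 : 2 ^ 3 ≤ 2 ^ n := Nat.pow_le_pow_right (by norm_num) hn
          omega
        have hT := sm_TT_int μ a hi x _ _ (h1 x hx2) (h2 x hx2)
        have hch := mul_meas_ge_le_integral_of_nonneg (μ := μ) (f := fun ω => (TT a x ω) ^ 2)
          (Filter.Eventually.of_forall fun ω => sq_nonneg _) hT.1
          (((2 : ℝ) ^ n / ((n : ℝ) + 1) ^ A) ^ 2)
        have hlog := sm_log_lower hn hcond.1
        have hlogp : 0 < Real.log x := lt_of_lt_of_le (by positivity) hlog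
        have hxr : (x : ℝ) ≤ 4 * 2 ^ n := by exact_mod_cast hcond.2
        have hx0 : (0 : ℝ) ≤ x := Nat.cast_nonneg _
        have hup : C2 * (x : ℝ) ^ 2 / (Real.log x) ^ (3 * A + 3) +
            2 * x * (C1 * x / (Real.log x) ^ (3 * A + 3)) ≤
            K * (4 * 2 ^ n) ^ 2 / (((n : ℝ) + 1) / 4) ^ (3 * A + 3) := by
          have e1 : C2 * (x : ℝ) ^ 2 / (Real.log x) ^ (3 * A + 3) +
            2 * x * (C1 * x / (Real.log x) ^ (3 * A + 3)) =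
            ((C2 + 2 * C1) * (x : ℝ) ^ 2) / (Real.log x) ^ (3 * A + 3) := by ring
          rw [e1]
          have e2 : (C2 + 2 * C1) * (x : ℝ) ^ 2 ≤ K * (x : ℝ) ^ 2 := by
            have := le_abs_self C2
            have := le_abs_self C1
            apply mul_le_mul_of_nonneg_right _ (sq_nonneg _)
            linarith
          calc ((C2 + 2 * C1) * (x : ℝ) ^ 2) / (Real.log x) ^ (3 * A + 3)
              ≤ (K * (x : ℝ) ^ 2) / (Real.log x) ^ (3 * A + 3) := by gcongr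
            _ ≤ (K * (4 * 2 ^ n) ^ 2) / (((n : ℝ) + 1) / 4) ^ (3 * A + 3) := by gcongr
        have h9 : ((2 : ℝ) ^ n / ((n : ℝ) + 1) ^ A) ^ 2 *
            μ.real {ω | ((2 : ℝ) ^ n / ((n : ℝ) + 1) ^ A) ^ 2 ≤ (TT a x ω) ^ 2} ≤
            K * (4 * 2 ^ n) ^ 2 / (((n : ℝ) + 1) / 4) ^ (3 * A + 3) := (hch.trans hT.2).trans hup
        have h10 : (0 : ℝ) < ((2 : ℝ) ^ n / ((n : ℝ) + 1) ^ A) ^ 2 := by positivity
        rw [← le_div_iff₀' h10] at h9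
        refine h9.trans (le_of_eq ?_)
        have e3 : ((n : ℝ) + 1) ^ (3 * A + 3) = (((n : ℝ) + 1) ^ A) ^ 2 * ((n : ℝ) + 1) ^ (A + 3) := by
          rw [← pow_mul, ← pow_add]; congr 1; ring
        rw [div_pow, e3]
        field_simp
        ring
      · have hset : {ω | (2 ^ n ≤ 2 * x ∧ x ≤ 4 * 2 ^ n) ∧
            ((2 : ℝ) ^ n / ((n : ℝ) + 1) ^ A) ^ 2 ≤ (TT a x ω) ^ 2} = ∅ := by
          ext ω
          simp only [Set.mem_ofPred_eq, Set.mem_empty_iff_false, iff_false]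
          exact fun h => hcond h.1
        rw [hset, measureReal_empty]
        positivity
    have hsum := (measureReal_biUnion_finset_le (μ := μ) (range (2 * (n + 1) ^ (A + 1) + 1))
      (fun l => {ω | (2 ^ n ≤ 2 * (l * qq A n) ∧ l * qq A n ≤ 4 * 2 ^ n) ∧
          ((2 : ℝ) ^ n / ((n : ℝ) + 1) ^ A) ^ 2 ≤ (TT a (l * qq A n) ω) ^ 2})).trans
      (Finset.sum_le_sum key)
    rw [Finset.sum_const, card_range, nsmul_eq_mul] at hsum
    refine (show μ.real (bad a A n) ≤ _ from hsum).trans ?_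
    have h11 : (((2 * (n + 1) ^ (A + 1) + 1 : ℕ)) : ℝ) ≤ 3 * ((n : ℝ) + 1) ^ (A + 1) := by
      push_cast
      have : (1 : ℝ) ≤ ((n : ℝ) + 1) ^ (A + 1) := one_le_pow₀ (by linarith [(Nat.cast_nonneg n : (0 : ℝ) ≤ n)])
      linarith
    calc (((2 * (n + 1) ^ (A + 1) + 1 : ℕ)) : ℝ) * (16 * K * 4 ^ (3 * A + 3) / ((n : ℝ) + 1) ^ (A + 3))
        ≤ (3 * ((n : ℝ) + 1) ^ (A + 1)) * (16 * K * 4 ^ (3 * A + 3) / ((n : ℝ) + 1) ^ (A + 3)) := by gcongr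
      _ = 48 * K * 4 ^ (3 * A + 3) / ((n : ℝ) + 1) ^ 2 := by
          rw [show A + 3 = (A + 1) + 2 by ring, pow_add ((n : ℝ) + 1) (A + 1) 2]
          field_simp
          ring
      _ ≤ _ := by
          gcongr
          linarith

theorem sm_ae {Ω : Type*} [MeasurableSpace Ω] (μ : Measure Ω) [IsProbabilityMeasure μ] (a : ℕ → Ω → ℝ)
    (A : ℕ) (K : ℝ) (hb : ∀ n, μ.real (bad a A n) ≤ K / ((n : ℝ) + 1) ^ 2) :
    ∀ᵐ ω ∂μ, ∀ᶠ n in atTop, ω ∉ bad a A n := by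
  apply ae_eventually_notMem
  have hs : Summable fun n : ℕ => K / ((n : ℝ) + 1) ^ 2 := by
    have h1 : Summable fun n : ℕ => 1 / ((n : ℝ)) ^ 2 := Real.summable_one_div_nat_pow.2 (by norm_num)
    have h2 := (summable_nat_add_iff 1).2 h1
    have h3 := h2.mul_left K
    refine h3.congr fun n => ?_
    push_cast
    ring
  refine ne_top_of_le_ne_top hs.tsum_ofReal_ne_top (ENNReal.tsum_le_tsum fun n => ?_)
  rw [← ENNReal.ofReal_toReal (measure_ne_top μ (bad a A n))]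
  exact ENNReal.ofReal_le_ofReal (hb n)

theorem sm_log_upper {n r : ℕ} (h : r + 2 ≤ 5 * 2 ^ n) : Real.log ((r : ℝ) + 2) ≤ (n : ℝ) + 2 := by
  have h0 : (0 : ℝ) < (r : ℝ) + 2 := by positivity
  rw [Real.log_le_iff_le_exp h0]
  have h1 : ((r : ℝ) + 2) ≤ 5 * 2 ^ n := by exact_mod_cast h
  have he := Real.exp_one_gt_d9
  have h2 : (2 : ℝ) ^ n ≤ Real.exp n := by
    have h3 : Real.exp n = (Real.exp 1) ^ n := by rw [← Real.exp_nat_mul, mul_one]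
    rw [h3]
    exact pow_le_pow_left₀ (by norm_num) (by linarith) n
  have h4 : (5 : ℝ) ≤ Real.exp 2 := by
    have h5 : Real.exp 2 = Real.exp 1 * Real.exp 1 := by rw [← Real.exp_add]; norm_num
    rw [h5]
    nlinarith
  rw [Real.exp_add, mul_comm]
  refine h1.trans ?_
  have h6 : (0 : ℝ) < 2 ^ n := by positivity
  exact mul_le_mul h4 h2 h6.le (Real.exp_pos _).le

theorem sm_small {b : ℕ → ℝ} {C : ℝ} {k : ℕ} (hb : ∀ r, 0 ≤ b r ∧ b r ≤ C * (Real.log (r + 2)) ^ k) {n x : ℕ}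
    (hx : x ≤ 4 * 2 ^ n) : |∑ r ∈ range (Nat.sqrt x), (b r - 1)| ≤
      2 * (√2) ^ n * (|C| * ((n : ℝ) + 2) ^ k + 1) := by
  have hs : ((Nat.sqrt x : ℕ) : ℝ) ≤ 2 * (√2) ^ n := by
    have h1 : (Nat.sqrt x) * (Nat.sqrt x) ≤ x := Nat.sqrt_le x
    have h2 : ((Nat.sqrt x : ℕ) : ℝ) ^ 2 ≤ (2 * (√2) ^ n) ^ 2 := by
      have h3 : (2 * (√2 : ℝ) ^ n) ^ 2 = 4 * 2 ^ n := by
        rw [mul_pow, ← pow_mul, mul_comm n 2, pow_mul, Real.sq_sqrt (by norm_num)]; norm_num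
      rw [h3, sq]
      exact_mod_cast h1.trans hx
    exact (abs_le_of_sq_le_sq' h2 (by positivity)).2
  have hpos : (0 : ℝ) ≤ |C| * ((n : ℝ) + 2) ^ k + 1 := by positivity
  calc |∑ r ∈ range (Nat.sqrt x), (b r - 1)| ≤ ∑ r ∈ range (Nat.sqrt x), |b r - 1| :=
        Finset.abs_sum_le_sum_abs _ _
    _ ≤ ∑ r ∈ range (Nat.sqrt x), (|C| * ((n : ℝ) + 2) ^ k + 1) := by
        refine Finset.sum_le_sum fun r hr => ?_
        rw [Finset.mem_range] at hr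
        have h4 : r + 2 ≤ 5 * 2 ^ n := by
          have := Nat.sqrt_le_self x
          have h5 : 1 ≤ 2 ^ n := Nat.one_le_two_pow
          omega
        have h6 := sm_log_upper h4
        have h7 : 0 ≤ Real.log ((r : ℝ) + 2) := Real.log_nonneg (by linarith [(Nat.cast_nonneg r : (0 : ℝ) ≤ r)])
        have h8 : (Real.log ((r : ℝ) + 2)) ^ k ≤ ((n : ℝ) + 2) ^ k := pow_le_pow_left₀ h7 h6 k
        have h9 : C * (Real.log ((r : ℝ) + 2)) ^ k ≤ |C| * ((n : ℝ) + 2) ^ k :=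
          mul_le_mul (le_abs_self C) h8 (pow_nonneg h7 k) (abs_nonneg C)
        rw [abs_le]
        constructor
        · have := (hb r).1
          have : (0 : ℝ) ≤ |C| * ((n : ℝ) + 2) ^ k := by positivity
          linarith
        · have := (hb r).2
          linarith
    _ = (Nat.sqrt x : ℝ) * (|C| * ((n : ℝ) + 2) ^ k + 1) := by
        rw [Finset.sum_const, card_range, nsmul_eq_mul]
    _ ≤ _ := mul_le_mul_of_nonneg_right hs hpos

theorem sm_det {b : ℕ → ℝ} {C : ℝ} {k : ℕ} (hb : ∀ r, 0 ≤ b r ∧ b r ≤ C * (Real.log (r + 2)) ^ k) (A n0 : ℕ)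
    (hT : ∀ n, n0 ≤ n → ∀ l, l < 2 * (n + 1) ^ (A + 1) + 1 → 2 ^ n ≤ 2 * (l * qq A n) → l * qq A n ≤ 4 * 2 ^ n →
      |∑ r ∈ Ico (Nat.sqrt (l * qq A n)) (l * qq A n), (b r - 1)| ≤ (2 : ℝ) ^ n / ((n : ℝ) + 1) ^ A) :
    ∃ C' : ℝ, ∀ R : ℕ, 2 ≤ R → |(∑ r ∈ range R, b r) - R| ≤ C' * R / (Real.log R) ^ A := by
  obtain ⟨K1, hK1, hK1'⟩ := sm_poly_le A
  obtain ⟨K2, hK2, hK2'⟩ := sm_poly_le (k + A)
  have hsplit : ∀ x : ℕ, (∑ r ∈ range x, b r) - x =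
      ∑ r ∈ range (Nat.sqrt x), (b r - 1) + ∑ r ∈ Ico (Nat.sqrt x) x, (b r - 1) := by
    intro x
    have h1 := Finset.sum_range_add_sum_Ico (fun r => b r - 1) (Nat.sqrt_le_self x)
    rw [h1, Finset.sum_sub_distrib, Finset.sum_const, card_range, nsmul_eq_mul, mul_one]
  have hmono : ∀ {x y : ℕ}, x ≤ y → ∑ r ∈ range x, b r ≤ ∑ r ∈ range y, b r := by
    intro x y hxy
    exact Finset.sum_le_sum_of_subset_of_nonneg (Finset.range_mono hxy) fun r _ _ => (hb r).1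
  -- the bound in dyadic blocks
  have main : ∀ n R : ℕ, n0 ≤ n → 3 ≤ n → 2 ^ n ≤ R → R < 2 ^ (n + 1) →
      |(∑ r ∈ range R, b r) - R| ≤ (2 + K1 + 2 * (|C| + 1) * K2) * ((2 : ℝ) ^ n / ((n : ℝ) + 1) ^ A) := by
    intro n R hn0 hn3 hR1 hR2
    set q := qq A n with hq
    set M := (n + 1) ^ (A + 1) with hM
    have hM4 : 4 ≤ M := by
      rw [hM]
      calc 4 ≤ n + 1 := by omega
        _ = (n + 1) ^ 1 := (pow_one _).symm
        _ ≤ (n + 1) ^ (A + 1) := Nat.pow_le_pow_right (by omega) (by omega)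
    have hp8 : 8 ≤ 2 ^ n := by
      calc 8 = 2 ^ 3 := by norm_num
        _ ≤ 2 ^ n := Nat.pow_le_pow_right (by norm_num) hn3
    have hqd : q = 2 ^ n / M + 1 := rfl
    have hq1 : 2 ^ n / M ≤ 2 ^ n / 4 := Nat.div_le_div_left hM4 (by norm_num)
    have hpp : 2 ^ (n + 1) = 2 * 2 ^ n := by rw [pow_succ]; ring
    rw [hpp] at hR2
    have hqM : 2 ^ n < M * q := by
      rw [hqd]
      exact Nat.lt_mul_div_succ _ (by omega)
    set l := R / q with hl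
    have hq0 : 0 < q := by rw [hqd]; exact Nat.succ_pos _
    have hx1 : l * q ≤ R := Nat.div_mul_le_self R q
    have hx2 : R < (l + 1) * q := by
      have := Nat.lt_mul_div_succ R hq0
      rw [mul_comm] at this
      exact this
    have hx12 : (l + 1) * q = l * q + q := by ring
    have hl2 : l < 2 * M := by
      by_contra hcon
      rw [not_lt] at hcon
      have h1 : 2 * M * q ≤ l * q := Nat.mul_le_mul_right q hcon
      have h2 : 2 * M * q = 2 * (M * q) := by ring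
      rw [h2] at h1
      have h3 : 2 * 2 ^ n < R := by linarith
      omega
    have hTn := hT n hn0
    rw [← hq] at hTn
    rw [← hM] at hTn
    have hq4 : 2 * q ≤ 2 ^ n + 2 - 2 ^ n / 2 ∧ q ≤ 2 ^ n / 4 + 1 := by omega
    have hq5 : 4 * q ≤ 2 ^ n + 4 := by omega
    have e1 : 2 ^ n ≤ 2 * (l * q) := by
      have : R < l * q + q := by rw [← hx12]; exact hx2
      omega
    have e2 : l * q ≤ 4 * 2 ^ n := by omega
    have e3 : 2 ^ n ≤ 2 * ((l + 1) * q) := by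
      rw [hx12]; omega
    have e4 : (l + 1) * q ≤ 4 * 2 ^ n := by
      rw [hx12]; omega
    have c1 := hTn l (by omega) e1 e2
    have c2 := hTn (l + 1) (by omega) e3 e4
    have d1 := sm_small hb (n := n) (x := l * q) e2
    have d2 := sm_small hb (n := n) (x := (l + 1) * q) e4
    generalize hP : 2 ^ n = P at hqd hR1 hR2 hp8 hq1
    have s1 := hsplit (l * q)
    have s2 := hsplit ((l + 1) * q)
    have m1 := hmono hx1
    have m2 := hmono hx2.le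
    set lam := (2 : ℝ) ^ n / ((n : ℝ) + 1) ^ A with hlam
    set D := 2 * (√2) ^ n * (|C| * ((n : ℝ) + 2) ^ k + 1) with hD
    have hn1 : (0 : ℝ) < (n : ℝ) + 1 := by positivity
    have hnA : (0 : ℝ) < ((n : ℝ) + 1) ^ A := by positivity
    have hs1 : (1 : ℝ) ≤ √2 := Real.one_le_sqrt.2 (by norm_num)
    have hss : (√2 : ℝ) ^ n * (√2) ^ n = 2 ^ n := by
      rw [← mul_pow, Real.mul_self_sqrt (by norm_num)]
    have hspos : (0 : ℝ) < (√2) ^ n := by positivity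
    have hs2 : (√2 : ℝ) ^ n ≤ 2 ^ n := by
      rw [← hss]
      exact le_mul_of_one_le_left hspos.le (one_le_pow₀ hs1)
    have hone : 1 ≤ K1 * lam := by
      rw [hlam, ← mul_div_assoc, le_div_iff₀ hnA, one_mul]
      calc ((n : ℝ) + 1) ^ A ≤ ((n : ℝ) + 2) ^ A := by gcongr; norm_num
        _ ≤ K1 * (√2) ^ n := hK1' n
        _ ≤ K1 * 2 ^ n := by gcongr
    have hDl : D ≤ 2 * (|C| + 1) * K2 * lam := by
      rw [hlam, ← mul_div_assoc, le_div_iff₀ hnA, hD]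
      have g1 : (1 : ℝ) ≤ ((n : ℝ) + 2) ^ k := one_le_pow₀ (by linarith)
      have g2 : |C| * ((n : ℝ) + 2) ^ k + 1 ≤ (|C| + 1) * ((n : ℝ) + 2) ^ k := by linarith
      have g3 : ((n : ℝ) + 1) ^ A ≤ ((n : ℝ) + 2) ^ A := by gcongr; norm_num
      calc 2 * (√2) ^ n * (|C| * ((n : ℝ) + 2) ^ k + 1) * ((n : ℝ) + 1) ^ A
          ≤ 2 * (√2) ^ n * ((|C| + 1) * ((n : ℝ) + 2) ^ k) * ((n : ℝ) + 2) ^ A := by gcongr
        _ = 2 * (|C| + 1) * ((√2) ^ n * ((n : ℝ) + 2) ^ (k + A)) := by rw [pow_add]; ring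
        _ ≤ 2 * (|C| + 1) * ((√2) ^ n * (K2 * (√2) ^ n)) := by
            have := hK2' n
            gcongr
        _ = 2 * (|C| + 1) * K2 * ((√2) ^ n * (√2) ^ n) := by ring
        _ = 2 * (|C| + 1) * K2 * 2 ^ n := by rw [hss]
    have hql : (q : ℝ) ≤ lam + 1 := by
      have g4 : ((P / M : ℕ) : ℝ) ≤ (P : ℝ) / M := Nat.cast_div_le
      have g5 : (P : ℝ) = 2 ^ n := by rw [← hP]; push_cast; rfl
      have g6 : (M : ℝ) = ((n : ℝ) + 1) ^ (A + 1) := by rw [hM]; push_cast; rfl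
      rw [hqd]
      push_cast
      rw [g5, g6] at g4
      have g7 : (2 : ℝ) ^ n / ((n : ℝ) + 1) ^ (A + 1) ≤ lam := by
        rw [hlam]
        gcongr
        · linarith
        · omega
      linarith
    have u1 : ((l * q : ℕ) : ℝ) ≤ R := by exact_mod_cast hx1
    have u2 : (R : ℝ) ≤ (((l + 1) * q : ℕ) : ℝ) := by exact_mod_cast hx2.le
    have u3 : (((l + 1) * q : ℕ) : ℝ) = ((l * q : ℕ) : ℝ) + q := by rw [hx12]; push_cast; ring
    rw [abs_le] at c1 c2 d1 d2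
    rw [abs_le]
    constructor <;> nlinarith [c1.1, c1.2, c2.1, c2.2, d1.1, d1.2, d2.1, d2.2]
  set n1 := max n0 3 with hn1
  refine ⟨(2 + K1 + 2 * (|C| + 1) * K2) +
    ∑ R ∈ range (2 ^ n1), |(∑ r ∈ range R, b r) - R| * (Real.log R) ^ A / R, fun R hR => ?_⟩
  have hRpos : (0 : ℝ) < R := by exact_mod_cast (by omega : 0 < R)
  have hlog : 0 < Real.log R := Real.log_pos (by exact_mod_cast (by omega : 1 < R))
  have hterm : ∀ R ∈ range (2 ^ n1), 0 ≤ |(∑ r ∈ range R, b r) - R| * (Real.log R) ^ A / R := by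
    intro R _
    have : 0 ≤ Real.log R := Real.log_natCast_nonneg R
    positivity
  have hKpos : 0 ≤ 2 + K1 + 2 * (|C| + 1) * K2 := by positivity
  rcases Nat.lt_or_ge R (2 ^ n1) with hlt | hge
  · have h1 : |(∑ r ∈ range R, b r) - R| * (Real.log R) ^ A / R ≤
        (2 + K1 + 2 * (|C| + 1) * K2) +
          ∑ R ∈ range (2 ^ n1), |(∑ r ∈ range R, b r) - R| * (Real.log R) ^ A / R := by
      have := Finset.single_le_sum hterm (Finset.mem_range.2 hlt)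
      linarith
    rw [div_le_iff₀ hRpos] at h1
    rw [le_div_iff₀ (by positivity)]
    exact h1
  · set n := Nat.log 2 R with hn
    have hR0 : R ≠ 0 := by omega
    have h1 : 2 ^ n ≤ R := Nat.pow_log_le_self 2 hR0
    have h2 : R < 2 ^ (n + 1) := Nat.lt_pow_succ_log_self (by norm_num) R
    have h3 : n1 ≤ n := by
      rw [hn]
      exact (Nat.le_log_iff_pow_le (by norm_num) hR0).2 hge
    have h4 := main n R (le_trans (le_max_left _ _) h3) (le_trans (le_max_right _ _) h3) h1 h2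
    refine h4.trans ?_
    have h5 : (0 : ℝ) ≤ ∑ R ∈ range (2 ^ n1), |(∑ r ∈ range R, b r) - R| * (Real.log R) ^ A / R :=
      Finset.sum_nonneg hterm
    have h6 : Real.log R ≤ (n : ℝ) + 1 := by
      have h7 : (R : ℝ) ≤ 2 ^ (n + 1) := by exact_mod_cast h2.le
      have h8 := Real.log_le_log hRpos h7
      rw [Real.log_pow] at h8
      have h9 := Real.log_two_lt_d9
      push_cast at h8
      have : (0 : ℝ) ≤ n := Nat.cast_nonneg _
      nlinarith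
    have h10 : (2 : ℝ) ^ n / ((n : ℝ) + 1) ^ A ≤ R / (Real.log R) ^ A := by
      have h11 : (2 : ℝ) ^ n ≤ R := by exact_mod_cast h1
      gcongr
    rw [mul_div_assoc]
    exact mul_le_mul (by linarith) h10 (by positivity) (by linarith)

theorem secondMoment {Ω : Type*} [MeasurableSpace Ω] (μ : Measure Ω) [IsProbabilityMeasure μ] (a : ℕ → Ω → ℝ)
    (ha : ∀ r, Measurable (a r)) (C : ℝ) (k : ℕ)
    (h0 : ∀ r, ∀ᵐ ω ∂μ, 0 ≤ a r ω ∧ a r ω ≤ C * (Real.log (r + 2)) ^ k)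
    (h1 : ∀ A : ℕ, ∃ C' : ℝ, ∀ R : ℕ, 2 ≤ R →
      ∑ r ∈ Ico (Nat.sqrt R) R, |(∫ ω, a r ω ∂μ) - 1| ≤ C' * R / (Real.log R) ^ A)
    (h2 : ∀ A : ℕ, ∃ C' : ℝ, ∀ R : ℕ, 2 ≤ R →
      ∑ q ∈ Ico (Nat.sqrt R) R, ∑ r ∈ Ico (Nat.sqrt R) R, |(∫ ω, a q ω * a r ω ∂μ) - 1| ≤
        C' * (R : ℝ) ^ 2 / (Real.log R) ^ A) :
    ∀ᵐ ω ∂μ, ∀ A : ℕ, ∃ C' : ℝ, ∀ R : ℕ, 2 ≤ R → |(∑ r ∈ range R, a r ω) - R| ≤ C' * R / (Real.log R) ^ A := by
  have hi := sm_int μ a ha C k h0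
  have hA : ∀ A : ℕ, ∀ᵐ ω ∂μ, ∀ᶠ n in atTop, ω ∉ bad a A n := by
    intro A
    obtain ⟨C1, hC1⟩ := h1 (3 * A + 3)
    obtain ⟨C2, hC2⟩ := h2 (3 * A + 3)
    exact sm_ae μ a A _ (sm_bad_le μ a hi A C1 C2 hC1 hC2)
  filter_upwards [ae_all_iff.2 hA, ae_all_iff.2 h0] with ω hω hb A
  obtain ⟨n0, hn0⟩ := eventually_atTop.1 (hω A)
  refine sm_det hb A n0 fun n hn l hl hx1 hx2 => ?_
  have h3 := hn0 n hn
  unfold bad at h3
  simp only [Set.mem_iUnion, Set.mem_ofPred_eq, not_exists, Finset.mem_range] at h3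
  have h4 := h3 l hl
  by_contra hcon
  rw [not_le] at hcon
  apply h4
  refine ⟨⟨hx1, hx2⟩, ?_⟩
  have h5 : (0 : ℝ) ≤ (2 : ℝ) ^ n / ((n : ℝ) + 1) ^ A := by positivity
  have h6 : TT a (l * qq A n) ω = ∑ r ∈ Ico (Nat.sqrt (l * qq A n)) (l * qq A n), (a r ω - 1) := rfl
  rw [← sq_abs (TT a (l * qq A n) ω), h6]
  exact pow_le_pow_left₀ h5 hcon.le 2

end J9

end Pool.Agent.helper616_RP
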