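import Pool.Agent.helper616_RP.J8
import Pool.Agent.helper616_RP.J9
import Pool.Agent.helper616_RP.J11
import Pool.Agent.helper616_RP.J12
import Pool.Agent.helper616_RP.J13
import Pool.Agent.helper616_RP.J14
import Pool.Agent.helper616_RP.J15
import Pool.Agent.helper616_RP.J16
import Pool.Agent.helper616_RP.J17
import Pool.Agent.helper616_RP.J18

/-!
# Project RP (helper616): the main theorem, from `S_VAR`
-/

set_option autoImplicit false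

open Finset MeasureTheory Filter Topology

namespace Pool.Agent.helper616_RP

theorem exists_eta {k : ℕ} (x : Fin k → ℝ) (D : ℝ) (hD : 1 ≤ D) (hx : ∀ i, D * (1 - x i) < 1) :
    ∃ η : ℝ, 0 ≤ η ∧ (∀ i, η < x i) ∧ D * (1 - η) < 1 := by
  have hD0 : 0 < D := by linarith
  have hlam : ∀ y : ℝ, D * (1 - y) < 1 ↔ 1 - 1 / D < y := by
    intro y
    rw [mul_comm, ← lt_div_iff₀ hD0]
    constructor <;> intro h <;> linarith
  have h0 : 0 ≤ 1 - 1 / D := by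
    have : 1 / D ≤ 1 := by rw [div_le_one hD0]; exact hD
    linarith
  rcases Nat.eq_zero_or_pos k with hk | hk
  · subst hk
    exact ⟨1 - 1 / D + 1, by linarith, fun i => i.elim0, (hlam _).2 (by linarith)⟩
  · haveI : Nonempty (Fin k) := ⟨⟨0, hk⟩⟩
    have h1 : 1 - 1 / D < univ.inf' univ_nonempty x := by
      rw [Finset.lt_inf'_iff]
      intro i _
      exact (hlam _).1 (hx i)
    obtain ⟨η, h2, h3⟩ := exists_between h1
    refine ⟨η, by linarith, fun i => ?_, (hlam _).2 h2⟩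
    rw [Finset.lt_inf'_iff] at h3
    exact h3 i (mem_univ i)

theorem one_le_D (s : ℕ → ℕ) (hs : StrictMono s) (D : ℝ) (hD : ∀ᶠ r : ℕ in atTop, (s r : ℝ) ≤ (r : ℝ) ^ D) : 1 ≤ D := by
  obtain ⟨r, h1, h2⟩ := (hD.and (eventually_ge_atTop 2)).exists
  have h3 : (r : ℝ) ≤ s r := by exact_mod_cast hs.le_apply
  have h4 : (r : ℝ) ^ (1 : ℝ) ≤ (r : ℝ) ^ D := by rw [Real.rpow_one]; linarith
  have h5 : (1 : ℝ) < r := by exact_mod_cast h2
  exact (Real.rpow_le_rpow_left_iff h5).1 h4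

theorem sum_ae {k : ℕ} (hVAR : S_VAR) (c c' K : Fin k → ℝ) (g : Fin k → ℕ → ℝ) (hc' : ∀ i, 0 < c' i)
    (hcc : ∀ i, c' i < c i) (hK : ∀ i, 0 ≤ K i) (hg : ∀ i, ∀ᶠ n : ℕ in atTop, |g i n| ≤ K i * (n : ℝ) ^ (c i))
    (s : ℕ → ℕ) (hs : StrictMono s) (D : ℝ) (hD : ∀ᶠ r : ℕ in atTop, (s r : ℝ) ≤ (r : ℝ) ^ D)
    (hDc : ∀ i, D * (1 - (c' i - c i / 3)) < 1) :
    ∀ᵐ ω : Fin k → ℝ × ℝ, (∀ i, K i < (ω i).1) → ∀ A : ℕ, ∃ C : ℝ, ∀ R : ℕ, 2 ≤ R →
      |(∑ r ∈ range R, arr c c' g s r ω) - R| ≤ C * R / (Real.log R) ^ A := by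
  obtain ⟨η, hη0, hη1, hη2⟩ := exists_eta (fun i => c' i - c i / 3) D (one_le_D s hs D hD) hDc
  refine J17.ae_of_boxes K _ fun a b hab => ?_
  haveI := J13.prob_mu a b
  have hb : ∀ i, ∃ C : ℝ, ∀ n : ℕ, ∀ ω ∈ B (a i) (b i), th ⌊xx (c i) (c' i) (g i) n ω⌋₊ ≤ C * Real.log (n + 2) :=
    fun i => J12.bound1 (c i) (c' i) (K i) (hc' i) (hcc i) (g i) (hg i) (a i) (b i)
  obtain ⟨C, hC⟩ := J14.arrBound c c' g s a b D hD hb
  exact J9.secondMoment (mu a b) (fun r => arr c c' g s r) (fun r => J13.measurable_arr c c' g s r) C k hC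
    (J15.firstMoments c c' g s hs a b fun i A =>
      J7.single hVAR (c i) (c' i) (hc' i) (hcc i) (K i) (hK i) (g i) (hg i) (a i) (b i) (hab i) A)
    (J16.secondMoments c c' g s hs a b η D hη0 hD hη2 hb fun i D' A =>
      J8.pair hVAR (c i) (c' i) (hc' i) (hcc i) (K i) (hK i) (g i) (hg i) (a i) (b i) (hab i) η hη0 (hη1 i) D' A)

/-- from the power of the logarithm to the limit -/
theorem lim_of_bound (S : ℕ → ℝ) (C : ℝ) (h : ∀ R : ℕ, 2 ≤ R → |S R - R| ≤ C * R / (Real.log R) ^ 1) :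
    Tendsto (fun R : ℕ => S R / R) atTop (𝓝 1) := by
  rw [tendsto_iff_norm_sub_tendsto_zero]
  have h1 : Tendsto (fun R : ℕ => C / Real.log R) atTop (𝓝 0) :=
    tendsto_const_nhds.div_atTop (Real.tendsto_log_atTop.comp tendsto_natCast_atTop_atTop)
  refine squeeze_zero' (Eventually.of_forall fun _ => norm_nonneg _) ?_ h1
  filter_upwards [eventually_ge_atTop 2] with R hR
  have hR0 : (0 : ℝ) < R := by exact_mod_cast (by omega : 0 < R)
  have h2 := h R hR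
  rw [pow_one] at h2
  rw [Real.norm_eq_abs]
  have h3 : S R / R - 1 = (S R - R) / R := by field_simp
  rw [h3, abs_div, abs_of_pos hR0, div_le_iff₀ hR0]
  calc |S R - R| ≤ C * R / Real.log R := h2
    _ = C / Real.log R * R := by ring

theorem main {k : ℕ} (hVAR : S_VAR) (c c' K : Fin k → ℝ) (g : Fin k → ℕ → ℝ) (hc' : ∀ i, 0 < c' i)
    (hcc : ∀ i, c' i < c i) (hK : ∀ i, 0 ≤ K i) (hg : ∀ i, ∀ᶠ n : ℕ in atTop, |g i n| ≤ K i * (n : ℝ) ^ (c i))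
    (s : ℕ → ℕ) (hs : StrictMono s) (D : ℝ) (hD : ∀ᶠ r : ℕ in atTop, (s r : ℝ) ≤ (r : ℝ) ^ D)
    (hDc : ∀ i, D * (1 - (c' i - c i / 3)) < 1) :
    ∀ᵐ ω : Fin k → ℝ × ℝ, (∀ i, K i < (ω i).1) →
      (∀ A : ℕ, ∃ C : ℝ, ∀ R : ℕ, 2 ≤ R →
        |(∑ r ∈ range R, arr c c' g s r ω) - R| ≤ C * R / (Real.log R) ^ A) ∧
      Tendsto (fun R : ℕ => (((range R).filter (fun r => ∀ i, (⌊xx (c i) (c' i) (g i) (s r) (ω i)⌋₊).Prime)).card : ℝ) /
        ∑ r ∈ (range R).filter (fun r => 2 ≤ s r), ∏ i, 1 / (c i * Real.log (s r))) atTop (𝓝 1) := by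
  filter_upwards [sum_ae hVAR c c' K g hc' hcc hK hg s hs D hD hDc] with ω hω hpos
  refine ⟨hω hpos, ?_⟩
  obtain ⟨C, hC⟩ := hω hpos 1
  have hlim := lim_of_bound (fun R => ∑ r ∈ range R, arr c c' g s r ω) C hC
  have hsz : ∀ i, ∃ δ M : ℝ, 0 < δ ∧ 0 < M ∧ ∀ᶠ r : ℕ in atTop,
      δ * (s r : ℝ) ^ (c i) ≤ xx (c i) (c' i) (g i) (s r) (ω i) ∧ xx (c i) (c' i) (g i) (s r) (ω i) ≤ M * (s r : ℝ) ^ (c i) := by
    intro i
    obtain ⟨δ, ρ₀, M, hδ, hρ, _, hM, h⟩ := J6.size (c i) (c' i) (K i) (hc' i) (hcc i) (hK i) (g i) (hg i)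
      (ω i).1 (ω i).2 (hpos i)
    refine ⟨δ, M, hδ, hM, ?_⟩
    filter_upwards [hs.tendsto_atTop.eventually h] with r hr
    exact hr (ω i) (by linarith) (by linarith) (by linarith) (by linarith)
  choose δ M hδ hM hsz using hsz
  obtain ⟨δ₀, hδ₀, hδ₀'⟩ : ∃ δ₀ : ℝ, 0 < δ₀ ∧ ∀ i, δ₀ ≤ δ i := by
    rcases Nat.eq_zero_or_pos k with hk | hk
    · subst hk
      exact ⟨1, one_pos, fun i => i.elim0⟩
    · haveI : Nonempty (Fin k) := ⟨⟨0, hk⟩⟩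
      exact ⟨univ.inf' univ_nonempty δ, by rw [Finset.lt_inf'_iff]; exact fun i _ => hδ i,
        fun i => Finset.inf'_le _ (mem_univ i)⟩
  have hM₀ : ∀ i, M i ≤ ∑ j, M j := fun i => Finset.single_le_sum (fun j _ => (hM j).le) (mem_univ i)
  obtain ⟨D', hD'⟩ := exists_nat_ge D
  refine J11.count k c (fun i => (hc' i).trans (hcc i)) s hs D' ?_
    (fun i r => xx (c i) (c' i) (g i) (s r) (ω i)) δ₀ (∑ j, M j) hδ₀ ?_ hlim
  · filter_upwards [hD, eventually_ge_atTop 1] with r hr hr1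
    have h1 : (1 : ℝ) ≤ r := by exact_mod_cast hr1
    have h2 : (s r : ℝ) ≤ (r : ℝ) ^ D' := by
      refine hr.trans ?_
      rw [← Real.rpow_natCast]
      exact Real.rpow_le_rpow_of_exponent_le h1 hD'
    exact_mod_cast h2
  · intro i
    filter_upwards [hsz i] with r hr
    have h0 : (0 : ℝ) ≤ (s r : ℝ) ^ (c i) := by positivity
    exact ⟨(mul_le_mul_of_nonneg_right (hδ₀' i) h0).trans hr.1,
      hr.2.trans (mul_le_mul_of_nonneg_right (hM₀ i) h0)⟩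

end Pool.Agent.helper616_RP
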