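import Pool.Agent.helper616_RP.Defs2

/-!
# Project RP (helper616), part V: the first moments
-/

set_option autoImplicit false
set_option maxHeartbeats 4000000

open Finset MeasureTheory Filter Topology

namespace Pool.Agent.helper616_RP

namespace V10


theorem tm_B_real (a b : ℝ) : (volume : Measure (ℝ × ℝ)).real (B a b) = 1 := by
  unfold B Measure.real
  rw [Measure.volume_eq_prod, Measure.prod_prod, Real.volume_Icc, Real.volume_Icc]
  simp

theorem tm_B_lt (a b : ℝ) : (volume : Measure (ℝ × ℝ)) (B a b) < ⊤ := by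
  unfold B
  rw [Measure.volume_eq_prod, Measure.prod_prod, Real.volume_Icc, Real.volume_Icc]
  simp

theorem tm_th_nonneg (n : ℕ) : 0 ≤ th n := by
  unfold th
  split_ifs with h
  · exact Real.log_natCast_nonneg n
  · exact le_refl _

theorem tm_prod {ι : Type*} (s : Finset ι) (E : ι → ℝ) (T : ℝ) (hT : 1 ≤ T)
    (h0 : ∀ i, 0 ≤ E i) (h1 : ∀ i, E i ≤ T) :
    |∏ i ∈ s, E i - 1| ≤ T ^ s.card * ∑ i ∈ s, |E i - 1| := by
  classical
  induction s using Finset.induction_on with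
  | empty => simp
  | insert x s hx ih =>
    rw [Finset.prod_insert hx, Finset.sum_insert hx, Finset.card_insert_of_notMem hx]
    have e1 : E x * ∏ i ∈ s, E i - 1 = E x * (∏ i ∈ s, E i - 1) + (E x - 1) := by ring
    rw [e1]
    have hTn : 1 ≤ T ^ s.card := one_le_pow₀ hT
    have hS : 0 ≤ ∑ i ∈ s, |E i - 1| := Finset.sum_nonneg fun i _ => abs_nonneg _
    have h2 : |E x * (∏ i ∈ s, E i - 1)| ≤ T * (T ^ s.card * ∑ i ∈ s, |E i - 1|) := by
      rw [abs_mul, abs_of_nonneg (h0 x)]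
      exact mul_le_mul (h1 x) ih (abs_nonneg _) (by linarith)
    have h3 : |E x - 1| ≤ T ^ (s.card + 1) * |E x - 1| := by
      have : 1 ≤ T ^ (s.card + 1) := one_le_pow₀ hT
      exact le_mul_of_one_le_left (abs_nonneg _) this
    calc |E x * (∏ i ∈ s, E i - 1) + (E x - 1)|
        ≤ |E x * (∏ i ∈ s, E i - 1)| + |E x - 1| := abs_add_le _ _
      _ ≤ T * (T ^ s.card * ∑ i ∈ s, |E i - 1|) + T ^ (s.card + 1) * |E x - 1| := add_le_add h2 h3
      _ = T ^ (s.card + 1) * (|E x - 1| + ∑ i ∈ s, |E i - 1|) := by ring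

theorem tm_log (K : ℝ) (hK : 0 ≤ K) (R r : ℕ) (hR : 2 ≤ R) (hr : r < R) :
    K * Real.log (r + 2) + 1 ≤ (2 * K + 2) * Real.log R := by
  have hR' : (2 : ℝ) ≤ R := by exact_mod_cast hR
  have h1 : Real.log ((r : ℝ) + 2) ≤ 2 * Real.log R := by
    have h2 : (r : ℝ) + 1 ≤ R := by exact_mod_cast hr
    have h3 : (r : ℝ) + 2 ≤ (R : ℝ) ^ 2 := by nlinarith
    have h4 : (0 : ℝ) < (r : ℝ) + 2 := by positivity
    calc Real.log ((r : ℝ) + 2) ≤ Real.log ((R : ℝ) ^ 2) := Real.log_le_log h4 h3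
      _ = 2 * Real.log R := by rw [Real.log_pow]; norm_num
  have h5 : (1 : ℝ) / 2 ≤ Real.log R := by
    have h6 := Real.log_two_gt_d9
    have h7 : Real.log 2 ≤ Real.log R := Real.log_le_log (by norm_num) hR'
    linarith
  have h8 := mul_le_mul_of_nonneg_left h1 hK
  linarith

theorem firstMomentsAvg {k : ℕ} (c c' : Fin k → ℝ) (g : Fin k → ℕ → ℝ) (a b : Fin k → ℝ)
    (hb : ∀ i, ∃ C : ℝ, ∀ n : ℕ, ∀ ω ∈ B (a i) (b i), th ⌊xx (c i) (c' i) (g i) n ω⌋₊ ≤ C * Real.log (n + 2))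
    (h : ∀ i, ∀ A : ℕ, ∃ C : ℝ, ∀ R : ℕ, 2 ≤ R →
      ∑ r ∈ Ico (Nat.sqrt R) R, |(∫ ω in B (a i) (b i), th ⌊xx (c i) (c' i) (g i) r ω⌋₊) - 1| ≤ C * R / (Real.log R) ^ A)
    (A : ℕ) :
    ∃ C' : ℝ, ∀ R : ℕ, 2 ≤ R →
      ∑ r ∈ Ico (Nat.sqrt R) R, |(∫ ω, arr c c' g id r ω ∂(mu a b)) - 1| ≤ C' * R / (Real.log R) ^ A := by
  let E : Fin k → ℕ → ℝ := fun i r => ∫ ω in B (a i) (b i), th ⌊xx (c i) (c' i) (g i) r ω⌋₊
  have hprod : ∀ r : ℕ, (∫ ω, arr c c' g id r ω ∂(mu a b)) = ∏ i, E i r := by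
    intro r
    unfold mu arr
    exact integral_fintype_prod_eq_prod
      (fun (i : Fin k) (ω : ℝ × ℝ) => th ⌊xx (c i) (c' i) (g i) (id r) ω⌋₊)
  choose Cb hCb using hb
  choose Ch hCh using fun i => h i (A + k)
  have hE0 : ∀ i r, 0 ≤ E i r := fun i r => integral_nonneg fun ω => tm_th_nonneg _
  let K : ℝ := ∑ i, |Cb i|
  have hK0 : 0 ≤ K := Finset.sum_nonneg fun i _ => abs_nonneg _
  have hlog0 : ∀ r : ℕ, 0 ≤ Real.log ((r : ℝ) + 2) := fun r =>
    Real.log_nonneg (by have : (0 : ℝ) ≤ r := Nat.cast_nonneg r; linarith)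
  have hE1 : ∀ i r, E i r ≤ K * Real.log ((r : ℝ) + 2) + 1 := by
    intro i r
    have h1 : ‖E i r‖ ≤ (K * Real.log ((r : ℝ) + 2)) *
        (volume : Measure (ℝ × ℝ)).real (B (a i) (b i)) := by
      refine norm_setIntegral_le_of_norm_le_const (tm_B_lt _ _) ?_
      intro ω hω
      rw [Real.norm_of_nonneg (tm_th_nonneg _)]
      refine (hCb i r ω hω).trans ?_
      have h2 : Cb i ≤ K := (le_abs_self _).trans
        (Finset.single_le_sum (f := fun i => |Cb i|) (fun j _ => abs_nonneg _) (Finset.mem_univ i))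
      exact mul_le_mul_of_nonneg_right h2 (hlog0 r)
    rw [tm_B_real, mul_one] at h1
    have h3 := (le_abs_self (E i r)).trans h1
    linarith
  have hCs : ∃ Cs : ℝ, Cs = ∑ i, Ch i := ⟨_, rfl⟩
  obtain ⟨Cs, hCs⟩ := hCs
  refine ⟨(2 * K + 2) ^ k * Cs, ?_⟩
  intro R hR
  have hR' : (2 : ℝ) ≤ R := by exact_mod_cast hR
  have hL : 0 < Real.log R := Real.log_pos (by linarith)
  have hterm : ∀ r ∈ Ico (Nat.sqrt R) R, |(∫ ω, arr c c' g id r ω ∂(mu a b)) - 1| ≤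
      ((2 * K + 2) * Real.log R) ^ k * ∑ i, |E i r - 1| := by
    intro r hr
    have hr2 : r < R := (Finset.mem_Ico.mp hr).2
    rw [hprod]
    have hT1 : 1 ≤ K * Real.log ((r : ℝ) + 2) + 1 := by
      have := mul_nonneg hK0 (hlog0 r)
      linarith
    have h1 := tm_prod (Finset.univ : Finset (Fin k)) (fun i => E i r)
      (K * Real.log ((r : ℝ) + 2) + 1) hT1 (fun i => hE0 i r) (fun i => hE1 i r)
    rw [Finset.card_univ, Fintype.card_fin] at h1
    refine h1.trans ?_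
    refine mul_le_mul_of_nonneg_right ?_ (Finset.sum_nonneg fun i _ => abs_nonneg _)
    exact pow_le_pow_left₀ (by linarith) (tm_log K hK0 R r hR hr2) k
  refine (Finset.sum_le_sum hterm).trans ?_
  rw [← Finset.mul_sum, Finset.sum_comm]
  have hsum : ∑ i, ∑ r ∈ Ico (Nat.sqrt R) R, |E i r - 1| ≤ Cs * R / (Real.log R) ^ (A + k) := by
    calc ∑ i, ∑ r ∈ Ico (Nat.sqrt R) R, |E i r - 1|
        ≤ ∑ i, Ch i * R / (Real.log R) ^ (A + k) := Finset.sum_le_sum fun i _ => hCh i R hR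
      _ = Cs * R / (Real.log R) ^ (A + k) := by
        rw [hCs, Finset.sum_mul, Finset.sum_div]
  have hpos : 0 ≤ ((2 * K + 2) * Real.log R) ^ k := by positivity
  refine (mul_le_mul_of_nonneg_left hsum hpos).trans (le_of_eq ?_)
  rw [mul_pow, pow_add]
  field_simp

end V10

end Pool.Agent.helper616_RP
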