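import Pool.Agent.helper616_RP.Defs2

/-!
# Project RP (helper616), part V: the second moments
-/

set_option autoImplicit false
set_option maxHeartbeats 4000000

open Finset MeasureTheory Filter Topology

namespace Pool.Agent.helper616_RP

namespace V11


theorem m11_prod {ι : Type*} (s : Finset ι) (E : ι → ℝ) (P : ℝ) (hP : 1 ≤ P)
    (hE0 : ∀ i, 0 ≤ E i) (hE : ∀ i, E i ≤ P) :
    |∏ i ∈ s, E i - 1| ≤ P ^ s.card * ∑ i ∈ s, |E i - 1| := by
  classical
  induction s using Finset.induction_on with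
  | empty => simp
  | insert j s hj ih =>
    rw [prod_insert hj, card_insert_of_notMem hj, sum_insert hj]
    have h1 : E j * ∏ i ∈ s, E i - 1 = E j * (∏ i ∈ s, E i - 1) + (E j - 1) := by ring
    have hPs : 1 ≤ P ^ (s.card + 1) := one_le_pow₀ hP
    have hS : 0 ≤ ∑ i ∈ s, |E i - 1| := sum_nonneg fun i _ => abs_nonneg _
    calc |E j * ∏ i ∈ s, E i - 1| ≤ |E j * (∏ i ∈ s, E i - 1)| + |E j - 1| := by
          rw [h1]; exact abs_add_le _ _
      _ = E j * |∏ i ∈ s, E i - 1| + |E j - 1| := by rw [abs_mul, abs_of_nonneg (hE0 j)]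
      _ ≤ P * (P ^ s.card * ∑ i ∈ s, |E i - 1|) + P ^ (s.card + 1) * |E j - 1| := by
          refine add_le_add (mul_le_mul (hE j) ih (abs_nonneg _) (by linarith)) ?_
          exact le_mul_of_one_le_left (abs_nonneg _) hPs
      _ = P ^ (s.card + 1) * (|E j - 1| + ∑ i ∈ s, |E i - 1|) := by rw [pow_succ]; ring

theorem m11_th_nonneg (n : ℕ) : 0 ≤ th n := by
  unfold th
  split_ifs with h
  · exact Real.log_natCast_nonneg n
  · exact le_rfl

theorem m11_vol (a b : ℝ) : (volume : Measure (ℝ × ℝ)) (B a b) = 1 := by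
  unfold B
  rw [Measure.volume_eq_prod, Measure.prod_prod, Real.volume_Icc, Real.volume_Icc]
  simp

/-- integral over one square -/
noncomputable def m11E (c c' : ℝ) (g : ℕ → ℝ) (a b : ℝ) (q r : ℕ) : ℝ :=
  ∫ ω in B a b, th ⌊xx c c' g q ω⌋₊ * th ⌊xx c c' g r ω⌋₊

theorem m11_E_nonneg (c c' : ℝ) (g : ℕ → ℝ) (a b : ℝ) (q r : ℕ) : 0 ≤ m11E c c' g a b q r :=
  integral_nonneg fun ω => mul_nonneg (m11_th_nonneg _) (m11_th_nonneg _)

theorem m11_E_le (c c' : ℝ) (g : ℕ → ℝ) (a b : ℝ) (K : ℝ) (hK : 0 ≤ K)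
    (hb : ∀ n : ℕ, ∀ ω ∈ B a b, th ⌊xx c c' g n ω⌋₊ ≤ K * Real.log (n + 2)) (R q r : ℕ)
    (hq : q ≤ R) (hr : r ≤ R) :
    m11E c c' g a b q r ≤ (K * Real.log (R + 2)) ^ 2 := by
  have hlog : ∀ n : ℕ, n ≤ R → Real.log (n + 2) ≤ Real.log (R + 2) := by
    intro n hn
    have : (n : ℝ) ≤ R := by exact_mod_cast hn
    exact Real.log_le_log (by positivity) (by linarith)
  have h1 := norm_setIntegral_le_of_norm_le_const (μ := (volume : Measure (ℝ × ℝ))) (s := B a b)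
    (f := fun ω => th ⌊xx c c' g q ω⌋₊ * th ⌊xx c c' g r ω⌋₊)
    (C := (K * Real.log (R + 2)) ^ 2) (by rw [m11_vol]; exact ENNReal.one_lt_top) (by
      intro ω hω
      rw [Real.norm_eq_abs, abs_mul, abs_of_nonneg (m11_th_nonneg _),
        abs_of_nonneg (m11_th_nonneg _), pow_two]
      refine mul_le_mul ((hb q ω hω).trans ?_) ((hb r ω hω).trans ?_) (m11_th_nonneg _) ?_
      · exact mul_le_mul_of_nonneg_left (hlog q hq) hK
      · exact mul_le_mul_of_nonneg_left (hlog r hr) hK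
      · have : 0 ≤ Real.log ((R : ℝ) + 2) := Real.log_nonneg (by
          have : (0 : ℝ) ≤ R := Nat.cast_nonneg _
          linarith)
        positivity)
  have h2 : (volume : Measure (ℝ × ℝ)).real (B a b) = 1 := by
    rw [Measure.real, m11_vol]; simp
  rw [h2, mul_one] at h1
  exact (le_abs_self _).trans h1

theorem m11_arr {k : ℕ} (c c' : Fin k → ℝ) (g : Fin k → ℕ → ℝ) (a b : Fin k → ℝ) (q r : ℕ) :
    (∫ ω, arr c c' g id q ω * arr c c' g id r ω ∂(mu a b)) =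
      ∏ i, m11E (c i) (c' i) (g i) (a i) (b i) q r := by
  unfold mu m11E arr
  rw [← integral_fintype_prod_eq_prod]
  refine integral_congr_ae (Eventually.of_forall fun ω => ?_)
  exact prod_mul_distrib.symm

theorem secondMomentsAvg {k : ℕ} (c c' : Fin k → ℝ) (g : Fin k → ℕ → ℝ) (a b : Fin k → ℝ)
    (hb : ∀ i, ∃ C : ℝ, ∀ n : ℕ, ∀ ω ∈ B (a i) (b i), th ⌊xx (c i) (c' i) (g i) n ω⌋₊ ≤ C * Real.log (n + 2))
    (h : ∀ i, ∀ A : ℕ, ∃ C : ℝ, ∀ R : ℕ, 2 ≤ R →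
      ∑ q ∈ Ico (Nat.sqrt R) R, ∑ r ∈ Ico (Nat.sqrt R) R,
        |(∫ ω in B (a i) (b i), th ⌊xx (c i) (c' i) (g i) q ω⌋₊ * th ⌊xx (c i) (c' i) (g i) r ω⌋₊) - 1| ≤
          C * (R : ℝ) ^ 2 / (Real.log R) ^ A) (A : ℕ) :
    ∃ C' : ℝ, ∀ R : ℕ, 2 ≤ R →
      ∑ q ∈ Ico (Nat.sqrt R) R, ∑ r ∈ Ico (Nat.sqrt R) R,
        |(∫ ω, arr c c' g id q ω * arr c c' g id r ω ∂(mu a b)) - 1| ≤ C' * (R : ℝ) ^ 2 / (Real.log R) ^ A := by
  -- a common nonnegative constant
  choose C0 hC0 using hb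
  set K : ℝ := ∑ i, |C0 i| with hKdef
  have hK0 : 0 ≤ K := sum_nonneg fun i _ => abs_nonneg _
  have hKi : ∀ i, ∀ n : ℕ, ∀ ω ∈ B (a i) (b i),
      th ⌊xx (c i) (c' i) (g i) n ω⌋₊ ≤ K * Real.log (n + 2) := by
    intro i n ω hω
    have hl : 0 ≤ Real.log ((n : ℝ) + 2) := Real.log_nonneg (by
      have : (0 : ℝ) ≤ n := Nat.cast_nonneg _
      linarith)
    refine (hC0 i n ω hω).trans (mul_le_mul_of_nonneg_right ?_ hl)
    exact (le_abs_self _).trans (single_le_sum (f := fun i => |C0 i|)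
      (fun j _ => abs_nonneg _) (mem_univ i))
  choose C1 hC1 using fun i => h i (A + 2 * k)
  set K' : ℝ := 1 / (Real.log 2) ^ 2 + 4 * K ^ 2 with hK'def
  have hl2 : 0 < Real.log 2 := Real.log_pos (by norm_num)
  have hK'0 : 0 ≤ K' := by positivity
  refine ⟨K' ^ k * ∑ i, C1 i, fun R hR => ?_⟩
  have hR' : (2 : ℝ) ≤ R := by exact_mod_cast hR
  have hlR : Real.log 2 ≤ Real.log R := Real.log_le_log (by norm_num) hR'
  have hlR0 : 0 < Real.log R := by linarith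
  set P : ℝ := 1 + (K * Real.log (R + 2)) ^ 2 with hPdef
  have hP1 : 1 ≤ P := by
    have : 0 ≤ (K * Real.log (R + 2)) ^ 2 := sq_nonneg _
    linarith
  have hlR2 : Real.log ((R : ℝ) + 2) ≤ 2 * Real.log R := by
    rw [show 2 * Real.log (R : ℝ) = Real.log ((R : ℝ) ^ 2) by
      rw [Real.log_pow]; norm_num]
    exact Real.log_le_log (by positivity) (by nlinarith)
  have hlR20 : 0 ≤ Real.log ((R : ℝ) + 2) := Real.log_nonneg (by linarith)
  have hPK : P ≤ K' * (Real.log R) ^ 2 := by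
    have e1 : (K * Real.log (R + 2)) ^ 2 ≤ (K * (2 * Real.log R)) ^ 2 := by gcongr
    have e2 : 1 ≤ 1 / (Real.log 2) ^ 2 * (Real.log R) ^ 2 := by
      rw [div_mul_eq_mul_div, one_mul, le_div_iff₀ (by positivity), one_mul]
      gcongr
    calc P ≤ 1 / (Real.log 2) ^ 2 * (Real.log R) ^ 2 + (K * (2 * Real.log R)) ^ 2 :=
          add_le_add e2 e1
      _ = K' * (Real.log R) ^ 2 := by rw [hK'def]; ring
  have hterm : ∀ q ∈ Ico (Nat.sqrt R) R, ∀ r ∈ Ico (Nat.sqrt R) R,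
      |(∫ ω, arr c c' g id q ω * arr c c' g id r ω ∂(mu a b)) - 1| ≤
        P ^ k * ∑ i, |m11E (c i) (c' i) (g i) (a i) (b i) q r - 1| := by
    intro q hq r hr
    rw [mem_Ico] at hq hr
    rw [m11_arr]
    have := m11_prod (univ : Finset (Fin k))
      (fun i => m11E (c i) (c' i) (g i) (a i) (b i) q r) P hP1
      (fun i => m11_E_nonneg _ _ _ _ _ _ _) (fun i => by
        have e := m11_E_le (c i) (c' i) (g i) (a i) (b i) K hK0 (hKi i) R q r hq.2.le hr.2.le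
        linarith)
    rwa [card_univ, Fintype.card_fin] at this
  calc ∑ q ∈ Ico (Nat.sqrt R) R, ∑ r ∈ Ico (Nat.sqrt R) R,
        |(∫ ω, arr c c' g id q ω * arr c c' g id r ω ∂(mu a b)) - 1|
      ≤ ∑ q ∈ Ico (Nat.sqrt R) R, ∑ r ∈ Ico (Nat.sqrt R) R,
          P ^ k * ∑ i, |m11E (c i) (c' i) (g i) (a i) (b i) q r - 1| :=
        sum_le_sum fun q hq => sum_le_sum fun r hr => hterm q hq r hr
    _ = P ^ k * ∑ i, ∑ q ∈ Ico (Nat.sqrt R) R, ∑ r ∈ Ico (Nat.sqrt R) R,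
          |m11E (c i) (c' i) (g i) (a i) (b i) q r - 1| := by
        rw [sum_comm' (s := univ) (t := fun _ => Ico (Nat.sqrt R) R)
          (s' := fun _ => univ) (t' := Ico (Nat.sqrt R) R) (by simp), mul_sum]
        refine sum_congr rfl fun q _ => ?_
        rw [sum_comm, mul_sum]
    _ ≤ P ^ k * ∑ i, C1 i * (R : ℝ) ^ 2 / (Real.log R) ^ (A + 2 * k) := by
        refine mul_le_mul_of_nonneg_left (sum_le_sum fun i _ => ?_) (by positivity)
        exact hC1 i R hR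
    _ ≤ (K' * (Real.log R) ^ 2) ^ k * ∑ i, C1 i * (R : ℝ) ^ 2 / (Real.log R) ^ (A + 2 * k) := by
        refine mul_le_mul_of_nonneg_right (pow_le_pow_left₀ (by linarith) hPK k) ?_
        refine sum_nonneg fun i _ => ?_
        exact (sum_nonneg fun q _ => sum_nonneg fun r _ => abs_nonneg _).trans (hC1 i R hR)
    _ = K' ^ k * (∑ i, C1 i) * (R : ℝ) ^ 2 / (Real.log R) ^ A := by
        rw [← sum_div, ← sum_mul, mul_pow, ← pow_mul, pow_add]
        have : (Real.log (R : ℝ)) ^ (2 * k) ≠ 0 := by positivity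
        field_simp

end V11

end Pool.Agent.helper616_RP
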