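import Pool.Agent.helper616_RP.Defs2
import Pool.Agent.helper616_RP.J4

/-!
# Project RP (helper616), part V: one integral against a function with small window sums, local form
-/

set_option autoImplicit false
set_option maxHeartbeats 4000000

open Finset MeasureTheory Filter Topology

namespace Pool.Agent.helper616_RP

open J4 (gen)

namespace V1


theorem gen_loc (a b U V g : ℝ) (hU : 0 < U) (Y Z W : ℕ) (hW : 1 ≤ W) (h : ℝ × ℝ) (hh : h.1 * U + h.2 * V = 1)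
    (ρ : ℝ) (hρ1 : W * |h.1| ≤ ρ) (hρ2 : W * |h.2| ≤ ρ) (f : ℕ → ℝ) (L : ℝ) (hf : ∀ n, n < Y + Z → |f n| ≤ L)
    (Φ : ℝ × ℝ → ℝ) (hΦm : Measurable Φ) (M : ℝ)
    (hx : ∀ ω : ℝ × ℝ, a - ρ ≤ ω.1 → ω.1 ≤ a + 1 + ρ → b - ρ ≤ ω.2 → ω.2 ≤ b + 1 + ρ →
      (Y : ℝ) ≤ ω.1 * U + ω.2 * V + g ∧ ω.1 * U + ω.2 * V + g < Y + Z ∧ |Φ ω| ≤ M)
    (hΦ : ∀ (ω : ℝ × ℝ) (t : ℝ), Φ (ω + t • h) = Φ ω) :
    |∫ ω in B a b, Φ ω * f ⌊ω.1 * U + ω.2 * V + g⌋₊| ≤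
      4 * M * L * ρ + M * Real.sqrt ((∑ u ∈ Ico Y (Y + Z), (∑ s ∈ Icc 1 W, f (u + s)) ^ 2) / U) / W := by
  have hρ : 0 ≤ ρ := le_trans (by positivity) hρ1
  have hBm : MeasurableSet (B a b) := measurableSet_Icc.prod measurableSet_Icc
  have key := gen a b U V (g - Y) hU Z W hW h hh ρ hρ1 hρ2 (fun n => f (n + Y)) L
    (fun n hn => hf (n + Y) (by omega)) Φ hΦm M
    (by
      intro ω h1 h2 h3 h4
      obtain ⟨h5, h6, h7⟩ := hx ω h1 h2 h3 h4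
      exact ⟨by linarith, by linarith, h7⟩) hΦ
  have e1 : ∫ ω in B a b, Φ ω * f ⌊ω.1 * U + ω.2 * V + g⌋₊ =
      ∫ ω in B a b, Φ ω * f (⌊ω.1 * U + ω.2 * V + (g - Y)⌋₊ + Y) := by
    refine setIntegral_congr_fun hBm (fun ω hω => ?_)
    obtain ⟨⟨h1, h2⟩, h3, h4⟩ := hω
    obtain ⟨h5, -, -⟩ := hx ω (by linarith) (by linarith) (by linarith) (by linarith)
    have h6 : ω.1 * U + ω.2 * V + (g - Y) = (ω.1 * U + ω.2 * V + g) - (Y : ℝ) := by ring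
    have h7 : Y ≤ ⌊ω.1 * U + ω.2 * V + g⌋₊ := Nat.le_floor h5
    show Φ ω * f ⌊ω.1 * U + ω.2 * V + g⌋₊ = Φ ω * f (⌊ω.1 * U + ω.2 * V + (g - Y)⌋₊ + Y)
    rw [h6, Nat.floor_sub_natCast, Nat.sub_add_cancel h7]
  have e2 : ∑ u ∈ Ico Y (Y + Z), (∑ s ∈ Icc 1 W, f (u + s)) ^ 2 =
      ∑ u ∈ range Z, (∑ s ∈ Icc 1 W, f (u + s + Y)) ^ 2 := by
    rw [Finset.sum_Ico_eq_sum_range, Nat.add_sub_cancel_left]
    refine Finset.sum_congr rfl (fun u _ => ?_)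
    congr 1
    refine Finset.sum_congr rfl (fun s _ => ?_)
    congr 1
    omega
  rw [e1, e2]
  exact key

end V1

end Pool.Agent.helper616_RP
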