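import Pool.Agent.helper616_RP.Defs2

/-!
# Project RP (helper616), part V: the size of the values
-/

set_option autoImplicit false
set_option maxHeartbeats 4000000

open Finset MeasureTheory Filter Topology

namespace Pool.Agent.helper616_RP

namespace V3


/-- the step of `n ^ e` is at most `e * exp e * n ^ (e - 1)` -/
theorem size_e_step (e : ℝ) (he : 0 < e) (n : ℕ) (hn : 1 ≤ n) :
    ((n + 1 : ℕ) : ℝ) ^ e - (n : ℝ) ^ e ≤ e * Real.exp e * (n : ℝ) ^ (e - 1) := by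
  have hn1 : (1 : ℝ) ≤ (n : ℝ) := by exact_mod_cast hn
  have hn0 : (0 : ℝ) < (n : ℝ) := by linarith
  have hx0 : (0 : ℝ) < 1 / (n : ℝ) := by positivity
  have hx1 : 1 / (n : ℝ) ≤ 1 := by
    rw [div_le_one hn0]; exact hn1
  have h1 : ((n + 1 : ℕ) : ℝ) = (n : ℝ) * (1 + 1 / (n : ℝ)) := by
    push_cast; field_simp
  have h2 : ((n + 1 : ℕ) : ℝ) ^ e = (n : ℝ) ^ e * (1 + 1 / (n : ℝ)) ^ e := by
    rw [h1, Real.mul_rpow hn0.le (by positivity)]
  have h3 : (1 + 1 / (n : ℝ)) ^ e ≤ Real.exp (e * (1 / (n : ℝ))) := by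
    rw [Real.rpow_def_of_pos (by positivity)]
    apply Real.exp_le_exp.mpr
    have := Real.log_le_sub_one_of_pos (show (0 : ℝ) < 1 + 1 / (n : ℝ) by positivity)
    have h : Real.log (1 + 1 / (n : ℝ)) ≤ 1 / (n : ℝ) := by linarith
    nlinarith
  have h4 : Real.exp (e * (1 / (n : ℝ))) ≤ 1 + e * (1 / (n : ℝ)) * Real.exp e := by
    set y : ℝ := e * (1 / (n : ℝ)) with hy
    have hy0 : 0 ≤ y := by positivity
    have hye : y ≤ e := by
      rw [hy]; nlinarith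
    have h5 : 1 - y ≤ Real.exp (-y) := by
      have := Real.add_one_le_exp (-y); linarith
    have h6 : (1 - y) * Real.exp y ≤ 1 := by
      have h7 := mul_le_mul_of_nonneg_right h5 (Real.exp_pos y).le
      rw [← Real.exp_add] at h7
      simpa using h7
    have h8 : Real.exp y ≤ Real.exp e := Real.exp_le_exp.mpr hye
    nlinarith [mul_le_mul_of_nonneg_left h8 hy0]
  have h9 : (n : ℝ) ^ (e - 1) = (n : ℝ) ^ e * (1 / (n : ℝ)) := by
    rw [Real.rpow_sub_one hn0.ne']; ring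
  rw [h2, h9]
  have hp : 0 < (n : ℝ) ^ e := Real.rpow_pos_of_pos hn0 e
  have h10 := mul_le_mul_of_nonneg_left (h3.trans h4) hp.le
  nlinarith

/-- TV3 -/
theorem size_e (c c' e : ℝ) (hc' : 0 < c') (hcc : c' < c) (hce : c < e) (g : ℕ → ℝ) (hg : Spread e g) (T : ℝ) :
    ∃ δ M : ℝ, 0 < δ ∧ 0 < M ∧ ∀ᶠ n : ℕ in atTop, δ * (n : ℝ) ^ e ≤ g n ∧ ∀ ω : ℝ × ℝ, |ω.1| ≤ T → |ω.2| ≤ T →
      δ * (n : ℝ) ^ e ≤ xx c c' g n ω ∧ xx c c' g n ω ≤ M * (n : ℝ) ^ e := by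
  obtain ⟨δ, K, hδ, hev⟩ := hg
  have he : 0 < e := by linarith
  obtain ⟨n₀, hn₀⟩ := eventually_atTop.mp hev
  set n₁ : ℕ := max n₀ 1 with hn₁
  set d : ℝ := δ / (e * Real.exp e) with hd
  have hee : 0 < e * Real.exp e := mul_pos he (Real.exp_pos e)
  have hd0 : 0 < d := div_pos hδ hee
  have hdd : d * (e * Real.exp e) = δ := div_mul_cancel₀ δ hee.ne'
  -- monotonicity of `g n - d * n ^ e`
  have hmono : ∀ n : ℕ, n₁ ≤ n → g n₁ - d * (n₁ : ℝ) ^ e ≤ g n - d * (n : ℝ) ^ e := by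
    intro n hn
    induction n, hn using Nat.le_induction with
    | base => exact le_rfl
    | succ n hn ih =>
      have h1 : 1 ≤ n := le_trans (le_max_right _ _) hn
      have h2 : n₀ ≤ n := le_trans (le_max_left _ _) hn
      have h3 := (hn₀ n h2).2
      have h4 := mul_le_mul_of_nonneg_left (size_e_step e he n h1) hd0.le
      have h5 : d * (e * Real.exp e * (n : ℝ) ^ (e - 1)) = δ * (n : ℝ) ^ (e - 1) := by
        rw [← mul_assoc, hdd]
      rw [h5] at h4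
      have h6 : d * (((n + 1 : ℕ) : ℝ) ^ e - (n : ℝ) ^ e) =
        d * ((n + 1 : ℕ) : ℝ) ^ e - d * (n : ℝ) ^ e := by ring
      linarith
  have hT1 : Tendsto (fun n : ℕ => (n : ℝ) ^ e) atTop atTop :=
    (tendsto_rpow_atTop he).comp tendsto_natCast_atTop_atTop
  have hT2 : Tendsto (fun n : ℕ => (n : ℝ) ^ (e - c)) atTop atTop :=
    (tendsto_rpow_atTop (by linarith)).comp tendsto_natCast_atTop_atTop
  refine ⟨d / 4, d + |K|, by positivity, by positivity, ?_⟩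
  filter_upwards [hT1.eventually_ge_atTop (2 * |g n₁ - d * (n₁ : ℝ) ^ e| / d),
    hT2.eventually_ge_atTop (8 * |T| / d), eventually_ge_atTop n₁] with n h1 h2 h3
  have hn1 : 1 ≤ n := le_trans (le_max_right _ _) h3
  have hn1' : (1 : ℝ) ≤ (n : ℝ) := by exact_mod_cast hn1
  have hn0 : (0 : ℝ) < (n : ℝ) := by linarith
  have hpe : 0 < (n : ℝ) ^ e := Real.rpow_pos_of_pos hn0 e
  have hpc : 0 < (n : ℝ) ^ c := Real.rpow_pos_of_pos hn0 c
  have hpc' : 0 < (n : ℝ) ^ c' := Real.rpow_pos_of_pos hn0 c'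
  have hcc2 : (n : ℝ) ^ c' ≤ (n : ℝ) ^ c := Real.rpow_le_rpow_of_exponent_le hn1' hcc.le
  have h4 := hmono n h3
  rw [div_le_iff₀ hd0] at h1 h2
  have h5 : -|g n₁ - d * (n₁ : ℝ) ^ e| ≤ g n₁ - d * (n₁ : ℝ) ^ e := neg_abs_le _
  have h6 : d / 2 * (n : ℝ) ^ e ≤ g n := by nlinarith
  have h7 : (n : ℝ) ^ e = (n : ℝ) ^ (e - c) * (n : ℝ) ^ c := by
    rw [← Real.rpow_add hn0]; congr 1; ring
  have h8 : 2 * |T| * (n : ℝ) ^ c ≤ d / 4 * (n : ℝ) ^ e := by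
    rw [h7]
    have := mul_le_mul_of_nonneg_right h2 hpc.le
    nlinarith
  have hgu : g n ≤ K * (n : ℝ) ^ e := (hn₀ n (le_trans (le_max_left _ _) h3)).1
  have hK : K * (n : ℝ) ^ e ≤ |K| * (n : ℝ) ^ e :=
    mul_le_mul_of_nonneg_right (le_abs_self K) hpe.le
  refine ⟨by nlinarith, ?_⟩
  intro ω hω1 hω2
  have hTT : T ≤ |T| := le_abs_self T
  have a1 : |ω.1 * (n : ℝ) ^ c| ≤ |T| * (n : ℝ) ^ c := by
    rw [abs_mul, abs_of_pos hpc]
    exact mul_le_mul_of_nonneg_right (hω1.trans hTT) hpc.le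
  have a2 : |ω.2 * (n : ℝ) ^ c'| ≤ |T| * (n : ℝ) ^ c := by
    rw [abs_mul, abs_of_pos hpc']
    exact mul_le_mul (hω2.trans hTT) hcc2 hpc'.le (abs_nonneg T)
  have b1 := abs_le.mp a1
  have b2 := abs_le.mp a2
  unfold xx
  constructor
  · linarith [b1.1, b2.1]
  · linarith [b1.2, b2.2]

end V3

end Pool.Agent.helper616_RP
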