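import Pool.Agent.helper616_RP.Defs2

/-!
# Project RP (helper616), part V: overlap of the windows
-/

set_option autoImplicit false
set_option maxHeartbeats 4000000

open Finset MeasureTheory Filter Topology

namespace Pool.Agent.helper616_RP

namespace V2


theorem rpow_lower (e : ℝ) : ∃ ρ : ℝ, 0 < ρ ∧ ∀ M n : ℕ, 1 ≤ M → M ≤ n → n < 2 * M →
    ρ * (M : ℝ) ^ (e - 1) ≤ (n : ℝ) ^ (e - 1) := by
  rcases le_total 0 (e - 1) with he | he
  · refine ⟨1, one_pos, fun M n hM hn _ => ?_⟩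
    rw [one_mul]
    exact Real.rpow_le_rpow (by positivity) (by exact_mod_cast hn) he
  · refine ⟨2 ^ (e - 1), by positivity, fun M n hM hn hn2 => ?_⟩
    have hM0 : (0 : ℝ) < M := by exact_mod_cast hM
    rw [← Real.mul_rpow (by norm_num) hM0.le]
    have hn0 : (0 : ℝ) < n := lt_of_lt_of_le hM0 (by exact_mod_cast hn)
    have h2 : (n : ℝ) ≤ 2 * M := by
      have : n ≤ 2 * M := hn2.le
      exact_mod_cast this
    exact Real.rpow_le_rpow_of_nonpos hn0 h2 he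

theorem overlap (c e : ℝ) (hc : 0 < c) (hce : c < e) (hec : e ≤ c + 1) (g : ℕ → ℝ) (hg : Spread e g) (K : ℝ) :
    ∃ C : ℝ, ∀ᶠ M : ℕ in atTop, ∀ u : ℝ,
      (({m : ℕ | M ≤ m ∧ m < 2 * M ∧ |g m - u| ≤ K * (M : ℝ) ^ c} : Set ℕ).ncard : ℝ) ≤ C * (M : ℝ) ^ (c - e + 1) := by
  obtain ⟨δ, K0, hδ, hev⟩ := hg
  obtain ⟨ρ, hρ, hρ2⟩ := rpow_lower e
  obtain ⟨N0, hN0⟩ := Filter.eventually_atTop.1 hev
  have hδρ : 0 < δ * ρ := mul_pos hδ hρ
  refine ⟨2 * |K| / (δ * ρ) + 1, ?_⟩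
  filter_upwards [Filter.eventually_ge_atTop (max N0 1)] with M hM u
  have hM1 : 1 ≤ M := (le_max_right _ _).trans hM
  have hMN : N0 ≤ M := (le_max_left _ _).trans hM
  have hM0 : (0 : ℝ) < M := by exact_mod_cast hM1
  have hpow : (0 : ℝ) < (M : ℝ) ^ (e - 1) := Real.rpow_pos_of_pos hM0 _
  have hpow1 : (1 : ℝ) ≤ (M : ℝ) ^ (c - e + 1) :=
    Real.one_le_rpow (by exact_mod_cast hM1) (by linarith)
  -- growth
  have hgrow : ∀ m : ℕ, M ≤ m → ∀ d : ℕ, m + d < 2 * M →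
      (d : ℝ) * (δ * ρ * (M : ℝ) ^ (e - 1)) ≤ g (m + d) - g m := by
    intro m hm d
    induction d with
    | zero => intro _; simp
    | succ d ih =>
      intro hd
      have h1 := ih (by omega)
      have h2 := (hN0 (m + d) (by omega)).2
      have h3 := hρ2 M (m + d) hM1 (by omega) (by omega)
      have h4 : δ * (ρ * (M : ℝ) ^ (e - 1)) ≤ δ * ((m + d : ℕ) : ℝ) ^ (e - 1) :=
        mul_le_mul_of_nonneg_left h3 hδ.le
      have h5 : g (m + (d + 1)) = g (m + d + 1) := by rw [← add_assoc]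
      rw [h5]
      push_cast at h1 h2 h4 ⊢
      have h6 : ((d : ℝ) + 1) * (δ * ρ * (M : ℝ) ^ (e - 1)) =
        (d : ℝ) * (δ * ρ * (M : ℝ) ^ (e - 1)) + δ * (ρ * (M : ℝ) ^ (e - 1)) := by ring
      rw [h6]
      linarith
  set S : Set ℕ := {m : ℕ | M ≤ m ∧ m < 2 * M ∧ |g m - u| ≤ K * (M : ℝ) ^ c} with hS
  rcases S.eq_empty_or_nonempty with hE | hE
  · rw [hE, Set.ncard_empty]
    have : 0 ≤ 2 * |K| / (δ * ρ) := by positivity
    push_cast
    positivity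
  · classical
    set a := Nat.find hE with ha
    have haS : a ∈ S := Nat.find_spec hE
    have hamin : ∀ m ∈ S, a ≤ m := fun m hm => Nat.find_min' hE hm
    set L : ℝ := 2 * |K| / (δ * ρ) * (M : ℝ) ^ (c - e + 1) with hL
    have hL0 : 0 ≤ L := by positivity
    have hsub : S ⊆ Set.Icc a (a + ⌊L⌋₊) := by
      intro m hm
      have ham := hamin m hm
      refine ⟨ham, ?_⟩
      obtain ⟨d, rfl⟩ := Nat.exists_eq_add_of_le ham
      have h1 := hgrow a haS.1 d hm.2.1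
      have h2 : g (a + d) - g a ≤ 2 * (K * (M : ℝ) ^ c) := by
        have h3 := abs_le.1 haS.2.2
        have h4 := abs_le.1 hm.2.2
        linarith [h3.1, h4.2]
      have hMc : 0 < (M : ℝ) ^ c := Real.rpow_pos_of_pos hM0 _
      have h5 : (d : ℝ) * (δ * ρ * (M : ℝ) ^ (e - 1)) ≤ 2 * |K| * (M : ℝ) ^ c := by
        have : K * (M : ℝ) ^ c ≤ |K| * (M : ℝ) ^ c := mul_le_mul_of_nonneg_right (le_abs_self K) hMc.le
        linarith
      have h6 : (M : ℝ) ^ c = (M : ℝ) ^ (c - e + 1) * (M : ℝ) ^ (e - 1) := by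
        rw [← Real.rpow_add hM0]; congr 1; ring
      rw [h6] at h5
      have h7 : (d : ℝ) * (δ * ρ) ≤ 2 * |K| * (M : ℝ) ^ (c - e + 1) := by
        have h8 : ((d : ℝ) * (δ * ρ)) * (M : ℝ) ^ (e - 1) ≤ (2 * |K| * (M : ℝ) ^ (c - e + 1)) * (M : ℝ) ^ (e - 1) := by
          linarith
        exact le_of_mul_le_mul_right h8 hpow
      have h9 : (d : ℝ) ≤ L := by
        rw [hL, div_mul_eq_mul_div, le_div_iff₀ hδρ]
        exact h7
      have := Nat.le_floor h9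
      omega
    have hcard : S.ncard ≤ ⌊L⌋₊ + 1 := by
      have h1 := Set.ncard_le_ncard hsub (Set.finite_Icc _ _)
      have h2 : (Set.Icc a (a + ⌊L⌋₊)).ncard = ⌊L⌋₊ + 1 := by
        rw [← Finset.coe_Icc, Set.ncard_coe_finset, Nat.card_Icc]
        omega
      omega
    have h3 : (S.ncard : ℝ) ≤ (⌊L⌋₊ : ℝ) + 1 := by exact_mod_cast hcard
    have h4 := Nat.floor_le hL0
    have h5 : (2 * |K| / (δ * ρ) + 1) * (M : ℝ) ^ (c - e + 1) = L + (M : ℝ) ^ (c - e + 1) := by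
      rw [hL]; ring
    rw [h5]
    linarith

end V2

end Pool.Agent.helper616_RP
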