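import Pool.Agent.helper616_RP.Defs2
import Pool.Agent.helper616_RP.V3
import Pool.Agent.helper616_RP.V2

/-!
# Project RP (helper616), part V: the variance restricted to the windows
-/

set_option autoImplicit false
set_option maxHeartbeats 4000000

open Finset MeasureTheory Filter Topology

namespace Pool.Agent.helper616_RP

open V3 (size_e)
open V2 (overlap)

namespace V4


theorem window_var (hVAR : S_VAR) (c e θ : ℝ) (hc : 0 < c) (hce : c < e) (hec : e ≤ c + 1) (hθ : 1 / 3 < θ)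
    (g : ℕ → ℝ) (hg : Spread e g) (K : ℝ) (A : ℕ) :
    ∃ C : ℝ, ∀ᶠ M : ℕ in atTop, ∀ W : ℕ, (M : ℝ) ^ (θ * e) ≤ W → (W : ℝ) ≤ (M : ℝ) ^ e → ∀ Y Z : ℕ → ℕ,
      (∀ m, M ≤ m → m < 2 * M → (g m - K * (M : ℝ) ^ c ≤ Y m ∧ (Y m : ℝ) + Z m ≤ g m + K * (M : ℝ) ^ c)) →
      ∑ m ∈ Ico M (2 * M), (∑ u ∈ Ico (Y m) (Y m + Z m), (∑ s ∈ Icc 1 W, (th (u + s) - 1)) ^ 2) / (M : ℝ) ^ c ≤
        C * M * (W : ℝ) ^ 2 / (Real.log M) ^ A := by
  have he : 0 < e := hc.trans hce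
  have hg0 := hg
  obtain ⟨δ, K', hδ, hgK⟩ := hg0
  obtain ⟨C1, hC1⟩ := overlap c e hc hce hec g hg K
  set D : ℝ := |K'| * 2 ^ e + |K| with hD
  have hD0 : 0 ≤ D := by positivity
  set θ' : ℝ := (1 / 3 + θ) / 2 with hθ'
  have h1 : 1 / 3 < θ' := by rw [hθ']; linarith
  have h2 : θ' < θ := by rw [hθ']; linarith
  have h3 : 0 < θ' := by linarith
  obtain ⟨X₀, hX₀⟩ := hVAR θ' h1 A
  refine ⟨|C1| * (D + 2) / e ^ A, ?_⟩
  have hcast : Tendsto (fun M : ℕ => (M : ℝ)) atTop atTop := tendsto_natCast_atTop_atTop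
  have ev1 : ∀ᶠ M : ℕ in atTop, (X₀ : ℝ) ≤ (M : ℝ) ^ e :=
    ((tendsto_rpow_atTop he).comp hcast).eventually_ge_atTop _
  have ev2 : ∀ᶠ M : ℕ in atTop, (D + 2) ^ θ' ≤ (M : ℝ) ^ ((θ - θ') * e) :=
    ((tendsto_rpow_atTop (mul_pos (sub_pos.2 h2) he)).comp hcast).eventually_ge_atTop _
  obtain ⟨n0, hn0⟩ := eventually_atTop.1 hgK
  filter_upwards [ev1, ev2, hC1, eventually_ge_atTop n0, eventually_ge_atTop 2] with M hM1 hM2 hM3 hM4 hM5
  intro W hW1 hW2 Y Z hYZ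
  have hMR : (2 : ℝ) ≤ M := by exact_mod_cast hM5
  have hM0 : (0 : ℝ) < M := by linarith
  have hMone : (1 : ℝ) ≤ M := by linarith
  have hlogM : 0 < Real.log M := Real.log_pos (by linarith)
  have hMc : 0 < (M : ℝ) ^ c := Real.rpow_pos_of_pos hM0 _
  have hMe : 0 < (M : ℝ) ^ e := Real.rpow_pos_of_pos hM0 _
  have hMe1 : 1 ≤ (M : ℝ) ^ e := Real.one_le_rpow hMone he.le
  set F : ℕ → ℝ := fun u => (∑ s ∈ Icc 1 W, (th (u + s) - 1)) ^ 2 with hF
  have hF0 : ∀ u, 0 ≤ F u := fun u => sq_nonneg _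
  set X : ℕ := ⌈(D + 1) * (M : ℝ) ^ e⌉₊ with hX
  have hXlow : (D + 1) * (M : ℝ) ^ e ≤ X := Nat.le_ceil _
  have hXlow' : (M : ℝ) ^ e ≤ X := by nlinarith
  have hXup : (X : ℝ) ≤ (D + 2) * (M : ℝ) ^ e := by
    have := (Nat.ceil_lt_add_one (a := (D + 1) * (M : ℝ) ^ e) (by positivity)).le
    rw [← hX] at this
    nlinarith
  have hXpos : (0 : ℝ) < X := lt_of_lt_of_le hMe hXlow'
  -- variance bound
  have hvar : ∑ u ∈ range X, F u ≤ X * (W : ℝ) ^ 2 / (Real.log X) ^ A := by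
    apply hX₀
    · exact_mod_cast hM1.trans hXlow'
    · calc (X : ℝ) ^ θ' ≤ ((D + 2) * (M : ℝ) ^ e) ^ θ' := Real.rpow_le_rpow hXpos.le hXup h3.le
        _ = (D + 2) ^ θ' * (M : ℝ) ^ (e * θ') := by
          rw [Real.mul_rpow (by linarith) hMe.le, ← Real.rpow_mul hM0.le]
        _ ≤ (M : ℝ) ^ ((θ - θ') * e) * (M : ℝ) ^ (e * θ') :=
          mul_le_mul_of_nonneg_right hM2 (Real.rpow_nonneg hM0.le _)
        _ = (M : ℝ) ^ (θ * e) := by
          rw [← Real.rpow_add hM0]; congr 1; ring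
        _ ≤ W := hW1
    · exact_mod_cast hW2.trans hXlow'
  have hlogX : e * Real.log M ≤ Real.log X := by
    rw [← Real.log_rpow hM0]
    exact Real.log_le_log hMe hXlow'
  have hvar2 : ∑ u ∈ range X, F u ≤ (D + 2) * (M : ℝ) ^ e * (W : ℝ) ^ 2 / (e * Real.log M) ^ A := by
    refine hvar.trans ?_
    have hel : 0 < e * Real.log M := mul_pos he hlogM
    have hp : (e * Real.log M) ^ A ≤ (Real.log X) ^ A := pow_le_pow_left₀ hel.le hlogX A
    have hp0 : 0 < (e * Real.log M) ^ A := pow_pos hel A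
    apply div_le_div₀ _ _ hp0 hp
    · positivity
    · exact mul_le_mul_of_nonneg_right hXup (by positivity)
  -- interchange
  have hstep : ∀ m ∈ Ico M (2 * M), ∑ u ∈ Ico (Y m) (Y m + Z m), F u ≤
      ∑ u ∈ range X, (if |g m - u| ≤ K * (M : ℝ) ^ c then F u else 0) := by
    intro m hm
    rw [Finset.mem_Ico] at hm
    obtain ⟨hy1, hy2⟩ := hYZ m hm.1 hm.2
    have hgm := (hn0 m (hM4.trans hm.1)).1
    rw [← Finset.sum_filter]
    apply Finset.sum_le_sum_of_subset_of_nonneg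
    · intro u hu
      rw [Finset.mem_Ico] at hu
      have hu1 : (Y m : ℝ) ≤ u := by exact_mod_cast hu.1
      have hu2 : (u : ℝ) + 1 ≤ (Y m : ℝ) + Z m := by
        have : u + 1 ≤ Y m + Z m := hu.2
        exact_mod_cast this
      rw [Finset.mem_filter, Finset.mem_range]
      constructor
      · have hm2 : (m : ℝ) ≤ 2 * M := by exact_mod_cast hm.2.le
        have hme : (m : ℝ) ^ e ≤ 2 ^ e * (M : ℝ) ^ e := by
          rw [← Real.mul_rpow (by norm_num) hM0.le]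
          exact Real.rpow_le_rpow (Nat.cast_nonneg _) hm2 he.le
        have hb1 : K' * (m : ℝ) ^ e ≤ |K'| * (2 ^ e * (M : ℝ) ^ e) :=
          calc K' * (m : ℝ) ^ e ≤ |K'| * (m : ℝ) ^ e :=
                mul_le_mul_of_nonneg_right (le_abs_self _) (Real.rpow_nonneg (Nat.cast_nonneg _) _)
            _ ≤ _ := mul_le_mul_of_nonneg_left hme (abs_nonneg _)
        have hb2 : K * (M : ℝ) ^ c ≤ |K| * (M : ℝ) ^ e :=
          calc K * (M : ℝ) ^ c ≤ |K| * (M : ℝ) ^ c :=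
                mul_le_mul_of_nonneg_right (le_abs_self _) hMc.le
            _ ≤ _ := mul_le_mul_of_nonneg_left (Real.rpow_le_rpow_of_exponent_le hMone hce.le) (abs_nonneg _)
        have : (u : ℝ) < X := by
          have : (u : ℝ) + 1 ≤ D * (M : ℝ) ^ e := by
            rw [hD]
            linarith
          nlinarith
        exact_mod_cast this
      · rw [abs_le]
        constructor <;> linarith
    · intro u _ _
      exact hF0 u
  have hcount : ∀ u : ℕ, (((Ico M (2 * M)).filter (fun m : ℕ => |g m - u| ≤ K * (M : ℝ) ^ c)).card : ℝ) ≤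
      |C1| * (M : ℝ) ^ (c - e + 1) := by
    intro u
    have h := hM3 (u : ℝ)
    have hset : ({m : ℕ | M ≤ m ∧ m < 2 * M ∧ |g m - (u : ℝ)| ≤ K * (M : ℝ) ^ c} : Set ℕ) =
        (((Ico M (2 * M)).filter (fun m : ℕ => |g m - u| ≤ K * (M : ℝ) ^ c) : Finset ℕ) : Set ℕ) := by
      ext m
      simp [and_assoc]
    rw [hset, Set.ncard_coe_finset] at h
    exact h.trans (mul_le_mul_of_nonneg_right (le_abs_self _) (Real.rpow_nonneg hM0.le _))
  have hmain : ∑ m ∈ Ico M (2 * M), ∑ u ∈ Ico (Y m) (Y m + Z m), F u ≤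
      (|C1| * (M : ℝ) ^ (c - e + 1)) * ((D + 2) * (M : ℝ) ^ e * (W : ℝ) ^ 2 / (e * Real.log M) ^ A) := by
    calc ∑ m ∈ Ico M (2 * M), ∑ u ∈ Ico (Y m) (Y m + Z m), F u
        ≤ ∑ m ∈ Ico M (2 * M), ∑ u ∈ range X, (if |g m - u| ≤ K * (M : ℝ) ^ c then F u else 0) :=
          Finset.sum_le_sum hstep
      _ = ∑ u ∈ range X, ∑ m ∈ Ico M (2 * M), (if |g m - u| ≤ K * (M : ℝ) ^ c then F u else 0) :=
          Finset.sum_comm
      _ = ∑ u ∈ range X, (((Ico M (2 * M)).filter (fun m : ℕ => |g m - u| ≤ K * (M : ℝ) ^ c)).card : ℝ) * F u := by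
          apply Finset.sum_congr rfl
          intro u _
          rw [← Finset.sum_filter, Finset.sum_const, nsmul_eq_mul]
      _ ≤ ∑ u ∈ range X, (|C1| * (M : ℝ) ^ (c - e + 1)) * F u :=
          Finset.sum_le_sum fun u _ => mul_le_mul_of_nonneg_right (hcount u) (hF0 u)
      _ = (|C1| * (M : ℝ) ^ (c - e + 1)) * ∑ u ∈ range X, F u := by rw [Finset.mul_sum]
      _ ≤ _ := mul_le_mul_of_nonneg_left hvar2 (by positivity)
  rw [← Finset.sum_div]
  have hpow : (M : ℝ) ^ (c - e + 1) * (M : ℝ) ^ e = (M : ℝ) ^ c * M := by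
    rw [← Real.rpow_add hM0]
    have : c - e + 1 + e = c + 1 := by ring
    rw [this, Real.rpow_add hM0, Real.rpow_one]
  rw [div_le_iff₀ hMc]
  refine hmain.trans (le_of_eq ?_)
  rw [mul_pow]
  calc |C1| * (M : ℝ) ^ (c - e + 1) * ((D + 2) * (M : ℝ) ^ e * (W : ℝ) ^ 2 / (e ^ A * Real.log M ^ A))
      = |C1| * (D + 2) * ((M : ℝ) ^ (c - e + 1) * (M : ℝ) ^ e) * (W : ℝ) ^ 2 / (e ^ A * Real.log M ^ A) := by ring
    _ = |C1| * (D + 2) / e ^ A * M * (W : ℝ) ^ 2 / Real.log M ^ A * (M : ℝ) ^ c := by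
        rw [hpow]
        field_simp

end V4

end Pool.Agent.helper616_RP
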