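import Pool.Agent.helper616_RP.Defs2
import Pool.Agent.helper616_RP.V1
import Pool.Agent.helper616_RP.V3
import Pool.Agent.helper616_RP.V4

/-!
# Project RP (helper616), part V: the mean values on average
-/

set_option autoImplicit false
set_option maxHeartbeats 4000000

open Finset MeasureTheory Filter Topology

namespace Pool.Agent.helper616_RP

open V1 (gen_loc)
open V3 (size_e)
open V4 (window_var)

namespace V5


theorem th_bd_E963 (n : ℕ) (N0 : ℝ) (h1 : 1 ≤ N0) (hn : (n : ℝ) ≤ N0) :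
    |th n - 1| ≤ 1 + Real.log N0 := by
  have hlog0 : 0 ≤ Real.log N0 := Real.log_nonneg h1
  unfold th
  split_ifs with hp
  · have h2 : (2 : ℝ) ≤ n := by exact_mod_cast hp.two_le
    have h3 : 0 ≤ Real.log n := Real.log_nonneg (by linarith)
    have h4 : Real.log n ≤ Real.log N0 := Real.log_le_log (by linarith) hn
    rw [abs_le]
    constructor <;> linarith
  · rw [abs_le]
    constructor <;> linarith

theorem th_meas_E963 (c c' : ℝ) (g : ℕ → ℝ) (m : ℕ) :
    Measurable (fun ω : ℝ × ℝ => th ⌊xx c c' g m ω⌋₊) := by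
  have h1 : Measurable (fun ω : ℝ × ℝ => xx c c' g m ω) := by
    unfold xx
    fun_prop
  have h2 : Measurable (fun n : ℕ => th n) := measurable_of_countable _
  exact h2.comp (Nat.measurable_floor.comp h1)

theorem sum_sqrt_E963 (s : Finset ℕ) (x : ℕ → ℝ) (hx : ∀ i ∈ s, 0 ≤ x i) :
    ∑ i ∈ s, Real.sqrt (x i) ≤ Real.sqrt (s.card * ∑ i ∈ s, x i) := by
  apply Real.le_sqrt_of_sq_le
  have h := Finset.sum_mul_sq_le_sq_mul_sq s (fun _ => (1 : ℝ)) (fun i => Real.sqrt (x i))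
  simp only [one_mul, one_pow, sum_const, nsmul_eq_mul, mul_one] at h
  refine h.trans (le_of_eq ?_)
  congr 1
  exact Finset.sum_congr rfl fun i hi => Real.sq_sqrt (hx i hi)

theorem vol_B_E963 (a b : ℝ) : (volume (B a b)).toReal = 1 := by
  unfold B
  rw [Measure.volume_eq_prod, Measure.prod_prod, Real.volume_Icc, Real.volume_Icc]
  simp

theorem single_avg (hVAR : S_VAR) (c c' e : ℝ) (hc' : 0 < c') (hcc : c' < c) (hce : c < e) (hec : e ≤ c + 1)
    (he : e / 3 < c') (g : ℕ → ℝ) (hg : Spread e g) (a b : ℝ) (A : ℕ) :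
    ∃ C : ℝ, ∀ᶠ M : ℕ in atTop, ∑ m ∈ Ico M (2 * M), |(∫ ω in B a b, th ⌊xx c c' g m ω⌋₊) - 1| ≤
      C * M / (Real.log M) ^ A := by
  classical
  have hc : 0 < c := hc'.trans hcc
  have he0 : 0 < e := hc.trans hce
  obtain ⟨δ0, Kg, hδ0, hev⟩ := id hg
  set T : ℝ := |a| + |b| + 3 with hT
  have hT0 : 0 < T := by positivity
  obtain ⟨δ, M1, hδ, hM1, hsz⟩ := size_e c c' e hc' hcc hce g hg T
  obtain ⟨N1, hN1⟩ := Filter.eventually_atTop.mp (hev.and hsz)
  set θ : ℝ := (1 / 3 + c / e) / 2 with hθdef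
  have hce3 : 1 / 3 < c / e := by
    rw [lt_div_iff₀ he0]
    linarith
  have hθ : 1 / 3 < θ := by rw [hθdef]; linarith
  have hθe : θ * e < c := by
    have h1 : θ < c / e := by rw [hθdef]; linarith
    have h2 := mul_lt_mul_of_pos_right h1 he0
    rwa [div_mul_cancel₀ _ he0.ne'] at h2
  set K0 : ℝ := 2 * T * 2 ^ c with hK0
  have hK0pos : 0 < K0 := by positivity
  obtain ⟨C, hC⟩ := window_var hVAR c e θ hc hce hec hθ g hg (K0 + 3) (2 * A)
  set K2 : ℝ := |Kg| * 2 ^ e + K0 + 3 with hK2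
  have hK2pos : 1 ≤ K2 := by
    have : 0 ≤ |Kg| * 2 ^ e := by positivity
    rw [hK2]; linarith
  set CL : ℝ := 1 + Real.log K2 + e with hCL
  have hCL0 : 0 ≤ CL := by
    have := Real.log_nonneg hK2pos
    rw [hCL]; linarith
  refine ⟨4 * CL + Real.sqrt (max C 0), ?_⟩
  -- eventual facts
  have hE1 : ∀ᶠ M : ℕ in atTop, max N1 3 ≤ M := eventually_ge_atTop _
  have hE2 : ∀ᶠ M : ℕ in atTop, 2 * Real.log M ^ (A + 2) ≤ (M : ℝ) ^ (c - θ * e) := by
    have h2 : (fun x : ℝ => Real.log x ^ (A + 2)) =o[atTop] fun x : ℝ => x ^ (c - θ * e) := by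
      have h3 := isLittleO_log_rpow_rpow_atTop ((A + 2 : ℕ) : ℝ) (show 0 < c - θ * e by linarith)
      refine h3.congr' ?_ (Filter.EventuallyEq.rfl)
      filter_upwards with x
      exact Real.rpow_natCast _ _
    have h3 := h2.bound (show (0 : ℝ) < 1 / 2 by norm_num)
    have h4 := tendsto_natCast_atTop_atTop (R := ℝ) |>.eventually h3
    filter_upwards [h4, eventually_ge_atTop 3] with M hM hM3
    have hM3' : (3 : ℝ) ≤ M := by exact_mod_cast hM3
    have hl : 0 ≤ Real.log M := Real.log_nonneg (by linarith)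
    rw [Real.norm_of_nonneg (pow_nonneg hl _), Real.norm_of_nonneg (by positivity)] at hM
    linarith
  have hE3 : ∀ᶠ M : ℕ in atTop, K0 / δ ≤ (M : ℝ) ^ (e - c) := by
    have h1 := (tendsto_rpow_atTop (show 0 < e - c by linarith)).comp
      (tendsto_natCast_atTop_atTop (R := ℝ))
    exact h1.eventually_ge_atTop _
  filter_upwards [hC, hE1, hE2, hE3] with M hCM hM1' hM2 hM3
  have hMN1 : N1 ≤ M := (le_max_left _ _).trans hM1'
  have hM3n : 3 ≤ M := (le_max_right _ _).trans hM1'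
  have hMR : (3 : ℝ) ≤ M := by exact_mod_cast hM3n
  have hMpos : (0 : ℝ) < M := by linarith
  have hlog1 : 1 ≤ Real.log M := by
    rw [Real.le_log_iff_exp_le hMpos]
    have := Real.exp_one_lt_d9
    linarith
  have hlogpos : 0 < Real.log M := by linarith
  set ρ : ℝ := 1 / Real.log M ^ (A + 2) with hρ
  have hρpos : 0 < ρ := by positivity
  have hρ1 : ρ ≤ 1 := by
    rw [hρ, div_le_one (by positivity)]
    exact one_le_pow₀ hlog1
  set W : ℕ := ⌊ρ * (M : ℝ) ^ c⌋₊ with hW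
  have hMc1 : 1 ≤ (M : ℝ) ^ c := Real.one_le_rpow (by linarith) hc.le
  have hWle : (W : ℝ) ≤ ρ * (M : ℝ) ^ c := Nat.floor_le (by positivity)
  have hWge : (M : ℝ) ^ (θ * e) ≤ W := by
    have h1 : ρ * (M : ℝ) ^ c < W + 1 := Nat.lt_floor_add_one _
    have h2 : (1 : ℝ) ≤ (M : ℝ) ^ (θ * e) := Real.one_le_rpow (by linarith) (by positivity)
    have h3 : (M : ℝ) ^ c = (M : ℝ) ^ (c - θ * e) * (M : ℝ) ^ (θ * e) := by
      rw [← Real.rpow_add hMpos]; congr 1; ring
    have h4 : 2 * (M : ℝ) ^ (θ * e) ≤ ρ * (M : ℝ) ^ c := by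
      rw [h3, hρ]
      have h5 : 2 * Real.log M ^ (A + 2) * (M : ℝ) ^ (θ * e) ≤
          (M : ℝ) ^ (c - θ * e) * (M : ℝ) ^ (θ * e) :=
        mul_le_mul_of_nonneg_right hM2 (by positivity)
      have h6 : (0 : ℝ) < Real.log M ^ (A + 2) := by positivity
      have h7 : 1 / Real.log M ^ (A + 2) *
          ((M : ℝ) ^ (c - θ * e) * (M : ℝ) ^ (θ * e)) =
          ((M : ℝ) ^ (c - θ * e) * (M : ℝ) ^ (θ * e)) / Real.log M ^ (A + 2) := by
        field_simp
      rw [h7, le_div_iff₀ h6]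
      linarith
    linarith
  have hWpos : (1 : ℝ) ≤ W := le_trans (Real.one_le_rpow (by linarith) (by positivity)) hWge
  have hWn : 1 ≤ W := by exact_mod_cast hWpos
  have hWMe : (W : ℝ) ≤ (M : ℝ) ^ e := by
    have h1 : ρ * (M : ℝ) ^ c ≤ 1 * (M : ℝ) ^ c := mul_le_mul_of_nonneg_right hρ1 (by positivity)
    have h2 : (M : ℝ) ^ c ≤ (M : ℝ) ^ e := Real.rpow_le_rpow_of_exponent_le (by linarith) hce.le
    linarith
  set Y : ℕ → ℕ := fun m => ⌊g m - K0 * (M : ℝ) ^ c⌋₊ with hY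
  set Z : ℕ → ℕ := fun _ => ⌈2 * K0 * (M : ℝ) ^ c⌉₊ + 2 with hZ
  have hK0M : K0 * (M : ℝ) ^ c ≤ δ * (M : ℝ) ^ e := by
    have h1 : (M : ℝ) ^ e = (M : ℝ) ^ (e - c) * (M : ℝ) ^ c := by
      rw [← Real.rpow_add hMpos]; congr 1; ring
    rw [h1]
    have h2 : K0 ≤ δ * (M : ℝ) ^ (e - c) := by
      rw [div_le_iff₀ hδ] at hM3
      linarith
    have h3 := mul_le_mul_of_nonneg_right h2 (show 0 ≤ (M : ℝ) ^ c by positivity)
    linarith
  have hgM : ∀ m, M ≤ m → K0 * (M : ℝ) ^ c ≤ g m := by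
    intro m hm
    have h1 := (hN1 m (hMN1.trans hm)).2.1
    have h2 : (M : ℝ) ^ e ≤ (m : ℝ) ^ e :=
      Real.rpow_le_rpow hMpos.le (by exact_mod_cast hm) he0.le
    have h3 := mul_le_mul_of_nonneg_left h2 hδ.le
    linarith
  have hY1 : ∀ m, M ≤ m → (Y m : ℝ) ≤ g m - K0 * (M : ℝ) ^ c := by
    intro m hm
    exact Nat.floor_le (by have := hgM m hm; linarith)
  have hY2 : ∀ m, g m - K0 * (M : ℝ) ^ c < Y m + 1 := fun m => Nat.lt_floor_add_one _
  have hZ1 : ∀ m, 2 * K0 * (M : ℝ) ^ c + 2 ≤ Z m := by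
    intro m
    have := Nat.le_ceil (2 * K0 * (M : ℝ) ^ c)
    simp only [hZ]
    push_cast
    linarith
  have hZ2 : ∀ m, (Z m : ℝ) ≤ 2 * K0 * (M : ℝ) ^ c + 3 := by
    intro m
    have := Nat.ceil_lt_add_one (show 0 ≤ 2 * K0 * (M : ℝ) ^ c by positivity)
    simp only [hZ]
    push_cast
    linarith
  have hCM' := hCM W hWge hWMe Y Z (by
    intro m hm _
    have h1 := hY1 m hm
    have h2 := hY2 m
    have h3 := hZ1 m
    have h4 := hZ2 m
    constructor
    · nlinarith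
    · nlinarith)
  -- the bound for a single m
  have key : ∀ m ∈ Ico M (2 * M), |(∫ ω in B a b, th ⌊xx c c' g m ω⌋₊) - 1| ≤
      4 * CL * Real.log M * ρ + Real.sqrt ((∑ u ∈ Ico (Y m) (Y m + Z m),
        (∑ s ∈ Icc 1 W, (th (u + s) - 1)) ^ 2) / (M : ℝ) ^ c) / W := by
    intro m hm
    rw [Finset.mem_Ico] at hm
    obtain ⟨hm1, hm2⟩ := hm
    have hmR : (M : ℝ) ≤ m := by exact_mod_cast hm1
    have hmR2 : (m : ℝ) ≤ 2 * M := by exact_mod_cast hm2.le
    have hmpos : (0 : ℝ) < m := by linarith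
    have hU : 0 < (m : ℝ) ^ c := by positivity
    have hMU : (M : ℝ) ^ c ≤ (m : ℝ) ^ c := Real.rpow_le_rpow hMpos.le hmR hc.le
    have hUM : (m : ℝ) ^ c ≤ 2 ^ c * (M : ℝ) ^ c := by
      rw [← Real.mul_rpow (by norm_num) hMpos.le]
      exact Real.rpow_le_rpow hmpos.le hmR2 hc.le
    have hVU : (m : ℝ) ^ c' ≤ (m : ℝ) ^ c :=
      Real.rpow_le_rpow_of_exponent_le (by linarith) hcc.le
    have hV0 : 0 ≤ (m : ℝ) ^ c' := by positivity
    have hbox : ∀ ω : ℝ × ℝ, |ω.1| ≤ T → |ω.2| ≤ T →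
        |ω.1 * (m : ℝ) ^ c + ω.2 * (m : ℝ) ^ c'| ≤ K0 * (M : ℝ) ^ c := by
      intro ω h1 h2
      have h3 : |ω.1 * (m : ℝ) ^ c| ≤ T * (m : ℝ) ^ c := by
        rw [abs_mul, abs_of_pos hU]
        exact mul_le_mul_of_nonneg_right h1 hU.le
      have h4 : |ω.2 * (m : ℝ) ^ c'| ≤ T * (m : ℝ) ^ c := by
        rw [abs_mul, abs_of_nonneg hV0]
        exact mul_le_mul h2 hVU hV0 hT0.le
      have h5 := abs_add_le (ω.1 * (m : ℝ) ^ c) (ω.2 * (m : ℝ) ^ c')
      have h6 : T * (m : ℝ) ^ c ≤ T * (2 ^ c * (M : ℝ) ^ c) :=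
        mul_le_mul_of_nonneg_left hUM hT0.le
      have h7 : K0 * (M : ℝ) ^ c = 2 * (T * (2 ^ c * (M : ℝ) ^ c)) := by rw [hK0]; ring
      rw [h7]
      linarith
    have hYZ : (Y m : ℝ) + Z m ≤ K2 * (M : ℝ) ^ e := by
      have h1 := hY1 m hm1
      have h2 := hZ2 m
      have h3 := (hN1 m (hMN1.trans hm1)).1.1
      have h4 : (m : ℝ) ^ e ≤ 2 ^ e * (M : ℝ) ^ e := by
        rw [← Real.mul_rpow (by norm_num) hMpos.le]
        exact Real.rpow_le_rpow hmpos.le hmR2 he0.le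
      have h5 : Kg * (m : ℝ) ^ e ≤ |Kg| * (2 ^ e * (M : ℝ) ^ e) :=
        mul_le_mul (le_abs_self _) h4 (by positivity) (abs_nonneg _)
      have h6 : (M : ℝ) ^ c ≤ (M : ℝ) ^ e :=
        Real.rpow_le_rpow_of_exponent_le (by linarith) hce.le
      have h7 : K0 * (M : ℝ) ^ c ≤ K0 * (M : ℝ) ^ e := mul_le_mul_of_nonneg_left h6 hK0pos.le
      have h8 : K2 * (M : ℝ) ^ e = |Kg| * (2 ^ e * (M : ℝ) ^ e) + K0 * (M : ℝ) ^ e +
          3 * (M : ℝ) ^ e := by rw [hK2]; ring
      rw [h8]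
      linarith
    have hMe1 : 1 ≤ (M : ℝ) ^ e := Real.one_le_rpow (by linarith) he0.le
    have hNbig : 1 ≤ K2 * (M : ℝ) ^ e := by nlinarith
    have hlogN : 1 + Real.log (K2 * (M : ℝ) ^ e) ≤ CL * Real.log M := by
      rw [Real.log_mul (by linarith) (by positivity), Real.log_rpow hMpos, hCL]
      have h0 := Real.log_nonneg hK2pos
      have h1 := mul_le_mul_of_nonneg_left hlog1 (show 0 ≤ 1 + Real.log K2 by linarith)
      have h2 : (1 + Real.log K2 + e) * Real.log M =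
        (1 + Real.log K2) * Real.log M + e * Real.log M := by ring
      rw [h2]
      linarith
    have hgen := gen_loc a b ((m : ℝ) ^ c) ((m : ℝ) ^ c') (g m) hU (Y m) (Z m) W hWn
      (1 / (m : ℝ) ^ c, 0) (by simp [hU.ne']) ρ
      (by
        simp only
        rw [abs_of_pos (by positivity), mul_one_div, div_le_iff₀ hU]
        exact hWle.trans (mul_le_mul_of_nonneg_left hMU hρpos.le))
      (by simp [hρpos.le]) (fun n => th n - 1) (CL * Real.log M)
      (by
        intro n hn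
        refine (th_bd_E963 n (K2 * (M : ℝ) ^ e) hNbig ?_).trans hlogN
        have : (n : ℝ) ≤ (Y m : ℝ) + Z m := by exact_mod_cast hn.le
        exact this.trans hYZ)
      (fun _ => 1) measurable_const 1
      (by
        intro ω h1 h2 h3 h4
        have hw1 : |ω.1| ≤ T := by
          rw [abs_le, hT]
          have ha1 := neg_abs_le a
          have ha2 := le_abs_self a
          have hb1 := abs_nonneg b
          constructor <;> linarith
        have hw2 : |ω.2| ≤ T := by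
          rw [abs_le, hT]
          have ha1 := neg_abs_le b
          have ha2 := le_abs_self b
          have hb1 := abs_nonneg a
          constructor <;> linarith
        have h5 := abs_le.mp (hbox ω hw1 hw2)
        have h6 := hY1 m hm1
        have h7 := hY2 m
        have h8 := hZ1 m
        refine ⟨by linarith, by linarith, by simp⟩)
      (by intro ω t; rfl)
    have hint : IntegrableOn (fun ω : ℝ × ℝ => th ⌊xx c c' g m ω⌋₊) (B a b) volume := by
      have hfin : volume (B a b) < ⊤ := by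
        unfold B
        rw [Measure.volume_eq_prod, Measure.prod_prod, Real.volume_Icc, Real.volume_Icc]
        exact ENNReal.mul_lt_top ENNReal.ofReal_lt_top ENNReal.ofReal_lt_top
      have hBm : MeasurableSet (B a b) := by
        unfold B
        exact measurableSet_Icc.prod measurableSet_Icc
      refine Measure.integrableOn_of_bounded (M := 2 + Real.log (K2 * (M : ℝ) ^ e)) hfin.ne
        (th_meas_E963 c c' g m).aestronglyMeasurable ?_
      refine (ae_restrict_iff' hBm).mpr (Filter.Eventually.of_forall ?_)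
      intro ω hω
      have hω' : (a ≤ ω.1 ∧ ω.1 ≤ a + 1) ∧ (b ≤ ω.2 ∧ ω.2 ≤ b + 1) := by
        have h0 := Set.mem_prod.mp hω
        exact ⟨⟨h0.1.1, h0.1.2⟩, ⟨h0.2.1, h0.2.2⟩⟩
      have hw1 : |ω.1| ≤ T := by
        rw [abs_le, hT]
        have ha1 := neg_abs_le a
        have ha2 := le_abs_self a
        have hb1 := abs_nonneg b
        constructor <;> linarith [hω'.1.1, hω'.1.2]
      have hw2 : |ω.2| ≤ T := by
        rw [abs_le, hT]
        have ha1 := neg_abs_le b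
        have ha2 := le_abs_self b
        have hb1 := abs_nonneg a
        constructor <;> linarith [hω'.2.1, hω'.2.2]
      have h5 := abs_le.mp (hbox ω hw1 hw2)
      have h6 := hY1 m hm1
      have h7 := hY2 m
      have h8 := hZ1 m
      have hxx0 : 0 ≤ xx c c' g m ω := by
        unfold xx
        have := hgM m hm1
        linarith
      have hfl : ((⌊xx c c' g m ω⌋₊ : ℕ) : ℝ) ≤ K2 * (M : ℝ) ^ e := by
        refine (Nat.floor_le hxx0).trans ?_
        refine le_trans ?_ hYZ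
        unfold xx
        linarith
      have h9 := th_bd_E963 _ _ hNbig hfl
      rw [abs_le] at h9
      rw [Real.norm_eq_abs, abs_le]
      have hl0 := Real.log_nonneg hNbig
      constructor <;> linarith [h9.1, h9.2]
    have hone : ∫ ω in B a b, (fun _ => (1 : ℝ)) ω * ((fun n => th n - 1)
        ⌊ω.1 * (m : ℝ) ^ c + ω.2 * (m : ℝ) ^ c' + g m⌋₊) =
        (∫ ω in B a b, th ⌊xx c c' g m ω⌋₊) - 1 := by
      have h1 : ∫ ω in B a b, (fun _ => (1 : ℝ)) ω * ((fun n => th n - 1)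
        ⌊ω.1 * (m : ℝ) ^ c + ω.2 * (m : ℝ) ^ c' + g m⌋₊) =
          ∫ ω in B a b, (th ⌊xx c c' g m ω⌋₊ - (1 : ℝ)) := by
        refine integral_congr_ae (Filter.Eventually.of_forall ?_)
        intro ω
        simp [xx]
      have hfin : volume (B a b) ≠ ⊤ := by
        intro htop
        have := vol_B_E963 a b
        rw [htop] at this
        simp at this
      rw [h1, integral_sub hint (integrableOn_const hfin)]
      congr 1
      rw [setIntegral_const, smul_eq_mul, mul_one]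
      exact vol_B_E963 a b
    rw [hone] at hgen
    refine hgen.trans ?_
    have hS0 : 0 ≤ ∑ u ∈ Ico (Y m) (Y m + Z m), (∑ s ∈ Icc 1 W, (th (u + s) - 1)) ^ 2 :=
      Finset.sum_nonneg fun _ _ => sq_nonneg _
    have h1 : Real.sqrt ((∑ u ∈ Ico (Y m) (Y m + Z m),
        (∑ s ∈ Icc 1 W, (th (u + s) - 1)) ^ 2) / (m : ℝ) ^ c) ≤
        Real.sqrt ((∑ u ∈ Ico (Y m) (Y m + Z m),
        (∑ s ∈ Icc 1 W, (th (u + s) - 1)) ^ 2) / (M : ℝ) ^ c) :=
      Real.sqrt_le_sqrt (div_le_div_of_nonneg_left hS0 (by positivity) hMU)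
    have h2 : 1 * Real.sqrt ((∑ u ∈ Ico (Y m) (Y m + Z m),
        (∑ s ∈ Icc 1 W, (th (u + s) - 1)) ^ 2) / (m : ℝ) ^ c) / W ≤
        Real.sqrt ((∑ u ∈ Ico (Y m) (Y m + Z m),
        (∑ s ∈ Icc 1 W, (th (u + s) - 1)) ^ 2) / (M : ℝ) ^ c) / W := by
      rw [one_mul]
      exact div_le_div_of_nonneg_right h1 (by linarith)
    have h3 : 4 * 1 * (CL * Real.log M) * ρ = 4 * CL * Real.log M * ρ := by ring
    have h4 := add_le_add (le_of_eq h3) h2
    exact h4
  refine (Finset.sum_le_sum key).trans ?_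
  rw [Finset.sum_add_distrib, Finset.sum_const, ← Finset.sum_div, Nat.card_Ico, nsmul_eq_mul]
  have hcard : ((2 * M - M : ℕ) : ℝ) = M := by
    have : 2 * M - M = M := by omega
    rw [this]
  rw [hcard]
  set S : ℕ → ℝ := fun m => (∑ u ∈ Ico (Y m) (Y m + Z m),
        (∑ s ∈ Icc 1 W, (th (u + s) - 1)) ^ 2) / (M : ℝ) ^ c with hS
  have hSn : ∀ m ∈ Ico M (2 * M), 0 ≤ S m := fun m _ =>
    div_nonneg (Finset.sum_nonneg fun _ _ => sq_nonneg _) (by positivity)
  have hsq := sum_sqrt_E963 (Ico M (2 * M)) S hSn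
  rw [Nat.card_Ico, hcard] at hsq
  have hsum : ∑ m ∈ Ico M (2 * M), S m ≤ max C 0 * M * (W : ℝ) ^ 2 / Real.log M ^ (2 * A) := by
    refine hCM'.trans ?_
    have : C * M * (W : ℝ) ^ 2 ≤ max C 0 * M * (W : ℝ) ^ 2 := by
      have h1 : C ≤ max C 0 := le_max_left _ _
      have h2 := mul_le_mul_of_nonneg_right h1 hMpos.le
      exact mul_le_mul_of_nonneg_right h2 (by positivity)
    exact div_le_div_of_nonneg_right this (by positivity)
  have hsqrt : Real.sqrt ((M : ℝ) * ∑ m ∈ Ico M (2 * M), S m) ≤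
      Real.sqrt (max C 0) * (M * W / Real.log M ^ A) := by
    rw [← Real.sqrt_sq (show 0 ≤ (M : ℝ) * W / Real.log M ^ A by positivity),
      ← Real.sqrt_mul (le_max_right _ _)]
    apply Real.sqrt_le_sqrt
    refine (mul_le_mul_of_nonneg_left hsum hMpos.le).trans (le_of_eq ?_)
    rw [div_pow, mul_pow, ← pow_mul, Nat.mul_comm A 2]
    ring
  have hfinal1 : (∑ m ∈ Ico M (2 * M), Real.sqrt (S m)) / W ≤
      Real.sqrt (max C 0) * (M / Real.log M ^ A) := by
    rw [div_le_iff₀ (by linarith)]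
    refine (hsq.trans hsqrt).trans (le_of_eq ?_)
    ring
  have hfinal2 : (M : ℝ) * (4 * CL * Real.log M * ρ) ≤ 4 * CL * (M / Real.log M ^ A) := by
    rw [hρ]
    have h1 : (M : ℝ) * (4 * CL * Real.log M * (1 / Real.log M ^ (A + 2))) =
        4 * CL * (M / Real.log M ^ A) * (1 / Real.log M) := by
      field_simp
      ring
    rw [h1]
    have h2 : 1 / Real.log M ≤ 1 := by
      rw [div_le_one hlogpos]; exact hlog1
    have h3 : 0 ≤ 4 * CL * (M / Real.log M ^ A) := by positivity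
    nlinarith
  have hend : (4 * CL + Real.sqrt (max C 0)) * M / Real.log M ^ A =
      4 * CL * (M / Real.log M ^ A) + Real.sqrt (max C 0) * (M / Real.log M ^ A) := by ring
  rw [hend]
  exact add_le_add hfinal2 hfinal1

end V5

end Pool.Agent.helper616_RP
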