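import Pool.Agent.helper616_RP.Defs2
import Pool.Agent.helper616_RP.V1
import Pool.Agent.helper616_RP.J5
import Pool.Agent.helper616_RP.V3
import Pool.Agent.helper616_RP.V4

/-!
# Project RP (helper616), part V: the correlations on average
-/

set_option autoImplicit false
set_option maxHeartbeats 4000000

open Finset MeasureTheory Filter Topology

namespace Pool.Agent.helper616_RP

open V1 (gen_loc)
open J5 (ratio_lower)
open V3 (size_e)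
open V4 (window_var)

namespace V6


/- ===== PART by helper602 starts here (everything above is the job header) ===== -/
theorem th_nonneg (n : ℕ) : 0 ≤ th n := by
  unfold th
  split_ifs
  · exact Real.log_natCast_nonneg n
  · exact le_refl 0

theorem th_le (n : ℕ) (x : ℝ) (hx : 1 ≤ x) (hn : (n : ℝ) ≤ x) : th n ≤ Real.log x := by
  unfold th
  split_ifs with h
  · exact Real.log_le_log (by exact_mod_cast h.pos) hn
  · exact Real.log_nonneg hx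

theorem meas_Phi (c c' : ℝ) (g : ℕ → ℝ) (n : ℕ) :
    Measurable fun ω : ℝ × ℝ => th ⌊xx c c' g n ω⌋₊ := by
  have h1 : Measurable fun ω : ℝ × ℝ => xx c c' g n ω := by
    unfold xx
    exact ((measurable_fst.mul_const _).add (measurable_snd.mul_const _)).add_const _
  have h2 : Measurable th := measurable_from_nat
  exact h2.comp (Nat.measurable_floor.comp h1)

theorem xx_inv (c c' : ℝ) (g : ℕ → ℝ) (n : ℕ) (h : ℝ × ℝ)
    (hh : h.1 * (n : ℝ) ^ c + h.2 * (n : ℝ) ^ c' = 0) (ω : ℝ × ℝ) (t : ℝ) :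
    xx c c' g n (ω + t • h) = xx c c' g n ω := by
  unfold xx
  simp only [Prod.fst_add, Prod.snd_add, Prod.smul_fst, Prod.smul_snd, smul_eq_mul]
  linear_combination t * hh

theorem exists_dir (c c' η κ : ℝ) (hcc : c' < c) (hη2 : η ≤ c') (hκ : 0 < κ)
    (n m M : ℕ) (hn : 1 ≤ n) (hnm : n < m) (hM : 1 ≤ M) (hMm : M ≤ m)
    (hr : κ * (m : ℝ) ^ (-η) ≤ ((m : ℝ) / n) ^ (c - c') - 1) :
    ∃ h : ℝ × ℝ, h.1 * (m : ℝ) ^ c + h.2 * (m : ℝ) ^ c' = 1 ∧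
      h.1 * (n : ℝ) ^ c + h.2 * (n : ℝ) ^ c' = 0 ∧
      |h.1| * (κ * (M : ℝ) ^ (c' - η)) ≤ 1 ∧ |h.2| * (κ * (M : ℝ) ^ (c' - η)) ≤ 1 := by
  have hn0 : (0 : ℝ) < n := by exact_mod_cast hn
  have hm0 : (0 : ℝ) < m := by exact_mod_cast (by omega : 0 < m)
  have hM0 : (0 : ℝ) < M := by exact_mod_cast hM
  have hn1 : (1 : ℝ) ≤ n := by exact_mod_cast hn
  set a := (n : ℝ) ^ (c - c') with ha
  set b := (m : ℝ) ^ (c - c') with hb
  set v := (m : ℝ) ^ c' with hv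
  have ha1 : 1 ≤ a := Real.one_le_rpow hn1 (by linarith)
  have hv0 : 0 < v := Real.rpow_pos_of_pos hm0 _
  have hab : a < b := Real.rpow_lt_rpow hn0.le (by exact_mod_cast hnm) (by linarith)
  have hmc : (m : ℝ) ^ c = b * v := by
    rw [hb, hv, ← Real.rpow_add hm0]; congr 1; ring
  have hnc : (n : ℝ) ^ c = a * (n : ℝ) ^ c' := by
    rw [ha, ← Real.rpow_add hn0]; congr 1; ring
  have hratio : ((m : ℝ) / n) ^ (c - c') = b / a := by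
    rw [Real.div_rpow hm0.le hn0.le]
  have hbav : 0 < (b - a) * v := mul_pos (by linarith) hv0
  have ha0 : 0 < a := by linarith
  -- key bound
  have hkey : a * (κ * (M : ℝ) ^ (c' - η)) ≤ (b - a) * v := by
    rw [hratio] at hr
    have h1 : κ * (m : ℝ) ^ (-η) * a ≤ b - a := by
      have := mul_le_mul_of_nonneg_right hr ha0.le
      rwa [sub_mul, div_mul_cancel₀ _ ha0.ne', one_mul] at this
    have h2 : (M : ℝ) ^ (c' - η) ≤ (m : ℝ) ^ (c' - η) :=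
      Real.rpow_le_rpow hM0.le (by exact_mod_cast hMm) (by linarith)
    have h3 : (m : ℝ) ^ (c' - η) = (m : ℝ) ^ (-η) * v := by
      rw [hv, ← Real.rpow_add hm0]; congr 1; ring
    calc a * (κ * (M : ℝ) ^ (c' - η)) ≤ a * (κ * (m : ℝ) ^ (c' - η)) := by gcongr
      _ = (κ * (m : ℝ) ^ (-η) * a) * v := by rw [h3]; ring
      _ ≤ (b - a) * v := by gcongr
  have hcM : 0 ≤ κ * (M : ℝ) ^ (c' - η) := by positivity
  have hba : b - a ≠ 0 := by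
    have : 0 < b - a := by linarith
    exact this.ne'
  refine ⟨(1 / ((b - a) * v), -(a / ((b - a) * v))), ?_, ?_, ?_, ?_⟩
  · simp only
    rw [hmc]
    field_simp
    ring
  · simp only
    rw [hnc]
    field_simp
    ring
  · simp only
    rw [abs_of_pos (by positivity), div_mul_eq_mul_div, div_le_one hbav, one_mul]
    calc κ * (M : ℝ) ^ (c' - η) ≤ a * (κ * (M : ℝ) ^ (c' - η)) :=
          le_mul_of_one_le_left hcM ha1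
      _ ≤ _ := hkey
  · simp only
    rw [abs_neg, abs_of_pos (by positivity), div_mul_eq_mul_div, div_le_one hbav]
    exact hkey

theorem meas_B (a b : ℝ) : MeasurableSet (B a b) := measurableSet_Icc.prod measurableSet_Icc

theorem fin_B (a b : ℝ) : (volume : Measure (ℝ × ℝ)) (B a b) ≠ ⊤ :=
  ((isCompact_Icc.prod isCompact_Icc).measure_lt_top).ne

theorem per_m (c c' : ℝ) (g : ℕ → ℝ) (a b : ℝ) (n m : ℕ) (hm : 0 < m) (h : ℝ × ℝ)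
    (hh1 : h.1 * (m : ℝ) ^ c + h.2 * (m : ℝ) ^ c' = 1)
    (hh0 : h.1 * (n : ℝ) ^ c + h.2 * (n : ℝ) ^ c' = 0)
    (ρ : ℝ) (hρ0 : 0 ≤ ρ) (Y Z W : ℕ) (hW : 1 ≤ W) (hρ1 : W * |h.1| ≤ ρ) (hρ2 : W * |h.2| ≤ ρ)
    (L : ℝ) (hL : ∀ u, u < Y + Z → |th u - 1| ≤ L)
    (hx : ∀ ω : ℝ × ℝ, a - ρ ≤ ω.1 → ω.1 ≤ a + 1 + ρ → b - ρ ≤ ω.2 → ω.2 ≤ b + 1 + ρ →
      (Y : ℝ) ≤ xx c c' g m ω ∧ xx c c' g m ω < Y + Z ∧ |th ⌊xx c c' g n ω⌋₊| ≤ L) :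
    |(∫ ω in B a b, th ⌊xx c c' g n ω⌋₊ * th ⌊xx c c' g m ω⌋₊) -
        ∫ ω in B a b, th ⌊xx c c' g n ω⌋₊| ≤
      4 * L * L * ρ + L * Real.sqrt ((∑ u ∈ Ico Y (Y + Z),
        (∑ s ∈ Icc 1 W, (th (u + s) - 1)) ^ 2) / (m : ℝ) ^ c) / W := by
  have hm0 : (0 : ℝ) < m := by exact_mod_cast hm
  have hU : 0 < (m : ℝ) ^ c := Real.rpow_pos_of_pos hm0 _
  have key := gen_loc a b ((m : ℝ) ^ c) ((m : ℝ) ^ c') (g m) hU Y Z W hW h hh1 ρ hρ1 hρ2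
    (fun u => th u - 1) L hL (fun ω => th ⌊xx c c' g n ω⌋₊) (meas_Phi c c' g n) L hx
    (fun ω t => by simp only [xx_inv c c' g n h hh0 ω t])
  have hmem : ∀ ω ∈ B a b, a - ρ ≤ ω.1 ∧ ω.1 ≤ a + 1 + ρ ∧ b - ρ ≤ ω.2 ∧ ω.2 ≤ b + 1 + ρ := by
    intro ω hω
    obtain ⟨⟨h1, h2⟩, h3, h4⟩ := hω
    exact ⟨by linarith, by linarith, by linarith, by linarith⟩
  have hI1 : IntegrableOn (fun ω => th ⌊xx c c' g n ω⌋₊) (B a b) := by
    apply Measure.integrableOn_of_bounded (M := L) (fin_B a b)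
      (meas_Phi c c' g n).aestronglyMeasurable
    refine ae_restrict_of_forall_mem (meas_B a b) fun ω hω => ?_
    obtain ⟨h1, h2, h3, h4⟩ := hmem ω hω
    exact (hx ω h1 h2 h3 h4).2.2
  have hI2 : IntegrableOn (fun ω => th ⌊xx c c' g n ω⌋₊ * th ⌊xx c c' g m ω⌋₊) (B a b) := by
    apply Measure.integrableOn_of_bounded (M := L * (L + 1)) (fin_B a b)
      ((meas_Phi c c' g n).mul (meas_Phi c c' g m)).aestronglyMeasurable
    refine ae_restrict_of_forall_mem (meas_B a b) fun ω hω => ?_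
    obtain ⟨h1, h2, h3, h4⟩ := hmem ω hω
    obtain ⟨h5, h6, h7⟩ := hx ω h1 h2 h3 h4
    have hY0 : (0 : ℝ) ≤ Y := Nat.cast_nonneg Y
    have h8 : ⌊xx c c' g m ω⌋₊ < Y + Z := by
      rw [Nat.floor_lt (by linarith)]
      push_cast
      exact h6
    have h9 := hL _ h8
    have h10 : |th ⌊xx c c' g m ω⌋₊| ≤ L + 1 := by
      have := abs_add_le (th ⌊xx c c' g m ω⌋₊ - 1) 1
      rw [sub_add_cancel, abs_one] at this
      linarith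
    rw [Real.norm_eq_abs, Pi.mul_apply, abs_mul]
    exact mul_le_mul h7 h10 (abs_nonneg _) ((abs_nonneg _).trans h7)
  have heq : (∫ ω in B a b, th ⌊xx c c' g n ω⌋₊ * th ⌊xx c c' g m ω⌋₊) -
        ∫ ω in B a b, th ⌊xx c c' g n ω⌋₊ =
      ∫ ω in B a b, (fun ω => th ⌊xx c c' g n ω⌋₊) ω *
        (fun u => th u - 1) ⌊ω.1 * (m : ℝ) ^ c + ω.2 * (m : ℝ) ^ c' + g m⌋₊ := by
    rw [← integral_sub hI2 hI1]
    refine integral_congr_ae (Filter.Eventually.of_forall fun ω => ?_)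
    simp only [xx]
    ring
  rw [heq]
  exact key

theorem ev_W (κ p q e : ℝ) (hκ : 0 < κ) (hp : 0 ≤ p) (hpq : p < q) (hqe : q < e) (B : ℕ) :
    ∀ᶠ M : ℕ in atTop, 1 ≤ Real.log M ∧ (M : ℝ) ^ p + 1 ≤ κ * (M : ℝ) ^ q / (Real.log M) ^ B ∧
      κ * (M : ℝ) ^ q ≤ (M : ℝ) ^ e := by
  have h1 : ∀ᶠ M : ℕ in atTop, 1 ≤ Real.log (M : ℝ) :=
    (Real.tendsto_log_atTop.comp tendsto_natCast_atTop_atTop).eventually_ge_atTop 1
  have h2 : ∀ᶠ x : ℝ in atTop, ‖Real.log x ^ (B : ℝ)‖ ≤ κ / 2 * ‖x ^ (q - p)‖ :=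
    (isLittleO_log_rpow_rpow_atTop (B : ℝ) (sub_pos.2 hpq)).bound (half_pos hκ)
  have h3 : ∀ᶠ x : ℝ in atTop, κ ≤ x ^ (e - q) :=
    (tendsto_rpow_atTop (sub_pos.2 hqe)).eventually_ge_atTop κ
  filter_upwards [h1, tendsto_natCast_atTop_atTop.eventually h2,
    tendsto_natCast_atTop_atTop.eventually h3, eventually_ge_atTop 1] with M hM1 hM2 hM3 hM4
  have hM0 : (0 : ℝ) < M := by exact_mod_cast hM4
  have hMge : (1 : ℝ) ≤ M := by exact_mod_cast hM4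
  refine ⟨hM1, ?_, ?_⟩
  · have hl : 0 < Real.log (M : ℝ) ^ B := by positivity
    rw [le_div_iff₀ hl]
    have h4 : Real.log (M : ℝ) ^ B ≤ κ / 2 * (M : ℝ) ^ (q - p) := by
      have := hM2
      rw [Real.rpow_natCast, Real.norm_of_nonneg hl.le,
        Real.norm_of_nonneg (Real.rpow_nonneg hM0.le _)] at this
      exact this
    have h5 : (1 : ℝ) ≤ (M : ℝ) ^ p := Real.one_le_rpow hMge hp
    have h6 : (M : ℝ) ^ q = (M : ℝ) ^ p * (M : ℝ) ^ (q - p) := by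
      rw [← Real.rpow_add hM0]; congr 1; ring
    calc ((M : ℝ) ^ p + 1) * Real.log (M : ℝ) ^ B
        ≤ (2 * (M : ℝ) ^ p) * (κ / 2 * (M : ℝ) ^ (q - p)) := by
          apply mul_le_mul _ h4 hl.le (by positivity)
          linarith
      _ = κ * (M : ℝ) ^ q := by rw [h6]; ring
  · have h6 : (M : ℝ) ^ e = (M : ℝ) ^ (e - q) * (M : ℝ) ^ q := by
      rw [← Real.rpow_add hM0]; congr 1; ring
    rw [h6]
    exact mul_le_mul_of_nonneg_right hM3 (Real.rpow_nonneg hM0.le _)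

theorem YZ (c c' : ℝ) (hc' : 0 < c') (hcc : c' < c) (g : ℕ → ℝ) (T : ℝ) (hT : 0 ≤ T)
    (m M : ℕ) (hM : 1 ≤ M) (hMm : M ≤ m) (hm2 : m < 2 * M) (hg0 : 0 ≤ g m)
    (hpos : ∀ ω : ℝ × ℝ, |ω.1| ≤ T → |ω.2| ≤ T → 0 ≤ xx c c' g m ω) :
    g m - (4 * T * 2 ^ c + 3) * (M : ℝ) ^ c ≤ (⌊g m - 2 * T * (2 * (M : ℝ)) ^ c⌋₊ : ℝ) ∧
    (⌊g m - 2 * T * (2 * (M : ℝ)) ^ c⌋₊ : ℝ) + ((⌊4 * T * (2 * (M : ℝ)) ^ c⌋₊ + 3 : ℕ) : ℝ) ≤
      g m + (4 * T * 2 ^ c + 3) * (M : ℝ) ^ c ∧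
    ∀ ω : ℝ × ℝ, |ω.1| ≤ T → |ω.2| ≤ T →
      (⌊g m - 2 * T * (2 * (M : ℝ)) ^ c⌋₊ : ℝ) ≤ xx c c' g m ω ∧
      xx c c' g m ω < (⌊g m - 2 * T * (2 * (M : ℝ)) ^ c⌋₊ : ℝ) +
        ((⌊4 * T * (2 * (M : ℝ)) ^ c⌋₊ + 3 : ℕ) : ℝ) := by
  have hM0 : (0 : ℝ) < M := by exact_mod_cast hM
  have hM1 : (1 : ℝ) ≤ M := by exact_mod_cast hM
  have hm1 : (1 : ℝ) ≤ m := by exact_mod_cast (le_trans hM hMm)
  have hc : 0 < c := hc'.trans hcc
  have hMc : 1 ≤ (M : ℝ) ^ c := Real.one_le_rpow hM1 hc.le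
  have h2M : (2 * (M : ℝ)) ^ c = 2 ^ c * (M : ℝ) ^ c := Real.mul_rpow (by norm_num) hM0.le
  have h2c : (0 : ℝ) < 2 ^ c := Real.rpow_pos_of_pos (by norm_num) _
  set R := T * (2 * (M : ℝ)) ^ c with hR
  have hR0 : 0 ≤ R := by positivity
  have hR1 : 2 * T * (2 * (M : ℝ)) ^ c = 2 * R := by rw [hR]; ring
  have hR2 : 4 * T * (2 * (M : ℝ)) ^ c = 4 * R := by rw [hR]; ring
  have hR3 : (4 * T * 2 ^ c + 3) * (M : ℝ) ^ c = 4 * R + 3 * (M : ℝ) ^ c := by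
    rw [hR, h2M]; ring
  rw [hR1, hR2, hR3]
  have hf1 : g m - 2 * R - 1 < (⌊g m - 2 * R⌋₊ : ℝ) := by
    have := Nat.lt_floor_add_one (g m - 2 * R)
    linarith
  have hf2 : (⌊g m - 2 * R⌋₊ : ℝ) ≤ max (g m - 2 * R) 0 := by
    rcases le_total 0 (g m - 2 * R) with h | h
    · exact (Nat.floor_le h).trans (le_max_left _ _)
    · rw [Nat.floor_of_nonpos h]
      simp
  have hf3 : (⌊4 * R⌋₊ : ℝ) ≤ 4 * R := Nat.floor_le (by positivity)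
  have hf4 : 4 * R < (⌊4 * R⌋₊ : ℝ) + 1 := Nat.lt_floor_add_one _
  push_cast
  have hmc : (m : ℝ) ^ c ≤ (2 * (M : ℝ)) ^ c :=
    Real.rpow_le_rpow (by linarith) (by exact_mod_cast hm2.le) hc.le
  have hmc' : (m : ℝ) ^ c' ≤ (m : ℝ) ^ c := Real.rpow_le_rpow_of_exponent_le hm1 hcc.le
  have hmc0 : (0 : ℝ) < (m : ℝ) ^ c' := Real.rpow_pos_of_pos (by linarith) _
  have hbd : ∀ ω : ℝ × ℝ, |ω.1| ≤ T → |ω.2| ≤ T →
      |ω.1 * (m : ℝ) ^ c + ω.2 * (m : ℝ) ^ c'| ≤ 2 * R := by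
    intro ω h1 h2
    have h3 : |ω.1 * (m : ℝ) ^ c| ≤ R := by
      rw [abs_mul, abs_of_nonneg (by positivity : (0 : ℝ) ≤ (m : ℝ) ^ c)]
      exact mul_le_mul h1 hmc (by positivity) hT
    have h4 : |ω.2 * (m : ℝ) ^ c'| ≤ R := by
      rw [abs_mul, abs_of_pos hmc0]
      exact mul_le_mul h2 (hmc'.trans hmc) hmc0.le hT
    have := abs_add_le (ω.1 * (m : ℝ) ^ c) (ω.2 * (m : ℝ) ^ c')
    linarith
  refine ⟨by linarith, ?_, ?_⟩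
  · rcases le_total 0 (g m - 2 * R) with h | h
    · rw [max_eq_left h] at hf2
      linarith
    · rw [max_eq_right h] at hf2
      linarith
  · intro ω h1 h2
    have h3 := abs_le.1 (hbd ω h1 h2)
    have h4 := hpos ω h1 h2
    have h5 : xx c c' g m ω = (ω.1 * (m : ℝ) ^ c + ω.2 * (m : ℝ) ^ c') + g m := rfl
    constructor
    · refine hf2.trans (max_le ?_ h4)
      rw [h5]
      linarith [h3.1]
    · rw [h5]
      linarith [h3.2]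

theorem sum_sqrt_le (s : Finset ℕ) (f : ℕ → ℝ) (hf : ∀ i ∈ s, 0 ≤ f i) :
    ∑ i ∈ s, Real.sqrt (f i) ≤ Real.sqrt (s.card * ∑ i ∈ s, f i) := by
  apply Real.le_sqrt_of_sq_le
  have h := sq_sum_le_card_mul_sum_sq (s := s) (f := fun i => Real.sqrt (f i))
  refine h.trans (le_of_eq ?_)
  congr 1
  exact sum_congr rfl fun i hi => Real.sq_sqrt (hf i hi)

theorem log_bd (e K x ℓ : ℝ) (M : ℕ) (hM : 1 ≤ M) (hK : 1 ≤ K)
    (hℓ : ℓ = Real.log M) (hℓ1 : 1 ≤ ℓ) (hx : x = K * (M : ℝ) ^ e) :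
    Real.log x + 1 ≤ (1 + Real.log K + e) * ℓ := by
  have hM0 : (0 : ℝ) < M := by exact_mod_cast hM
  have hK0 : 0 < K := by linarith
  rw [hx, Real.log_mul hK0.ne' (Real.rpow_pos_of_pos hM0 _).ne', Real.log_rpow hM0, ← hℓ]
  have := Real.log_nonneg hK
  nlinarith

theorem pair_avg (hVAR : S_VAR) (c c' e : ℝ) (hc' : 0 < c') (hcc : c' < c) (hce : c < e) (hec : e ≤ c + 1)
    (he : e / 3 < c') (g : ℕ → ℝ) (hg : Spread e g) (a b : ℝ)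
    (η : ℝ) (hη : 0 ≤ η) (hη2 : η < c' - e / 3) (D : ℕ) (A : ℕ) :
    ∃ C : ℝ, ∃ n₀ : ℕ, ∀ n M : ℕ, n₀ ≤ n → n ≤ 2 * M → M ≤ n ^ D → ∀ S : Finset ℕ,
      (∀ m ∈ S, M ≤ m ∧ m < 2 * M ∧ n < m ∧ (m : ℝ) ^ (1 - η) ≤ (m : ℝ) - n) →
      ∑ m ∈ S, |(∫ ω in B a b, th ⌊xx c c' g n ω⌋₊ * th ⌊xx c c' g m ω⌋₊) - ∫ ω in B a b, th ⌊xx c c' g n ω⌋₊| ≤
        C * M / (Real.log M) ^ A := by
  have he0 : 0 < e := by linarith
  have hc0 : 0 < c := by linarith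
  obtain ⟨T, hTdef⟩ : ∃ T : ℝ, T = |a| + |b| + 2 := ⟨_, rfl⟩
  have ha0 := abs_nonneg a
  have hb0 := abs_nonneg b
  have hT : 0 ≤ T := by linarith
  obtain ⟨δ, M₀, hδ, hM₀, hsize⟩ := size_e c c' e hc' hcc hce g hg T
  obtain ⟨κ, hκ, hratio⟩ := ratio_lower (c - c') η (by linarith) hη
  obtain ⟨θ, hθdef⟩ : ∃ θ : ℝ, θ = ((c' - η) / e + 1 / 3) / 2 := ⟨_, rfl⟩
  have hq : 1 / 3 < (c' - η) / e := by
    rw [lt_div_iff₀ he0]
    linarith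
  have hθ : 1 / 3 < θ := by rw [hθdef]; linarith
  have hθe : θ * e < c' - η := by
    have h1 : θ < (c' - η) / e := by rw [hθdef]; linarith
    exact (lt_div_iff₀ he0).1 h1
  have hθe0 : 0 ≤ θ * e := by
    have : 0 < θ := by linarith
    positivity
  obtain ⟨Cv, hCv⟩ := window_var hVAR c e θ (by linarith) hce hec hθ g hg (4 * T * 2 ^ c + 3)
    (2 * A + 4)
  obtain ⟨N, hN⟩ := eventually_atTop.1 (hCv.and (ev_W κ (θ * e) (c' - η) e hκ hθe0 hθe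
    (by linarith) (A + 3)))
  obtain ⟨N2, hN2⟩ := eventually_atTop.1 hsize
  have h2e : (0 : ℝ) < 2 ^ e := Real.rpow_pos_of_pos (by norm_num) _
  have h2c : (0 : ℝ) < 2 ^ c := Real.rpow_pos_of_pos (by norm_num) _
  obtain ⟨K₂, hK₂⟩ : ∃ K₂ : ℝ, K₂ = M₀ * 2 ^ e + (4 * T * 2 ^ c + 3) := ⟨_, rfl⟩
  have hK1 : 1 ≤ K₂ := by
    rw [hK₂]
    have : 0 < M₀ * 2 ^ e := by positivity
    have : 0 ≤ 4 * T * 2 ^ c := by positivity
    linarith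
  obtain ⟨C₁, hC₁⟩ : ∃ C₁ : ℝ, C₁ = 1 + Real.log K₂ + e := ⟨_, rfl⟩
  have hC₁0 : 0 < C₁ := by
    rw [hC₁]
    have := Real.log_nonneg hK1
    linarith
  refine ⟨4 * C₁ ^ 2 + C₁ * Real.sqrt |Cv|, 2 * (N + N2) + 1, ?_⟩
  intro n M hn hnM _ S hS
  have hM1 : 1 ≤ M := by omega
  have hMN : N ≤ M := by omega
  have hMN2 : N2 ≤ M := by omega
  have hn1 : 1 ≤ n := by omega
  have hM0 : (0 : ℝ) < M := by exact_mod_cast hM1
  have hM1' : (1 : ℝ) ≤ M := by exact_mod_cast hM1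
  obtain ⟨hv, hlog, hWp, hWe⟩ := hN M hMN
  obtain ⟨ℓ, hℓ⟩ : ∃ ℓ : ℝ, ℓ = Real.log M := ⟨_, rfl⟩
  rw [← hℓ] at hlog hWp hv ⊢
  have hℓ0 : 0 < ℓ := by linarith
  obtain ⟨ρ, hρ⟩ : ∃ ρ : ℝ, ρ = 1 / ℓ ^ (A + 3) := ⟨_, rfl⟩
  have hρ0 : 0 < ρ := by rw [hρ]; positivity
  have hρ1 : ρ ≤ 1 := by
    rw [hρ, div_le_one (by positivity)]
    exact one_le_pow₀ hlog
  obtain ⟨y, hy⟩ : ∃ y : ℝ, y = κ * (M : ℝ) ^ (c' - η) / ℓ ^ (A + 3) := ⟨_, rfl⟩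
  have hyρ : y = κ * (M : ℝ) ^ (c' - η) * ρ := by rw [hy, hρ]; ring
  rw [← hy] at hWp
  have hMθ : (1 : ℝ) ≤ (M : ℝ) ^ (θ * e) := Real.one_le_rpow hM1' hθe0
  have hy0 : 0 ≤ y := by linarith
  obtain ⟨W, hWdef⟩ : ∃ W : ℕ, W = ⌊y⌋₊ := ⟨_, rfl⟩
  have hWle : (W : ℝ) ≤ y := by rw [hWdef]; exact Nat.floor_le hy0
  have hWge : (M : ℝ) ^ (θ * e) ≤ W := by
    have := Nat.lt_floor_add_one y
    rw [← hWdef] at this
    linarith
  have hW1r : (1 : ℝ) ≤ W := hMθ.trans hWge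
  have hW1 : 1 ≤ W := by exact_mod_cast hW1r
  have hW0 : (0 : ℝ) < W := by linarith
  have hyM : y ≤ κ * (M : ℝ) ^ (c' - η) := by
    rw [hyρ]
    exact mul_le_of_le_one_right (by positivity) hρ1
  have hWMe : (W : ℝ) ≤ (M : ℝ) ^ e := hWle.trans (hyM.trans hWe)
  -- sizes
  have hfact : ∀ m, M ≤ m → m < 2 * M → 0 ≤ g m ∧ g m ≤ M₀ * (m : ℝ) ^ e ∧
      ∀ ω : ℝ × ℝ, |ω.1| ≤ T → |ω.2| ≤ T → 0 ≤ xx c c' g m ω := by
    intro m h1 h2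
    obtain ⟨h3, h4⟩ := hN2 m (hMN2.trans h1)
    have h5 : 0 ≤ δ * (m : ℝ) ^ e := by positivity
    refine ⟨h5.trans h3, ?_, fun ω h6 h7 => h5.trans (h4 ω h6 h7).1⟩
    have h6 := (h4 (0, 0) (by simpa using hT) (by simpa using hT)).2
    simpa [xx] using h6
  have hYZ := fun m (h1 : M ≤ m) (h2 : m < 2 * M) => YZ c c' hc' hcc g T hT m M hM1 h1 h2
    (hfact m h1 h2).1 (hfact m h1 h2).2.2
  have hvar := hv W hWge hWMe (fun m => ⌊g m - 2 * T * (2 * (M : ℝ)) ^ c⌋₊)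
    (fun _ => ⌊4 * T * (2 * (M : ℝ)) ^ c⌋₊ + 3) (fun m h1 h2 => ⟨(hYZ m h1 h2).1, (hYZ m h1 h2).2.1⟩)
  obtain ⟨V, hV⟩ : ∃ V : ℕ → ℝ, V = fun m => ∑ u ∈ Ico ⌊g m - 2 * T * (2 * (M : ℝ)) ^ c⌋₊
    (⌊g m - 2 * T * (2 * (M : ℝ)) ^ c⌋₊ + (⌊4 * T * (2 * (M : ℝ)) ^ c⌋₊ + 3)),
      (∑ s ∈ Icc 1 W, (th (u + s) - 1)) ^ 2 := ⟨_, rfl⟩
  have hvar' : ∑ m ∈ Ico M (2 * M), V m / (M : ℝ) ^ c ≤ Cv * M * (W : ℝ) ^ 2 / ℓ ^ (2 * A + 4) := by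
    rw [hV]
    exact hvar
  have hV0 : ∀ m, 0 ≤ V m := fun m => by
    rw [hV]
    exact sum_nonneg fun u _ => sq_nonneg _
  obtain ⟨L, hL⟩ : ∃ L : ℝ, L = C₁ * ℓ := ⟨_, rfl⟩
  have hL0 : 0 < L := by rw [hL]; positivity
  have hMeK : 1 ≤ K₂ * (M : ℝ) ^ e := by
    have : (1 : ℝ) ≤ (M : ℝ) ^ e := Real.one_le_rpow hM1' he0.le
    nlinarith
  have hlogL : Real.log (K₂ * (M : ℝ) ^ e) + 1 ≤ L := by
    rw [hL, hC₁]
    exact log_bd e K₂ _ ℓ M hM1 hK1 hℓ hlog rfl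
  have h2Me : (2 * (M : ℝ)) ^ e = 2 ^ e * (M : ℝ) ^ e := Real.mul_rpow (by norm_num) hM0.le
  have hMce : (M : ℝ) ^ c ≤ (M : ℝ) ^ e := Real.rpow_le_rpow_of_exponent_le hM1' hce.le
  have hMe0 : (0 : ℝ) < (M : ℝ) ^ e := Real.rpow_pos_of_pos hM0 _
  have hper : ∀ m ∈ S, |(∫ ω in B a b, th ⌊xx c c' g n ω⌋₊ * th ⌊xx c c' g m ω⌋₊) -
      ∫ ω in B a b, th ⌊xx c c' g n ω⌋₊| ≤
      4 * L * L * ρ + L * Real.sqrt (V m / (M : ℝ) ^ c) / W := by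
    intro m hm
    obtain ⟨hMm, hm2, hnm, hgap⟩ := hS m hm
    have hm0 : (0 : ℝ) < m := by exact_mod_cast (by omega : 0 < m)
    obtain ⟨h, hh1, hh0, hb1, hb2⟩ := exists_dir c c' η κ hcc (by linarith) hκ n m M hn1 hnm hM1 hMm
      (hratio n m hn1 hnm hgap)
    have hWb : ∀ t : ℝ, 0 ≤ t → t * (κ * (M : ℝ) ^ (c' - η)) ≤ 1 → W * t ≤ ρ := by
      intro t ht h1
      calc W * t ≤ y * t := mul_le_mul_of_nonneg_right hWle ht
        _ = (t * (κ * (M : ℝ) ^ (c' - η))) * ρ := by rw [hyρ]; ring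
        _ ≤ 1 * ρ := mul_le_mul_of_nonneg_right h1 hρ0.le
        _ = ρ := one_mul _
    have hLu : ∀ u, u < ⌊g m - 2 * T * (2 * (M : ℝ)) ^ c⌋₊ + (⌊4 * T * (2 * (M : ℝ)) ^ c⌋₊ + 3) →
        |th u - 1| ≤ L := by
      intro u hu
      have h1 : (u : ℝ) ≤ K₂ * (M : ℝ) ^ e := by
        have h2 : (u : ℝ) ≤ (⌊g m - 2 * T * (2 * (M : ℝ)) ^ c⌋₊ : ℝ) +
            ((⌊4 * T * (2 * (M : ℝ)) ^ c⌋₊ + 3 : ℕ) : ℝ) := by exact_mod_cast hu.le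
        have h3 := (hYZ m hMm hm2).2.1
        have h4 := (hfact m hMm hm2).2.1
        have h5 : (m : ℝ) ^ e ≤ 2 ^ e * (M : ℝ) ^ e := by
          rw [← h2Me]
          exact Real.rpow_le_rpow hm0.le (by exact_mod_cast hm2.le) he0.le
        have h6 : M₀ * (m : ℝ) ^ e ≤ M₀ * (2 ^ e * (M : ℝ) ^ e) :=
          mul_le_mul_of_nonneg_left h5 hM₀.le
        have h7 : (4 * T * 2 ^ c + 3) * (M : ℝ) ^ c ≤ (4 * T * 2 ^ c + 3) * (M : ℝ) ^ e :=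
          mul_le_mul_of_nonneg_left hMce (by positivity)
        rw [hK₂]
        linarith
      have h2 := th_le u _ hMeK h1
      have h3 := th_nonneg u
      rw [abs_le]
      constructor
      · have := Real.log_nonneg hMeK
        linarith
      · linarith
    have hrect : ∀ ω : ℝ × ℝ, a - ρ ≤ ω.1 → ω.1 ≤ a + 1 + ρ → b - ρ ≤ ω.2 → ω.2 ≤ b + 1 + ρ →
        |ω.1| ≤ T ∧ |ω.2| ≤ T := by
      intro ω h1 h2 h3 h4
      have h5 := neg_abs_le a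
      have h6 := le_abs_self a
      have h7 := neg_abs_le b
      have h8 := le_abs_self b
      rw [hTdef]
      constructor
      · rw [abs_le]; constructor <;> linarith
      · rw [abs_le]; constructor <;> linarith
    have key := per_m c c' g a b n m (by omega) h hh1 hh0 ρ hρ0.le
      ⌊g m - 2 * T * (2 * (M : ℝ)) ^ c⌋₊ (⌊4 * T * (2 * (M : ℝ)) ^ c⌋₊ + 3) W hW1
      (hWb _ (abs_nonneg _) hb1) (hWb _ (abs_nonneg _) hb2) L hLu ?_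
    · refine key.trans ?_
      have hVm : (∑ u ∈ Ico ⌊g m - 2 * T * (2 * (M : ℝ)) ^ c⌋₊
          (⌊g m - 2 * T * (2 * (M : ℝ)) ^ c⌋₊ + (⌊4 * T * (2 * (M : ℝ)) ^ c⌋₊ + 3)),
            (∑ s ∈ Icc 1 W, (th (u + s) - 1)) ^ 2) = V m := by rw [hV]
      rw [hVm]
      have h1 : V m / (m : ℝ) ^ c ≤ V m / (M : ℝ) ^ c := by
        apply div_le_div_of_nonneg_left (hV0 m) (Real.rpow_pos_of_pos hM0 _)
        exact Real.rpow_le_rpow hM0.le (by exact_mod_cast hMm) hc0.le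
      have h2 : Real.sqrt (V m / (m : ℝ) ^ c) ≤ Real.sqrt (V m / (M : ℝ) ^ c) :=
        Real.sqrt_le_sqrt h1
      gcongr
    · intro ω h1 h2 h3 h4
      obtain ⟨h5, h6⟩ := hrect ω h1 h2 h3 h4
      obtain ⟨h7, h8⟩ := (hYZ m hMm hm2).2.2 ω h5 h6
      refine ⟨h7, h8, ?_⟩
      rw [abs_of_nonneg (th_nonneg _)]
      obtain ⟨_, h9⟩ := hN2 n (by omega)
      obtain ⟨h10, h11⟩ := h9 ω h5 h6
      have h12 : 0 ≤ xx c c' g n ω := le_trans (by positivity) h10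
      have h13 : (⌊xx c c' g n ω⌋₊ : ℝ) ≤ K₂ * (M : ℝ) ^ e := by
        refine (Nat.floor_le h12).trans (h11.trans ?_)
        have h14 : (n : ℝ) ^ e ≤ 2 ^ e * (M : ℝ) ^ e := by
          rw [← h2Me]
          exact Real.rpow_le_rpow (Nat.cast_nonneg n) (by exact_mod_cast hnM) he0.le
        have h15 : M₀ * (n : ℝ) ^ e ≤ M₀ * (2 ^ e * (M : ℝ) ^ e) :=
          mul_le_mul_of_nonneg_left h14 hM₀.le
        have h16 : 0 ≤ (4 * T * 2 ^ c + 3) * (M : ℝ) ^ e := by positivity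
        rw [hK₂]
        linarith
      have := th_le _ _ hMeK h13
      linarith
  have hSsub : S ⊆ Ico M (2 * M) := by
    intro m hm
    obtain ⟨h1, h2, _⟩ := hS m hm
    exact mem_Ico.2 ⟨h1, h2⟩
  have hcard : (S.card : ℝ) ≤ M := by
    have := card_le_card hSsub
    rw [Nat.card_Ico] at this
    exact_mod_cast (by omega : S.card ≤ M)
  have hVM0 : ∀ m, 0 ≤ V m / (M : ℝ) ^ c := fun m => div_nonneg (hV0 m) (Real.rpow_nonneg hM0.le _)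
  have hsum : ∑ m ∈ S, Real.sqrt (V m / (M : ℝ) ^ c) ≤
      Real.sqrt |Cv| * (M * W / ℓ ^ (A + 2)) := by
    refine (sum_sqrt_le S _ fun m _ => hVM0 m).trans ?_
    have h1 : ∑ m ∈ S, V m / (M : ℝ) ^ c ≤ |Cv| * M * (W : ℝ) ^ 2 / ℓ ^ (2 * A + 4) := by
      refine (sum_le_sum_of_subset_of_nonneg hSsub fun m _ _ => hVM0 m).trans (hvar'.trans ?_)
      have := le_abs_self Cv
      gcongr
    have h2 : (S.card : ℝ) * ∑ m ∈ S, V m / (M : ℝ) ^ c ≤ |Cv| * (M * W / ℓ ^ (A + 2)) ^ 2 := by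
      calc (S.card : ℝ) * ∑ m ∈ S, V m / (M : ℝ) ^ c
          ≤ M * (|Cv| * M * (W : ℝ) ^ 2 / ℓ ^ (2 * A + 4)) :=
            mul_le_mul hcard h1 (sum_nonneg fun m _ => hVM0 m) hM0.le
        _ = |Cv| * (M * W / ℓ ^ (A + 2)) ^ 2 := by
            have h3 : ℓ ^ (2 * A + 4) = (ℓ ^ (A + 2)) ^ 2 := by rw [← pow_mul]; congr 1; ring
            rw [h3]
            field_simp
    refine (Real.sqrt_le_sqrt h2).trans (le_of_eq ?_)
    rw [Real.sqrt_mul (abs_nonneg _), Real.sqrt_sq (by positivity)]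
  have hmono1 : M / ℓ ^ (A + 1) ≤ M / ℓ ^ A := by
    apply div_le_div_of_nonneg_left hM0.le (by positivity)
    exact pow_le_pow_right₀ hlog (by omega)
  calc ∑ m ∈ S, |(∫ ω in B a b, th ⌊xx c c' g n ω⌋₊ * th ⌊xx c c' g m ω⌋₊) -
      ∫ ω in B a b, th ⌊xx c c' g n ω⌋₊|
      ≤ ∑ m ∈ S, (4 * L * L * ρ + L * Real.sqrt (V m / (M : ℝ) ^ c) / W) := sum_le_sum hper
    _ = S.card * (4 * L * L * ρ) + L / W * ∑ m ∈ S, Real.sqrt (V m / (M : ℝ) ^ c) := by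
        rw [sum_add_distrib, sum_const, nsmul_eq_mul, mul_sum]
        congr 1
        exact sum_congr rfl fun m _ => by ring
    _ ≤ M * (4 * L * L * ρ) + L / W * (Real.sqrt |Cv| * (M * W / ℓ ^ (A + 2))) := by
        gcongr
    _ = 4 * C₁ ^ 2 * (M / ℓ ^ (A + 1)) + C₁ * Real.sqrt |Cv| * (M / ℓ ^ (A + 1)) := by
        rw [hL, hρ]
        field_simp
        ring
    _ ≤ 4 * C₁ ^ 2 * (M / ℓ ^ A) + C₁ * Real.sqrt |Cv| * (M / ℓ ^ A) := by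
        gcongr
    _ = (4 * C₁ ^ 2 + C₁ * Real.sqrt |Cv|) * M / ℓ ^ A := by ring

end V6

end Pool.Agent.helper616_RP
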