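import Pool.Agent.helper616_RP.Defs2

/-!
# Project RP (helper616), part V: a bound for one factor
-/

set_option autoImplicit false
set_option maxHeartbeats 4000000

open Finset MeasureTheory Filter Topology

namespace Pool.Agent.helper616_RP

namespace V7


theorem th_floor_le {x M : ℝ} (hM : 1 ≤ M) (hx : x ≤ M) : th ⌊x⌋₊ ≤ Real.log M := by
  unfold th
  split_ifs with h
  · have h1 : 0 < ⌊x⌋₊ := h.pos
    have h0 : 0 ≤ x := by
      by_contra hcon
      push Not at hcon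
      rw [Nat.floor_of_nonpos hcon.le] at h1
      exact absurd h1 (lt_irrefl 0)
    have h2 : (⌊x⌋₊ : ℝ) ≤ x := Nat.floor_le h0
    apply Real.log_le_log (by exact_mod_cast h1)
    linarith
  · exact Real.log_nonneg hM

theorem bound1e (c c' e : ℝ) (hc' : 0 < c') (hcc : c' < c) (hce : c < e) (g : ℕ → ℝ)
    (hg : ∃ K : ℝ, ∀ᶠ n : ℕ in atTop, g n ≤ K * (n : ℝ) ^ e) (a b : ℝ) :
    ∃ C : ℝ, ∀ n : ℕ, ∀ ω ∈ B a b, th ⌊xx c c' g n ω⌋₊ ≤ C * Real.log (n + 2) := by
  obtain ⟨K, hK⟩ := hg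
  obtain ⟨N0, hN0⟩ := eventually_atTop.1 hK
  have he0 : 0 < e := by linarith
  set D : ℝ := (|a| + 1) + (|b| + 1) + |K| with hD
  set T : ℝ := ∑ j ∈ range N0, |g j| with hT
  have hT0 : 0 ≤ T := sum_nonneg fun j _ => abs_nonneg _
  have hD1 : 1 ≤ D := by
    have := abs_nonneg a
    have := abs_nonneg b
    have := abs_nonneg K
    rw [hD]; linarith
  have hle : ∀ n : ℕ, ∀ ω ∈ B a b, xx c c' g n ω ≤ (D + T) * ((n : ℝ) + 2) ^ e := by
    intro n ω hω
    have hn0 : (0 : ℝ) ≤ n := Nat.cast_nonneg n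
    have hω1 : ω.1 ≤ |a| + 1 := by
      have h1 : ω.1 ≤ a + 1 := hω.1.2
      have h2 := le_abs_self a
      linarith
    have hω2 : ω.2 ≤ |b| + 1 := by
      have h1 : ω.2 ≤ b + 1 := hω.2.2
      have h2 := le_abs_self b
      linarith
    have hp : (n : ℝ) ^ e ≤ ((n : ℝ) + 2) ^ e := Real.rpow_le_rpow hn0 (by linarith) he0.le
    have hone : (1 : ℝ) ≤ ((n : ℝ) + 2) ^ e := Real.one_le_rpow (by linarith) he0.le
    have hpc : ∀ u : ℝ, 0 ≤ u → u ≤ e → (n : ℝ) ^ u ≤ ((n : ℝ) + 2) ^ e := by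
      intro u hu0 hu
      calc (n : ℝ) ^ u ≤ ((n : ℝ) + 2) ^ u := Real.rpow_le_rpow hn0 (by linarith) hu0
        _ ≤ ((n : ℝ) + 2) ^ e := Real.rpow_le_rpow_of_exponent_le (by linarith) hu
    have h1 : ω.1 * (n : ℝ) ^ c ≤ (|a| + 1) * ((n : ℝ) + 2) ^ e := by
      have := Real.rpow_nonneg hn0 c
      calc ω.1 * (n : ℝ) ^ c ≤ (|a| + 1) * (n : ℝ) ^ c := mul_le_mul_of_nonneg_right hω1 this
        _ ≤ _ := mul_le_mul_of_nonneg_left (hpc c (by linarith) hce.le) (by positivity)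
    have h2 : ω.2 * (n : ℝ) ^ c' ≤ (|b| + 1) * ((n : ℝ) + 2) ^ e := by
      have := Real.rpow_nonneg hn0 c'
      calc ω.2 * (n : ℝ) ^ c' ≤ (|b| + 1) * (n : ℝ) ^ c' := mul_le_mul_of_nonneg_right hω2 this
        _ ≤ _ := mul_le_mul_of_nonneg_left (hpc c' hc'.le (by linarith)) (by positivity)
    have h3 : g n ≤ (|K| + T) * ((n : ℝ) + 2) ^ e := by
      rcases le_or_gt N0 n with h | h
      · calc g n ≤ K * (n : ℝ) ^ e := hN0 n h
          _ ≤ |K| * (n : ℝ) ^ e :=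
              mul_le_mul_of_nonneg_right (le_abs_self K) (Real.rpow_nonneg hn0 e)
          _ ≤ |K| * ((n : ℝ) + 2) ^ e := mul_le_mul_of_nonneg_left hp (abs_nonneg _)
          _ ≤ (|K| + T) * ((n : ℝ) + 2) ^ e :=
              mul_le_mul_of_nonneg_right (by linarith) (by linarith)
      · have h4 : |g n| ≤ T := single_le_sum (f := fun j => |g j|)
          (fun j _ => abs_nonneg _) (mem_range.2 h)
        calc g n ≤ |g n| := le_abs_self _
          _ ≤ T * 1 := by rw [mul_one]; exact h4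
          _ ≤ (|K| + T) * ((n : ℝ) + 2) ^ e :=
              mul_le_mul (by linarith [abs_nonneg K]) hone zero_le_one
                (by have := abs_nonneg K; linarith)
    unfold xx
    calc ω.1 * (n : ℝ) ^ c + ω.2 * (n : ℝ) ^ c' + g n ≤
        (|a| + 1) * ((n : ℝ) + 2) ^ e + (|b| + 1) * ((n : ℝ) + 2) ^ e +
          (|K| + T) * ((n : ℝ) + 2) ^ e := by linarith
      _ = (D + T) * ((n : ℝ) + 2) ^ e := by rw [hD]; ring
  have hlog2 : 0 < Real.log 2 := Real.log_pos (by norm_num)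
  refine ⟨Real.log (D + T) / Real.log 2 + e, fun n ω hω => ?_⟩
  have hn0 : (0 : ℝ) ≤ n := Nat.cast_nonneg n
  have hone : (1 : ℝ) ≤ ((n : ℝ) + 2) ^ e := Real.one_le_rpow (by linarith) he0.le
  have hDT : 1 ≤ D + T := by linarith
  have hM : 1 ≤ (D + T) * ((n : ℝ) + 2) ^ e := by
    calc (1 : ℝ) = 1 * 1 := by ring
      _ ≤ _ := mul_le_mul hDT hone zero_le_one (by linarith)
  refine (th_floor_le hM (hle n ω hω)).trans ?_
  rw [Real.log_mul (by linarith) (by linarith), Real.log_rpow (by linarith), add_mul]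
  have hl : Real.log 2 ≤ Real.log ((n : ℝ) + 2) := Real.log_le_log (by norm_num) (by linarith)
  have hl2 : 0 ≤ Real.log (D + T) := Real.log_nonneg hDT
  have h5 : Real.log (D + T) ≤ Real.log (D + T) / Real.log 2 * Real.log ((n : ℝ) + 2) := by
    rw [div_mul_eq_mul_div, le_div_iff₀ hlog2]
    exact mul_le_mul_of_nonneg_left hl hl2
  linarith

end V7

end Pool.Agent.helper616_RP
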