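import Pool.Agent.helper616_RP.Defs2

/-!
# Project RP (helper616), part V: from dyadic blocks to the whole range
-/

set_option autoImplicit false
set_option maxHeartbeats 4000000

open Finset MeasureTheory Filter Topology

namespace Pool.Agent.helper616_RP

namespace V8


theorem dyad {F : ℕ → ℝ} (hF : ∀ n, 0 ≤ F n) {K : ℝ} (N0 : ℕ) (hN0 : 1 ≤ N0)
    (h : ∀ M : ℕ, N0 ≤ M → ∑ m ∈ Ico M (2 * M), F m ≤ K * M) :
    ∀ d N R : ℕ, R - N ≤ d → N0 ≤ N → N ≤ R → ∑ m ∈ Ico N R, F m ≤ K * (2 * R - N) := by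
  intro d
  induction d with
  | zero =>
    intro N R hd hN hR
    have h1 : N = R := by omega
    subst h1
    have h2 := h N hN
    have h3 : 0 ≤ ∑ m ∈ Ico N (2 * N), F m := Finset.sum_nonneg fun m _ => hF m
    simp only [Finset.Ico_self, Finset.sum_empty]
    have h4 : K * (2 * (N : ℝ) - N) = K * N := by ring
    rw [h4]
    linarith
  | succ d ih =>
    intro N R hd hN hR
    have h2 := h N hN
    by_cases hc : R ≤ 2 * N
    · have h3 : ∑ m ∈ Ico N R, F m ≤ ∑ m ∈ Ico N (2 * N), F m :=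
        Finset.sum_le_sum_of_subset_of_nonneg (Finset.Ico_subset_Ico_right hc)
          (fun m _ _ => hF m)
      have h4 : 0 ≤ ∑ m ∈ Ico N (2 * N), F m := Finset.sum_nonneg fun m _ => hF m
      have h5 : (N : ℝ) ≤ R := by exact_mod_cast hR
      have h6 : (1 : ℝ) ≤ N := by exact_mod_cast (hN0.trans hN)
      have h7 : 0 ≤ K := by
        by_contra hneg
        push Not at hneg
        nlinarith
      nlinarith
    · push Not at hc
      have h3 := ih (2 * N) R (by omega) (by omega) hc.le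
      rw [← Finset.sum_Ico_consecutive F (by omega : N ≤ 2 * N) hc.le]
      push_cast at h3
      nlinarith

theorem gen {F : ℕ → ℝ} (hF : ∀ n, 0 ≤ F n) (A : ℕ)
    (h : ∃ C : ℝ, ∀ᶠ M : ℕ in atTop, ∑ m ∈ Ico M (2 * M), F m ≤ C * M / (Real.log M) ^ A) :
    ∃ C : ℝ, ∀ R : ℕ, 2 ≤ R → ∑ r ∈ Ico (Nat.sqrt R) R, F r ≤ C * R / (Real.log R) ^ A := by
  obtain ⟨C0, hC0⟩ := h
  obtain ⟨M0, hM0⟩ := eventually_atTop.1 hC0
  obtain ⟨C, hC⟩ : ∃ C : ℝ, C = max C0 0 := ⟨_, rfl⟩
  have hCn : 0 ≤ C := by rw [hC]; exact le_max_right _ _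
  have hCC : C0 ≤ C := by rw [hC]; exact le_max_left _ _
  obtain ⟨N1, hN1⟩ : ∃ N1 : ℕ, N1 = max M0 3 := ⟨_, rfl⟩
  have hN1a : M0 ≤ N1 := by rw [hN1]; exact le_max_left _ _
  have hN1b : 3 ≤ N1 := by rw [hN1]; exact le_max_right _ _
  obtain ⟨T, hT⟩ : ∃ T : ℝ, T = ∑ m ∈ range (N1 * N1), F m := ⟨_, rfl⟩
  have hT0 : 0 ≤ T := by rw [hT]; exact Finset.sum_nonneg fun m _ => hF m
  have hL0 : 0 ≤ Real.log (N1 * N1 : ℕ) := Real.log_natCast_nonneg _
  refine ⟨2 * C * 3 ^ A + T * Real.log (N1 * N1 : ℕ) ^ A / 2, fun R hR => ?_⟩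
  have hR' : (2 : ℝ) ≤ R := by exact_mod_cast hR
  have hlR : 0 < Real.log R := Real.log_pos (by linarith)
  by_cases hb : N1 * N1 ≤ R
  · have hs : N1 ≤ Nat.sqrt R := Nat.le_sqrt.2 hb
    obtain ⟨N, hN⟩ : ∃ N : ℕ, N = Nat.sqrt R := ⟨_, rfl⟩
    rw [← hN] at hs ⊢
    have hN3 : (3 : ℝ) ≤ N := by exact_mod_cast (hN1b.trans hs)
    have hlN : 0 < Real.log N := Real.log_pos (by linarith)
    have hd := dyad hF (K := C / Real.log N ^ A) N (by omega) (fun M hM => ?_) (R - N) N R le_rfl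
      le_rfl (by rw [hN]; exact Nat.sqrt_le_self R)
    · refine hd.trans ?_
      have h1 : Real.log R ≤ 3 * Real.log N := by
        have h2 : (R : ℝ) ≤ (N : ℝ) ^ 3 := by
          have h3 : R < (N + 1) * (N + 1) := by rw [hN]; exact Nat.lt_succ_sqrt R
          have h4 : (R : ℝ) < ((N : ℝ) + 1) * (N + 1) := by exact_mod_cast h3
          nlinarith
        have h5 := Real.log_le_log (by linarith) h2
        rw [Real.log_pow] at h5
        exact_mod_cast h5
      have h6 : Real.log R ^ A ≤ 3 ^ A * Real.log N ^ A := by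
        rw [← mul_pow]
        exact pow_le_pow_left₀ hlR.le h1 A
      have h7 : C / Real.log N ^ A * (2 * R - N) ≤ 2 * C * 3 ^ A * R / Real.log R ^ A := by
        rw [div_mul_eq_mul_div, div_le_div_iff₀ (by positivity) (by positivity)]
        have h8 : C * (2 * (R : ℝ) - N) ≤ 2 * C * R := by nlinarith
        calc C * (2 * (R : ℝ) - N) * Real.log R ^ A ≤ (2 * C * R) * (3 ^ A * Real.log N ^ A) :=
              mul_le_mul h8 h6 (by positivity) (by positivity)
          _ = 2 * C * 3 ^ A * R * Real.log N ^ A := by ring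
      refine h7.trans ?_
      refine div_le_div_of_nonneg_right ?_ (by positivity)
      have h9 : 0 ≤ T * Real.log (N1 * N1 : ℕ) ^ A / 2 := by positivity
      nlinarith
    · have h1 := hM0 M (by omega)
      refine h1.trans ?_
      have h2 : (N : ℝ) ≤ M := by exact_mod_cast hM
      have h3 : Real.log N ≤ Real.log M := Real.log_le_log (by linarith) h2
      have h4 : Real.log N ^ A ≤ Real.log M ^ A := pow_le_pow_left₀ hlN.le h3 A
      have h5 : C0 * M / Real.log M ^ A ≤ C * M / Real.log M ^ A :=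
        div_le_div_of_nonneg_right (by nlinarith) (by positivity)
      refine h5.trans ?_
      rw [div_mul_eq_mul_div]
      exact div_le_div_of_nonneg_left (by positivity) (by positivity) h4
  · push Not at hb
    have h1 : ∑ r ∈ Ico (Nat.sqrt R) R, F r ≤ T := by
      rw [hT]
      refine Finset.sum_le_sum_of_subset_of_nonneg ?_ (fun m _ _ => hF m)
      intro m hm
      rw [Finset.mem_Ico] at hm
      rw [Finset.mem_range]
      omega
    have h2 : Real.log R ≤ Real.log (N1 * N1 : ℕ) :=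
      Real.log_le_log (by linarith) (by exact_mod_cast hb.le)
    have h3 : Real.log R ^ A ≤ Real.log (N1 * N1 : ℕ) ^ A := pow_le_pow_left₀ hlR.le h2 A
    refine h1.trans ?_
    rw [le_div_iff₀ (by positivity)]
    have h4 : T * Real.log R ^ A ≤ T * Real.log (N1 * N1 : ℕ) ^ A :=
      mul_le_mul_of_nonneg_left h3 hT0
    have h5 : 0 ≤ T * Real.log (N1 * N1 : ℕ) ^ A := by positivity
    have h6 : 0 ≤ 2 * C * 3 ^ A := by positivity
    nlinarith

theorem first_sum (c c' : ℝ) (g : ℕ → ℝ) (a b : ℝ)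
    (h : ∀ A : ℕ, ∃ C : ℝ, ∀ᶠ M : ℕ in atTop, ∑ m ∈ Ico M (2 * M), |(∫ ω in B a b, th ⌊xx c c' g m ω⌋₊) - 1| ≤
      C * M / (Real.log M) ^ A) (A : ℕ) :
    ∃ C : ℝ, ∀ R : ℕ, 2 ≤ R → ∑ r ∈ Ico (Nat.sqrt R) R, |(∫ ω in B a b, th ⌊xx c c' g r ω⌋₊) - 1| ≤
      C * R / (Real.log R) ^ A :=
  gen (fun _ => abs_nonneg _) A (h A)

end V8

end Pool.Agent.helper616_RP
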