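import Pool.Agent.helper616_RP.Defs2

/-!
# Project RP (helper616), part V: from dyadic blocks to all pairs
-/

set_option autoImplicit false
set_option maxHeartbeats 4000000

open Finset MeasureTheory Filter Topology

namespace Pool.Agent.helper616_RP

namespace V9


theorem second_sum_small (f h : ℕ → ℝ) (hh : ∀ R : ℕ, 2 ≤ R → 0 < h R) (C : ℝ) (R₀ : ℕ)
    (H : ∀ R : ℕ, 2 ≤ R → R₀ ≤ R → f R ≤ C * h R) : ∃ C' : ℝ, ∀ R : ℕ, 2 ≤ R → f R ≤ C' * h R := by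
  refine ⟨|C| + ∑ R ∈ range R₀, |f R| / |h R|, fun R hR => ?_⟩
  have hp := hh R hR
  have hs : 0 ≤ ∑ R ∈ range R₀, |f R| / |h R| :=
    Finset.sum_nonneg fun i _ => div_nonneg (abs_nonneg _) (abs_nonneg _)
  rcases le_or_gt R₀ R with h1 | h1
  · calc f R ≤ C * h R := H R hR h1
      _ ≤ (|C| + ∑ R ∈ range R₀, |f R| / |h R|) * h R := by
        refine mul_le_mul_of_nonneg_right ?_ hp.le
        linarith [le_abs_self C]
  · have h2 : |f R| / |h R| ≤ ∑ R ∈ range R₀, |f R| / |h R| :=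
      Finset.single_le_sum (f := fun R => |f R| / |h R|)
        (fun i _ => div_nonneg (abs_nonneg _) (abs_nonneg _)) (Finset.mem_range.2 h1)
    calc f R ≤ |f R| := le_abs_self _
      _ = |f R| / |h R| * h R := by
        rw [abs_of_pos hp, div_mul_cancel₀ _ hp.ne']
      _ ≤ (|C| + ∑ R ∈ range R₀, |f R| / |h R|) * h R := by
        refine mul_le_mul_of_nonneg_right ?_ hp.le
        linarith [abs_nonneg C]

/-- far pairs -/
def second_sum_Far (η : ℝ) (q r : ℕ) : Prop := q < r ∧ (r : ℝ) ^ (1 - η) ≤ (r : ℝ) - q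

open Classical in
theorem second_sum_near_card {η : ℝ} (hη : 0 < η) (hη1 : η ≤ 1) {R : ℕ} (hR : 1 ≤ R) (I : Finset ℕ)
    (hI : ∀ r ∈ I, r < R) {q : ℕ} (hq : q < R) :
    ((I.filter fun r => ¬ second_sum_Far η q r ∧ ¬ second_sum_Far η r q).card : ℝ) ≤
      3 * (R : ℝ) ^ (1 - η) := by
  set K := ⌊(R : ℝ) ^ (1 - η)⌋₊ with hK
  have hpos : (0 : ℝ) ≤ (R : ℝ) ^ (1 - η) := by positivity
  have h1 : (1 : ℝ) ≤ (R : ℝ) ^ (1 - η) :=
    Real.one_le_rpow (by exact_mod_cast hR) (by linarith)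
  have hmono : ∀ r : ℕ, r < R → (r : ℝ) ^ (1 - η) ≤ (R : ℝ) ^ (1 - η) := fun r hr =>
    Real.rpow_le_rpow (Nat.cast_nonneg _) (by exact_mod_cast hr.le) (by linarith)
  have hsub : (I.filter fun r => ¬ second_sum_Far η q r ∧ ¬ second_sum_Far η r q) ⊆
      Finset.Icc (q - K) (q + K) := by
    intro r hr
    rw [Finset.mem_filter] at hr
    obtain ⟨hrI, hn1, hn2⟩ := hr
    have hrR := hI r hrI
    rw [Finset.mem_Icc]
    rcases lt_trichotomy q r with h | h | h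
    · have h2 : (r : ℝ) - q < (r : ℝ) ^ (1 - η) := by
        by_contra h'
        exact hn1 ⟨h, not_lt.1 h'⟩
      have h3 : ((r - q : ℕ) : ℝ) ≤ (R : ℝ) ^ (1 - η) := by
        rw [Nat.cast_sub h.le]
        linarith [hmono r hrR]
      have h4 : r - q ≤ K := Nat.le_floor h3
      omega
    · omega
    · have h2 : (q : ℝ) - r < (q : ℝ) ^ (1 - η) := by
        by_contra h'
        exact hn2 ⟨h, not_lt.1 h'⟩
      have h3 : ((q - r : ℕ) : ℝ) ≤ (R : ℝ) ^ (1 - η) := by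
        rw [Nat.cast_sub h.le]
        linarith [hmono q hq]
      have h4 : q - r ≤ K := Nat.le_floor h3
      omega
  have hc : (I.filter fun r => ¬ second_sum_Far η q r ∧ ¬ second_sum_Far η r q).card ≤ 2 * K + 1 := by
    refine (Finset.card_le_card hsub).trans ?_
    rw [Nat.card_Icc]
    omega
  have hKle : (K : ℝ) ≤ (R : ℝ) ^ (1 - η) := Nat.floor_le hpos
  calc ((I.filter fun r => ¬ second_sum_Far η q r ∧ ¬ second_sum_Far η r q).card : ℝ)
      ≤ ((2 * K + 1 : ℕ) : ℝ) := by exact_mod_cast hc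
    _ = 2 * K + 1 := by push_cast; ring
    _ ≤ 3 * (R : ℝ) ^ (1 - η) := by linarith

theorem second_sum_log (η : ℝ) (hη : 0 < η) (A : ℕ) : ∃ C : ℝ, 0 ≤ C ∧ ∀ R : ℕ, 2 ≤ R →
    (Real.log R) ^ (A + 2) ≤ C * (R : ℝ) ^ η := by
  have he : 0 < η / (A + 2 : ℕ) := by positivity
  refine ⟨(1 / (η / (A + 2 : ℕ))) ^ (A + 2), by positivity, fun R hR => ?_⟩
  have h1 : Real.log R ≤ (R : ℝ) ^ (η / (A + 2 : ℕ)) / (η / (A + 2 : ℕ)) :=
    Real.log_le_rpow_div (Nat.cast_nonneg _) he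
  have h0 : 0 ≤ Real.log R := Real.log_natCast_nonneg R
  calc (Real.log R) ^ (A + 2) ≤ ((R : ℝ) ^ (η / (A + 2 : ℕ)) / (η / (A + 2 : ℕ))) ^ (A + 2) :=
        pow_le_pow_left₀ h0 h1 _
    _ = (1 / (η / (A + 2 : ℕ))) ^ (A + 2) * (R : ℝ) ^ η := by
      rw [div_eq_mul_one_div, mul_pow, ← Real.rpow_natCast ((R : ℝ) ^ (η / (A + 2 : ℕ))),
        ← Real.rpow_mul (Nat.cast_nonneg _), div_mul_cancel₀ _ (by positivity)]
      ring

theorem second_sum_abs (E1 : ℕ → ℝ) (E2 : ℕ → ℕ → ℝ) (η : ℝ) (hη : 0 < η) (hη1 : η ≤ 1)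
    (hsym : ∀ q r, E2 q r = E2 r q) (C0 : ℝ) (hC0 : 0 ≤ C0)
    (hb : ∀ q r, |E2 q r| ≤ (C0 * Real.log (q + 2)) * (C0 * Real.log (r + 2)))
    (h1 : ∀ A : ℕ, ∃ C : ℝ, ∀ R : ℕ, 2 ≤ R → ∑ r ∈ Ico (Nat.sqrt R) R, |E1 r - 1| ≤
      C * R / (Real.log R) ^ A)
    (h2 : ∀ D A : ℕ, ∃ C : ℝ, ∃ n₀ : ℕ, ∀ n M : ℕ, n₀ ≤ n → n ≤ 2 * M → M ≤ n ^ D → ∀ S : Finset ℕ,
      (∀ m ∈ S, M ≤ m ∧ m < 2 * M ∧ n < m ∧ (m : ℝ) ^ (1 - η) ≤ (m : ℝ) - n) →
      ∑ m ∈ S, |E2 n m - E1 n| ≤ C * M / (Real.log M) ^ A) (A : ℕ) :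
    ∃ C : ℝ, ∀ R : ℕ, 2 ≤ R → ∑ q ∈ Ico (Nat.sqrt R) R, ∑ r ∈ Ico (Nat.sqrt R) R,
      |E2 q r - 1| ≤ C * ((R : ℝ) ^ 2 / (Real.log R) ^ A) := by
  classical
  obtain ⟨C1, hC1⟩ := h1 A
  obtain ⟨C2, n₀, hC2⟩ := h2 3 A
  obtain ⟨C3, hC3, hlog⟩ := second_sum_log η hη A
  refine second_sum_small _ (fun R : ℕ => (R : ℝ) ^ 2 / (Real.log R) ^ A) ?_
    (3 * (4 * C0 ^ 2 + 4) * C3 + 2 * (2 * (|C2| * 4 ^ A) + |C1|)) ((n₀ + 3) ^ 2) ?_
  · intro R hR
    have : 0 < Real.log R := Real.log_pos (by exact_mod_cast hR)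
    positivity
  intro R hR hR0
  set I := Ico (Nat.sqrt R) R with hI
  have hRpos : (0 : ℝ) < R := by exact_mod_cast (by omega : 0 < R)
  have hL : 0 < Real.log R := Real.log_pos (by exact_mod_cast hR)
  have hs : n₀ + 3 ≤ Nat.sqrt R := Nat.le_sqrt'.2 hR0
  set T : ℕ → ℕ → ℝ := fun q r => |E2 q r - 1| with hT
  have hTn : ∀ q r, 0 ≤ T q r := fun q r => abs_nonneg _
  have hTs : ∀ q r, T q r = T r q := fun q r => by simp only [hT, hsym q r]
  have hIlt : ∀ r ∈ I, r < R := fun r hr => (Finset.mem_Ico.1 hr).2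
  have hIge : ∀ r ∈ I, Nat.sqrt R ≤ r := fun r hr => (Finset.mem_Ico.1 hr).1
  have hcard : (I.card : ℝ) ≤ R := by
    rw [hI, Nat.card_Ico]
    exact_mod_cast Nat.sub_le _ _
  -- bound of the terms
  have hlogR : ∀ q, q < R → Real.log (q + 2) ≤ 2 * Real.log R := by
    intro q hq
    have e : 2 * Real.log R = Real.log ((R : ℝ) ^ 2) := by rw [Real.log_pow]; norm_num
    rw [e]
    refine Real.log_le_log (by positivity) ?_
    have h3 : q + 2 ≤ R ^ 2 := by nlinarith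
    exact_mod_cast h3
  have hT1 : ∀ q ∈ I, ∀ r ∈ I, T q r ≤ (4 * C0 ^ 2 + 4) * (Real.log R) ^ 2 := by
    intro q hq r hr
    have a1 := hlogR q (hIlt q hq)
    have a2 := hlogR r (hIlt r hr)
    have b1 : 0 ≤ Real.log ((q : ℝ) + 2) := Real.log_nonneg (by linarith [Nat.cast_nonneg (α := ℝ) q])
    have b2 : 0 ≤ Real.log ((r : ℝ) + 2) := Real.log_nonneg (by linarith [Nat.cast_nonneg (α := ℝ) r])
    have a3 : (C0 * Real.log (q + 2)) * (C0 * Real.log (r + 2)) ≤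
        (C0 * (2 * Real.log R)) * (C0 * (2 * Real.log R)) :=
      mul_le_mul (mul_le_mul_of_nonneg_left a1 hC0) (mul_le_mul_of_nonneg_left a2 hC0)
        (mul_nonneg hC0 b2) (by positivity)
    have a4 : (1 : ℝ) ≤ 4 * (Real.log R) ^ 2 := by
      have h5 : Real.log 2 ≤ Real.log R := Real.log_le_log (by norm_num) (by exact_mod_cast hR)
      have h6 := Real.log_two_gt_d9
      nlinarith
    calc T q r ≤ |E2 q r| + |(1 : ℝ)| := abs_sub _ _
      _ ≤ (C0 * (2 * Real.log R)) * (C0 * (2 * Real.log R)) + 4 * (Real.log R) ^ 2 := by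
        rw [abs_one]
        exact add_le_add ((hb q r).trans a3) a4
      _ = (4 * C0 ^ 2 + 4) * (Real.log R) ^ 2 := by ring
  -- decomposition
  have hdec : ∑ q ∈ I, ∑ r ∈ I, T q r ≤
      ∑ q ∈ I, ∑ r ∈ I.filter (fun r => ¬ second_sum_Far η q r ∧ ¬ second_sum_Far η r q), T q r +
      2 * ∑ q ∈ I, ∑ r ∈ I.filter (fun r => second_sum_Far η q r), T q r := by
    have e1 : ∑ q ∈ I, ∑ r ∈ I.filter (fun r => second_sum_Far η q r), T q r =
        ∑ q ∈ I, ∑ r ∈ I.filter (fun r => second_sum_Far η r q), T q r := by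
      simp only [Finset.sum_filter]
      rw [Finset.sum_comm]
      refine Finset.sum_congr rfl fun q _ => Finset.sum_congr rfl fun r _ => ?_
      rw [hTs]
    rw [two_mul]
    nth_rewrite 2 [e1]
    rw [← add_assoc, ← Finset.sum_add_distrib, ← Finset.sum_add_distrib]
    refine Finset.sum_le_sum fun q _ => ?_
    simp only [Finset.sum_filter]
    rw [← Finset.sum_add_distrib, ← Finset.sum_add_distrib]
    refine Finset.sum_le_sum fun r _ => ?_
    have hn := hTn q r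
    by_cases c1 : second_sum_Far η q r <;> by_cases c2 : second_sum_Far η r q <;>
      simp [c1, c2, hn]
  -- near pairs
  have hnear : ∑ q ∈ I, ∑ r ∈ I.filter (fun r => ¬ second_sum_Far η q r ∧ ¬ second_sum_Far η r q),
      T q r ≤ 3 * (4 * C0 ^ 2 + 4) * C3 * ((R : ℝ) ^ 2 / (Real.log R) ^ A) := by
    have e1 : ∀ q ∈ I, ∑ r ∈ I.filter (fun r => ¬ second_sum_Far η q r ∧ ¬ second_sum_Far η r q),
        T q r ≤ (3 * (R : ℝ) ^ (1 - η)) * ((4 * C0 ^ 2 + 4) * (Real.log R) ^ 2) := by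
      intro q hq
      have h3 := Finset.sum_le_card_nsmul
        (I.filter (fun r => ¬ second_sum_Far η q r ∧ ¬ second_sum_Far η r q)) (T q)
        ((4 * C0 ^ 2 + 4) * (Real.log R) ^ 2) (fun r hr => hT1 q hq r (Finset.mem_filter.1 hr).1)
      rw [nsmul_eq_mul] at h3
      refine h3.trans (mul_le_mul_of_nonneg_right ?_ (by positivity))
      exact second_sum_near_card hη hη1 (by omega) I hIlt (hIlt q hq)
    refine (Finset.sum_le_sum e1).trans ?_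
    rw [Finset.sum_const, nsmul_eq_mul]
    have h5 : (R : ℝ) ^ (1 - η) * (R : ℝ) ^ η = R := by
      rw [← Real.rpow_add hRpos]
      simp
    have h6 := hlog R hR
    calc (I.card : ℝ) * (3 * (R : ℝ) ^ (1 - η) * ((4 * C0 ^ 2 + 4) * Real.log R ^ 2))
        ≤ (R : ℝ) * (3 * (R : ℝ) ^ (1 - η) * ((4 * C0 ^ 2 + 4) * Real.log R ^ 2)) :=
          mul_le_mul_of_nonneg_right hcard (by positivity)
      _ = (3 * (4 * C0 ^ 2 + 4) * R * (R : ℝ) ^ (1 - η)) * (Real.log R ^ (A + 2)) /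
          (Real.log R) ^ A := by
        rw [eq_div_iff (by positivity)]
        ring
      _ ≤ (3 * (4 * C0 ^ 2 + 4) * R * (R : ℝ) ^ (1 - η)) * (C3 * (R : ℝ) ^ η) /
          (Real.log R) ^ A := by
        refine div_le_div_of_nonneg_right ?_ (by positivity)
        exact mul_le_mul_of_nonneg_left h6 (by positivity)
      _ = (3 * (4 * C0 ^ 2 + 4) * C3 * R) * ((R : ℝ) ^ (1 - η) * (R : ℝ) ^ η) /
          (Real.log R) ^ A := by ring
      _ = 3 * (4 * C0 ^ 2 + 4) * C3 * ((R : ℝ) ^ 2 / (Real.log R) ^ A) := by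
        rw [h5]; ring
  -- far pairs
  have hblock : ∀ q ∈ I, ∀ j ∈ range (Nat.log 2 R + 1),
      ∑ r ∈ (I.filter (fun r => second_sum_Far η q r)).filter (fun r => Nat.log 2 r = j),
        |E2 q r - E1 q| ≤ (|C2| * 4 ^ A / (Real.log R) ^ A) * 2 ^ j := by
    intro q hq j hj
    set S := (I.filter (fun r => second_sum_Far η q r)).filter (fun r => Nat.log 2 r = j) with hS
    rcases S.eq_empty_or_nonempty with h0 | ⟨r, hr⟩
    · rw [h0, Finset.sum_empty]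
      positivity
    have hmem : ∀ m ∈ S, 2 ^ j ≤ m ∧ m < 2 * 2 ^ j ∧ q < m ∧ (m : ℝ) ^ (1 - η) ≤ (m : ℝ) - q := by
      intro m hm
      rw [hS, Finset.mem_filter, Finset.mem_filter] at hm
      obtain ⟨⟨hmI, hm1, hm2⟩, hm3⟩ := hm
      have hm0 : m ≠ 0 := by omega
      refine ⟨?_, ?_, hm1, hm2⟩
      · rw [← hm3]
        exact Nat.pow_log_le_self 2 hm0
      · have := Nat.lt_pow_succ_log_self (b := 2) (by norm_num) m
        rw [hm3, pow_succ] at this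
        omega
    obtain ⟨r1, r2, r3, -⟩ := hmem r hr
    have hrI : r < R := by
      rw [hS, Finset.mem_filter, Finset.mem_filter] at hr
      exact hIlt r hr.1.1
    have hq1 := hIge q hq
    have hlt := Nat.lt_succ_sqrt' R
    have hM3 : 2 ^ j ≤ q ^ 3 := by
      have e1 : R < (q + 1) ^ 2 := lt_of_lt_of_le hlt (Nat.pow_le_pow_left (by simp only [Nat.succ_eq_add_one]; omega) 2)
      have e2 : 3 ≤ q := by omega
      have e3 : (q + 1) ^ 2 ≤ q ^ 3 := by nlinarith [mul_le_mul e2 e2 (by norm_num) (by omega), pow_pos (by omega : 0 < q) 2]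
      omega
    have h3 := hC2 q (2 ^ j) (by omega) (by omega) hM3 S hmem
    refine h3.trans ?_
    have hM2 : 2 ≤ 2 ^ j := by omega
    have hR4 : R ≤ (2 ^ j) ^ 4 := by
      have e1 : R < (2 * 2 ^ j) ^ 2 := lt_of_lt_of_le hlt (Nat.pow_le_pow_left (by simp only [Nat.succ_eq_add_one]; omega) 2)
      have e2 : (2 * 2 ^ j) ^ 2 ≤ (2 ^ j) ^ 4 := by
        have : (2 * 2 ^ j) ^ 2 = 2 ^ 2 * (2 ^ j) ^ 2 := by ring
        rw [this]
        calc 2 ^ 2 * (2 ^ j) ^ 2 ≤ (2 ^ j) ^ 2 * (2 ^ j) ^ 2 :=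
              Nat.mul_le_mul_right _ (Nat.pow_le_pow_left hM2 2)
          _ = (2 ^ j) ^ 4 := by ring
      omega
    have hlogM : Real.log R / 4 ≤ Real.log ((2 ^ j : ℕ) : ℝ) := by
      have e1 : Real.log R ≤ Real.log (((2 ^ j : ℕ) : ℝ) ^ 4) :=
        Real.log_le_log hRpos (by exact_mod_cast hR4)
      rw [Real.log_pow] at e1
      push_cast at e1 ⊢
      linarith
    have hlogM0 : 0 < Real.log ((2 ^ j : ℕ) : ℝ) := by linarith
    have h4 : (Real.log R / 4) ^ A ≤ (Real.log ((2 ^ j : ℕ) : ℝ)) ^ A :=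
      pow_le_pow_left₀ (by positivity) hlogM A
    calc C2 * ((2 ^ j : ℕ) : ℝ) / (Real.log ((2 ^ j : ℕ) : ℝ)) ^ A
        ≤ |C2| * ((2 ^ j : ℕ) : ℝ) / (Real.log ((2 ^ j : ℕ) : ℝ)) ^ A := by
          refine div_le_div_of_nonneg_right ?_ (by positivity)
          exact mul_le_mul_of_nonneg_right (le_abs_self _) (Nat.cast_nonneg _)
      _ ≤ |C2| * ((2 ^ j : ℕ) : ℝ) / (Real.log R / 4) ^ A :=
          div_le_div_of_nonneg_left (by positivity) (by positivity) h4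
      _ = (|C2| * 4 ^ A / (Real.log R) ^ A) * 2 ^ j := by
          rw [div_pow]
          push_cast
          field_simp
  have hfarq : ∀ q ∈ I, ∑ r ∈ I.filter (fun r => second_sum_Far η q r), T q r ≤
      2 * (|C2| * 4 ^ A) * (R / (Real.log R) ^ A) + R * |E1 q - 1| := by
    intro q hq
    have e1 : ∑ r ∈ I.filter (fun r => second_sum_Far η q r), T q r ≤
        ∑ r ∈ I.filter (fun r => second_sum_Far η q r), |E2 q r - E1 q| +
        ∑ r ∈ I.filter (fun r => second_sum_Far η q r), |E1 q - 1| := by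
      rw [← Finset.sum_add_distrib]
      refine Finset.sum_le_sum fun r _ => ?_
      exact abs_sub_le _ _ _
    have e2 : ∑ r ∈ I.filter (fun r => second_sum_Far η q r), |E1 q - 1| ≤ R * |E1 q - 1| := by
      rw [Finset.sum_const, nsmul_eq_mul]
      refine mul_le_mul_of_nonneg_right ?_ (abs_nonneg _)
      refine le_trans ?_ hcard
      exact_mod_cast Finset.card_filter_le _ _
    have e3 : ∑ r ∈ I.filter (fun r => second_sum_Far η q r), |E2 q r - E1 q| ≤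
        2 * (|C2| * 4 ^ A) * (R / (Real.log R) ^ A) := by
      have hmap : ∀ r ∈ I.filter (fun r => second_sum_Far η q r), Nat.log 2 r ∈ range (Nat.log 2 R + 1) := by
        intro r hr
        rw [Finset.mem_range]
        have := hIlt r (Finset.mem_filter.1 hr).1
        exact Nat.lt_succ_of_le (Nat.log_mono_right this.le)
      rw [← Finset.sum_fiberwise_of_maps_to hmap]
      refine (Finset.sum_le_sum (hblock q hq)).trans ?_
      rw [← Finset.mul_sum]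
      have e4 : ∑ j ∈ range (Nat.log 2 R + 1), (2 : ℝ) ^ j ≤ 2 * R := by
        rw [geom_sum_eq (by norm_num)]
        have e5 : (2 : ℝ) ^ (Nat.log 2 R) ≤ R := by
          exact_mod_cast Nat.pow_log_le_self 2 (by omega)
        rw [pow_succ]
        norm_num
        linarith
      calc |C2| * 4 ^ A / Real.log R ^ A * ∑ j ∈ range (Nat.log 2 R + 1), (2 : ℝ) ^ j
          ≤ |C2| * 4 ^ A / Real.log R ^ A * (2 * R) :=
            mul_le_mul_of_nonneg_left e4 (by positivity)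
        _ = 2 * (|C2| * 4 ^ A) * (R / (Real.log R) ^ A) := by ring
    linarith
  have hfar : ∑ q ∈ I, ∑ r ∈ I.filter (fun r => second_sum_Far η q r), T q r ≤
      (2 * (|C2| * 4 ^ A) + |C1|) * ((R : ℝ) ^ 2 / (Real.log R) ^ A) := by
    refine (Finset.sum_le_sum hfarq).trans ?_
    rw [Finset.sum_add_distrib, Finset.sum_const, nsmul_eq_mul, ← Finset.mul_sum]
    have e1 := hC1 R hR
    have e2 : C1 * R / (Real.log R) ^ A ≤ |C1| * R / (Real.log R) ^ A := by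
      refine div_le_div_of_nonneg_right ?_ (by positivity)
      exact mul_le_mul_of_nonneg_right (le_abs_self _) hRpos.le
    calc (I.card : ℝ) * (2 * (|C2| * 4 ^ A) * (R / (Real.log R) ^ A)) + R * ∑ i ∈ I, |E1 i - 1|
        ≤ (R : ℝ) * (2 * (|C2| * 4 ^ A) * (R / (Real.log R) ^ A)) +
          R * (|C1| * R / (Real.log R) ^ A) := by
          refine add_le_add (mul_le_mul_of_nonneg_right hcard (by positivity)) ?_
          exact mul_le_mul_of_nonneg_left (e1.trans e2) hRpos.le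
      _ = (2 * (|C2| * 4 ^ A) + |C1|) * ((R : ℝ) ^ 2 / (Real.log R) ^ A) := by ring
  calc ∑ q ∈ I, ∑ r ∈ I, |E2 q r - 1| ≤ _ := hdec
    _ ≤ 3 * (4 * C0 ^ 2 + 4) * C3 * ((R : ℝ) ^ 2 / (Real.log R) ^ A) +
        2 * ((2 * (|C2| * 4 ^ A) + |C1|) * ((R : ℝ) ^ 2 / (Real.log R) ^ A)) :=
      add_le_add hnear (mul_le_mul_of_nonneg_left hfar (by norm_num))
    _ = _ := by ring

theorem second_sum_vol (a b : ℝ) : volume (B a b) = 1 := by
  unfold B
  rw [Measure.volume_eq_prod, Measure.prod_prod, Real.volume_Icc, Real.volume_Icc]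
  simp

theorem second_sum_th_nonneg (n : ℕ) : 0 ≤ th n := by
  unfold th
  split_ifs
  · exact Real.log_natCast_nonneg n
  · exact le_rfl

theorem second_sum (c c' : ℝ) (g : ℕ → ℝ) (a b : ℝ) (η : ℝ) (hη : 0 < η) (hη1 : η ≤ 1)
    (hb : ∃ C : ℝ, ∀ n : ℕ, ∀ ω ∈ B a b, th ⌊xx c c' g n ω⌋₊ ≤ C * Real.log (n + 2))
    (h1 : ∀ A : ℕ, ∃ C : ℝ, ∀ R : ℕ, 2 ≤ R → ∑ r ∈ Ico (Nat.sqrt R) R, |(∫ ω in B a b, th ⌊xx c c' g r ω⌋₊) - 1| ≤
      C * R / (Real.log R) ^ A)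
    (h2 : ∀ D A : ℕ, ∃ C : ℝ, ∃ n₀ : ℕ, ∀ n M : ℕ, n₀ ≤ n → n ≤ 2 * M → M ≤ n ^ D → ∀ S : Finset ℕ,
      (∀ m ∈ S, M ≤ m ∧ m < 2 * M ∧ n < m ∧ (m : ℝ) ^ (1 - η) ≤ (m : ℝ) - n) →
      ∑ m ∈ S, |(∫ ω in B a b, th ⌊xx c c' g n ω⌋₊ * th ⌊xx c c' g m ω⌋₊) - ∫ ω in B a b, th ⌊xx c c' g n ω⌋₊| ≤
        C * M / (Real.log M) ^ A) (A : ℕ) :
    ∃ C : ℝ, ∀ R : ℕ, 2 ≤ R → ∑ q ∈ Ico (Nat.sqrt R) R, ∑ r ∈ Ico (Nat.sqrt R) R,
      |(∫ ω in B a b, th ⌊xx c c' g q ω⌋₊ * th ⌊xx c c' g r ω⌋₊) - 1| ≤ C * (R : ℝ) ^ 2 / (Real.log R) ^ A := by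
  obtain ⟨C, hC⟩ := hb
  have hbound : ∀ q r : ℕ, |∫ ω in B a b, th ⌊xx c c' g q ω⌋₊ * th ⌊xx c c' g r ω⌋₊| ≤
      (|C| * Real.log (q + 2)) * (|C| * Real.log (r + 2)) := by
    intro q r
    have hl : ∀ n : ℕ, 0 ≤ Real.log ((n : ℝ) + 2) := fun n =>
      Real.log_nonneg (by linarith [Nat.cast_nonneg (α := ℝ) n])
    have h3 : ∀ ω ∈ B a b, ‖th ⌊xx c c' g q ω⌋₊ * th ⌊xx c c' g r ω⌋₊‖ ≤
        (|C| * Real.log (q + 2)) * (|C| * Real.log (r + 2)) := by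
      intro ω hω
      rw [norm_mul, Real.norm_of_nonneg (second_sum_th_nonneg _),
        Real.norm_of_nonneg (second_sum_th_nonneg _)]
      refine mul_le_mul ?_ ?_ (second_sum_th_nonneg _) (mul_nonneg (abs_nonneg _) (hl q))
      · exact (hC q ω hω).trans (mul_le_mul_of_nonneg_right (le_abs_self _) (hl q))
      · exact (hC r ω hω).trans (mul_le_mul_of_nonneg_right (le_abs_self _) (hl r))
    have h4 := norm_setIntegral_le_of_norm_le_const (μ := (volume : Measure (ℝ × ℝ)))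
      (by rw [second_sum_vol]; exact ENNReal.one_lt_top) h3
    rw [Measure.real, second_sum_vol, ENNReal.toReal_one, mul_one] at h4
    exact h4
  obtain ⟨C', hC'⟩ := second_sum_abs (fun q => ∫ ω in B a b, th ⌊xx c c' g q ω⌋₊)
    (fun q r => ∫ ω in B a b, th ⌊xx c c' g q ω⌋₊ * th ⌊xx c c' g r ω⌋₊) η hη hη1
    (fun q r => by simp only [mul_comm]) |C| (abs_nonneg _) hbound h1 h2 A
  refine ⟨C', fun R hR => (hC' R hR).trans_eq ?_⟩
  rw [mul_div_assoc]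

end V9

end Pool.Agent.helper616_RP
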