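import Pool.Agent.helper616_RP.Main
import Pool.Agent.helper616_RP.V5
import Pool.Agent.helper616_RP.V6
import Pool.Agent.helper616_RP.V7
import Pool.Agent.helper616_RP.V8
import Pool.Agent.helper616_RP.V9
import Pool.Agent.helper616_RP.V10
import Pool.Agent.helper616_RP.V11

/-!
# Project RP (helper616), part V: the main theorem with a given main term, from `S_VAR`
-/

set_option autoImplicit false

open Finset MeasureTheory Filter Topology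

namespace Pool.Agent.helper616_RP

/-- the sums, on a product of squares -/
theorem sum_ae_box {k : ℕ} (hVAR : S_VAR) (c c' e : Fin k → ℝ) (g : Fin k → ℕ → ℝ) (hc' : ∀ i, 0 < c' i)
    (hcc : ∀ i, c' i < c i) (hce : ∀ i, c i < e i) (hec : ∀ i, e i ≤ c i + 1) (he : ∀ i, e i / 3 < c' i)
    (hg : ∀ i, Spread (e i) (g i)) (a b : Fin k → ℝ) :
    ∀ᵐ ω ∂(mu a b), ∀ A : ℕ, ∃ C : ℝ, ∀ R : ℕ, 2 ≤ R →
      |(∑ r ∈ range R, arr c c' g id r ω) - R| ≤ C * R / (Real.log R) ^ A := by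
  have := J13.prob_mu a b
  have hb : ∀ i, ∃ C : ℝ, ∀ n : ℕ, ∀ ω ∈ B (a i) (b i), th ⌊xx (c i) (c' i) (g i) n ω⌋₊ ≤ C * Real.log (n + 2) := by
    intro i
    obtain ⟨δ, K, _, h⟩ := hg i
    exact V7.bound1e (c i) (c' i) (e i) (hc' i) (hcc i) (hce i) (g i) ⟨K, h.mono fun n hn => hn.1⟩ (a i) (b i)
  have hs1 : ∀ i, ∀ A : ℕ, ∃ C : ℝ, ∀ R : ℕ, 2 ≤ R →
      ∑ r ∈ Ico (Nat.sqrt R) R, |(∫ ω in B (a i) (b i), th ⌊xx (c i) (c' i) (g i) r ω⌋₊) - 1| ≤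
        C * R / (Real.log R) ^ A := fun i A =>
    V8.first_sum (c i) (c' i) (g i) (a i) (b i) (fun A =>
      V5.single_avg hVAR (c i) (c' i) (e i) (hc' i) (hcc i) (hce i) (hec i) (he i) (g i) (hg i) (a i) (b i) A) A
  have hs2 : ∀ i, ∀ A : ℕ, ∃ C : ℝ, ∀ R : ℕ, 2 ≤ R →
      ∑ q ∈ Ico (Nat.sqrt R) R, ∑ r ∈ Ico (Nat.sqrt R) R,
        |(∫ ω in B (a i) (b i), th ⌊xx (c i) (c' i) (g i) q ω⌋₊ * th ⌊xx (c i) (c' i) (g i) r ω⌋₊) - 1| ≤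
          C * (R : ℝ) ^ 2 / (Real.log R) ^ A := by
    intro i A
    have hη : 0 < min ((c' i - e i / 3) / 2) 1 := lt_min (by linarith [he i]) one_pos
    refine V9.second_sum (c i) (c' i) (g i) (a i) (b i) (min ((c' i - e i / 3) / 2) 1) hη (min_le_right _ _) (hb i)
      (hs1 i) (fun D A => ?_) A
    refine V6.pair_avg hVAR (c i) (c' i) (e i) (hc' i) (hcc i) (hce i) (hec i) (he i) (g i) (hg i) (a i) (b i)
      (min ((c' i - e i / 3) / 2) 1) hη.le ?_ D A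
    refine (min_le_left _ _).trans_lt ?_
    linarith [he i]
  have hD : ∀ᶠ r : ℕ in atTop, ((id r : ℕ) : ℝ) ≤ (r : ℝ) ^ (1 : ℝ) :=
    Eventually.of_forall fun r => by simp
  obtain ⟨C, hC⟩ := J14.arrBound c c' g id a b 1 hD hb
  exact J9.secondMoment (mu a b) (fun r => arr c c' g id r) (fun r => J13.measurable_arr c c' g id r) C k hC
    (V10.firstMomentsAvg c c' g a b hb hs1) (V11.secondMomentsAvg c c' g a b hb hs2)

/-- the sums, for almost all parameters -/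
theorem sum_ae_e {k : ℕ} (hVAR : S_VAR) (c c' e : Fin k → ℝ) (g : Fin k → ℕ → ℝ) (hc' : ∀ i, 0 < c' i)
    (hcc : ∀ i, c' i < c i) (hce : ∀ i, c i < e i) (hec : ∀ i, e i ≤ c i + 1) (he : ∀ i, e i / 3 < c' i)
    (hg : ∀ i, Spread (e i) (g i)) :
    ∀ᵐ ω : Fin k → ℝ × ℝ, ∀ A : ℕ, ∃ C : ℝ, ∀ R : ℕ, 2 ≤ R →
      |(∑ r ∈ range R, arr c c' g id r ω) - R| ≤ C * R / (Real.log R) ^ A := by
  have h : ∀ j : ℕ, ∀ᵐ ω : Fin k → ℝ × ℝ, (∀ i, (fun _ => -(j : ℝ)) i < (ω i).1) → ∀ A : ℕ, ∃ C : ℝ, ∀ R : ℕ, 2 ≤ R →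
      |(∑ r ∈ range R, arr c c' g id r ω) - R| ≤ C * R / (Real.log R) ^ A := fun j =>
    J17.ae_of_boxes _ _ fun a b _ => sum_ae_box hVAR c c' e g hc' hcc hce hec he hg a b
  filter_upwards [ae_all_iff.2 h] with ω hω
  obtain ⟨j, hj⟩ := exists_nat_gt (∑ i, |(ω i).1|)
  refine hω j fun i => ?_
  have h1 : |(ω i).1| ≤ ∑ i, |(ω i).1| := Finset.single_le_sum (f := fun i => |(ω i).1|) (fun _ _ => abs_nonneg _) (mem_univ i)
  have h2 := neg_abs_le (ω i).1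
  show -(j : ℝ) < (ω i).1
  linarith

theorem main_e {k : ℕ} (hVAR : S_VAR) (c c' e : Fin k → ℝ) (g : Fin k → ℕ → ℝ) (hc' : ∀ i, 0 < c' i)
    (hcc : ∀ i, c' i < c i) (hce : ∀ i, c i < e i) (hec : ∀ i, e i ≤ c i + 1) (he : ∀ i, e i / 3 < c' i)
    (hg : ∀ i, Spread (e i) (g i)) :
    ∀ᵐ ω : Fin k → ℝ × ℝ,
      (∀ A : ℕ, ∃ C : ℝ, ∀ R : ℕ, 2 ≤ R →
        |(∑ r ∈ range R, arr c c' g id r ω) - R| ≤ C * R / (Real.log R) ^ A) ∧
      Tendsto (fun R : ℕ => (((range R).filter (fun r => ∀ i, (⌊xx (c i) (c' i) (g i) r (ω i)⌋₊).Prime)).card : ℝ) /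
        ∑ r ∈ (range R).filter (fun r => 2 ≤ r), ∏ i, 1 / (e i * Real.log r)) atTop (𝓝 1) := by
  filter_upwards [sum_ae_e hVAR c c' e g hc' hcc hce hec he hg] with ω hω
  refine ⟨hω, ?_⟩
  obtain ⟨C, hC⟩ := hω 1
  have hlim := lim_of_bound (fun R => ∑ r ∈ range R, arr c c' g id r ω) C hC
  have hsz : ∀ i, ∃ δ M : ℝ, 0 < δ ∧ 0 < M ∧ ∀ᶠ r : ℕ in atTop,
      δ * (r : ℝ) ^ (e i) ≤ xx (c i) (c' i) (g i) r (ω i) ∧ xx (c i) (c' i) (g i) r (ω i) ≤ M * (r : ℝ) ^ (e i) := by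
    intro i
    obtain ⟨δ, M, hδ, hM, h⟩ := V3.size_e (c i) (c' i) (e i) (hc' i) (hcc i) (hce i) (g i) (hg i)
      (|(ω i).1| + |(ω i).2|)
    refine ⟨δ, M, hδ, hM, ?_⟩
    filter_upwards [h] with r hr
    exact hr.2 (ω i) (by linarith [abs_nonneg (ω i).2]) (by linarith [abs_nonneg (ω i).1])
  choose δ M hδ hM hsz using hsz
  obtain ⟨δ₀, hδ₀, hδ₀'⟩ : ∃ δ₀ : ℝ, 0 < δ₀ ∧ ∀ i, δ₀ ≤ δ i := by
    rcases Nat.eq_zero_or_pos k with hk | hk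
    · subst hk
      exact ⟨1, one_pos, fun i => i.elim0⟩
    · have : Nonempty (Fin k) := ⟨⟨0, hk⟩⟩
      exact ⟨univ.inf' univ_nonempty δ, by rw [Finset.lt_inf'_iff]; exact fun i _ => hδ i,
        fun i => Finset.inf'_le _ (mem_univ i)⟩
  have hM₀ : ∀ i, M i ≤ ∑ j, M j := fun i => Finset.single_le_sum (fun j _ => (hM j).le) (mem_univ i)
  refine J11.count k e (fun i => ((hc' i).trans (hcc i)).trans (hce i)) id strictMono_id 1 ?_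
    (fun i r => xx (c i) (c' i) (g i) r (ω i)) δ₀ (∑ j, M j) hδ₀ ?_ hlim
  · exact Eventually.of_forall fun r => by simp
  · intro i
    filter_upwards [hsz i] with r hr
    have h0 : (0 : ℝ) ≤ (r : ℝ) ^ (e i) := by positivity
    exact ⟨(mul_le_mul_of_nonneg_right (hδ₀' i) h0).trans hr.1,
      hr.2.trans (mul_le_mul_of_nonneg_right (hM₀ i) h0)⟩

end Pool.Agent.helper616_RP
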